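import Pool.Agent.H63.MA.RayC
import Pool.Agent.H63.MA.AFin
import Pool.Agent.H57.LI.Defs

/-!
# H51/MM: frames (abstract fibres) for theorem (M_c) (MP_b39724_nt): definitions

* `CD`: combinatorial data: `p`, the number `N` of classes, `Z = (ZMod p)^w`; `van i j θ`: the functional `θ` on `Z` vanishes on all
  `ω(y_i, q y_j)`; `Th i`: a subspace of functionals representing the dual of `Z_i = ω(y_i, V)`.
* `Fr0 X K`: data of a frame: fields `L i` over `K`, labels `(i, w)`, `w` a place of `L i`, `un` the place of `K` below, `bad` the finite set of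
  bad places of `K`, `C` the finite index set (homomorphisms unramified outside the bad places), `qv a` the class of a label (one vector
  for all classes of labels together), `e c a` the value at the label `a` of the homomorphism `c` twisted by `a` alone, `s a b` the
  contribution of `b` at `a`, `Sp c J` the surjectivity condition. Sizes: `d` (degrees), `D` (discriminants, conductors), `qq` (numbers of
  `c` and of classes).
* `Ok g`: a family: good labels (prime norm, not over `bad`) over different places of `K`. `E c g a` the value at `a` of the twist by `g`.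
* `Fr X K`: the axioms.
* `wt`, `FS`: the weighted sum over all families with norm at most `Y` and classes in `J`.
-/

set_option autoImplicit false

open scoped NumberField
open IsDedekindDomain NumberField H63.MA H36.QA
open scoped Classical

noncomputable section

namespace H51.MM

/-- combinatorial data -/
structure CD where
  p : ℕ
  hp : p.Prime
  N : ℕ
  w : ℕ
  van : Fin N → Fin N → (Fin w → ZMod p) → Prop
  van_symm : ∀ i j θ, van i j θ → van j i θ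
  van_zero : ∀ i j, van i j 0
  van_sub : ∀ i j θ θ', van i j θ → van i j θ' → van i j (θ - θ')
  Th : Fin N → Finset (Fin w → ZMod p)
  Th_zero : ∀ i, 0 ∈ Th i
  Th_sub : ∀ i, ∀ θ ∈ Th i, ∀ θ' ∈ Th i, θ - θ' ∈ Th i

/-- a set of classes which separates its functionals -/
def CD.Cl (X : CD) (J : Finset (Fin X.N)) : Prop :=
  ∀ i ∈ J, ∀ θ ∈ X.Th i, (∀ j ∈ J, X.van i j θ) → θ = 0

/-- data of a frame -/
structure Fr0 (X : CD) (K : Type) [Field K] [NumberField K] where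
  L : Fin X.N → Type
  [fL : ∀ i, Field (L i)]
  [nL : ∀ i, NumberField (L i)]
  [aL : ∀ i, Algebra K (L i)]
  bad : Finset (Pl K)
  un : (Σ i, Pl (L i)) → Pl K
  C : Type
  [fC : Fintype C]
  R : Type
  [fR : Fintype R]
  qv : (Σ i, Pl (L i)) → R → ZMod X.p
  e : C → (Σ i, Pl (L i)) → Fin X.w → ZMod X.p
  s : (Σ i, Pl (L i)) → (Σ i, Pl (L i)) → Fin X.w → ZMod X.p
  Sp : C → Finset (Fin X.N) → Prop
  d : ℕ
  D : ℝ
  qq : ℝ

attribute [instance] Fr0.fL Fr0.nL Fr0.aL Fr0.fC Fr0.fR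

namespace Fr0

variable {X : CD} {K : Type} [Field K] [NumberField K] (F : Fr0 X K)

/-- labels -/
abbrev Lb : Type := Σ i : Fin X.N, Pl (F.L i)

/-- good labels -/
def Gd (a : F.Lb) : Prop := F.un a ∉ F.bad ∧ (nm a.2).Prime

/-- families -/
def Ok (g : Finset F.Lb) : Prop :=
  (∀ a ∈ g, F.Gd a) ∧ ∀ a ∈ g, ∀ b ∈ g, a ≠ b → F.un a ≠ F.un b

/-- the total class -/
def tot (g : Finset F.Lb) : F.R → ZMod X.p := ∑ a ∈ g, F.qv a

/-- the local value at `a` -/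
def E (c : F.C) (g : Finset F.Lb) (a : F.Lb) : Fin X.w → ZMod X.p :=
  F.e c a + ∑ b ∈ g.erase a, F.s a b

/-- the classes of a family -/
def cls (g : Finset F.Lb) : Finset (Fin X.N) := g.image Sigma.fst

/-- the norm -/
def nrl (g : Finset F.Lb) : ℝ := ∏ a ∈ g, (nm a.2 : ℝ)

/-- the places of `K` below a set of labels -/
def und (g : Finset F.Lb) : Finset (Pl K) := g.image F.un

/-- the general phase function of a label -/
def ch (κ : F.R → ZMod X.p) (c : F.C) (θ₀ : Fin X.w → ZMod X.p) (σ : Finset F.Lb)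
    (θ : F.Lb → Fin X.w → ZMod X.p) (a : F.Lb) : ZMod X.p :=
  κ ⬝ᵥ F.qv a + θ₀ ⬝ᵥ F.e c a + ∑ b ∈ σ, θ b ⬝ᵥ F.s a b

/-- strongly nontrivial functions on the labels of class `i` -/
def NT (i : Fin X.N) (φ : F.Lb → ZMod X.p) : Prop :=
  ∀ B : Finset (Pl K), ∃ a : Pl (F.L i), F.Gd ⟨i, a⟩ ∧ F.un ⟨i, a⟩ ∉ B ∧ φ ⟨i, a⟩ ≠ 0

end Fr0

/-- frames -/
structure Fr (X : CD) (K : Type) [Field K] [NumberField K] extends Fr0 X K where
  un_over : ∀ a : toFr0.Lb, Over a.2 (un a)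
  Sp_mono : ∀ c J J', J ⊆ J' → Sp c J → Sp c J'
  Sp_univ : ∀ c, Sp c Finset.univ
  rcp : ∀ (c : C) (ψ : Fin X.w → ZMod X.p) (g g' : Finset toFr0.Lb), toFr0.Ok g → toFr0.Ok g' →
    toFr0.tot g = toFr0.tot g' →
    ∑ a ∈ g, ψ ⬝ᵥ toFr0.E c g a = ∑ a ∈ g', ψ ⬝ᵥ toFr0.E c g' a
  van_s : ∀ (a b : toFr0.Lb) (θ : Fin X.w → ZMod X.p), X.van a.1 b.1 θ → θ ⬝ᵥ s a b = 0
  chr : ∀ (i : Fin X.N) (κ : R → ZMod X.p) (c : C) (θ₀ : Fin X.w → ZMod X.p) (σ : Finset toFr0.Lb)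
    (θ : toFr0.Lb → Fin X.w → ZMod X.p), X.van i i θ₀ → (∀ b ∈ σ, toFr0.Gd b) →
    ∃ (𝔣 : Ideal (𝓞 (L i))) (χ : RC (L i) 𝔣), 𝔣 ≠ ⊥ ∧
      (Ideal.absNorm 𝔣 : ℝ) ≤ D * nr (toFr0.und σ) ^ d ∧
      ∀ a : Pl (L i), toFr0.Gd ⟨i, a⟩ → un ⟨i, a⟩ ∉ toFr0.und σ →
        χ.χ a.asIdeal = ep X.p (toFr0.ch κ c θ₀ σ θ ⟨i, a⟩)
  nt1 : ∀ (i : Fin X.N) (κ : R → ZMod X.p) (c : C) (θ₀ : Fin X.w → ZMod X.p) (σ : Finset toFr0.Lb)
    (θ : toFr0.Lb → Fin X.w → ZMod X.p), X.van i i θ₀ → (∀ b ∈ σ, toFr0.Gd b) →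
    (∃ b ∈ σ, (∀ b' ∈ σ, un b' = un b → b' = b) ∧ ¬ X.van i b.1 (θ b)) →
    toFr0.NT i (toFr0.ch κ c θ₀ σ θ)
  nt2 : ∀ (i : Fin X.N) (c : C) (θ₀ : Fin X.w → ZMod X.p) (σ : Finset toFr0.Lb) (J : Finset (Fin X.N)),
    θ₀ ∈ X.Th i → θ₀ ≠ 0 → i ∈ J → (∀ j ∈ J, X.van i j θ₀) → toFr0.Ok σ →
    (∃ j, ¬ X.van i j θ₀) → Sp c (toFr0.cls σ ∪ J) →
    toFr0.NT i (toFr0.ch 0 c θ₀ σ fun _ => θ₀)
  nt3 : ∀ (i : Fin X.N) (κ : R → ZMod X.p),
    (∀ a : Pl (L i), toFr0.Gd ⟨i, a⟩ → κ ⬝ᵥ qv ⟨i, a⟩ = 0) ∨ toFr0.NT i fun a => κ ⬝ᵥ qv a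
  one_le_D : 1 ≤ D
  one_le_qq : 1 ≤ qq
  tc : ∀ i, IsTotallyComplex (L i)
  deg : ∀ i, Module.finrank K (L i) ≤ d
  dis : ∀ i, dd (L i) ≤ D
  card_C : (Fintype.card C : ℝ) ≤ qq
  card_R : (X.p : ℝ) ^ Fintype.card R ≤ qq
  card_bad : (2 : ℝ) ^ bad.card ≤ qq

section fin

variable {X : CD} {K : Type} [Field K] [NumberField K]

theorem plfin (E : Type) [Field E] [NumberField E] (Y : ℝ) : {v : Pl E | (nm v : ℝ) ≤ Y}.Finite := by
  rcases le_or_gt 0 Y with hY | hY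
  · refine Set.Finite.of_injOn (f := fun l : Pl E => l.asIdeal) (t := ↑(IN E Y)) ?_ ?_
      (Finset.finite_toSet _)
    · intro l hl
      have hl' : (nm l : ℝ) ≤ Y := hl
      rw [Finset.mem_coe, mem_IN hY]
      exact ⟨hl', l.ne_bot⟩
    · intro l _ l' _ h
      exact IsDedekindDomain.HeightOneSpectrum.ext h
  · refine Set.Finite.subset Set.finite_empty fun v hv => ?_
    have h1 : (nm v : ℝ) ≤ Y := hv
    have h2 : (0 : ℝ) ≤ (nm v : ℝ) := Nat.cast_nonneg _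
    linarith

namespace Fr0

variable (F : Fr0 X K)

theorem one_lt_lb (a : F.Lb) : (1 : ℝ) < (nm a.2 : ℝ) := by
  exact_mod_cast one_lt_nm a.2

theorem one_le_nrl (g : Finset F.Lb) : 1 ≤ F.nrl g := by
  unfold nrl
  exact Finset.one_le_prod (fun a _ => (F.one_lt_lb a).le)

theorem le_nrl (g : Finset F.Lb) (a : F.Lb) (ha : a ∈ g) : (nm a.2 : ℝ) ≤ F.nrl g := by
  unfold nrl
  rw [← Finset.mul_prod_erase g _ ha]
  have h1 : 1 ≤ ∏ x ∈ g.erase a, (nm x.2 : ℝ) := F.one_le_nrl (g.erase a)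
  have h2 := F.one_lt_lb a
  nlinarith

theorem lbfin (Y : ℝ) : {a : F.Lb | (nm a.2 : ℝ) ≤ Y}.Finite := by
  have h : {a : F.Lb | (nm a.2 : ℝ) ≤ Y} ⊆ ⋃ i : Fin X.N, (fun v : Pl (F.L i) => (⟨i, v⟩ : F.Lb)) ''
      {v : Pl (F.L i) | (nm v : ℝ) ≤ Y} := by
    rintro ⟨i, v⟩ hv
    exact Set.mem_iUnion.2 ⟨i, ⟨v, hv, rfl⟩⟩
  exact (Set.finite_iUnion fun i => (plfin (F.L i) Y).image _).subset h

theorem famfin (J : Finset (Fin X.N)) (Y : ℝ) :
    {g : Finset F.Lb | F.Ok g ∧ F.cls g ⊆ J ∧ F.nrl g ≤ Y}.Finite := by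
  refine ((F.lbfin Y).toFinset.powerset.finite_toSet).subset ?_
  rintro g ⟨-, -, h⟩
  rw [Finset.mem_coe, Finset.mem_powerset]
  intro a ha
  rw [Set.Finite.mem_toFinset]
  exact (F.le_nrl g a ha).trans h

/-- the families with classes in `J` and norm at most `Y` -/
def Fam (J : Finset (Fin X.N)) (Y : ℝ) : Finset (Finset F.Lb) := (F.famfin J Y).toFinset

theorem mem_Fam (J : Finset (Fin X.N)) (Y : ℝ) (g : Finset F.Lb) :
    g ∈ F.Fam J Y ↔ F.Ok g ∧ F.cls g ⊆ J ∧ F.nrl g ≤ Y := by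
  unfold Fam
  rw [Set.Finite.mem_toFinset]
  rfl

/-- the weight of a family -/
def wt (c : F.C) (g : Finset F.Lb) : ℂ :=
  ∏ a ∈ g, ∑ ψ ∈ X.Th a.1, ep X.p (ψ ⬝ᵥ F.E c g a)

/-- the weighted sum -/
def FS (J : Finset (Fin X.N)) (h : F.C → Finset F.Lb → ℂ) (Y : ℝ) : ℂ :=
  ∑ g ∈ F.Fam J Y, ∑ c : F.C, if F.Sp c (F.cls g) then h c g * F.wt c g else 0

end Fr0

end fin

end H51.MM
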