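import Pool.Agent.H63.MA.RayC
import Pool.Agent.H63.MA.AFin
import Pool.Agent.H63.MA.KumB
import Pool.Agent.H57.LI.Defs

/-!
# H51/MM/AN: the analytic inputs of the frame chapter (definitions and interfaces; proofs: helper57, H57/AN)

`K` a number field, `E` a field over `K`. `blw w`: the place of `K` below `w`. `Fme B g`: a family of places of `E` of prime norm over
different places of `K` outside `B`. `FE K E B M`: the families of norm at most `M`.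
-/

set_option autoImplicit false

open scoped NumberField
open IsDedekindDomain NumberField H63.MA H36.QA Filter Topology
open scoped Classical

noncomputable section

namespace H51.MM

section defs

variable (K : Type) [Field K] [NumberField K] {E : Type} [Field E] [NumberField E] [Algebra K E]

/-- the place of `K` below -/
def blw (w : Pl E) : Pl K := (exists_below (K := K) w).choose

theorem blw_over (w : Pl E) : Over w (blw K w) := (exists_below (K := K) w).choose_spec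

/-- families of places of `E` -/
def Fme (B : Finset (Pl K)) (g : Finset (Pl E)) : Prop :=
  (∀ w ∈ g, blw K w ∉ B ∧ (nm w).Prime) ∧ ∀ w ∈ g, ∀ w' ∈ g, w ≠ w' → blw K w ≠ blw K w'

/-- the places of `K` below a family -/
def ud (g : Finset (Pl E)) : Finset (Pl K) := g.image (blw K)

end defs

/-- the families of norm at most `M` -/
def FE (K : Type) [Field K] [NumberField K] (E : Type) [Field E] [NumberField E] [Algebra K E]
    (B : Finset (Pl K)) (M : ℝ) : Finset (Finset (Pl E)) :=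
  (AF E M).filter fun g => Fme K B g

/-- the number of labels over `v` in the classes of `J` -/
def lbn (K : Type) [Field K] [NumberField K] {ι : Type} (L : ι → Type) [∀ i, Field (L i)]
    [∀ i, NumberField (L i)] [∀ i, Algebra K (L i)] (J : Finset ι) (B : Finset (Pl K)) (v : Pl K) : ℕ :=
  if v ∈ B then 0 else ∑ i ∈ J, {w : Pl (L i) | Over w v ∧ (nm w).Prime}.ncard

/-- AN1: power saving for one nontrivial character -/
def AN1 (K : Type) [Field K] [NumberField K] (d : ℕ) : Prop :=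
  ∃ (C : ℝ) (A : ℕ) (δ : ℝ), 1 ≤ C ∧ 0 < δ ∧ δ ≤ 1 / 4 ∧ ∀ (E : Type) [Field E] [NumberField E] [Algebra K E],
    IsTotallyComplex E → Module.finrank K E ≤ d → ∀ 𝔣 : Ideal (𝓞 E), 𝔣 ≠ ⊥ → ∀ χ : RC E 𝔣, χ.Non →
      ∀ (B : Finset (Pl K)) (M : ℝ), 1 ≤ M →
        ‖∑ g ∈ FE K E B M, ∏ w ∈ g, χ.χ w.asIdeal‖ ≤
          C * C ^ B.card * (dd E * Ideal.absNorm 𝔣) ^ A * M ^ (1 - δ)

/-- AN2: the bilinear estimate. `φ g` (a function on the places of `E'`) for a family `g` of `E`, `φ' h` (a function on the places of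
`E`) for a family `h` of `E'` -/
def AN2 (K : Type) [Field K] [NumberField K] (d : ℕ) : Prop :=
  ∃ (C : ℝ) (A : ℕ) (δ : ℝ), 1 ≤ C ∧ 0 < δ ∧ δ ≤ 1 / 4 ∧ ∀ (E E' : Type) [Field E] [NumberField E] [Algebra K E]
    [Field E'] [NumberField E'] [Algebra K E'],
    IsTotallyComplex E → IsTotallyComplex E' → Module.finrank K E ≤ d → Module.finrank K E' ≤ d →
    ∀ (D Q : ℝ), 1 ≤ D → 1 ≤ Q → dd E ≤ D → dd E' ≤ D → ∀ (B : Finset (Pl K)) (T : Type) [Fintype T],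
      (Fintype.card T : ℝ) ≤ Q → ∀ (t : Finset (Pl E) → T) (t' : Finset (Pl E') → T)
      (Ξ : T → T → ℂ) (φ : Finset (Pl E) → Pl E' → ℂ) (φ' : Finset (Pl E') → Pl E → ℂ),
      (∀ x y, ‖Ξ x y‖ ≤ 1) → (∀ g w', ‖φ g w'‖ = 1) → (∀ h w, ‖φ' h w‖ = 1) →
      (∀ g, Fme K B g → ∃ (𝔣 : Ideal (𝓞 E')) (χ : RC E' 𝔣), 𝔣 ≠ ⊥ ∧ (Ideal.absNorm 𝔣 : ℝ) ≤ D * nr g ^ d ∧
        ∀ w' : Pl E', blw K w' ∉ B → (nm w').Prime → blw K w' ∉ ud K g → χ.χ w'.asIdeal = φ g w') →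
      (∀ g₁ g₂, Fme K B g₁ → Fme K B g₂ → ud K g₁ ≠ ud K g₂ → ∃ w' : Pl E', blw K w' ∉ B ∧ (nm w').Prime ∧
        blw K w' ∉ ud K g₁ ∧ blw K w' ∉ ud K g₂ ∧ φ g₁ w' ≠ φ g₂ w') →
      (∀ h, Fme K B h → ∃ (𝔣 : Ideal (𝓞 E)) (χ : RC E 𝔣), 𝔣 ≠ ⊥ ∧ (Ideal.absNorm 𝔣 : ℝ) ≤ D * nr h ^ d ∧
        ∀ w : Pl E, blw K w ∉ B → (nm w).Prime → blw K w ∉ ud K h → χ.χ w.asIdeal = φ' h w) →
      (∀ h₁ h₂, Fme K B h₁ → Fme K B h₂ → ud K h₁ ≠ ud K h₂ → ∃ w : Pl E, blw K w ∉ B ∧ (nm w).Prime ∧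
        blw K w ∉ ud K h₁ ∧ blw K w ∉ ud K h₂ ∧ φ' h₁ w ≠ φ' h₂ w) →
      (∀ g h, Fme K B g → Fme K B h → Disjoint (ud K g) (ud K h) →
        ∏ w ∈ g, φ' h w = Ξ (t g) (t' h) * ∏ w' ∈ h, φ g w') →
      ∀ (α : Finset (Pl E) → ℂ) (β : Finset (Pl E') → ℂ), (∀ g, ‖α g‖ ≤ 1) → (∀ h, ‖β h‖ ≤ 1) →
      ∀ z Y : ℝ, 1 ≤ z → 1 ≤ Y →
        ‖∑ g ∈ FE K E B Y, ∑ h ∈ FE K E' B Y,
          if z < nr g ∧ z < nr h ∧ nr g * nr h ≤ Y ∧ Disjoint (ud K g) (ud K h) then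
            α g * β h * ∏ w ∈ g, φ' h w else 0‖ ≤ C * (Q * D) ^ A * Y * z ^ (-δ) * (1 + Real.log Y) ^ A

/-- AN3a: trivial bounds over `K` -/
def AN3a (K : Type) [Field K] [NumberField K] : Prop :=
  ∀ c : ℝ, 1 ≤ c → ∃ (C : ℝ) (A : ℕ), 1 ≤ C ∧ ∀ Y : ℝ, 1 ≤ Y →
    ∑ s ∈ AF K Y, c ^ s.card ≤ C * Y * (1 + Real.log Y) ^ A ∧
    ∑ s ∈ AF K Y, c ^ s.card / nr s ≤ C * (1 + Real.log Y) ^ A

/-- AN3b: the number of families with classes in `J` -/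
def AN3b (K : Type) [Field K] [NumberField K] (N d : ℕ) : Prop :=
  ∃ (C : ℝ) (A : ℕ), 1 ≤ C ∧ ∀ (L : Fin N → Type) [∀ i, Field (L i)] [∀ i, NumberField (L i)]
    [∀ i, Algebra K (L i)], (∀ i, IsTotallyComplex (L i)) → (∀ i, Module.finrank K (L i) ≤ d) →
    ∀ D : ℝ, 1 ≤ D → (∀ i, dd (L i) ≤ D) → ∀ (B : Finset (Pl K)) (J : Finset (Fin N)), J.Nonempty →
      ∀ Y : ℝ, 3 ≤ Y → ∑ s ∈ AF K Y, ∏ v ∈ s, (lbn K L J B v : ℝ) ≤
        C * (1 + Real.log D) ^ A * (Y * Real.log Y ^ (J.card - 1))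

/-- AN4: the main term -/
def AN4 (K : Type) [Field K] [NumberField K] : Prop :=
  ∀ (N : ℕ) (L : Fin N → Type) [∀ i, Field (L i)] [∀ i, NumberField (L i)] [∀ i, Algebra K (L i)],
    (∀ i, IsTotallyComplex (L i)) → ∀ (B : Finset (Pl K)) (J : Finset (Fin N)), J.Nonempty →
      ∃ l : ℝ, 0 < l ∧ Tendsto (fun Y : ℝ => (∑ s ∈ AF K Y, ∏ v ∈ s, (lbn K L J B v : ℝ)) /
        (Y * Real.log Y ^ (J.card - 1))) atTop (𝓝 l)

end H51.MM
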