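import Pool.Agent.H51.MM.UbA

/-!
# [H51 MM DECF] The decomposition for a fixed frame (assembly, 120-180 lines)

As `uba` with `J = univ`, `F`, `c`, `h` fixed, `Z = (log Y) ^ B`, but now only terms `o (Y (log Y) ^ (N - 1))` are thrown away: cases (1), (2), (5) `W₁`: `≤ C_F Y (log Y)^{-1}` for
`B` large (`B δ ≥ A₁ + N + 1`, `B ≥ A₂ + N + 1`); case (4): `fewa`: `≤ C_F (1 + log lv) ^ A Y (log Y) ^ (N - 1) / log Y + C lv ^ A`. Case (5) `W₂` for `f ∈ FF univ`: if
`k > 0` it is empty (`Cnd` needs a type outside `L` of size `> lv ≥ 1`). If `k = 0`: `u ↦ g = U u` is a bijection onto the `g ∈ Fam univ Y` whose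
class parts all have norm `> lv Z R 1`; `Sp c univ` holds; `Ph c u = ∑_{a ∈ g} f a.1 ⬝ᵥ E c g a`. So it differs from the full sum over `Fam univ Y` by at most
`∑_i #{g | nrl (class i part) ≤ lv Z R 1}`: `fewb`.
-/

set_option autoImplicit false

open scoped NumberField
open IsDedekindDomain NumberField H63.MA H36.QA Filter Topology
open scoped Classical

noncomputable section

namespace H51.MM


private theorem dec_small {l δ : ℝ} {A B : ℕ} (hl : 1 ≤ l) (hB : ((A + 1 : ℕ) : ℝ) ≤ B * δ) :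
    (1 + l) ^ A * (l ^ B) ^ (-δ) ≤ 2 ^ A * l⁻¹ := by
  have hl0 : 0 < l := by linarith
  have h1 : (1 + l) ^ A ≤ 2 ^ A * l ^ A := by
    rw [← mul_pow]
    exact pow_le_pow_left₀ (by linarith) (by linarith) A
  have h3 : (l ^ B) ^ (-δ) = l ^ (-((B : ℝ) * δ)) := by
    rw [← Real.rpow_natCast, ← Real.rpow_mul hl0.le]
    congr 1
    ring
  have h4 : l ^ A * l ^ (-((B : ℝ) * δ)) ≤ l⁻¹ := by
    rw [← Real.rpow_natCast, ← Real.rpow_add hl0, ← Real.rpow_neg_one]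
    push_cast at hB
    exact Real.rpow_le_rpow_of_exponent_le hl (by linarith)
  rw [h3]
  calc (1 + l) ^ A * l ^ (-((B : ℝ) * δ)) ≤ 2 ^ A * l ^ A * l ^ (-((B : ℝ) * δ)) :=
        mul_le_mul_of_nonneg_right h1 (Real.rpow_nonneg hl0.le _)
    _ = 2 ^ A * (l ^ A * l ^ (-((B : ℝ) * δ))) := by ring
    _ ≤ 2 ^ A * l⁻¹ := mul_le_mul_of_nonneg_left h4 (by positivity)

section decfs

variable {X : CD} {K : Type} [Field K] [NumberField K]

/-- splitting the condition on the small part -/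
private theorem ss_split (F : Fr0 X K) (J : Finset (Fin X.N)) (c : F.C) (h : (F.R → ZMod X.p) → ℂ) (Z : ℝ)
    (R k : ℕ) (L : Finset X.Ty) (W : (X.Ty → Finset F.Lb) → Prop) (Y : ℝ) :
    F.SS J c h Z R k L (fun _ => True) Y =
      F.SS J c h Z R k L (fun σ => ¬ W σ) Y + F.SS J c h Z R k L W Y := by
  unfold Fr0.SS
  rw [← Finset.sum_add_distrib]
  refine Finset.sum_congr rfl fun u _ => ?_
  by_cases hW : W (F.rs Lᶜ u)
  · have h1 : ¬ (F.Cnd Z R k L u ∧ ¬ W (F.rs Lᶜ u) ∧ F.Sp c (F.cls (F.U u))) := fun h0 => h0.2.1 hW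
    rw [if_neg h1, zero_add]
    by_cases h2 : F.Cnd Z R k L u ∧ F.Sp c (F.cls (F.U u))
    · rw [if_pos ⟨h2.1, trivial, h2.2⟩, if_pos ⟨h2.1, hW, h2.2⟩]
    · rw [if_neg fun h0 => h2 ⟨h0.1, h0.2.2⟩, if_neg fun h0 => h2 ⟨h0.1, h0.2.2⟩]
  · have h1 : ¬ (F.Cnd Z R k L u ∧ W (F.rs Lᶜ u) ∧ F.Sp c (F.cls (F.U u))) := fun h0 => hW h0.2.1
    rw [if_neg h1, add_zero]
    by_cases h2 : F.Cnd Z R k L u ∧ F.Sp c (F.cls (F.U u))
    · rw [if_pos ⟨h2.1, trivial, h2.2⟩, if_pos ⟨h2.1, hW, h2.2⟩]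
    · rw [if_neg fun h0 => h2 ⟨h0.1, h0.2.2⟩, if_neg fun h0 => h2 ⟨h0.1, h0.2.2⟩]

/-- a functional for every class of `L` -/
private theorem ex_f (L : Finset X.Ty) : ∃ f : Fin X.N → Fin X.w → ZMod X.p,
    (∀ τ ∈ L, ∃ τ' ∈ L, τ'.1 = (τ.1.1, f τ.1.1)) ∧ ∀ i, (∀ τ ∈ L, τ.1.1 ≠ i) → f i = 0 := by
  refine ⟨fun i => if h : ∃ τ ∈ L, τ.1.1 = i then h.choose.1.2 else 0, ?_, ?_⟩
  · intro τ hτ
    have h : ∃ τ' ∈ L, τ'.1.1 = τ.1.1 := ⟨τ, hτ, rfl⟩
    refine ⟨h.choose, h.choose_spec.1, Prod.ext h.choose_spec.2 ?_⟩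
    show h.choose.1.2 = if h : ∃ τ' ∈ L, τ'.1.1 = τ.1.1 then h.choose.1.2 else 0
    rw [dif_pos h]
  · intro i hi
    show (if h : ∃ τ ∈ L, τ.1.1 = i then h.choose.1.2 else 0) = 0
    rw [dif_neg]
    rintro ⟨τ, hτ, h⟩
    exact hi τ hτ h

private theorem al_eq (J : Finset (Fin X.N)) (L : Finset X.Ty) (hL : ∀ τ ∈ L, ∀ τ' ∈ L, τ.1.1 = τ'.1.1 → τ = τ')
    (hU : X.Unl L) (hk : X.kl L = J) (f : Fin X.N → Fin X.w → ZMod X.p)
    (hf : ∀ τ ∈ L, ∃ τ' ∈ L, τ'.1 = (τ.1.1, f τ.1.1)) (hf0 : ∀ i, (∀ τ ∈ L, τ.1.1 ≠ i) → f i = 0) :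
    f ∈ X.FF J ∧ L = X.al J f := by
  have h1 : ∀ τ ∈ L, τ.1.2 = f τ.1.1 := by
    intro τ hτ
    obtain ⟨τ', hτ', h2⟩ := hf τ hτ
    have h3 : τ = τ' := hL τ hτ τ' hτ' (by rw [h2])
    have h4 : τ.1.2 = τ'.1.2 := by rw [← h3]
    rw [h4, h2]
  have hJ : ∀ i ∈ J, ∃ τ ∈ L, τ.1.1 = i := by
    intro i hi
    rw [← hk] at hi
    exact Finset.mem_image.1 hi
  constructor
  · unfold CD.FF
    rw [Finset.mem_filter]
    refine ⟨Finset.mem_univ _, ?_, ?_, ?_⟩
    · intro i hi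
      obtain ⟨τ, hτ, rfl⟩ := hJ i hi
      rw [← h1 τ hτ]
      exact τ.2
    · intro i hi
      refine hf0 i fun τ hτ he => hi ?_
      rw [← hk, ← he]
      exact Finset.mem_image_of_mem _ hτ
    · intro i hi j hj
      obtain ⟨τ, hτ, rfl⟩ := hJ i hi
      obtain ⟨τ', hτ', rfl⟩ := hJ j hj
      rw [← h1 τ hτ, ← h1 τ' hτ']
      exact not_not.1 (hU τ hτ τ' hτ')
  · ext τ
    unfold CD.al
    rw [Finset.mem_filter]
    constructor
    · intro hτ
      refine ⟨Finset.mem_univ _, ?_, h1 τ hτ⟩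
      rw [← hk]
      exact Finset.mem_image_of_mem _ hτ
    · rintro ⟨-, h2, h3⟩
      obtain ⟨τ', hτ', h4⟩ := hJ _ h2
      have h5 : τ = τ' := by
        apply Subtype.ext
        refine Prod.ext h4.symm ?_
        rw [h3, h1 τ' hτ', h4]
      rw [h5]
      exact hτ'

private theorem mem_al (f : Fin X.N → Fin X.w → ZMod X.p) (τ : X.Ty) :
    τ ∈ X.al Finset.univ f ↔ τ.1.2 = f τ.1.1 := by
  unfold CD.al
  rw [Finset.mem_filter]
  exact ⟨fun h => h.2.2, fun h => ⟨Finset.mem_univ _, Finset.mem_univ _, h⟩⟩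

/-- the type of class `i` -/
private def ty (f : Fin X.N → Fin X.w → ZMod X.p) (hf : f ∈ X.FF Finset.univ) (i : Fin X.N) : X.Ty :=
  ⟨(i, f i), by
    unfold CD.FF at hf
    rw [Finset.mem_filter] at hf
    exact hf.2.1 i (Finset.mem_univ i)⟩

private theorem ty_mem (f : Fin X.N → Fin X.w → ZMod X.p) (hf : f ∈ X.FF Finset.univ) (i : Fin X.N) :
    ty f hf i ∈ X.al Finset.univ f := (mem_al f _).2 rfl

private theorem eq_ty (f : Fin X.N → Fin X.w → ZMod X.p) (hf : f ∈ X.FF Finset.univ) (τ : X.Ty)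
    (h : τ ∈ X.al Finset.univ f) : τ = ty f hf τ.1.1 := by
  apply Subtype.ext
  exact Prod.ext rfl ((mem_al f τ).1 h)

private theorem al_inj (f f' : Fin X.N → Fin X.w → ZMod X.p) (hf : f ∈ X.FF Finset.univ)
    (h : X.al Finset.univ f = X.al Finset.univ f') : f = f' := by
  funext i
  have h1 := ty_mem f hf i
  rw [h, mem_al] at h1
  exact h1

private theorem nrl_empty (F : Fr0 X K) : F.nrl ∅ = 1 := by
  unfold Fr0.nrl
  rw [Finset.prod_empty]

/-- outside `L` the parts are empty -/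
private theorem out_empty (F : Fr0 X K) (L : Finset X.Ty) (u : X.Ty → Finset F.Lb)
    (hu : F.U (F.rs Lᶜ u) = ∅) (τ : X.Ty) (hτ : τ ∉ L) : u τ = ∅ := by
  have h2 : F.rs Lᶜ u τ = u τ := by
    unfold Fr0.rs
    rw [if_pos (Finset.mem_compl.2 hτ)]
  rw [← h2]
  rw [← Finset.subset_empty, ← hu]
  exact Finset.subset_biUnion_of_mem (F.rs Lᶜ u) (Finset.mem_univ τ)

/-- `u τ` is the part of the class of `τ` -/
private theorem part_eq (F : Fr0 X K) (f : Fin X.N → Fin X.w → ZMod X.p) (hf : f ∈ X.FF Finset.univ)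
    (u : X.Ty → Finset F.Lb) (hu : F.TOk u) (hL : ∀ τ, τ ∉ X.al Finset.univ f → u τ = ∅)
    (i : Fin X.N) : u (ty f hf i) = (F.U u).filter fun a => a.1 = i := by
  ext a
  rw [Finset.mem_filter]
  constructor
  · intro ha
    exact ⟨Finset.mem_biUnion.2 ⟨_, Finset.mem_univ _, ha⟩, hu.1 _ a ha⟩
  · rintro ⟨ha, hi⟩
    obtain ⟨τ, -, h1⟩ := Finset.mem_biUnion.1 ha
    have h2 : τ ∈ X.al Finset.univ f := by
      by_contra h0
      rw [hL τ h0] at h1
      exact absurd h1 (Finset.notMem_empty _)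
    have h3 := eq_ty f hf τ h2
    have h4 := hu.1 τ a h1
    rw [h3] at h1
    rw [← h4, hi] at h1
    exact h1

/-- the phase -/
private theorem ph_eq (F : Fr0 X K) (f : Fin X.N → Fin X.w → ZMod X.p) (c : F.C)
    (u : X.Ty → Finset F.Lb) (hu : F.TOk u) (hL : ∀ τ, τ ∉ X.al Finset.univ f → u τ = ∅) :
    F.Ph c u = ∑ a ∈ F.U u, f a.1 ⬝ᵥ F.E c (F.U u) a := by
  unfold Fr0.Ph
  conv_rhs => unfold Fr0.U
  rw [Finset.sum_biUnion (fun τ _ τ' _ h => tok_dis F u hu τ τ' h)]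
  refine Finset.sum_congr rfl fun τ _ => Finset.sum_congr rfl fun a ha => ?_
  have h2 : τ ∈ X.al Finset.univ f := by
    by_contra h0
    rw [hL τ h0] at ha
    exact absurd ha (Finset.notMem_empty _)
  rw [(mem_al f τ).1 h2, hu.1 τ a ha]
  rfl

/-- the typed family of a family -/
private def vv (F : Fr0 X K) (f : Fin X.N → Fin X.w → ZMod X.p) (g : Finset F.Lb) (τ : X.Ty) : Finset F.Lb :=
  if τ ∈ X.al Finset.univ f then g.filter fun a => a.1 = τ.1.1 else ∅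

private theorem vv_U (F : Fr0 X K) (f : Fin X.N → Fin X.w → ZMod X.p) (hf : f ∈ X.FF Finset.univ)
    (g : Finset F.Lb) : F.U (vv F f g) = g := by
  ext a
  unfold Fr0.U
  rw [Finset.mem_biUnion]
  constructor
  · rintro ⟨τ, -, h⟩
    unfold vv at h
    split_ifs at h with h0
    · exact (Finset.mem_filter.1 h).1
    · exact absurd h (Finset.notMem_empty _)
  · intro ha
    refine ⟨ty f hf a.1, Finset.mem_univ _, ?_⟩
    unfold vv
    rw [if_pos (ty_mem f hf a.1), Finset.mem_filter]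
    exact ⟨ha, rfl⟩

private theorem vv_tok (F : Fr0 X K) (f : Fin X.N → Fin X.w → ZMod X.p) (hf : f ∈ X.FF Finset.univ)
    (g : Finset F.Lb) (hg : F.Ok g) : F.TOk (vv F f g) := by
  have hsub : ∀ τ, vv F f g τ ⊆ g := by
    intro τ
    unfold vv
    split_ifs
    · exact Finset.filter_subset _ _
    · exact Finset.empty_subset _
  have hcl : ∀ τ, ∀ a ∈ vv F f g τ, τ ∈ X.al Finset.univ f ∧ a.1 = τ.1.1 := by
    intro τ a ha
    unfold vv at ha
    split_ifs at ha with h0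
    · exact ⟨h0, (Finset.mem_filter.1 ha).2⟩
    · exact absurd ha (Finset.notMem_empty _)
  refine ⟨fun τ a ha => (hcl τ a ha).2, fun τ => ⟨fun a ha => hg.1 a (hsub τ ha),
    fun a ha b hb hab => hg.2 a (hsub τ ha) b (hsub τ hb) hab⟩, ?_⟩
  intro τ τ' hne
  rw [Finset.disjoint_left]
  intro v h1 h2
  unfold Fr0.und at h1 h2
  obtain ⟨a, ha, rfl⟩ := Finset.mem_image.1 h1
  obtain ⟨b, hb, hab⟩ := Finset.mem_image.1 h2
  obtain ⟨h3, h4⟩ := hcl τ a ha
  obtain ⟨h5, h6⟩ := hcl τ' b hb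
  have h7 : a ≠ b := by
    rintro rfl
    apply hne
    rw [eq_ty f hf τ h3, eq_ty f hf τ' h5, ← h4, ← h6]
  exact hg.2 a (hsub τ ha) b (hsub τ' hb) h7 hab.symm

/-- the aligned part -/
private theorem ss_al (F : Fr X K) (f : Fin X.N → Fin X.w → ZMod X.p) (hf : f ∈ X.FF Finset.univ)
    (c : F.C) (h : (F.R → ZMod X.p) → ℂ) (Z : ℝ) (hZ : 1 ≤ Z) (R : ℕ) (Y : ℝ) :
    F.SS Finset.univ c h Z R 0 (X.al Finset.univ f) (fun σ => F.U σ = ∅) Y =
      ∑ g ∈ (F.Fam Finset.univ Y).filter (fun g => ∀ i, lv Z R 1 < F.nrl (g.filter fun a => a.1 = i)),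
        h (F.tot g) * ep X.p (∑ a ∈ g, f a.1 ⬝ᵥ F.E c g a) := by
  have hlv : ∀ k, 1 ≤ lv Z R k := fun k => one_le_pow₀ hZ
  have e0 : F.SS Finset.univ c h Z R 0 (X.al Finset.univ f) (fun σ => F.U σ = ∅) Y =
      ∑ u ∈ (F.TF Finset.univ Y).filter (fun u => F.Cnd Z R 0 (X.al Finset.univ f) u ∧
        F.U (F.rs (X.al Finset.univ f)ᶜ u) = ∅ ∧ F.Sp c (F.cls (F.U u))),
        h (F.tot (F.U u)) * ep X.p (F.Ph c u) := by
    unfold Fr0.SS
    rw [Finset.sum_filter]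
    refine Finset.sum_congr rfl fun u _ => ?_
    by_cases hP : F.Cnd Z R 0 (X.al Finset.univ f) u ∧
        F.U (F.rs (X.al Finset.univ f)ᶜ u) = ∅ ∧ F.Sp c (F.cls (F.U u))
    · rw [if_pos hP, if_pos hP]
    · rw [if_neg hP, if_neg hP]
  rw [e0]
  refine Finset.sum_nbij (fun u => F.U u) ?_ ?_ ?_ ?_
  · intro u hu
    rw [Finset.mem_filter, F.mem_TF] at hu
    obtain ⟨⟨h1, -, h2⟩, h3, h4, h5⟩ := hu
    have h6 := out_empty F.toFr0 _ u h4
    rw [Finset.mem_filter, F.mem_Fam]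
    refine ⟨⟨tok_ok F.toFr0 u h1, Finset.subset_univ _, ?_⟩, ?_⟩
    · rw [tok_nr F.toFr0 u h1]
      exact h2
    · intro i
      rw [← part_eq F.toFr0 f hf u h1 h6 i]
      exact h3.1 _ (ty_mem f hf i)
  · intro u hu u' hu' he
    rw [Finset.mem_coe, Finset.mem_filter, F.mem_TF] at hu hu'
    obtain ⟨⟨h1, -, -⟩, -, h4, -⟩ := hu
    obtain ⟨⟨h1', -, -⟩, -, h4', -⟩ := hu'
    have he' : F.U u = F.U u' := he
    have h6 := out_empty F.toFr0 _ u h4
    have h6' := out_empty F.toFr0 _ u' h4'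
    funext τ
    by_cases hτ : τ ∈ X.al Finset.univ f
    · rw [eq_ty f hf τ hτ, part_eq F.toFr0 f hf u h1 h6, part_eq F.toFr0 f hf u' h1' h6', he']
    · rw [h6 τ hτ, h6' τ hτ]
  · intro g hg
    rw [Finset.mem_coe, Finset.mem_filter, F.mem_Fam] at hg
    obtain ⟨⟨h1, -, h2⟩, h3⟩ := hg
    refine ⟨vv F.toFr0 f g, ?_, vv_U F.toFr0 f hf g⟩
    have hT := vv_tok F.toFr0 f hf g h1
    rw [Finset.mem_coe, Finset.mem_filter, F.mem_TF]
    refine ⟨⟨hT, fun τ hτ => absurd (Finset.mem_univ _) hτ, ?_⟩, ⟨?_, ?_, ?_⟩, ?_, ?_⟩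
    · rw [← tok_nr F.toFr0 _ hT, vv_U F.toFr0 f hf g]
      exact h2
    · intro τ hτ
      have h5 : vv F.toFr0 f g τ = g.filter fun a => a.1 = τ.1.1 := by
        unfold vv
        rw [if_pos hτ]
      rw [h5]
      exact h3 τ.1.1
    · intro τ hτ
      have h5 : vv F.toFr0 f g τ = ∅ := by
        unfold vv
        rw [if_neg hτ]
      rw [h5, nrl_empty]
      exact hlv 0
    · intro k' hk'
      exact absurd hk' (Nat.not_lt_zero _)
    · rw [← Finset.subset_empty]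
      intro a ha
      unfold Fr0.U at ha
      obtain ⟨τ, -, h5⟩ := Finset.mem_biUnion.1 ha
      unfold Fr0.rs vv at h5
      by_cases h6 : τ ∈ X.al Finset.univ f
      · rw [if_neg (fun h0 => Finset.mem_compl.1 h0 h6)] at h5
        exact h5
      · rw [if_pos (Finset.mem_compl.2 h6), if_neg h6] at h5
        exact h5
    · rw [vv_U F.toFr0 f hf g]
      have h5 : F.cls g = Finset.univ := by
        rw [Finset.eq_univ_iff_forall]
        intro i
        unfold Fr0.cls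
        rw [Finset.mem_image]
        have h6 : (g.filter fun a => a.1 = i).Nonempty := by
          rw [Finset.nonempty_iff_ne_empty]
          intro h0
          have h7 := h3 i
          rw [h0, nrl_empty] at h7
          linarith [hlv 1]
        obtain ⟨a, ha⟩ := h6
        exact ⟨a, (Finset.mem_filter.1 ha).1, (Finset.mem_filter.1 ha).2⟩
      rw [h5]
      exact F.Sp_univ c
  · intro u hu
    rw [Finset.mem_filter, F.mem_TF] at hu
    obtain ⟨⟨h1, -, -⟩, -, h4, -⟩ := hu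
    rw [ph_eq F.toFr0 f c u h1 (out_empty F.toFr0 _ u h4)]

/-- for `k > 0` the aligned part is empty -/
private theorem ss_pos (F : Fr X K) (L : Finset X.Ty)
    (c : F.C) (h : (F.R → ZMod X.p) → ℂ) (Z : ℝ) (hZ : 1 ≤ Z) (R k : ℕ) (hk : 0 < k) (Y : ℝ) :
    F.SS Finset.univ c h Z R k L (fun σ => F.U σ = ∅) Y = 0 := by
  have hlv : ∀ k, 1 ≤ lv Z R k := fun k => one_le_pow₀ hZ
  unfold Fr0.SS
  refine Finset.sum_eq_zero fun u _ => ?_
  rw [if_neg]
  rintro ⟨h1, h2, -⟩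
  obtain ⟨τ, hτ, h3, -⟩ := h1.2.2 0 hk
  rw [out_empty F.toFr0 L u h2 τ hτ, nrl_empty] at h3
  linarith [hlv 0]

end decfs

theorem decf (X : CD) (K : Type) [Field K] [NumberField K] (F : Fr X K) (hN : 0 < X.N)
    (hX : X.Cl Finset.univ) (hA1 : AN1 K F.d) (hA2 : AN2 K F.d) (hA3 : AN3a K) (hA4 : AN3b K X.N F.d)
    (c : F.C) (h : (F.R → ZMod X.p) → ℂ) (hh : ∀ x, ‖h x‖ ≤ 1) :
    Tendsto (fun Y : ℝ => ((∑ u ∈ F.TF Finset.univ Y, if F.Sp c (F.cls (F.U u)) then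
        h (F.tot (F.U u)) * ep X.p (F.Ph c u) else 0) -
      ∑ f ∈ X.FF Finset.univ, ∑ g ∈ F.Fam Finset.univ Y,
        h (F.tot g) * ep X.p (∑ a ∈ g, f a.1 ⬝ᵥ F.E c g a)) /
        ((Y * Real.log Y ^ (X.N - 1) : ℝ) : ℂ)) atTop (𝓝 0) := by
  obtain ⟨C₁, A₁, δ, hC₁, hδ, -, hl⟩ := lnkb X K F.d hA2 hA3
  obtain ⟨C₂, A₂, R, hC₂, hR, hu⟩ := unla X K F.d hA1 hA3
  obtain ⟨C₃, A₃, hC₃, hw⟩ := fewa X K F.d hA3 hA4
  obtain ⟨C₅, A₅, hC₅, hv⟩ := fewb X K F.d hA3 hA4
  obtain ⟨m, hm⟩ : ∃ m, m = Fintype.card X.Ty := ⟨_, rfl⟩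
  obtain ⟨B₁, hB1, hB2⟩ : ∃ B₁ : ℕ, ((A₁ + 1 : ℕ) : ℝ) ≤ B₁ * δ ∧ ((A₂ + 1 : ℕ) : ℝ) ≤ B₁ * 1 := by
    obtain ⟨B, hB⟩ := exists_nat_ge (((A₁ + 1 : ℕ) : ℝ) / δ)
    refine ⟨B + (A₂ + 1), ?_, ?_⟩
    · rw [div_le_iff₀ hδ] at hB
      push_cast at hB ⊢
      have : 0 ≤ ((A₂ : ℝ) + 1) * δ := by positivity
      linarith
    · push_cast
      have : (0 : ℝ) ≤ B := Nat.cast_nonneg _
      linarith
  obtain ⟨cc, hcc⟩ : ∃ cc : ℝ, cc = ((B₁ * R ^ (m + 1) : ℕ) : ℝ) := ⟨_, rfl⟩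
  have hcc0 : 0 ≤ cc := by rw [hcc]; exact Nat.cast_nonneg _
  have ev1 : ∀ᶠ Y : ℝ in atTop, Real.log Y ^ (B₁ * R ^ (m + 1) * (A₃ + A₅) + 1) ≤ Y := by
    have h1 := (Real.isLittleO_pow_log_id_atTop (n := B₁ * R ^ (m + 1) * (A₃ + A₅) + 1)).bound one_pos
    filter_upwards [h1, eventually_ge_atTop 1] with Y h2 h3
    rw [one_mul, id, Real.norm_of_nonneg (pow_nonneg (Real.log_nonneg h3) _),
      Real.norm_of_nonneg (by linarith)] at h2
    exact h2
  have ev2 : ∀ᶠ x : ℝ in atTop, (1 + cc * Real.log x) ^ (A₃ + A₅) ≤ Real.sqrt x := by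
    have h1 := (Real.isLittleO_pow_log_id_atTop (n := (A₃ + A₅) * 2)).bound
      (show (0 : ℝ) < ((1 + cc) ^ ((A₃ + A₅) * 2))⁻¹ by positivity)
    filter_upwards [h1, eventually_ge_atTop (Real.exp 1)] with x h2 h3
    have hx0 : 0 < x := (Real.exp_pos 1).trans_le h3
    have h4 : 1 ≤ Real.log x := by rwa [Real.le_log_iff_exp_le hx0]
    rw [id, Real.norm_of_nonneg (by positivity), Real.norm_of_nonneg hx0.le,
      ← div_eq_inv_mul, le_div_iff₀ (by positivity)] at h2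
    refine Real.le_sqrt_of_sq_le ?_
    calc ((1 + cc * Real.log x) ^ (A₃ + A₅)) ^ 2 = (1 + cc * Real.log x) ^ ((A₃ + A₅) * 2) := by
          rw [pow_mul]
      _ ≤ ((1 + cc) * Real.log x) ^ ((A₃ + A₅) * 2) := by
          refine pow_le_pow_left₀ (by positivity) ?_ _
          nlinarith
      _ = Real.log x ^ ((A₃ + A₅) * 2) * (1 + cc) ^ ((A₃ + A₅) * 2) := by rw [mul_pow, mul_comm]
      _ ≤ x := h2
  obtain ⟨Y₀, hY₀⟩ := Filter.eventually_atTop.1 (ev1.and (Real.tendsto_log_atTop.eventually ev2))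
  have hq := F.one_le_qq
  have hD1 := F.one_le_D
  have hlD : 1 ≤ 1 + Real.log F.D := by
    have := Real.log_nonneg hD1
    linarith
  obtain ⟨lD, hlDe⟩ : ∃ lD, lD = 1 + Real.log F.D := ⟨_, rfl⟩
  obtain ⟨a₁, ha₁⟩ : ∃ a : ℝ, a = C₁ * (F.qq * F.D) ^ A₁ * 2 ^ A₁ := ⟨_, rfl⟩
  obtain ⟨a₂, ha₂⟩ : ∃ a : ℝ, a = C₂ * (F.qq * F.D) ^ A₂ * 2 ^ A₂ := ⟨_, rfl⟩
  obtain ⟨a₃, ha₃⟩ : ∃ a : ℝ, a = C₃ * lD ^ A₃ + C₃ := ⟨_, rfl⟩
  obtain ⟨a₅, ha₅⟩ : ∃ a : ℝ, a = C₅ * lD ^ A₅ + C₅ := ⟨_, rfl⟩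
  have hqD : 0 ≤ F.qq * F.D := by positivity
  have pa₁ : 0 ≤ a₁ := by rw [ha₁]; positivity
  have pa₂ : 0 ≤ a₂ := by rw [ha₂]; positivity
  have hlD0 : 0 ≤ lD := by rw [hlDe]; linarith
  have pa₃ : 0 ≤ a₃ := by rw [ha₃]; positivity
  have pa₅ : 0 ≤ a₅ := by rw [ha₅]; positivity
  obtain ⟨Cst, hCst⟩ : ∃ C : ℝ, C = a₁ + a₂ + a₃ + X.N * a₅ := ⟨_, rfl⟩
  have hCst0 : 0 ≤ Cst := by rw [hCst]; positivity
  -- the final bound
  have fin : ∀ Y : ℝ, max 3 Y₀ ≤ Y → ‖(∑ u ∈ F.TF Finset.univ Y, if F.Sp c (F.cls (F.U u)) then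
        h (F.tot (F.U u)) * ep X.p (F.Ph c u) else 0) -
      ∑ f ∈ X.FF Finset.univ, ∑ g ∈ F.Fam Finset.univ Y,
        h (F.tot g) * ep X.p (∑ a ∈ g, f a.1 ⬝ᵥ F.E c g a)‖ ≤
      (m + 1) * 2 ^ m * (Cst * (Y * Real.log Y ^ (X.N - 1) * (Real.sqrt (Real.log Y))⁻¹)) := by
    intro Y hY
    have hY3 : 3 ≤ Y := (le_max_left _ _).trans hY
    obtain ⟨hY4, hY5⟩ := hY₀ Y ((le_max_right _ _).trans hY)
    have hl1 : 1 ≤ Real.log Y := by
      rw [Real.le_log_iff_exp_le (by linarith)]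
      have := Real.exp_one_lt_d9
      linarith
    obtain ⟨l, hle⟩ : ∃ l, l = Real.log Y := ⟨_, rfl⟩
    rw [← hle] at hY4 hY5 hl1
    have hl0 : 0 < l := by linarith
    have hsq1 : 1 ≤ Real.sqrt l := by
      rw [Real.one_le_sqrt]
      exact hl1
    have hsq0 : 0 < Real.sqrt l := by linarith
    have hsqs : Real.sqrt l * Real.sqrt l = l := Real.mul_self_sqrt hl0.le
    have hinv : l⁻¹ ≤ (Real.sqrt l)⁻¹ := inv_anti₀ hsq0 (by nlinarith)
    obtain ⟨Z, hZ⟩ : ∃ Z : ℝ, Z = l ^ B₁ := ⟨_, rfl⟩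
    have hZ1 : 1 ≤ Z := by rw [hZ]; exact one_le_pow₀ hl1
    obtain ⟨T, hT⟩ : ∃ T, T = Y * l ^ (X.N - 1) := ⟨_, rfl⟩
    have hYT : Y ≤ T := by
      rw [hT]
      exact le_mul_of_one_le_right (by linarith) (one_le_pow₀ hl1)
    have hT0 : 0 ≤ T := by linarith
    obtain ⟨M, hM⟩ : ∃ M, M = T * (Real.sqrt l)⁻¹ := ⟨_, rfl⟩
    have hM0 : 0 ≤ M := by rw [hM]; positivity
    have hYl : Y * l⁻¹ ≤ M := by
      rw [hM]
      exact mul_le_mul hYT hinv (by positivity) hT0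
    have hlvm : ∀ k ≤ m + 1, lv Z R k ≤ lv Z R (m + 1) := fun k hk => lv_mono Z hZ1 R hR hk
    have hlv1 : ∀ k, 1 ≤ lv Z R k := fun k => one_le_pow₀ hZ1
    have hlve : lv Z R (m + 1) = l ^ (B₁ * R ^ (m + 1)) := by
      unfold lv
      rw [hZ, ← pow_mul]
    have hlog : ∀ k ≤ m + 1, ∀ A ≤ A₃ + A₅, (1 + Real.log (lv Z R k)) ^ A ≤ Real.sqrt l := by
      intro k hk A hA
      have h1 : Real.log (lv Z R k) ≤ cc * Real.log l := by
        refine (Real.log_le_log (by linarith [hlv1 k]) (hlvm k hk)).trans (le_of_eq ?_)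
        rw [hlve, Real.log_pow, hcc]
      have h2 : 0 ≤ Real.log (lv Z R k) := Real.log_nonneg (hlv1 k)
      refine (pow_le_pow_right₀ (by linarith) hA).trans ?_
      exact (pow_le_pow_left₀ (by linarith)
        (by linarith : 1 + Real.log (lv Z R k) ≤ 1 + cc * Real.log l) _).trans hY5
    have hpw : ∀ k ≤ m + 1, ∀ A ≤ A₃ + A₅, lv Z R k ^ A ≤ M := by
      intro k hk A hA
      refine (pow_le_pow_right₀ (hlv1 k) hA).trans ?_
      refine (pow_le_pow_left₀ (by linarith [hlv1 k]) (hlvm k hk) _).trans ?_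
      rw [hlve, ← pow_mul]
      refine le_trans ?_ hYl
      rw [← div_eq_mul_inv, le_div_iff₀ hl0, ← pow_succ]
      exact hY4
    have hTl : T / l * Real.sqrt l = M := by
      rw [hM]
      field_simp
      rw [sq, hsqs]
    have few : ∀ k ≤ m + 1, ∀ A ≤ A₃ + A₅, ∀ C : ℝ, 0 ≤ C →
        C * lD ^ A * (1 + Real.log (lv Z R k)) ^ A * (T / l) + C * lv Z R k ^ A ≤
          (C * lD ^ A + C) * M := by
      intro k hk A hA C hC
      have h1 : (1 + Real.log (lv Z R k)) ^ A * (T / l) ≤ M := by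
        rw [← hTl, mul_comm (T / l)]
        exact mul_le_mul_of_nonneg_right (hlog k hk A hA) (div_nonneg hT0 hl0.le)
      have h2 := hpw k hk A hA
      calc C * lD ^ A * (1 + Real.log (lv Z R k)) ^ A * (T / l) + C * lv Z R k ^ A
          = C * lD ^ A * ((1 + Real.log (lv Z R k)) ^ A * (T / l)) + C * lv Z R k ^ A := by ring
        _ ≤ C * lD ^ A * M + C * M := by
            refine add_le_add (mul_le_mul_of_nonneg_left h1 (by positivity)) (mul_le_mul_of_nonneg_left h2 hC)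
        _ = _ := by ring
    have bd1 : ∀ x : ℝ, x ≤ C₁ * (F.qq * F.D) ^ A₁ * Y * Z ^ (-δ) * (1 + Real.log Y) ^ A₁ → x ≤ a₁ * M := by
      intro x hx
      refine hx.trans ?_
      rw [← hle]
      have h1 := dec_small (A := A₁) (B := B₁) (δ := δ) hl1 hB1
      rw [← hZ] at h1
      calc C₁ * (F.qq * F.D) ^ A₁ * Y * Z ^ (-δ) * (1 + l) ^ A₁
          = C₁ * (F.qq * F.D) ^ A₁ * Y * ((1 + l) ^ A₁ * Z ^ (-δ)) := by ring
        _ ≤ C₁ * (F.qq * F.D) ^ A₁ * Y * (2 ^ A₁ * l⁻¹) := mul_le_mul_of_nonneg_left h1 (by positivity)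
        _ = a₁ * (Y * l⁻¹) := by rw [ha₁]; ring
        _ ≤ a₁ * M := mul_le_mul_of_nonneg_left hYl pa₁
    have bd2 : ∀ x : ℝ, x ≤ C₂ * (F.qq * F.D) ^ A₂ * Y * Z⁻¹ * (1 + Real.log Y) ^ A₂ → x ≤ a₂ * M := by
      intro x hx
      refine hx.trans ?_
      rw [← hle]
      have h1 := dec_small (A := A₂) (B := B₁) (δ := 1) hl1 hB2
      rw [← hZ, Real.rpow_neg_one] at h1
      calc C₂ * (F.qq * F.D) ^ A₂ * Y * Z⁻¹ * (1 + l) ^ A₂
          = C₂ * (F.qq * F.D) ^ A₂ * Y * ((1 + l) ^ A₂ * Z⁻¹) := by ring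
        _ ≤ C₂ * (F.qq * F.D) ^ A₂ * Y * (2 ^ A₂ * l⁻¹) := mul_le_mul_of_nonneg_left h1 (by positivity)
        _ = a₂ * (Y * l⁻¹) := by rw [ha₂]; ring
        _ ≤ a₂ * M := mul_le_mul_of_nonneg_left hYl pa₂
    obtain ⟨Mf, hMf⟩ : ∃ Mf : (Fin X.N → Fin X.w → ZMod X.p) → ℂ, ∀ f, Mf f = ∑ g ∈ F.Fam Finset.univ Y,
        h (F.tot g) * ep X.p (∑ a ∈ g, f a.1 ⬝ᵥ F.E c g a) := ⟨_, fun _ => rfl⟩
    obtain ⟨TT, hTT⟩ : ∃ TT : ℕ → Finset X.Ty → ℂ, ∀ k L, TT k L =
        if k = 0 then ∑ f ∈ X.FF Finset.univ, (if X.al Finset.univ f = L then Mf f else 0) else 0 :=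
      ⟨_, fun _ _ => rfl⟩
    have p1 : 0 ≤ a₁ * M := by positivity
    have p2 : 0 ≤ a₂ * M := by positivity
    have p3 : 0 ≤ a₃ * M := by positivity
    have p5 : 0 ≤ X.N * a₅ * M := by positivity
    have hsum : Cst * M = a₁ * M + a₂ * M + a₃ * M + X.N * a₅ * M := by rw [hCst]; ring
    have hcardN : (Finset.univ : Finset (Fin X.N)).card = X.N := Finset.card_fin _
    have key : ∀ k ≤ m, ∀ L : Finset X.Ty,
        ‖F.SS Finset.univ c h Z R k L (fun _ => True) Y - TT k L‖ ≤ Cst * M := by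
      intro k hk L
      rw [hsum]
      by_cases hA : ∃ f ∈ X.FF Finset.univ, L = X.al Finset.univ f
      · obtain ⟨f, hf, hLf⟩ := hA
        subst hLf
        have hTf : TT k (X.al Finset.univ f) = if k = 0 then Mf f else 0 := by
          rw [hTT]
          by_cases hk0 : k = 0
          · rw [if_pos hk0, if_pos hk0, Finset.sum_eq_single f]
            · rw [if_pos rfl]
            · intro f' hf' hne
              rw [if_neg]
              intro h0
              exact hne (al_inj f' f hf' h0)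
            · intro h0
              exact absurd hf h0
          · rw [if_neg hk0, if_neg hk0]
        rw [ss_split F.toFr0 Finset.univ c h Z R k _ (fun σ => F.U σ = ∅) Y, add_sub_assoc]
        have hUnl : X.Unl (X.al Finset.univ f) := by
          intro τ hτ τ' hτ'
          unfold CD.lk
          rw [not_not]
          have h1 := hf
          unfold CD.FF at h1
          rw [Finset.mem_filter] at h1
          rw [(mem_al f τ).1 hτ, (mem_al f τ').1 hτ']
          exact h1.2.2.2 τ.1.1 (Finset.mem_univ _) τ'.1.1 (Finset.mem_univ _)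
        have h3 := bd2 _ (hu F le_rfl Finset.univ c h hh Z R k (X.al Finset.univ f)
          (fun σ => ¬ F.U σ = ∅) f hZ1 le_rfl hUnl
          (fun τ hτ => ⟨τ, hτ, Prod.ext rfl ((mem_al f τ).1 hτ)⟩)
          (fun σ hσ h1 h2 h3 _ κ => ntb F Finset.univ hX c f hf σ hσ h1 h2 h3 κ) Y (by linarith))
        have h4 : ‖F.SS Finset.univ c h Z R k (X.al Finset.univ f) (fun σ => F.U σ = ∅) Y -
            TT k (X.al Finset.univ f)‖ ≤ X.N * a₅ * M := by
          rw [hTf]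
          by_cases hk0 : k = 0
          · subst hk0
            rw [if_pos rfl, ss_al F f hf c h Z hZ1 R Y, hMf, ← Finset.sum_filter_add_sum_filter_not
              (F.Fam Finset.univ Y) (fun g => ∀ i, lv Z R 1 < F.nrl (g.filter fun a => a.1 = i)),
              ← sub_sub, sub_self, zero_sub, norm_neg]
            refine (norm_sum_le _ _).trans ((Finset.sum_le_card_nsmul _ _ (1 : ℝ) fun g _ => ?_).trans ?_)
            · rw [norm_mul, ep_norm, mul_one]
              exact hh _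
            rw [nsmul_eq_mul, mul_one]
            have h5 : (F.Fam Finset.univ Y).filter (fun g => ¬ ∀ i, lv Z R 1 < F.nrl (g.filter fun a => a.1 = i)) ⊆
                Finset.univ.biUnion fun i => (F.Fam Finset.univ Y).filter
                  fun g => F.nrl (g.filter fun a => a.1 = i) ≤ lv Z R 1 := by
              intro g hg
              rw [Finset.mem_filter] at hg
              obtain ⟨h6, h7⟩ := hg
              push Not at h7
              obtain ⟨i, hi⟩ := h7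
              exact Finset.mem_biUnion.2 ⟨i, Finset.mem_univ _, Finset.mem_filter.2 ⟨h6, hi⟩⟩
            have h8 : (((F.Fam Finset.univ Y).filter (fun g => ¬ ∀ i, lv Z R 1 <
                F.nrl (g.filter fun a => a.1 = i))).card : ℝ) ≤
                ∑ i : Fin X.N, (((F.Fam Finset.univ Y).filter
                  fun g => F.nrl (g.filter fun a => a.1 = i) ≤ lv Z R 1).card : ℝ) := by
              exact_mod_cast (Finset.card_le_card h5).trans Finset.card_biUnion_le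
            refine h8.trans ?_
            have h9 : ∀ i ∈ (Finset.univ : Finset (Fin X.N)), (((F.Fam Finset.univ Y).filter
                  fun g => F.nrl (g.filter fun a => a.1 = i) ≤ lv Z R 1).card : ℝ) ≤ a₅ * M := by
              intro i _
              have h10 := hv F le_rfl Finset.univ i (Finset.mem_univ i) (lv Z R 1) (hlv1 1) Y hY3
              rw [hcardN, ← hlDe, ← hle, ← hT] at h10
              refine h10.trans ?_
              rw [ha₅]
              exact few 1 (by omega) A₅ (by omega) C₅ (by linarith)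
            refine (Finset.sum_le_card_nsmul _ _ _ h9).trans (le_of_eq ?_)
            rw [nsmul_eq_mul, hcardN]
            ring
          · rw [if_neg hk0, ss_pos F _ c h Z hZ1 R k (Nat.pos_of_ne_zero hk0) Y, sub_zero, norm_zero]
            exact p5
        refine (norm_add_le _ _).trans ?_
        linarith
      · have hT0' : TT k L = 0 := by
          rw [hTT]
          split_ifs with hk0
          · refine Finset.sum_eq_zero fun f hf => ?_
            rw [if_neg]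
            intro h0
            exact hA ⟨f, hf, h0.symm⟩
          · rfl
        rw [hT0', sub_zero]
        by_cases hlk : ∃ τ ∈ L, ∃ τ' ∈ L, X.lk τ τ'
        · have h2 := bd1 _ (hl F le_rfl Finset.univ c h hh Z R k L (fun _ => True) hZ1 hR hlk Y (by linarith))
          linarith
        have hU : X.Unl L := by
          intro τ hτ τ' hτ' h0
          exact hlk ⟨τ, hτ, τ', hτ', h0⟩
        obtain ⟨f, hf, hf0⟩ := ex_f L
        by_cases htwo : ∃ τ₁ ∈ L, ∃ τ₂ ∈ L, τ₁ ≠ τ₂ ∧ τ₁.1.1 = τ₂.1.1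
        · obtain ⟨τ₁, h1, τ₂, h2, hne, hcl⟩ := htwo
          have h3 := bd2 _ (hu F le_rfl Finset.univ c h hh Z R k L (fun _ => True) f hZ1 le_rfl hU hf
            (fun σ hσ _ _ _ hS κ => nta F Finset.univ hX c L hU f τ₁ τ₂ h1 h2 hne hcl (Finset.mem_univ _) σ hσ hS κ)
            Y (by linarith))
          linarith
        have hdist : ∀ τ ∈ L, ∀ τ' ∈ L, τ.1.1 = τ'.1.1 → τ = τ' := by
          intro τ hτ τ' hτ' he
          by_contra hne
          exact htwo ⟨τ, hτ, τ', hτ', hne, he⟩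
        have hcard : (X.kl L).card = L.card :=
          Finset.card_image_of_injOn fun τ hτ τ' hτ' he => hdist τ hτ τ' hτ' he
        rcases lt_or_ge L.card (Finset.univ : Finset (Fin X.N)).card with hlt | hge
        · have h3 := hw F le_rfl Finset.univ c h hh Z R k L (fun _ => True) hZ1 hR hdist hlt Y hY3
          rw [hcardN, ← hlDe, ← hle, ← hT] at h3
          have h4 := few k (by omega) A₃ (by omega) C₃ (by linarith)
          rw [← ha₃] at h4
          linarith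
        · exfalso
          have hkJ : X.kl L = Finset.univ :=
            Finset.eq_of_subset_of_card_le (Finset.subset_univ _) (by rw [hcard]; exact hge)
          obtain ⟨hFF, hal⟩ := al_eq Finset.univ L hdist hU hkJ f hf hf0
          exact hA ⟨f, hFF, hal⟩
    have hexp : (∑ u ∈ F.TF Finset.univ Y, if F.Sp c (F.cls (F.U u)) then
        h (F.tot (F.U u)) * ep X.p (F.Ph c u) else 0) = ∑ k ∈ Finset.range (m + 1), ∑ L : Finset X.Ty,
        F.SS Finset.univ c h Z R k L (fun _ => True) Y := by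
      rw [lev F.toFr0 Finset.univ Z hZ1 R hR Y, ← hm]
      refine Finset.sum_congr rfl fun k _ => Finset.sum_congr rfl fun L _ => ?_
      unfold Fr0.SS
      refine Finset.sum_congr rfl fun u _ => ?_
      by_cases h1 : F.Cnd Z R k L u
      · by_cases h2 : F.Sp c (F.cls (F.U u))
        · rw [if_pos h1, if_pos h2, if_pos ⟨h1, trivial, h2⟩]
        · rw [if_pos h1, if_neg h2, if_neg fun h0 => h2 h0.2.2]
      · rw [if_neg h1, if_neg fun h0 => h1 h0.1]
    have hTs : ∑ f ∈ X.FF Finset.univ, ∑ g ∈ F.Fam Finset.univ Y,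
        h (F.tot g) * ep X.p (∑ a ∈ g, f a.1 ⬝ᵥ F.E c g a) =
        ∑ k ∈ Finset.range (m + 1), ∑ L : Finset X.Ty, TT k L := by
      symm
      rw [Finset.sum_eq_single 0]
      · have h1 : ∀ L : Finset X.Ty, TT 0 L =
            ∑ f ∈ X.FF Finset.univ, (if X.al Finset.univ f = L then Mf f else 0) := by
          intro L
          rw [hTT, if_pos rfl]
        rw [Finset.sum_congr rfl fun L _ => h1 L, Finset.sum_comm]
        refine Finset.sum_congr rfl fun f _ => ?_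
        rw [Finset.sum_ite_eq, if_pos (Finset.mem_univ _), hMf]
      · intro k _ hk0
        refine Finset.sum_eq_zero fun L _ => ?_
        rw [hTT, if_neg hk0]
      · intro h0
        exact absurd (Finset.mem_range.2 (Nat.succ_pos m)) h0
    rw [hexp, hTs, ← Finset.sum_sub_distrib]
    have hfin : (m + 1 : ℝ) * 2 ^ m * (Cst * (Y * Real.log Y ^ (X.N - 1) * (Real.sqrt (Real.log Y))⁻¹)) =
        (m + 1) * 2 ^ m * (Cst * M) := by
      rw [hM, hT, hle]
    rw [hfin]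
    calc ‖∑ k ∈ Finset.range (m + 1), (∑ L : Finset X.Ty, F.SS Finset.univ c h Z R k L (fun _ => True) Y -
          ∑ L : Finset X.Ty, TT k L)‖
        ≤ ∑ k ∈ Finset.range (m + 1), ‖∑ L : Finset X.Ty, F.SS Finset.univ c h Z R k L (fun _ => True) Y -
          ∑ L : Finset X.Ty, TT k L‖ := norm_sum_le _ _
      _ ≤ ∑ k ∈ Finset.range (m + 1), ((2 : ℝ) ^ m * (Cst * M)) := by
          refine Finset.sum_le_sum fun k hk => ?_
          have hk' : k ≤ m := Nat.lt_succ_iff.1 (Finset.mem_range.1 hk)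
          rw [← Finset.sum_sub_distrib]
          refine (norm_sum_le _ _).trans ?_
          refine (Finset.sum_le_card_nsmul _ _ (Cst * M) fun L _ => key k hk' L).trans (le_of_eq ?_)
          rw [nsmul_eq_mul, Finset.card_univ, Fintype.card_finset, ← hm]
          push_cast
          ring
      _ = (m + 1) * 2 ^ m * (Cst * M) := by
          rw [Finset.sum_const, Finset.card_range, nsmul_eq_mul]
          push_cast
          ring
  -- the limit
  have hlim : Tendsto (fun Y : ℝ => (m + 1) * 2 ^ m * Cst * (Real.sqrt (Real.log Y))⁻¹) atTop (𝓝 0) := by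
    have h1 : Tendsto (fun Y : ℝ => (Real.sqrt (Real.log Y))⁻¹) atTop (𝓝 0) :=
      tendsto_inv_atTop_zero.comp (Real.tendsto_sqrt_atTop.comp Real.tendsto_log_atTop)
    have h2 := h1.const_mul ((m + 1) * 2 ^ m * Cst)
    rwa [mul_zero] at h2
  refine squeeze_zero_norm' ?_ hlim
  filter_upwards [eventually_ge_atTop (max 3 Y₀)] with Y hY
  have hY3 : 3 ≤ Y := (le_max_left _ _).trans hY
  have hl1 : 1 ≤ Real.log Y := by
    rw [Real.le_log_iff_exp_le (by linarith)]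
    have := Real.exp_one_lt_d9
    linarith
  have hG : 0 < Y * Real.log Y ^ (X.N - 1) := by positivity
  rw [norm_div, Complex.norm_real, Real.norm_of_nonneg hG.le, div_le_iff₀ hG]
  refine (fin Y hY).trans (le_of_eq ?_)
  ring

end H51.MM
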