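import Pool.Agent.H51.MM.TDef

/-!
# [H51 MM WT] The weights are nonnegative (50-80 lines)

For a finite set `Θ` of vectors containing `0` and closed under subtraction (`X.Th i`; so it is a subgroup) and a vector `z`:
`∑_{ψ ∈ Θ} ep (ψ ⬝ᵥ z)` is `#Θ` if `ψ ⬝ᵥ z = 0` for all `ψ ∈ Θ`, and `0` otherwise (translate by a `ψ₀` with `ψ₀ ⬝ᵥ z ≠ 0`: the sum `s` satisfies
`s = ep (ψ₀ ⬝ᵥ z) s`, `ep_eq_one`). `#Θ ≤ p ^ w`. `fs_le`: `‖FS J h Y‖ ≤ ∑ ∑ ‖h‖ wt ≤ (FS J 1 Y).re`.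
-/

set_option autoImplicit false

open scoped NumberField
open IsDedekindDomain NumberField H63.MA H36.QA Filter Topology
open scoped Classical

noncomputable section

namespace H51.MM

variable {X : CD} {K : Type} [Field K] [NumberField K]


/-- character sums over the subgroups `Th i` -/
private theorem wt_sum (X : CD) (i : Fin X.N) (z : Fin X.w → ZMod X.p) :
    ∃ r : ℝ, (∑ ψ ∈ X.Th i, ep X.p (ψ ⬝ᵥ z)) = (r : ℂ) ∧ 0 ≤ r ∧ r ≤ (X.p : ℝ) ^ X.w := by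
  by_cases h : ∀ ψ ∈ X.Th i, ψ ⬝ᵥ z = 0
  · refine ⟨((X.Th i).card : ℝ), ?_, Nat.cast_nonneg _, ?_⟩
    · rw [Finset.sum_congr rfl fun ψ hψ => by rw [h ψ hψ, ep_zero]]
      rw [Finset.sum_const, nsmul_eq_mul, mul_one]
      push_cast
      rfl
    · have h1 : (X.Th i).card ≤ X.p ^ X.w := by
        refine (Finset.card_le_univ _).trans (le_of_eq ?_)
        rw [Fintype.card_fun, ZMod.card, Fintype.card_fin]
      exact_mod_cast h1
  · push Not at h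
    obtain ⟨ψ₀, h0, h1⟩ := h
    have hneg : (0 - ψ₀) ∈ X.Th i := X.Th_sub i 0 (X.Th_zero i) ψ₀ h0
    have h2 : ∑ ψ ∈ X.Th i, ep X.p ((ψ - ψ₀) ⬝ᵥ z) = ∑ ψ ∈ X.Th i, ep X.p (ψ ⬝ᵥ z) := by
      refine Finset.sum_bij (fun ψ _ => ψ - ψ₀) (fun ψ hψ => X.Th_sub i ψ hψ ψ₀ h0)
        (fun ψ _ ψ' _ h => sub_left_injective h) (fun ψ hψ => ?_) (fun ψ _ => rfl)
      refine ⟨ψ - (0 - ψ₀), X.Th_sub i ψ hψ _ hneg, ?_⟩
      show ψ - (0 - ψ₀) - ψ₀ = ψ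
      abel
    have h3 : ∑ ψ ∈ X.Th i, ep X.p (ψ ⬝ᵥ z) =
        ep X.p (ψ₀ ⬝ᵥ z) * ∑ ψ ∈ X.Th i, ep X.p (ψ ⬝ᵥ z) := by
      conv_rhs => rw [← h2]
      rw [Finset.mul_sum]
      refine Finset.sum_congr rfl fun ψ _ => ?_
      rw [← ep_add X.hp, sub_dotProduct]
      congr 1
      ring
    have h4 : ep X.p (ψ₀ ⬝ᵥ z) ≠ 1 := fun h => h1 ((ep_eq_one X.hp _).1 h)
    have h5 : (1 - ep X.p (ψ₀ ⬝ᵥ z)) * ∑ ψ ∈ X.Th i, ep X.p (ψ ⬝ᵥ z) = 0 := by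
      rw [sub_mul, one_mul, ← h3, sub_self]
    rcases mul_eq_zero.1 h5 with h6 | h6
    · exact absurd (sub_eq_zero.1 h6).symm h4
    · exact ⟨0, by rw [h6, Complex.ofReal_zero], le_rfl, by positivity⟩

theorem wt_re (F : Fr X K) (c : F.C) (g : Finset F.Lb) : ∃ r : ℝ, F.wt c g = (r : ℂ) ∧ 0 ≤ r ∧
    r ≤ ((X.p : ℝ) ^ X.w) ^ g.card := by
  choose r h1 h2 h3 using fun a : F.Lb => wt_sum X a.1 (F.E c g a)
  refine ⟨∏ a ∈ g, r a, ?_, Finset.prod_nonneg fun a _ => h2 a, ?_⟩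
  · unfold Fr0.wt
    rw [Complex.ofReal_prod]
    exact Finset.prod_congr rfl fun a _ => h1 a
  · rw [← Finset.prod_const]
    exact Finset.prod_le_prod (fun a _ => h2 a) fun a _ => h3 a

theorem fs_le (F : Fr X K) (J : Finset (Fin X.N)) (h : F.C → Finset F.Lb → ℂ) (hh : ∀ c g, ‖h c g‖ ≤ 1)
    (Y : ℝ) : ‖F.FS J h Y‖ ≤ ‖F.FS J (fun _ _ => 1) Y‖ := by
  choose r h1 h2 h3 using fun (c : F.C) (g : Finset F.Lb) => wt_re F c g
  obtain ⟨R, hR⟩ : ∃ R : ℝ, R = ∑ g ∈ F.Fam J Y, ∑ c : F.C,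
    if F.Sp c (F.cls g) then r c g else 0 := ⟨_, rfl⟩
  have e1 : F.FS J (fun _ _ => 1) Y = (R : ℂ) := by
    rw [hR]
    unfold Fr0.FS
    rw [Complex.ofReal_sum]
    refine Finset.sum_congr rfl fun g _ => ?_
    rw [Complex.ofReal_sum]
    refine Finset.sum_congr rfl fun c _ => ?_
    split_ifs
    · rw [one_mul, h1]
    · rw [Complex.ofReal_zero]
  have hR0 : 0 ≤ R := by
    rw [hR]
    refine Finset.sum_nonneg fun g _ => Finset.sum_nonneg fun c _ => ?_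
    split_ifs
    · exact h2 c g
    · exact le_rfl
  rw [e1, Complex.norm_real, Real.norm_of_nonneg hR0, hR]
  unfold Fr0.FS
  refine (norm_sum_le _ _).trans (Finset.sum_le_sum fun g _ => ?_)
  refine (norm_sum_le _ _).trans (Finset.sum_le_sum fun c _ => ?_)
  split_ifs
  · rw [norm_mul, h1, Complex.norm_real, Real.norm_of_nonneg (h2 c g)]
    exact mul_le_of_le_one_left (h2 c g) (hh c g)
  · rw [norm_zero]

/-- the value of the weight at a family with vanishing local values -/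
theorem wt_zero (F : Fr X K) (c : F.C) (g : Finset F.Lb) (h : ∀ a ∈ g, F.E c g a = 0) :
    F.wt c g = ((∏ a ∈ g, ((X.Th a.1).card : ℝ) : ℝ) : ℂ) := by
  unfold Fr0.wt
  rw [Complex.ofReal_prod]
  refine Finset.prod_congr rfl fun a ha => ?_
  rw [h a ha]
  simp only [dotProduct_zero, ep_zero, Finset.sum_const, nsmul_eq_mul, mul_one]
  push_cast
  rfl

end H51.MM
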