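import Pool.Agent.H51.MM.LimB
import Pool.Agent.H51.MM.DecF
import Pool.Agent.H51.MM.Wt

/-!
# [H51 MM LIMC] The asymptotic formula for a fixed frame (assembly, 60-90 lines)

`lim0`: `fs_exp`, for every `c` (finitely many): scale `h c` to norm `≤ 1` (finitely many values), `decf` and `limb`. `l = ∑_c l₁ ∑_x h c (∑ x i) Λ_c x`: real; `≥ 0` if `h ≥ 0`; `> 0` if
some term is positive: for `c`, `g` with `E = 0`: `x_i = tot (class i part)`, `∑_i x_i = tot g`, `h c (tot g) Λ_c x > 0`. If `F.C` is empty everything is `0` (`l = 0`).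
`neg0`: the sum is `∑_c ∑_g H c g' [Sp c (cls g)] wt c g ep (κ ⬝ᵥ ..)`, `g'` the part outside class `j₀`: `wt c g = wt c g'` (`Th j₀ = {0}`: factors `1`; for `a ∈ g'`: `E c g a = E c g' a` because `s a b = 0` for
`b` of class `j₀`), `Sp c (cls g) ↔ Sp c (cls g')` (`hSp`, `Sp_mono`; `cls g ⊆ insert j₀ (cls g')`). `ng0` with `W g' = H c g' [Sp c (cls g')] wt c g'`, `P = p ^ w` (`wt_re`), `hW2`:
`∑_{g' ∈ Fam (univ.erase j₀) Y} ‖W g'‖ ≤ ‖FS (univ.erase j₀) (indicator of c) Y‖` (the weights are real `≥ 0`), bounded by `hub`.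
-/

set_option autoImplicit false

open scoped NumberField
open IsDedekindDomain NumberField H63.MA H36.QA Filter Topology
open scoped Classical

noncomputable section

namespace H51.MM

/-- `decf` without a bound for `h` -/
private theorem decf_all (X : CD) (K : Type) [Field K] [NumberField K] (F : Fr X K) (hN : 0 < X.N)
    (hX : X.Cl Finset.univ) (hA1 : AN1 K F.d) (hA2 : AN2 K F.d) (hA3 : AN3a K) (hA4 : AN3b K X.N F.d)
    (c : F.C) (h : (F.R → ZMod X.p) → ℂ) :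
    Tendsto (fun Y : ℝ => ((∑ u ∈ F.TF Finset.univ Y, if F.Sp c (F.cls (F.U u)) then
        h (F.tot (F.U u)) * ep X.p (F.Ph c u) else 0) -
      ∑ f ∈ X.FF Finset.univ, ∑ g ∈ F.Fam Finset.univ Y,
        h (F.tot g) * ep X.p (∑ a ∈ g, f a.1 ⬝ᵥ F.E c g a)) /
        ((Y * Real.log Y ^ (X.N - 1) : ℝ) : ℂ)) atTop (𝓝 0) := by
  set M : ℝ := 1 + ∑ x, ‖h x‖ with hM
  have hM0 : 0 < M := by
    have : 0 ≤ ∑ x, ‖h x‖ := Finset.sum_nonneg fun x _ => norm_nonneg _
    linarith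
  have hMc : (M : ℂ) ≠ 0 := by exact_mod_cast hM0.ne'
  have h1 : ∀ x, ‖h x / (M : ℂ)‖ ≤ 1 := by
    intro x
    rw [norm_div, Complex.norm_real, Real.norm_of_nonneg hM0.le, div_le_one hM0]
    have : ‖h x‖ ≤ ∑ x, ‖h x‖ :=
      Finset.single_le_sum (f := fun x => ‖h x‖) (fun x _ => norm_nonneg _) (Finset.mem_univ x)
    linarith
  have h2 := (decf X K F hN hX hA1 hA2 hA3 hA4 c (fun x => h x / (M : ℂ)) h1).const_mul (M : ℂ)
  rw [mul_zero] at h2
  refine h2.congr fun Y => ?_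
  rw [← mul_div_assoc, mul_sub, Finset.mul_sum, Finset.mul_sum]
  congr 2
  · refine Finset.sum_congr rfl fun u _ => ?_
    split_ifs
    · field_simp
    · simp
  · refine Finset.sum_congr rfl fun f _ => ?_
    rw [Finset.mul_sum]
    refine Finset.sum_congr rfl fun g _ => ?_
    field_simp

theorem lim0 (X : CD) (K : Type) [Field K] [NumberField K] (F : Fr X K) (hN : 0 < X.N)
    (hX : X.Cl Finset.univ) (hA1 : AN1 K F.d) (hA2 : AN2 K F.d) (hA3 : AN3a K) (hA4 : AN3b K X.N F.d)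
    (hA5 : AN4 K) (h : F.C → (F.R → ZMod X.p) → ℝ) :
    ∃ l : ℝ, Tendsto (fun Y : ℝ => F.FS Finset.univ (fun c g => ((h c (F.tot g) : ℝ) : ℂ)) Y /
        ((Y * Real.log Y ^ (X.N - 1) : ℝ) : ℂ)) atTop (𝓝 (l : ℂ)) ∧
      ((∀ c κ, 0 ≤ h c κ) → 0 ≤ l ∧ ((∃ c g, F.Ok g ∧ 0 < h c (F.tot g) ∧ ∀ a ∈ g, F.E c g a = 0) →
        0 < l)) := by
  choose l₁ Λ hl₁ hΛ hΛpos hlim using fun c => limb X K F hN hA1 hA3 hA4 hA5 c
  refine ⟨∑ c, l₁ c * ∑ x, h c (∑ i, x i) * Λ c x, ?_, ?_⟩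
  · have key : ∀ c : F.C, Tendsto (fun Y : ℝ => (∑ u ∈ F.TF Finset.univ Y,
        if F.Sp c (F.cls (F.U u)) then ((h c (F.tot (F.U u)) : ℝ) : ℂ) * ep X.p (F.Ph c u) else 0) /
        ((Y * Real.log Y ^ (X.N - 1) : ℝ) : ℂ)) atTop
        (𝓝 ((l₁ c : ℂ) * ∑ x, ((h c (∑ i, x i) : ℝ) : ℂ) * ((Λ c x : ℝ) : ℂ))) := by
      intro c
      have h1 := decf_all X K F hN hX hA1 hA2 hA3 hA4 c (fun x => ((h c x : ℝ) : ℂ))
      have h2 := hlim c (fun x => ((h c x : ℝ) : ℂ))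
      have h3 := h1.add h2
      rw [zero_add] at h3
      refine h3.congr fun Y => ?_
      rw [← add_div]
      congr 1
      ring
    have hsum := tendsto_finsetSum (Finset.univ : Finset F.C) fun c _ => key c
    have hval : (∑ c, (l₁ c : ℂ) * ∑ x, ((h c (∑ i, x i) : ℝ) : ℂ) * ((Λ c x : ℝ) : ℂ)) =
        ((∑ c, l₁ c * ∑ x, h c (∑ i, x i) * Λ c x : ℝ) : ℂ) := by
      push_cast
      rfl
    rw [hval] at hsum
    refine hsum.congr fun Y => ?_
    rw [← Finset.sum_div, fs_exp]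
  · intro hpos
    have hterm : ∀ c, 0 ≤ l₁ c * ∑ x, h c (∑ i, x i) * Λ c x := fun c =>
      mul_nonneg (hl₁ c).le (Finset.sum_nonneg fun x _ => mul_nonneg (hpos c _) (hΛ c x))
    refine ⟨Finset.sum_nonneg fun c _ => hterm c, ?_⟩
    rintro ⟨c, g, hg, hgh, hE⟩
    refine Finset.sum_pos' (fun c _ => hterm c) ⟨c, Finset.mem_univ c, ?_⟩
    refine mul_pos (hl₁ c) ?_
    refine Finset.sum_pos' (fun x _ => mul_nonneg (hpos c _) (hΛ c x))
      ⟨fun i => F.tot (g.filter fun a => a.1 = i), Finset.mem_univ _, ?_⟩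
    refine mul_pos ?_ (hΛpos c g hg hE)
    have h1 : ∑ i, F.tot (g.filter fun a => a.1 = i) = F.tot g := by
      unfold Fr0.tot
      exact Finset.sum_fiberwise g (fun a => a.1) F.qv
    rw [h1]
    exact hgh

section neg

variable {X : CD} {K : Type} [Field K] [NumberField K] (F : Fr X K) (j₀ : Fin X.N)

private theorem e_filter (hs : ∀ a b : F.Lb, a.1 = j₀ ∨ b.1 = j₀ → F.s a b = 0) (c : F.C)
    (g : Finset F.Lb) (a : F.Lb) :
    F.E c g a = F.E c (g.filter fun a => a.1 ≠ j₀) a := by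
  unfold Fr0.E
  congr 1
  symm
  refine Finset.sum_subset (Finset.erase_subset_erase _ (Finset.filter_subset _ _)) ?_
  intro b hb hb'
  refine hs a b (Or.inr ?_)
  by_contra hne
  apply hb'
  rw [Finset.mem_erase] at hb ⊢
  exact ⟨hb.1, Finset.mem_filter.2 ⟨hb.2, hne⟩⟩

private theorem wt_filter (hT : X.Th j₀ = {0}) (hs : ∀ a b : F.Lb, a.1 = j₀ ∨ b.1 = j₀ → F.s a b = 0)
    (c : F.C) (g : Finset F.Lb) : F.wt c g = F.wt c (g.filter fun a => a.1 ≠ j₀) := by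
  unfold Fr0.wt
  rw [Finset.prod_filter]
  refine Finset.prod_congr rfl fun a ha => ?_
  split_ifs with h
  · refine Finset.sum_congr rfl fun ψ _ => ?_
    rw [← e_filter F j₀ hs c g a]
  · have h' : a.1 = j₀ := by
      by_contra h'
      exact h h'
    rw [h', hT, Finset.sum_singleton, zero_dotProduct, ep_zero]

private theorem sp_filter (hSp : ∀ c J, F.Sp c (insert j₀ J) → F.Sp c J) (c : F.C) (g : Finset F.Lb) :
    F.Sp c (F.cls g) ↔ F.Sp c (F.cls (g.filter fun a => a.1 ≠ j₀)) := by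
  constructor
  · intro h
    apply hSp
    refine F.Sp_mono c _ _ ?_ h
    intro i hi
    unfold Fr0.cls at hi ⊢
    rw [Finset.mem_image] at hi
    obtain ⟨a, ha, rfl⟩ := hi
    by_cases h0 : a.1 = j₀
    · rw [h0]
      exact Finset.mem_insert_self _ _
    · exact Finset.mem_insert_of_mem (Finset.mem_image.2 ⟨a, Finset.mem_filter.2 ⟨ha, h0⟩, rfl⟩)
  · intro h
    exact F.Sp_mono c _ _ (Finset.image_subset_image (Finset.filter_subset _ _)) h

end neg

theorem neg0 (X : CD) (K : Type) [Field K] [NumberField K] (F : Fr X K) (hA1 : AN1 K F.d) (hA3 : AN3a K)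
    (j₀ : Fin X.N) (hT : X.Th j₀ = {0}) (hs : ∀ a b : F.Lb, a.1 = j₀ ∨ b.1 = j₀ → F.s a b = 0)
    (hSp : ∀ c J, F.Sp c (insert j₀ J) → F.Sp c J)
    (hub : X.N = 1 ∨ ∃ C : ℝ, ∀ Y : ℝ, 3 ≤ Y → ∀ h : F.C → Finset F.Lb → ℂ, (∀ c g, ‖h c g‖ ≤ 1) →
      ‖F.FS (Finset.univ.erase j₀) h Y‖ ≤ C * (Y * Real.log Y ^ (X.N - 2)))
    (κ : F.R → ZMod X.p) (hκ : F.NT j₀ fun a => κ ⬝ᵥ F.qv a) (H : F.C → Finset F.Lb → ℂ)
    (hH : ∀ c g, ‖H c g‖ ≤ 1) :
    Tendsto (fun Y : ℝ => F.FS Finset.univ (fun c g => H c (g.filter fun a => a.1 ≠ j₀) *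
        ep X.p (κ ⬝ᵥ ∑ a ∈ g.filter (fun a => a.1 = j₀), F.qv a)) Y /
        ((Y * Real.log Y ^ (X.N - 1) : ℝ) : ℂ)) atTop (𝓝 0) := by
  have hp1 : (1 : ℝ) ≤ (X.p : ℝ) ^ X.w := by
    apply one_le_pow₀
    exact_mod_cast X.hp.one_lt.le
  set W : F.C → Finset F.Lb → ℂ := fun c g => if F.Sp c (F.cls g) then H c g * F.wt c g else 0 with hW
  have hW1 : ∀ c g, ‖W c g‖ ≤ ((X.p : ℝ) ^ X.w) ^ g.card := by
    intro c g
    simp only [hW]
    split_ifs
    · obtain ⟨r, hr, hr0, hr1⟩ := wt_re F c g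
      rw [norm_mul, hr, Complex.norm_real, Real.norm_of_nonneg hr0]
      calc ‖H c g‖ * r ≤ 1 * r := mul_le_mul_of_nonneg_right (hH c g) hr0
        _ = r := one_mul r
        _ ≤ _ := hr1
    · rw [norm_zero]
      positivity
  have hW2 : ∀ c : F.C, X.N = 1 ∨ ∃ C : ℝ, ∀ Y : ℝ, 3 ≤ Y →
      ∑ g ∈ F.Fam (Finset.univ.erase j₀) Y, ‖W c g‖ ≤ C * (Y * Real.log Y ^ (X.N - 2)) := by
    intro c
    rcases hub with hub | ⟨C, hC⟩
    · exact Or.inl hub
    · refine Or.inr ⟨C, fun Y hY => ?_⟩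
      have h1 := hC Y hY (fun c' _ => if c' = c then 1 else 0) (by
        intro c' g
        split_ifs <;> simp)
      refine le_trans ?_ h1
      have h2 : F.FS (Finset.univ.erase j₀) (fun c' _ => if c' = c then 1 else 0) Y =
          ((∑ g ∈ F.Fam (Finset.univ.erase j₀) Y,
            (if F.Sp c (F.cls g) then (F.wt c g).re else 0) : ℝ) : ℂ) := by
        unfold Fr0.FS
        rw [Complex.ofReal_sum]
        refine Finset.sum_congr rfl fun g _ => ?_
        rw [Finset.sum_eq_single c]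
        · dsimp only
          rw [if_pos rfl, one_mul]
          split_ifs
          · obtain ⟨r, hr, -, -⟩ := wt_re F c g
            rw [hr, Complex.ofReal_re]
          · simp
        · intro c' _ hne
          dsimp only
          rw [if_neg hne, zero_mul, ite_self]
        · intro hn
          exact absurd (Finset.mem_univ c) hn
      rw [h2, Complex.norm_real]
      refine le_trans ?_ (le_abs_self _)
      refine Finset.sum_le_sum fun g _ => ?_
      simp only [hW]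
      split_ifs
      · obtain ⟨r, hr, hr0, -⟩ := wt_re F c g
        rw [norm_mul, hr, Complex.norm_real, Real.norm_of_nonneg hr0, Complex.ofReal_re]
        calc ‖H c g‖ * r ≤ 1 * r := mul_le_mul_of_nonneg_right (hH c g) hr0
          _ = r := one_mul r
      · rw [norm_zero]
  have key : ∀ c : F.C, Tendsto (fun Y : ℝ => (∑ g ∈ F.Fam Finset.univ Y,
      W c (g.filter fun a => a.1 ≠ j₀) * ep X.p (κ ⬝ᵥ ∑ a ∈ g.filter (fun a => a.1 = j₀), F.qv a)) /
        ((Y * Real.log Y ^ (X.N - 1) : ℝ) : ℂ)) atTop (𝓝 0) := fun c =>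
    ng0 X K F hA1 hA3 c j₀ κ hκ (W c) ((X.p : ℝ) ^ X.w) hp1 (hW1 c) (hW2 c)
  have hsum := tendsto_finsetSum (Finset.univ : Finset F.C) fun c _ => key c
  rw [Finset.sum_const_zero] at hsum
  refine hsum.congr fun Y => ?_
  rw [← Finset.sum_div]
  congr 1
  unfold Fr0.FS
  rw [Finset.sum_comm]
  refine Finset.sum_congr rfl fun g _ => Finset.sum_congr rfl fun c _ => ?_
  simp only [hW]
  by_cases h1 : F.Sp c (F.cls g)
  · rw [if_pos h1, if_pos ((sp_filter F j₀ hSp c g).1 h1), wt_filter F j₀ hT hs c g]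
    ring
  · rw [if_neg h1, if_neg (fun h2 => h1 ((sp_filter F j₀ hSp c g).2 h2)), zero_mul]

end H51.MM
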