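import Pool.Agent.H51.MM.Ubf
import Pool.Agent.H51.MM.LimC

/-!
# H51/MM/LIM: the asymptotic formula for the weighted sums of a fixed frame
-/

set_option autoImplicit false

open scoped NumberField
open IsDedekindDomain NumberField H63.MA H36.QA Filter Topology
open scoped Classical

noncomputable section

namespace H51.MM

theorem lim (X : CD) (K : Type) [Field K] [NumberField K] (F : Fr X K)
    (hN : 0 < X.N) (hX : X.Cl Finset.univ) (h : F.C → (F.R → ZMod X.p) → ℝ) :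
    ∃ l : ℝ, Tendsto (fun Y : ℝ => F.FS Finset.univ (fun c g => ((h c (F.tot g) : ℝ) : ℂ)) Y /
        ((Y * Real.log Y ^ (X.N - 1) : ℝ) : ℂ)) atTop (𝓝 (l : ℂ)) ∧
      ((∀ c κ, 0 ≤ h c κ) → 0 ≤ l ∧ ((∃ c g, F.Ok g ∧ 0 < h c (F.tot g) ∧ ∀ a ∈ g, F.E c g a = 0) → 0 < l)) :=
  lim0 X K F hN hX (H57.AN.i1 K F.d) (H57.AN.i2 K F.d) (H57.AN.i3a K) (H57.AN.i3b K X.N F.d)
    (H57.AN.i4 K) h

/-- a nontrivial character on a class without interactions makes the sum negligible, whatever the other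
labels carry -/
theorem neg (X : CD) (K : Type) [Field K] [NumberField K] (F : Fr X K)
    (hX : X.Cl Finset.univ) (j₀ : Fin X.N) (hj : ∀ j θ, X.van j₀ j θ) (hT : X.Th j₀ = {0})
    (hs : ∀ a b : F.Lb, a.1 = j₀ ∨ b.1 = j₀ → F.s a b = 0)
    (hSp : ∀ c J, F.Sp c (insert j₀ J) → F.Sp c J)
    (κ : F.R → ZMod X.p) (hκ : F.NT j₀ fun a => κ ⬝ᵥ F.qv a) (H : F.C → Finset F.Lb → ℂ)
    (hH : ∀ c g, ‖H c g‖ ≤ 1) :
    Tendsto (fun Y : ℝ => F.FS Finset.univ (fun c g => H c (g.filter fun a => a.1 ≠ j₀) *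
        ep X.p (κ ⬝ᵥ ∑ a ∈ g.filter (fun a => a.1 = j₀), F.qv a)) Y /
        ((Y * Real.log Y ^ (X.N - 1) : ℝ) : ℂ)) atTop (𝓝 0) := by
  refine neg0 X K F (H57.AN.i1 K F.d) (H57.AN.i3a K) j₀ hT hs hSp ?_ κ hκ H hH
  have hc : (Finset.univ.erase j₀).card = X.N - 1 := by
    rw [Finset.card_erase_of_mem (Finset.mem_univ _), Finset.card_univ, Fintype.card_fin]
  rcases Nat.lt_or_ge 1 X.N with hN | hN
  · right
    have hcl : X.Cl (Finset.univ.erase j₀) := by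
      intro i _ θ hθ h
      refine hX i (Finset.mem_univ _) θ hθ fun j _ => ?_
      by_cases hjj : j = j₀
      · rw [hjj]
        exact X.van_symm _ _ _ (hj i θ)
      · exact h j (Finset.mem_erase.2 ⟨hjj, Finset.mem_univ _⟩)
    obtain ⟨C, B, -, h⟩ := ubf X K F.d
    refine ⟨C * F.qq ^ B * Real.log (3 + F.D) ^ B, fun Y hY f hf => ?_⟩
    have h1 := h F le_rfl (Finset.univ.erase j₀) (Finset.card_pos.1 (by omega)) hcl Y hY f hf
    rw [hc, Nat.sub_sub] at h1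
    exact h1
  · left
    have := j₀.2
    omega

end H51.MM
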