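import Pool.Agent.H51.MM.UbB
import Pool.Agent.H57.AN.Ifb

/-!
# H51/MM/UBF: the upper bound for the weighted sums of a frame, uniform in the frame
-/

set_option autoImplicit false

open scoped NumberField
open IsDedekindDomain NumberField H63.MA H36.QA
open scoped Classical

noncomputable section

namespace H51.MM

theorem ubf (X : CD) (K : Type) [Field K] [NumberField K] (d : ℕ) : ∃ (C : ℝ) (B : ℕ), 1 ≤ C ∧
    ∀ (F : Fr X K), F.d ≤ d → ∀ J : Finset (Fin X.N), J.Nonempty → X.Cl J → ∀ Y : ℝ, 3 ≤ Y →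
      ∀ h : F.C → Finset F.Lb → ℂ, (∀ c g, ‖h c g‖ ≤ 1) →
        ‖F.FS J h Y‖ ≤ C * F.qq ^ B * Real.log (3 + F.D) ^ B * (Y * Real.log Y ^ (J.card - 1)) := by
  obtain ⟨C, B, hC, h⟩ := ubb X K d (H57.AN.i1 K d) (H57.AN.i2 K d) (H57.AN.i3a K) (H57.AN.i3b K X.N d)
  refine ⟨C * 2 ^ B, B, one_le_mul_of_one_le_of_one_le hC (one_le_pow₀ (by norm_num)), ?_⟩
  intro F hF J hJ hcl Y hY f hf
  refine (h F hF J hJ hcl Y hY f hf).trans ?_
  have hD := F.one_le_D
  have hq := F.one_le_qq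
  have hlY : 0 ≤ Real.log Y := Real.log_nonneg (by linarith)
  have h1 : 1 ≤ Real.log (3 + F.D) := by
    rw [Real.le_log_iff_exp_le (by linarith)]
    have := Real.exp_one_lt_d9
    linarith
  have h2 : Real.log F.D ≤ Real.log (3 + F.D) := Real.log_le_log (by linarith) (by linarith)
  have h3 : 0 ≤ Real.log F.D := Real.log_nonneg hD
  have h4 : (1 + Real.log F.D) ^ B ≤ (2 * Real.log (3 + F.D)) ^ B :=
    pow_le_pow_left₀ (by linarith) (by linarith) _
  calc C * F.qq ^ B * (1 + Real.log F.D) ^ B * (Y * Real.log Y ^ (J.card - 1))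
      ≤ C * F.qq ^ B * (2 * Real.log (3 + F.D)) ^ B * (Y * Real.log Y ^ (J.card - 1)) := by
        gcongr
    _ = C * 2 ^ B * F.qq ^ B * Real.log (3 + F.D) ^ B * (Y * Real.log Y ^ (J.card - 1)) := by
        rw [mul_pow]
        ring

end H51.MM
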