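import Pool.Agent.H51.MM.Fmc
import Pool.Agent.H51.MM.Lev

/-!
# [H51 MM FEW] Configurations with fewer large types than classes (100-150 lines)

`fewa`: `‖SS‖ ≤` the number of `u ∈ TF J Y` with `Cnd Z R k L u`. Put `y = lv Z R k`, `σ = rs Lᶜ u`: all sizes `≤ y`, `nrt σ ≤ y ^ #Ty`. If `L = ∅`: at most
`∑_{u ∈ TF J (y ^ #Ty)} 1 ≤ C y ^ #Ty (1 + log (y ^ #Ty)) ^ A ≤ C' y ^ A'` (`trv`, `c = 1`; `1 + log t ≤ 1 + t ≤ 2 t`). If `L ≠ ∅` (then `J.card ≥ 2`): the classes of `L` are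
different, so for fixed `σ` the part `rs L u` corresponds to a family with classes in `kl L` and norm `≤ Y / nrt σ`:
at most `C (1 + log D)^A 3 (Y / nrt σ) (log Y) ^ (#L - 1)` (`fam_card`, for `Y / nrt σ < 3` use the bound at `3`; `log Y ≥ 1`), and
`∑_σ 1 / nrt σ ≤ C (1 + log (y ^ #Ty)) ^ A` (`trv` with `Y = y ^ #Ty`). `#L - 1 ≤ J.card - 2`; write `(log Y) ^ (J.card - 1) / log Y`.
(If a class of `L` is not in `J` the sum is empty.)
`fewb`: the same for families: `g = (class i part) ∪ (rest)`, rest in `Fam (J.erase i) (Y / nrl)`.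
-/

set_option autoImplicit false

open scoped NumberField
open IsDedekindDomain NumberField H63.MA H36.QA Filter Topology
open scoped Classical

noncomputable section

namespace H51.MM

variable {X : CD} {K : Type} [Field K] [NumberField K]


private theorem fw_log3 : 1 ≤ Real.log 3 := by
  rw [Real.le_log_iff_exp_le (by norm_num)]
  exact Real.exp_one_lt_three.le

private theorem fw_logY {Y : ℝ} (hY : 3 ≤ Y) : 1 ≤ Real.log Y :=
  fw_log3.trans (Real.log_le_log (by norm_num) hY)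

private theorem fw_mono (F : Fr0 X K) {J J' : Finset (Fin X.N)} (hJ : J ⊆ J') {Y Y' : ℝ}
    (hY : Y ≤ Y') : F.Fam J Y ⊆ F.Fam J' Y' := by
  intro g hg
  rw [F.mem_Fam] at hg ⊢
  exact ⟨hg.1, hg.2.1.trans hJ, hg.2.2.trans hY⟩

/-- the bound for the number of families, all sizes -/
private theorem fw_fam (F : Fr X K) (J : Finset (Fin X.N)) {B : ℝ} (hB : 0 ≤ B)
    (h : ∀ Y : ℝ, 3 ≤ Y → ((F.Fam J Y).card : ℝ) ≤ B * (Y * Real.log Y ^ (J.card - 1)))
    (Y t : ℝ) (hY : 3 ≤ Y) (ht : 1 ≤ t) (m : ℕ) (hm : J.card - 1 ≤ m) :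
    ((F.Fam J (Y / t)).card : ℝ) ≤ 3 * B * (Y * Real.log Y ^ m) * (1 / t) := by
  have ht0 : 0 < t := by linarith
  have hl := fw_logY hY
  have hl0 : 0 ≤ Real.log Y := zero_le_one.trans hl
  have hYt : 0 < Y / t := by positivity
  have e1 : 3 * B * (Y * Real.log Y ^ m) * (1 / t) = B * (3 * (Y / t) * Real.log Y ^ m) := by
    ring
  rw [e1]
  rcases lt_or_ge (Y / t) 1 with h1 | h1
  · have h2 : F.Fam J (Y / t) = ∅ := by
      rw [Finset.eq_empty_iff_forall_notMem]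
      intro g hg
      rw [F.mem_Fam] at hg
      have h3 := F.one_le_nrl g
      linarith [hg.2.2]
    rw [h2, Finset.card_empty, Nat.cast_zero]
    positivity
  rcases lt_or_ge (Y / t) 3 with h2 | h2
  · have h3 : ((F.Fam J (Y / t)).card : ℝ) ≤ ((F.Fam J 3).card : ℝ) := by
      exact_mod_cast Finset.card_le_card (fw_mono F.toFr0 (Finset.Subset.refl J) h2.le)
    have h4 := h 3 le_rfl
    have h5 : Real.log 3 ^ (J.card - 1) ≤ Real.log Y ^ m :=
      (pow_le_pow_left₀ (zero_le_one.trans fw_log3) (Real.log_le_log (by norm_num) hY) _).trans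
        (pow_le_pow_right₀ hl hm)
    refine h3.trans (h4.trans (mul_le_mul_of_nonneg_left ?_ hB))
    have h6 : (0 : ℝ) ≤ Real.log Y ^ m := by positivity
    calc (3 : ℝ) * Real.log 3 ^ (J.card - 1) ≤ 3 * Real.log Y ^ m :=
          mul_le_mul_of_nonneg_left h5 (by norm_num)
      _ ≤ 3 * (Y / t) * Real.log Y ^ m := by
          refine mul_le_mul_of_nonneg_right ?_ h6
          linarith
  · have h4 := h (Y / t) h2
    have h7 : Y / t ≤ Y := div_le_self (by linarith) ht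
    have h5 : Real.log (Y / t) ^ (J.card - 1) ≤ Real.log Y ^ m :=
      (pow_le_pow_left₀ (zero_le_one.trans (fw_logY h2)) (Real.log_le_log hYt h7) _).trans
        (pow_le_pow_right₀ hl hm)
    refine h4.trans (mul_le_mul_of_nonneg_left ?_ hB)
    have h6 : (0 : ℝ) ≤ Real.log Y ^ m := by positivity
    calc Y / t * Real.log (Y / t) ^ (J.card - 1) ≤ Y / t * Real.log Y ^ m :=
          mul_le_mul_of_nonneg_left h5 hYt.le
      _ ≤ 3 * (Y / t) * Real.log Y ^ m := by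
          refine mul_le_mul_of_nonneg_right ?_ h6
          linarith

private theorem fw_lin {y : ℝ} (hy : 1 ≤ y) (T : ℕ) :
    1 + Real.log (y ^ T) ≤ (1 + T) * (1 + Real.log y) := by
  rw [Real.log_pow]
  have h1 : 0 ≤ Real.log y := Real.log_nonneg hy
  have h2 : (0 : ℝ) ≤ T := Nat.cast_nonneg _
  nlinarith

private theorem fw_log_le {y : ℝ} (hy : 1 ≤ y) : 1 + Real.log y ≤ y := by
  have := Real.log_le_sub_one_of_pos (show 0 < y by linarith)
  linarith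

/-! ### the parts of a typed family -/

private theorem fw_rs_ok (F : Fr0 X K) (L : Finset X.Ty) (u : X.Ty → Finset F.Lb) (hu : F.TOk u) :
    F.TOk (F.rs L u) := by
  obtain ⟨h1, h2, h3⟩ := hu
  have hsub : ∀ τ, F.rs L u τ ⊆ u τ := by
    intro τ
    unfold Fr0.rs
    split_ifs
    · exact Finset.Subset.refl _
    · exact Finset.empty_subset _
  refine ⟨fun τ a ha => h1 τ a (hsub τ ha), fun τ => ⟨fun a ha => (h2 τ).1 a (hsub τ ha),
    fun a ha b hb => (h2 τ).2 a (hsub τ ha) b (hsub τ hb)⟩, fun τ τ' h => ?_⟩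
  exact Finset.disjoint_of_subset_left (Finset.image_subset_image (hsub τ))
    (Finset.disjoint_of_subset_right (Finset.image_subset_image (hsub τ')) (h3 τ τ' h))

private theorem fw_nrl_empty (F : Fr0 X K) : F.nrl ∅ = 1 := Finset.prod_empty

private theorem fw_rs_nrt (F : Fr0 X K) (L : Finset X.Ty) (u : X.Ty → Finset F.Lb) :
    F.nrt u = F.nrt (F.rs L u) * F.nrt (F.rs Lᶜ u) := by
  unfold Fr0.nrt
  rw [← Finset.prod_mul_distrib]
  refine Finset.prod_congr rfl fun τ _ => ?_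
  unfold Fr0.rs
  by_cases h : τ ∈ L
  · rw [if_pos h, if_neg (by rw [Finset.mem_compl]; exact not_not_intro h), fw_nrl_empty, mul_one]
  · rw [if_neg h, if_pos (Finset.mem_compl.2 h), fw_nrl_empty, one_mul]

private theorem fw_rs_small (F : Fr0 X K) (L : Finset X.Ty) (u : X.Ty → Finset F.Lb) {y : ℝ}
    (hy : 1 ≤ y) (h : ∀ τ, τ ∉ L → F.nrl (u τ) ≤ y) :
    F.nrt (F.rs Lᶜ u) ≤ y ^ Fintype.card X.Ty := by
  unfold Fr0.nrt
  have h1 : ∏ _τ : X.Ty, y = y ^ Fintype.card X.Ty := by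
    rw [Finset.prod_const, Finset.card_univ]
  rw [← h1]
  refine Finset.prod_le_prod (fun τ _ => zero_le_one.trans (F.one_le_nrl _)) fun τ _ => ?_
  unfold Fr0.rs
  by_cases hτ : τ ∈ L
  · rw [if_neg (by rw [Finset.mem_compl]; exact not_not_intro hτ), fw_nrl_empty]
    exact hy
  · rw [if_pos (Finset.mem_compl.2 hτ)]
    exact h τ hτ

private theorem fw_mem_U (F : Fr0 X K) (L : Finset X.Ty) (u : X.Ty → Finset F.Lb) (a : F.Lb) :
    a ∈ F.U (F.rs L u) ↔ ∃ τ ∈ L, a ∈ u τ := by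
  unfold Fr0.U Fr0.rs
  rw [Finset.mem_biUnion]
  constructor
  · rintro ⟨τ, -, h⟩
    by_cases hτ : τ ∈ L
    · rw [if_pos hτ] at h
      exact ⟨τ, hτ, h⟩
    · rw [if_neg hτ] at h
      exact absurd h (Finset.notMem_empty a)
  · rintro ⟨τ, hτ, h⟩
    refine ⟨τ, Finset.mem_univ τ, ?_⟩
    rw [if_pos hτ]
    exact h

/-- the small set of typed families -/
private def fwS (F : Fr0 X K) (J : Finset (Fin X.N)) (L : Finset X.Ty) (y Y : ℝ) :
    Finset (X.Ty → Finset F.Lb) :=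
  (F.TF J Y).filter fun u => ∀ τ, τ ∉ L → F.nrl (u τ) ≤ y

private theorem fw_SS (F : Fr0 X K) (J : Finset (Fin X.N)) (c : F.C)
    (h : (F.R → ZMod X.p) → ℂ) (hh : ∀ x, ‖h x‖ ≤ 1) (Z : ℝ) (R k : ℕ) (L : Finset X.Ty)
    (W : (X.Ty → Finset F.Lb) → Prop) (Y : ℝ) :
    ‖F.SS J c h Z R k L W Y‖ ≤ ((fwS F J L (lv Z R k) Y).card : ℝ) := by
  unfold Fr0.SS fwS
  rw [Finset.card_filter]
  push_cast
  refine (norm_sum_le _ _).trans (Finset.sum_le_sum fun u _ => ?_)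
  by_cases h1 : F.Cnd Z R k L u ∧ W (F.rs Lᶜ u) ∧ F.Sp c (F.cls (F.U u))
  · rw [if_pos h1, if_pos h1.1.2.1, norm_mul, ep_norm, mul_one]
    exact hh _
  · rw [if_neg h1, norm_zero]
    split_ifs
    · exact zero_le_one
    · exact le_rfl

/-- the small part -/
private theorem fw_small (F : Fr0 X K) (J : Finset (Fin X.N)) (L : Finset X.Ty) {y : ℝ} (hy : 1 ≤ y)
    (Y : ℝ) (u : X.Ty → Finset F.Lb) (hu : u ∈ fwS F J L y Y) :
    F.rs Lᶜ u ∈ F.TF J (y ^ Fintype.card X.Ty) := by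
  unfold fwS at hu
  rw [Finset.mem_filter, F.mem_TF] at hu
  obtain ⟨⟨h1, h2, -⟩, h4⟩ := hu
  rw [F.mem_TF]
  refine ⟨fw_rs_ok F Lᶜ u h1, fun τ hτ => ?_, fw_rs_small F L u hy h4⟩
  unfold Fr0.rs
  split_ifs
  · exact h2 τ hτ
  · rfl

private theorem fw_card0 (F : Fr0 X K) (J : Finset (Fin X.N)) {y : ℝ} (hy : 1 ≤ y) (Y : ℝ) :
    (fwS F J ∅ y Y).card ≤ (F.TF J (y ^ Fintype.card X.Ty)).card := by
  refine Finset.card_le_card_of_injOn (fun u => F.rs (∅ : Finset X.Ty)ᶜ u)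
    (fun u hu => fw_small F J ∅ hy Y u hu) ?_
  intro u _ u' _ h
  have h1 : ∀ v : X.Ty → Finset F.Lb, F.rs (∅ : Finset X.Ty)ᶜ v = v := by
    intro v
    funext τ
    unfold Fr0.rs
    rw [if_pos]
    rw [Finset.mem_compl]
    exact Finset.notMem_empty τ
  have h2 : F.rs (∅ : Finset X.Ty)ᶜ u = F.rs (∅ : Finset X.Ty)ᶜ u' := h
  rwa [h1, h1] at h2

private theorem fw_card1 (F : Fr0 X K) (J : Finset (Fin X.N)) (L : Finset X.Ty)
    (hL : ∀ τ ∈ L, ∀ τ' ∈ L, τ.1.1 = τ'.1.1 → τ = τ') {y : ℝ} (hy : 1 ≤ y) (Y : ℝ) :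
    (fwS F J L y Y).card ≤ ∑ σ ∈ F.TF J (y ^ Fintype.card X.Ty),
      (F.Fam (X.kl L) (Y / F.nrt σ)).card := by
  rw [← Finset.card_sigma]
  refine Finset.card_le_card_of_injOn (fun u => ⟨F.rs Lᶜ u, F.U (F.rs L u)⟩) (fun u hu => ?_) ?_
  · have hu' : u ∈ fwS F J L y Y := hu
    have h0 := fw_small F J L hy Y u hu'
    rw [Finset.mem_coe, Finset.mem_sigma]
    refine ⟨h0, ?_⟩
    unfold fwS at hu'
    rw [Finset.mem_filter, F.mem_TF] at hu'
    obtain ⟨⟨h1, h2, h3⟩, h4⟩ := hu'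
    have h5 := fw_rs_ok F L u h1
    rw [F.mem_Fam]
    refine ⟨tok_ok F _ h5, ?_, ?_⟩
    · intro i hi
      unfold Fr0.cls at hi
      rw [Finset.mem_image] at hi
      obtain ⟨a, ha, rfl⟩ := hi
      rw [fw_mem_U] at ha
      obtain ⟨τ, hτ, ha'⟩ := ha
      unfold CD.kl
      rw [Finset.mem_image]
      exact ⟨τ, hτ, (h1.1 τ a ha').symm⟩
    · show F.nrl (F.U (F.rs L u)) ≤ Y / F.nrt (F.rs Lᶜ u)
      rw [tok_nr F _ h5, le_div_iff₀ (lt_of_lt_of_le zero_lt_one (F.one_le_nrt _)), ← fw_rs_nrt]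
      exact h3
  · intro u hu u' hu' h
    have h1 : F.rs Lᶜ u = F.rs Lᶜ u' := (Sigma.mk.inj_iff.1 h).1
    have h2 : F.U (F.rs L u) = F.U (F.rs L u') := eq_of_heq (Sigma.mk.inj_iff.1 h).2
    have hk : ∀ v ∈ fwS F J L y Y, ∀ τ ∈ L, v τ = (F.U (F.rs L v)).filter fun a => a.1 = τ.1.1 := by
      intro v hv τ hτ
      unfold fwS at hv
      rw [Finset.mem_filter, F.mem_TF] at hv
      have hv1 := hv.1.1.1
      ext a
      rw [Finset.mem_filter, fw_mem_U]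
      constructor
      · intro ha
        exact ⟨⟨τ, hτ, ha⟩, hv1 τ a ha⟩
      · rintro ⟨⟨τ', hτ', ha⟩, hc⟩
        have h3 := hL τ' hτ' τ hτ ((hv1 τ' a ha).symm.trans hc)
        rwa [h3] at ha
    funext τ
    by_cases hτ : τ ∈ L
    · rw [hk u hu τ hτ, hk u' hu' τ hτ, h2]
    · have h3 := congrFun h1 τ
      unfold Fr0.rs at h3
      rwa [if_pos (Finset.mem_compl.2 hτ), if_pos (Finset.mem_compl.2 hτ)] at h3

theorem fewa (X : CD) (K : Type) [Field K] [NumberField K] (d : ℕ) (hA3 : AN3a K) (hA4 : AN3b K X.N d) :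
    ∃ (C : ℝ) (A : ℕ), 1 ≤ C ∧ ∀ F : Fr X K, F.d ≤ d → ∀ (J : Finset (Fin X.N)) (c : F.C)
      (h : (F.R → ZMod X.p) → ℂ), (∀ x, ‖h x‖ ≤ 1) → ∀ (Z : ℝ) (R k : ℕ) (L : Finset X.Ty)
      (W : (X.Ty → Finset F.Lb) → Prop), 1 ≤ Z → 1 ≤ R →
      (∀ τ ∈ L, ∀ τ' ∈ L, τ.1.1 = τ'.1.1 → τ = τ') → L.card < J.card → ∀ Y : ℝ, 3 ≤ Y →
      ‖F.SS J c h Z R k L W Y‖ ≤ C * (1 + Real.log F.D) ^ A * (1 + Real.log (lv Z R k)) ^ A *
        (Y * Real.log Y ^ (J.card - 1) / Real.log Y) + C * lv Z R k ^ A := by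
  obtain ⟨C1, A1, hC1, h1⟩ := trv X K hA3 d 1 le_rfl
  obtain ⟨C2, A2, hC2, h2⟩ := fam_card X K d hA4
  obtain ⟨T, hT⟩ : ∃ T, T = Fintype.card X.Ty := ⟨_, rfl⟩
  have hT0 : (0 : ℝ) ≤ T := Nat.cast_nonneg _
  have hT1 : (1 : ℝ) ≤ (1 + (T : ℝ)) ^ A1 := one_le_pow₀ (by linarith)
  have hCC : 1 ≤ C2 * C1 := one_le_mul_of_one_le_of_one_le hC2 hC1
  have hCT : 1 ≤ C2 * C1 * (1 + (T : ℝ)) ^ A1 := one_le_mul_of_one_le_of_one_le hCC hT1
  refine ⟨3 * (C2 * C1 * (1 + (T : ℝ)) ^ A1), A1 + A2 + T, by linarith, ?_⟩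
  intro F hd J c h hh Z R k L W hZ hR hL hLJ Y hY
  obtain ⟨y, hy⟩ : ∃ y, y = lv Z R k := ⟨_, rfl⟩
  have hy1 : 1 ≤ y := by
    rw [hy]
    unfold lv
    exact one_le_pow₀ hZ
  have hSS := fw_SS F.toFr0 J c h hh Z R k L W Y
  rw [← hy] at hSS ⊢
  refine hSS.trans ?_
  have hlD : 0 ≤ Real.log F.D := Real.log_nonneg F.one_le_D
  have hly : 0 ≤ Real.log y := Real.log_nonneg hy1
  have hlY : 1 ≤ Real.log Y := fw_logY hY
  have hlY0 : 0 < Real.log Y := by linarith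
  have hyT : 1 ≤ y ^ T := one_le_pow₀ hy1
  have hlyT : 0 ≤ Real.log (y ^ T) := Real.log_nonneg hyT
  have hC0 : 0 ≤ C2 * C1 * (1 + (T : ℝ)) ^ A1 := by linarith
  have hC10 : 0 ≤ C1 := by linarith
  have hC20 : 0 ≤ C2 := by linarith
  rcases L.eq_empty_or_nonempty with rfl | hLn
  · have h3 := fw_card0 F.toFr0 J hy1 Y
    rw [← hT] at h3
    obtain ⟨h4, -⟩ := h1 F hd J (y ^ T) hyT
    have h5 : ((fwS F.toFr0 J ∅ y Y).card : ℝ) ≤ ∑ u ∈ F.TF J (y ^ T), (1 : ℝ) ^ (F.U u).card := by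
      simp only [one_pow, Finset.sum_const, nsmul_eq_mul, mul_one]
      exact_mod_cast h3
    have h6 : (1 + Real.log (y ^ T)) ^ A1 ≤ ((1 + T) * y) ^ A1 :=
      pow_le_pow_left₀ (by linarith) ((fw_lin hy1 T).trans
        (mul_le_mul_of_nonneg_left (fw_log_le hy1) (by linarith))) _
    have h7 : ((fwS F.toFr0 J ∅ y Y).card : ℝ) ≤ C1 * y ^ T * ((1 + T) * y) ^ A1 :=
      (h5.trans h4).trans (mul_le_mul_of_nonneg_left h6 (by positivity))
    have h8 : C1 * y ^ T * ((1 + T) * y) ^ A1 = C1 * (1 + (T : ℝ)) ^ A1 * y ^ (A1 + T) := by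
      rw [mul_pow, pow_add]
      ring
    have h9 : y ^ (A1 + T) ≤ y ^ (A1 + A2 + T) := pow_le_pow_right₀ hy1 (by omega)
    have h10 : C1 * (1 + (T : ℝ)) ^ A1 ≤ 3 * (C2 * C1 * (1 + (T : ℝ)) ^ A1) := by
      have h11 : 0 ≤ C1 * (1 + (T : ℝ)) ^ A1 := by positivity
      nlinarith
    have h12 : C1 * (1 + (T : ℝ)) ^ A1 * y ^ (A1 + T) ≤
        3 * (C2 * C1 * (1 + (T : ℝ)) ^ A1) * y ^ (A1 + A2 + T) :=
      mul_le_mul h10 h9 (by positivity) (by positivity)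
    have h13 : 0 ≤ 3 * (C2 * C1 * (1 + (T : ℝ)) ^ A1) * (1 + Real.log F.D) ^ (A1 + A2 + T) *
        (1 + Real.log y) ^ (A1 + A2 + T) * (Y * Real.log Y ^ (J.card - 1) / Real.log Y) := by
      positivity
    linarith
  · have h3 := fw_card1 F.toFr0 J L hL hy1 Y
    rw [← hT] at h3
    obtain ⟨-, h4⟩ := h1 F hd J (y ^ T) hyT
    have hkl : (X.kl L).card ≤ L.card := Finset.card_image_le
    have hkn : (X.kl L).Nonempty := hLn.image _
    have hL1 : 1 ≤ L.card := hLn.card_pos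
    obtain ⟨m, hm⟩ : ∃ m, J.card = m + 2 := ⟨J.card - 2, by omega⟩
    have hB : 0 ≤ C2 * (1 + Real.log F.D) ^ A2 := by positivity
    have h5 : ∀ σ : X.Ty → Finset F.Lb, ((F.Fam (X.kl L) (Y / F.nrt σ)).card : ℝ) ≤
        3 * (C2 * (1 + Real.log F.D) ^ A2) * (Y * Real.log Y ^ m) * (1 / F.nrt σ) := fun σ =>
      fw_fam F (X.kl L) hB (fun Y hY => h2 F hd _ hkn Y hY) Y _ hY (F.one_le_nrt σ) m (by omega)
    have h6 : ((fwS F.toFr0 J L y Y).card : ℝ) ≤ ∑ σ ∈ F.TF J (y ^ T),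
        3 * (C2 * (1 + Real.log F.D) ^ A2) * (Y * Real.log Y ^ m) * (1 / F.nrt σ) := by
      refine le_trans ?_ (Finset.sum_le_sum fun σ _ => h5 σ)
      exact_mod_cast h3
    rw [← Finset.mul_sum] at h6
    have h7 : ∑ σ ∈ F.TF J (y ^ T), (1 : ℝ) / F.nrt σ ≤ C1 * ((1 + T) * (1 + Real.log y)) ^ A1 := by
      have h8 : ∑ σ ∈ F.TF J (y ^ T), (1 : ℝ) / F.nrt σ =
          ∑ σ ∈ F.TF J (y ^ T), (1 : ℝ) ^ (F.U σ).card / F.nrt σ := by
        simp only [one_pow]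
      rw [h8]
      refine h4.trans (mul_le_mul_of_nonneg_left ?_ hC10)
      exact pow_le_pow_left₀ (by linarith) (fw_lin hy1 T) _
    have h9 : ((fwS F.toFr0 J L y Y).card : ℝ) ≤
        3 * (C2 * (1 + Real.log F.D) ^ A2) * (Y * Real.log Y ^ m) *
          (C1 * ((1 + T) * (1 + Real.log y)) ^ A1) :=
      h6.trans (mul_le_mul_of_nonneg_left h7 (by positivity))
    have h10 : 3 * (C2 * (1 + Real.log F.D) ^ A2) * (Y * Real.log Y ^ m) *
          (C1 * ((1 + T) * (1 + Real.log y)) ^ A1) = 3 * (C2 * C1 * (1 + (T : ℝ)) ^ A1) *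
        (1 + Real.log F.D) ^ A2 * (1 + Real.log y) ^ A1 *
          (Y * Real.log Y ^ (J.card - 1) / Real.log Y) := by
      have h11 : Real.log Y ^ (J.card - 1) / Real.log Y = Real.log Y ^ m := by
        have h12 : J.card - 1 = m + 1 := by omega
        rw [h12, pow_succ, mul_div_cancel_right₀ _ hlY0.ne']
      rw [mul_div_assoc, h11, mul_pow]
      ring
    have h13 : (1 + Real.log F.D) ^ A2 ≤ (1 + Real.log F.D) ^ (A1 + A2 + T) :=
      pow_le_pow_right₀ (by linarith) (by omega)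
    have h14 : (1 + Real.log y) ^ A1 ≤ (1 + Real.log y) ^ (A1 + A2 + T) :=
      pow_le_pow_right₀ (by linarith) (by omega)
    have h15 : 3 * (C2 * C1 * (1 + (T : ℝ)) ^ A1) *
        (1 + Real.log F.D) ^ A2 * (1 + Real.log y) ^ A1 *
          (Y * Real.log Y ^ (J.card - 1) / Real.log Y) ≤ 3 * (C2 * C1 * (1 + (T : ℝ)) ^ A1) *
        (1 + Real.log F.D) ^ (A1 + A2 + T) * (1 + Real.log y) ^ (A1 + A2 + T) *
          (Y * Real.log Y ^ (J.card - 1) / Real.log Y) := by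
      refine mul_le_mul_of_nonneg_right ?_ (by positivity)
      refine mul_le_mul (mul_le_mul_of_nonneg_left h13 (by positivity)) h14 (by positivity)
        (by positivity)
    have h16 : 0 ≤ 3 * (C2 * C1 * (1 + (T : ℝ)) ^ A1) * y ^ (A1 + A2 + T) := by positivity
    linarith

private theorem fw_sub_ok (F : Fr0 X K) {g g' : Finset F.Lb} (hg : F.Ok g) (h : g' ⊆ g) :
    F.Ok g' :=
  ⟨fun a ha => hg.1 a (h ha), fun a ha b hb => hg.2 a (h ha) b (h hb)⟩

private theorem fw_cardb (F : Fr0 X K) (J : Finset (Fin X.N)) (i : Fin X.N) (y Y : ℝ) :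
    ((F.Fam J Y).filter fun g => F.nrl (g.filter fun a => a.1 = i) ≤ y).card ≤
      ∑ g ∈ F.Fam J y, (F.Fam (J.erase i) (Y / F.nrl g)).card := by
  rw [← Finset.card_sigma]
  refine Finset.card_le_card_of_injOn
    (fun g => ⟨g.filter fun a => a.1 = i, g.filter fun a => ¬ a.1 = i⟩) (fun g hg => ?_) ?_
  · rw [Finset.mem_coe, Finset.mem_filter, F.mem_Fam] at hg
    obtain ⟨⟨h1, h2, h3⟩, h4⟩ := hg
    rw [Finset.mem_coe, Finset.mem_sigma]
    refine ⟨?_, ?_⟩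
    · rw [F.mem_Fam]
      exact ⟨fw_sub_ok F h1 (Finset.filter_subset _ _),
        (Finset.image_subset_image (Finset.filter_subset _ _)).trans h2, h4⟩
    · rw [F.mem_Fam]
      refine ⟨fw_sub_ok F h1 (Finset.filter_subset _ _), ?_, ?_⟩
      · intro j hj
        unfold Fr0.cls at hj
        rw [Finset.mem_image] at hj
        obtain ⟨a, ha, rfl⟩ := hj
        rw [Finset.mem_filter] at ha
        rw [Finset.mem_erase]
        exact ⟨ha.2, h2 (Finset.mem_image_of_mem _ ha.1)⟩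
      · show F.nrl (g.filter fun a => ¬ a.1 = i) ≤ Y / F.nrl (g.filter fun a => a.1 = i)
        rw [le_div_iff₀ (lt_of_lt_of_le zero_lt_one (F.one_le_nrl _)), mul_comm]
        unfold Fr0.nrl at h3 ⊢
        rw [Finset.prod_filter_mul_prod_filter_not]
        exact h3
  · intro g _ g' _ h
    have h1 : (g.filter fun a => a.1 = i) = g'.filter fun a => a.1 = i := (Sigma.mk.inj_iff.1 h).1
    have h2 : (g.filter fun a => ¬ a.1 = i) = g'.filter fun a => ¬ a.1 = i :=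
      eq_of_heq (Sigma.mk.inj_iff.1 h).2
    rw [← Finset.filter_union_filter_not_eq (fun a : F.Lb => a.1 = i) g, h1, h2,
      Finset.filter_union_filter_not_eq]

theorem fewb (X : CD) (K : Type) [Field K] [NumberField K] (d : ℕ) (hA3 : AN3a K) (hA4 : AN3b K X.N d) :
    ∃ (C : ℝ) (A : ℕ), 1 ≤ C ∧ ∀ F : Fr X K, F.d ≤ d → ∀ (J : Finset (Fin X.N)), ∀ i ∈ J, ∀ y : ℝ, 1 ≤ y →
      ∀ Y : ℝ, 3 ≤ Y → (((F.Fam J Y).filter fun g => F.nrl (g.filter fun a => a.1 = i) ≤ y).card : ℝ) ≤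
        C * (1 + Real.log F.D) ^ A * (1 + Real.log y) ^ A * (Y * Real.log Y ^ (J.card - 1) / Real.log Y) +
          C * y ^ A := by
  obtain ⟨C1, A1, hC1, h1⟩ := trf X K hA3 d 1 le_rfl
  obtain ⟨C2, A2, hC2, h2⟩ := fam_card X K d hA4
  have hCC : 1 ≤ C2 * C1 := one_le_mul_of_one_le_of_one_le hC2 hC1
  refine ⟨3 * (C2 * C1), A1 + A2 + 1, by linarith, ?_⟩
  intro F hd J i hi y hy1 Y hY
  have hlD : 0 ≤ Real.log F.D := Real.log_nonneg F.one_le_D
  have hly : 0 ≤ Real.log y := Real.log_nonneg hy1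
  have hlY : 1 ≤ Real.log Y := fw_logY hY
  have hlY0 : 0 < Real.log Y := by linarith
  have hC10 : 0 ≤ C1 := by linarith
  have hC20 : 0 ≤ C2 := by linarith
  have h3 := fw_cardb F.toFr0 J i y Y
  obtain ⟨h4, h4'⟩ := h1 F hd J y hy1
  rcases (J.erase i).eq_empty_or_nonempty with hJ | hJ
  · have h5 : ∀ Y' : ℝ, (F.Fam (J.erase i) Y').card ≤ 1 := by
      intro Y'
      refine (Finset.card_le_card (t := {∅}) fun g hg => ?_).trans (Finset.card_singleton _).le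
      rw [hJ, F.mem_Fam] at hg
      rw [Finset.mem_singleton]
      have h6 : F.cls g = ∅ := Finset.subset_empty.1 hg.2.1
      exact Finset.image_eq_empty.1 h6
    have h6 : ((F.Fam J Y).filter fun g => F.nrl (g.filter fun a => a.1 = i) ≤ y).card ≤
        (F.Fam J y).card := by
      refine h3.trans ((Finset.sum_le_sum fun g _ => h5 _).trans ?_)
      rw [Finset.sum_const, smul_eq_mul, mul_one]
    have h7 : ((F.Fam J y).card : ℝ) ≤ C1 * y * (1 + Real.log y) ^ A1 := by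
      refine le_trans (le_of_eq ?_) h4
      simp only [one_pow, Finset.sum_const, nsmul_eq_mul, mul_one]
    have h8 : (1 + Real.log y) ^ A1 ≤ y ^ A1 := pow_le_pow_left₀ (by linarith) (fw_log_le hy1) _
    have h9 : C1 * y * (1 + Real.log y) ^ A1 ≤ C1 * y * y ^ A1 :=
      mul_le_mul_of_nonneg_left h8 (by positivity)
    have h10 : C1 * y * y ^ A1 = C1 * y ^ (A1 + 1) := by rw [pow_succ]; ring
    have h11 : y ^ (A1 + 1) ≤ y ^ (A1 + A2 + 1) := pow_le_pow_right₀ hy1 (by omega)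
    have h12 : C1 ≤ 3 * (C2 * C1) := by nlinarith
    have h13 : C1 * y ^ (A1 + 1) ≤ 3 * (C2 * C1) * y ^ (A1 + A2 + 1) :=
      mul_le_mul h12 h11 (by positivity) (by positivity)
    have h14 : 0 ≤ 3 * (C2 * C1) * (1 + Real.log F.D) ^ (A1 + A2 + 1) *
        (1 + Real.log y) ^ (A1 + A2 + 1) * (Y * Real.log Y ^ (J.card - 1) / Real.log Y) := by
      positivity
    have h15 : ((((F.Fam J Y).filter fun g =>
        F.nrl (g.filter fun a => a.1 = i) ≤ y).card : ℕ) : ℝ) ≤ ((F.Fam J y).card : ℝ) := by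
      exact_mod_cast h6
    linarith
  · have hJ2 : (J.erase i).card = J.card - 1 := Finset.card_erase_of_mem hi
    have hJ3 : 1 ≤ (J.erase i).card := hJ.card_pos
    obtain ⟨m, hm⟩ : ∃ m, J.card = m + 2 := ⟨J.card - 2, by omega⟩
    have hB : 0 ≤ C2 * (1 + Real.log F.D) ^ A2 := by positivity
    have h5 : ∀ g : Finset F.Lb, ((F.Fam (J.erase i) (Y / F.nrl g)).card : ℝ) ≤
        3 * (C2 * (1 + Real.log F.D) ^ A2) * (Y * Real.log Y ^ m) * (1 / F.nrl g) := fun g =>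
      fw_fam F (J.erase i) hB (fun Y hY => h2 F hd _ hJ Y hY) Y _ hY (F.one_le_nrl g) m (by omega)
    have h6 : ((((F.Fam J Y).filter fun g =>
        F.nrl (g.filter fun a => a.1 = i) ≤ y).card : ℕ) : ℝ) ≤ ∑ g ∈ F.Fam J y,
        3 * (C2 * (1 + Real.log F.D) ^ A2) * (Y * Real.log Y ^ m) * (1 / F.nrl g) := by
      refine le_trans ?_ (Finset.sum_le_sum fun g _ => h5 g)
      exact_mod_cast h3
    rw [← Finset.mul_sum] at h6
    have h7 : ∑ g ∈ F.Fam J y, (1 : ℝ) / F.nrl g ≤ C1 * (1 + Real.log y) ^ A1 := by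
      refine le_trans (le_of_eq ?_) h4'
      simp only [one_pow]
    have h9 : ((((F.Fam J Y).filter fun g =>
        F.nrl (g.filter fun a => a.1 = i) ≤ y).card : ℕ) : ℝ) ≤
        3 * (C2 * (1 + Real.log F.D) ^ A2) * (Y * Real.log Y ^ m) *
          (C1 * (1 + Real.log y) ^ A1) :=
      h6.trans (mul_le_mul_of_nonneg_left h7 (by positivity))
    have h10 : 3 * (C2 * (1 + Real.log F.D) ^ A2) * (Y * Real.log Y ^ m) *
          (C1 * (1 + Real.log y) ^ A1) = 3 * (C2 * C1) *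
        (1 + Real.log F.D) ^ A2 * (1 + Real.log y) ^ A1 *
          (Y * Real.log Y ^ (J.card - 1) / Real.log Y) := by
      have h11 : Real.log Y ^ (J.card - 1) / Real.log Y = Real.log Y ^ m := by
        have h12 : J.card - 1 = m + 1 := by omega
        rw [h12, pow_succ, mul_div_cancel_right₀ _ hlY0.ne']
      rw [mul_div_assoc, h11]
      ring
    have h13 : (1 + Real.log F.D) ^ A2 ≤ (1 + Real.log F.D) ^ (A1 + A2 + 1) :=
      pow_le_pow_right₀ (by linarith) (by omega)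
    have h14 : (1 + Real.log y) ^ A1 ≤ (1 + Real.log y) ^ (A1 + A2 + 1) :=
      pow_le_pow_right₀ (by linarith) (by omega)
    have h15 : 3 * (C2 * C1) *
        (1 + Real.log F.D) ^ A2 * (1 + Real.log y) ^ A1 *
          (Y * Real.log Y ^ (J.card - 1) / Real.log Y) ≤ 3 * (C2 * C1) *
        (1 + Real.log F.D) ^ (A1 + A2 + 1) * (1 + Real.log y) ^ (A1 + A2 + 1) *
          (Y * Real.log Y ^ (J.card - 1) / Real.log Y) := by
      refine mul_le_mul_of_nonneg_right ?_ (by positivity)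
      refine mul_le_mul (mul_le_mul_of_nonneg_left h13 (by positivity)) h14 (by positivity)
        (by positivity)
    have h16 : 0 ≤ 3 * (C2 * C1) * y ^ (A1 + A2 + 1) := by positivity
    linarith

end H51.MM
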