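import Pool.Agent.H51.MM.PhB

/-!
# [H51 MM NTA] Nontriviality (60-90 lines)

`nt_sub`: if neither `φ` nor `φ'` is `NT i`, there are `B`, `B'` outside of which `φ`, `φ'` vanish at the good labels of class `i`, so `φ - φ'` vanishes
outside `B ∪ B'`.
`nta`: two types `τ₁ ≠ τ₂` of `L` in the class `i`: the difference of the functions is `ch 0 c (ψ₁ - ψ₂) (U σ) (fun _ => ψ₁ - ψ₂)`, `NT i` by `F.nt2` with
`J = kl L`: `ψ₁ - ψ₂ ∈ Th i`, `≠ 0`; `van i j (ψ₁ - ψ₂)` for `j ∈ kl L`: `τ' = (j, ψ') ∈ L`, `van i j (ψ₁ - ψ')`, `van i j (ψ₂ - ψ')`, `van_sub`; there is `j` with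
`¬ van i j (ψ₁ - ψ₂)` by `Cl J`.
`ntb`: `L = al J f`, `b ∈ U σ`, `b ∈ σ τ'`, `τ' = (s, ψ')`, `s ∈ J`, `τ' ∉ L`, so `ψ' ≠ f s`. There is `i ∈ J` with `¬ van i s (f i - ψ')`: otherwise, as
`van i s (f i - f s)`, `van i s (f s - ψ')` for all `i ∈ J`, so `van s i (f s - ψ')` for all `i ∈ J`, `f s = ψ'` by `Cl J`. Then `τ = (i, f i) ∈ L` and
`F.nt1` with this `b`: `θ b = f i - tyv σ b = f i - ψ'` (`tyv_eq`), `b` is alone over its place (`tok_ok`); `van i i (f i - f i)`.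
-/

set_option autoImplicit false

open scoped NumberField
open IsDedekindDomain NumberField H63.MA H36.QA Filter Topology
open scoped Classical

noncomputable section

namespace H51.MM

variable {X : CD} {K : Type} [Field K] [NumberField K]


theorem nt_sub (F : Fr0 X K) (i : Fin X.N) (φ φ' : F.Lb → ZMod X.p) (h : F.NT i fun a => φ a - φ' a) :
    F.NT i φ ∨ F.NT i φ' := by
  by_contra hc
  push Not at hc
  obtain ⟨h1, h2⟩ := hc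
  unfold Fr0.NT at h1 h2
  push Not at h1 h2
  obtain ⟨B, hB⟩ := h1
  obtain ⟨B', hB'⟩ := h2
  obtain ⟨a, ha, hu, hne⟩ := h (B ∪ B')
  apply hne
  rw [Finset.mem_union, not_or] at hu
  show φ ⟨i, a⟩ - φ' ⟨i, a⟩ = 0
  rw [hB a ha hu.1, hB' a ha hu.2, sub_zero]

theorem nta (F : Fr X K) (J : Finset (Fin X.N)) (hJ : X.Cl J) (c : F.C) (L : Finset X.Ty) (hL : X.Unl L)
    (f : Fin X.N → Fin X.w → ZMod X.p) (τ₁ τ₂ : X.Ty) (h1 : τ₁ ∈ L) (h2 : τ₂ ∈ L) (hne : τ₁ ≠ τ₂)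
    (hc : τ₁.1.1 = τ₂.1.1) (hi : τ₁.1.1 ∈ J) (σ : X.Ty → Finset F.Lb) (hσ : F.TOk σ)
    (hS : F.Sp c (F.cls (F.U σ) ∪ X.kl L)) (κ : Fin X.N → F.R → ZMod X.p) : ∃ τ ∈ L,
      F.NT τ.1.1 (F.ch (κ τ.1.1) c (τ.1.2 - f τ.1.1) (F.U σ) fun b => τ.1.2 - tyv F.toFr0 σ b) := by
  have hvan : ∀ τ ∈ L, ∀ τ' ∈ L, X.van τ.1.1 τ'.1.1 (τ.1.2 - τ'.1.2) := by
    intro τ hτ τ' hτ'
    have := hL τ hτ τ' hτ'
    unfold CD.lk at this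
    exact not_not.1 this
  have hth2 : τ₂.1.2 ∈ X.Th τ₁.1.1 := by
    rw [hc]
    exact τ₂.2
  have hth : τ₁.1.2 - τ₂.1.2 ∈ X.Th τ₁.1.1 := X.Th_sub _ _ τ₁.2 _ hth2
  have hth0 : τ₁.1.2 - τ₂.1.2 ≠ 0 := by
    intro h
    apply hne
    exact Subtype.ext (Prod.ext hc (sub_eq_zero.1 h))
  have hkl : τ₁.1.1 ∈ X.kl L := Finset.mem_image_of_mem _ h1
  have hv : ∀ j ∈ X.kl L, X.van τ₁.1.1 j (τ₁.1.2 - τ₂.1.2) := by
    intro j hj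
    obtain ⟨τ', hτ', rfl⟩ := Finset.mem_image.1 hj
    have e1 := hvan τ₁ h1 τ' hτ'
    have e2 := hvan τ₂ h2 τ' hτ'
    rw [← hc] at e2
    have e3 := X.van_sub _ _ _ _ e1 e2
    rwa [sub_sub_sub_cancel_right] at e3
  have hex : ∃ j, ¬ X.van τ₁.1.1 j (τ₁.1.2 - τ₂.1.2) := by
    by_contra hcon
    push Not at hcon
    exact hth0 (hJ _ hi _ hth fun j _ => hcon j)
  have hnt := F.nt2 τ₁.1.1 c (τ₁.1.2 - τ₂.1.2) (F.U σ) (X.kl L) hth hth0 hkl hv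
    (tok_ok F.toFr0 σ hσ) hex hS
  have hdiff : (F.ch 0 c (τ₁.1.2 - τ₂.1.2) (F.U σ) fun _ => τ₁.1.2 - τ₂.1.2) =
      fun a => F.ch (κ τ₁.1.1) c (τ₁.1.2 - f τ₁.1.1) (F.U σ) (fun b => τ₁.1.2 - tyv F.toFr0 σ b) a -
        F.ch (κ τ₁.1.1) c (τ₂.1.2 - f τ₁.1.1) (F.U σ) (fun b => τ₂.1.2 - tyv F.toFr0 σ b) a := by
    funext a
    unfold Fr0.ch
    have e1 : ∑ b ∈ F.U σ, (τ₁.1.2 - τ₂.1.2) ⬝ᵥ F.s a b =
        ∑ b ∈ F.U σ, (τ₁.1.2 - tyv F.toFr0 σ b) ⬝ᵥ F.s a b -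
          ∑ b ∈ F.U σ, (τ₂.1.2 - tyv F.toFr0 σ b) ⬝ᵥ F.s a b := by
      rw [← Finset.sum_sub_distrib]
      refine Finset.sum_congr rfl fun b _ => ?_
      rw [← sub_dotProduct, sub_sub_sub_cancel_right]
    have e2 : (τ₁.1.2 - τ₂.1.2) ⬝ᵥ F.e c a =
        (τ₁.1.2 - f τ₁.1.1) ⬝ᵥ F.e c a - (τ₂.1.2 - f τ₁.1.1) ⬝ᵥ F.e c a := by
      rw [← sub_dotProduct, sub_sub_sub_cancel_right]
    rw [e1, e2, zero_dotProduct]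
    ring
  rw [hdiff] at hnt
  rcases nt_sub F.toFr0 _ _ _ hnt with h | h
  · exact ⟨τ₁, h1, h⟩
  · refine ⟨τ₂, h2, ?_⟩
    rw [hc] at h
    exact h

theorem ntb (F : Fr X K) (J : Finset (Fin X.N)) (hJ : X.Cl J) (c : F.C)
    (f : Fin X.N → Fin X.w → ZMod X.p) (hf : f ∈ X.FF J) (σ : X.Ty → Finset F.Lb) (hσ : F.TOk σ)
    (h1 : ∀ τ ∈ X.al J f, σ τ = ∅) (h2 : ∀ τ, τ.1.1 ∉ J → σ τ = ∅) (h3 : F.U σ ≠ ∅)
    (κ : Fin X.N → F.R → ZMod X.p) : ∃ τ ∈ X.al J f,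
      F.NT τ.1.1 (F.ch (κ τ.1.1) c (τ.1.2 - f τ.1.1) (F.U σ) fun b => τ.1.2 - tyv F.toFr0 σ b) := by
  obtain ⟨hf1, hf2, hf3⟩ := (Finset.mem_filter.1 hf).2
  obtain ⟨b, hb⟩ := Finset.nonempty_iff_ne_empty.2 h3
  obtain ⟨τ', -, hbτ⟩ := Finset.mem_biUnion.1 hb
  have hs : τ'.1.1 ∈ J := by
    by_contra hn
    rw [h2 τ' hn] at hbτ
    exact Finset.notMem_empty _ hbτ
  have hal : τ' ∉ X.al J f := by
    intro hn
    rw [h1 τ' hn] at hbτ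
    exact Finset.notMem_empty _ hbτ
  have hne : τ'.1.2 ≠ f τ'.1.1 := by
    intro hn
    exact hal (Finset.mem_filter.2 ⟨Finset.mem_univ _, hs, hn⟩)
  have hi : ∃ i ∈ J, ¬ X.van i τ'.1.1 (f i - τ'.1.2) := by
    by_contra hcon
    push Not at hcon
    have h0 : f τ'.1.1 - τ'.1.2 = 0 := by
      refine hJ τ'.1.1 hs _ (X.Th_sub _ _ (hf1 _ hs) _ τ'.2) fun i hi => ?_
      have e1 := hcon i hi
      have e2 := hf3 i hi _ hs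
      have e3 := X.van_sub _ _ _ _ e1 e2
      rw [sub_sub_sub_cancel_left] at e3
      exact X.van_symm _ _ _ e3
    exact hne (sub_eq_zero.1 h0).symm
  obtain ⟨i, hiJ, hiv⟩ := hi
  have hok := tok_ok F.toFr0 σ hσ
  refine ⟨⟨(i, f i), hf1 i hiJ⟩, Finset.mem_filter.2 ⟨Finset.mem_univ _, hiJ, rfl⟩, ?_⟩
  refine F.nt1 i (κ i) c (f i - f i) (F.U σ) _ ?_ hok.1 ⟨b, hb, ?_, ?_⟩
  · rw [sub_self]
    exact X.van_zero i i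
  · intro b' hb' hun
    by_contra hn
    exact hok.2 b' hb' b hb hn hun
  · show ¬ X.van i b.1 (f i - tyv F.toFr0 σ b)
    rw [tyv_eq F.toFr0 σ hσ τ' b hbτ, hσ.1 τ' b hbτ]
    exact hiv

end H51.MM
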