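import Pool.Agent.H51.MM.SngA
import Pool.Agent.H51.MM.Lev

/-!
# [H51 MM SNGB] The sum over the large variables with one nontrivial character (80-120 lines)

`i = τ₀.1.1`. Sum over `ρ = update u τ₀ ∅` first; for fixed `ρ` (with `rs Lᶜ ρ = σ`) the inner sum over `g = u τ₀ ∈ Fam {i} (Y / nrt ρ)`,
`z < nrl g`, `und g` disjoint from `B = und (U ρ) ⊇ und (U σ)`, of `∏_{a ∈ g} ep (ch κ c θ₀ (U σ) θ a)` is by `snga` (empty if `Y / nrt ρ < z`)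
`≤ C qq^A C^#(U ρ) (D nr (und (U σ)))^A (Y / nrt ρ)^(1 - δ)`, and `(Y / nrt ρ)^(-δ) ≤ z^(-δ)`. `#(U ρ) = #(U σ) + #(U (rs L ρ))`,
`nrt ρ = nrt σ * nrt (rs L ρ)`; the sum over `rs L ρ` of `C ^ #U / nrt` is `≤ C (1 + log Y)^A` (`trv`). If `i ∉ J` the sum is `0`.
-/

set_option autoImplicit false

open scoped NumberField
open IsDedekindDomain NumberField H63.MA H36.QA Filter Topology
open scoped Classical

noncomputable section

namespace H51.MM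

section

variable {X : CD} {K : Type} [Field K] [NumberField K]

/-- the part of `u` outside `τ` -/
private def l1 (F : Fr0 X K) (τ : X.Ty) (u : X.Ty → Finset F.Lb) : X.Ty → Finset F.Lb :=
  Function.update u τ ∅

private theorem l1_eq (F : Fr0 X K) (τ : X.Ty) (u : X.Ty → Finset F.Lb) {σ : X.Ty} (h : σ ≠ τ) :
    l1 F τ u σ = u σ := by
  unfold l1
  rw [Function.update_of_ne h]

private theorem l1_tau (F : Fr0 X K) (τ : X.Ty) (u : X.Ty → Finset F.Lb) : l1 F τ u τ = ∅ := by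
  unfold l1
  rw [Function.update_self]

private theorem l1_sub (F : Fr0 X K) (τ : X.Ty) (u : X.Ty → Finset F.Lb) (σ : X.Ty) :
    l1 F τ u σ ⊆ u σ := by
  by_cases h : σ = τ
  · rw [h, l1_tau]
    exact Finset.empty_subset _
  · rw [l1_eq F τ u h]

private theorem l1_tok (F : Fr0 X K) (τ : X.Ty) (u : X.Ty → Finset F.Lb) (hu : F.TOk u) :
    F.TOk (l1 F τ u) := by
  refine ⟨fun σ a ha => hu.1 σ a (l1_sub F τ u σ ha), fun σ => ⟨fun a ha => ?_, fun a ha b hb => ?_⟩,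
    fun σ σ' hne => ?_⟩
  · exact (hu.2.1 σ).1 a (l1_sub F τ u σ ha)
  · exact (hu.2.1 σ).2 a (l1_sub F τ u σ ha) b (l1_sub F τ u σ hb)
  · exact (hu.2.2 σ σ' hne).mono (Finset.image_subset_image (l1_sub F τ u σ))
      (Finset.image_subset_image (l1_sub F τ u σ'))

private theorem l1_nrt (F : Fr0 X K) (τ : X.Ty) (u : X.Ty → Finset F.Lb) :
    F.nrt u = F.nrl (u τ) * F.nrt (l1 F τ u) := by
  have h0 : F.nrl ∅ = 1 := Finset.prod_empty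
  unfold Fr0.nrt
  rw [← Finset.mul_prod_erase Finset.univ (fun σ => F.nrl (u σ)) (Finset.mem_univ τ),
    ← Finset.mul_prod_erase Finset.univ (fun σ => F.nrl (l1 F τ u σ)) (Finset.mem_univ τ), l1_tau, h0, one_mul]
  congr 1
  refine Finset.prod_congr rfl fun σ hσ => ?_
  rw [Finset.mem_erase] at hσ
  rw [l1_eq F τ u hσ.1]

private theorem l1_TF (F : Fr0 X K) (τ : X.Ty) (J : Finset (Fin X.N)) (Y : ℝ)
    (u : X.Ty → Finset F.Lb) (hu : u ∈ F.TF J Y) : l1 F τ u ∈ F.TF J Y := by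
  rw [Fr0.mem_TF] at hu ⊢
  refine ⟨l1_tok F τ u hu.1, fun σ hσ => ?_, ?_⟩
  · exact Finset.subset_empty.1 ((hu.2.1 σ hσ) ▸ l1_sub F τ u σ)
  · have h1 := l1_nrt F τ u
    have h2 := F.one_le_nrl (u τ)
    have h4 := F.one_le_nrt (l1 F τ u)
    nlinarith [hu.2.2]

private theorem sb_ne (F : Fr0 X K) (g : Finset F.Lb) (z : ℝ) (hz : 1 ≤ z) (h : z < F.nrl g) : g ≠ ∅ := by
  rintro rfl
  have h0 : F.nrl ∅ = 1 := Finset.prod_empty
  rw [h0] at h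
  linarith

private theorem sb_und (F : Fr0 X K) (ρ : X.Ty → Finset F.Lb) (σ : X.Ty) : F.und (ρ σ) ⊆ F.und (F.U ρ) :=
  Finset.image_subset_image fun _ ha => Finset.mem_biUnion.2 ⟨σ, Finset.mem_univ _, ha⟩

/-- the condition on `u` -/
private def PS (F : Fr0 X K) (L : Finset X.Ty) (σ : X.Ty → Finset F.Lb) (z : ℝ) (u : X.Ty → Finset F.Lb) : Prop :=
  F.rs Lᶜ u = σ ∧ ∀ τ ∈ L, z < F.nrl (u τ)

private theorem sb_inner (F : Fr X K) (J : Finset (Fin X.N)) (L : Finset X.Ty) (σ : X.Ty → Finset F.Lb)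
    (φ : X.Ty → F.Lb → ZMod X.p) (τ : X.Ty) (hτ : τ ∈ L) (ψ : F.Lb → ZMod X.p)
    (hψ : ∀ a, a.1 = τ.1.1 → φ τ a = ψ a) (z : ℝ) (hz : 1 ≤ z) (Y : ℝ) (ρ : X.Ty → Finset F.Lb) :
    (∑ u ∈ (F.TF J Y).filter (fun u => l1 F.toFr0 τ u = ρ), if PS F.toFr0 L σ z u then
      ∏ τ ∈ L, ∏ a ∈ u τ, ep X.p (φ τ a) else 0) = 0 ∨
    (z ≤ Y / F.nrt ρ ∧ F.TOk ρ ∧ F.rs Lᶜ ρ = σ ∧
      (∑ u ∈ (F.TF J Y).filter (fun u => l1 F.toFr0 τ u = ρ), if PS F.toFr0 L σ z u then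
        ∏ τ ∈ L, ∏ a ∈ u τ, ep X.p (φ τ a) else 0) =
      (∏ τ' ∈ L.erase τ, ∏ a ∈ ρ τ', ep X.p (φ τ' a)) * ∑ g ∈ F.Fam {τ.1.1} (Y / F.nrt ρ),
        if z < F.nrl g ∧ Disjoint (F.und g) (F.und (F.U ρ)) then ∏ a ∈ g, ep X.p (ψ a) else 0) := by
  by_cases hex : ∃ u₀ ∈ F.TF J Y, l1 F.toFr0 τ u₀ = ρ ∧ F.rs Lᶜ u₀ = σ ∧ ∀ τ ∈ L, z < F.nrl (u₀ τ)
  swap
  · left
    refine Finset.sum_eq_zero fun u hu => ?_
    rw [Finset.mem_filter] at hu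
    rw [if_neg]
    intro hP
    exact hex ⟨u, hu.1, hu.2, hP⟩
  right
  obtain ⟨u₀, hu₀, hρ, hσ, hL⟩ := hex
  rw [Fr0.mem_TF] at hu₀
  have hρτ : ρ τ = ∅ := hρ ▸ l1_tau F.toFr0 τ u₀
  have hρne : ∀ σ, σ ≠ τ → ρ σ = u₀ σ := fun σ h1 => hρ ▸ l1_eq F.toFr0 τ u₀ h1
  have hρok : F.TOk ρ := hρ ▸ l1_tok F.toFr0 τ u₀ hu₀.1
  have hJτ : τ.1.1 ∈ J := by
    by_contra hJ
    exact sb_ne F.toFr0 _ _ hz (hL τ hτ) (hu₀.2.1 τ hJ)
  have hn1 := F.one_le_nrt ρ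
  have hn0 : 0 < F.nrt ρ := by linarith
  have hrs : ∀ u : X.Ty → Finset F.Lb, (∀ σ, σ ≠ τ → u σ = u₀ σ) → F.rs Lᶜ u = σ := by
    intro u hu
    rw [← hσ]
    funext σ'
    unfold Fr0.rs
    by_cases h1 : σ' ∈ Lᶜ
    · rw [if_pos h1, if_pos h1]
      rw [Finset.mem_compl] at h1
      exact hu σ' fun h3 => h1 (h3 ▸ hτ)
    · rw [if_neg h1, if_neg h1]
  refine ⟨?_, hρok, hrs ρ hρne, ?_⟩
  · rw [le_div_iff₀ hn0, ← hρ]
    have h1 := l1_nrt F.toFr0 τ u₀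
    have h2 := hL τ hτ
    have h4 := F.one_le_nrt (l1 F.toFr0 τ u₀)
    have h5 : z * F.nrt (l1 F.toFr0 τ u₀) ≤ F.nrl (u₀ τ) * F.nrt (l1 F.toFr0 τ u₀) :=
      mul_le_mul_of_nonneg_right h2.le (by linarith)
    linarith [hu₀.2.2]
  rw [← Finset.sum_filter, ← Finset.sum_filter, Finset.mul_sum]
  refine Finset.sum_nbij' (fun u => u τ) (fun g => Function.update ρ τ g) ?_ ?_ ?_ ?_ ?_
  · intro u hu
    rw [Finset.mem_filter, Finset.mem_filter, Fr0.mem_TF] at hu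
    obtain ⟨⟨⟨hok, hJ, hY⟩, hlr⟩, -, hLu⟩ := hu
    have hn := l1_nrt F.toFr0 τ u
    rw [hlr] at hn
    rw [Finset.mem_filter, Fr0.mem_Fam]
    refine ⟨⟨hok.2.1 τ, ?_, ?_⟩, hLu τ hτ, ?_⟩
    · intro i hi
      unfold Fr0.cls at hi
      rw [Finset.mem_image] at hi
      obtain ⟨a, ha, rfl⟩ := hi
      rw [Finset.mem_singleton]
      exact hok.1 τ a ha
    · beta_reduce
      rw [le_div_iff₀ hn0, ← hn]
      exact hY
    · rw [Finset.disjoint_left]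
      intro v hv hv'
      unfold Fr0.und Fr0.U at hv'
      rw [Finset.mem_image] at hv'
      obtain ⟨a, ha, rfl⟩ := hv'
      rw [Finset.mem_biUnion] at ha
      obtain ⟨σ', -, ha⟩ := ha
      have h5 : σ' ≠ τ := by
        rintro rfl
        rw [hρτ] at ha
        exact Finset.notMem_empty _ ha
      have h6 := hlr ▸ ha
      exact Finset.disjoint_left.1 (hok.2.2 τ σ' h5.symm) hv
        (Finset.mem_image_of_mem _ (l1_sub F.toFr0 τ u σ' h6))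
  · intro g hg
    rw [Finset.mem_filter, Fr0.mem_Fam] at hg
    obtain ⟨⟨hg, hgc, hgn⟩, hzg, hd⟩ := hg
    obtain ⟨u, hudef⟩ : ∃ u, u = Function.update ρ τ g := ⟨_, rfl⟩
    have e1 : u τ = g := by
      rw [hudef, Function.update_self]
    have e3 : ∀ σ, σ ≠ τ → u σ = ρ σ := by
      intro σ hσ
      rw [hudef, Function.update_of_ne hσ]
    have huok : F.TOk u := by
      refine ⟨fun σ a ha => ?_, fun σ => ?_, fun σ σ' hσ => ?_⟩
      · by_cases h1 : σ = τ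
        · rw [h1] at ha ⊢
          rw [e1] at ha
          exact Finset.mem_singleton.1 (hgc (Finset.mem_image_of_mem _ ha))
        · rw [e3 σ h1] at ha
          exact hρok.1 σ a ha
      · by_cases h1 : σ = τ
        · rw [h1, e1]
          exact hg
        · rw [e3 σ h1]
          exact hρok.2.1 σ
      · by_cases h1 : σ = τ
        · rw [h1, e1]
          rw [e3 σ' (fun h3 => hσ (h1.trans h3.symm))]
          exact hd.mono_right (sb_und F.toFr0 ρ σ')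
        · rw [e3 σ h1]
          by_cases h3 : σ' = τ
          · rw [h3, e1]
            exact (hd.mono_right (sb_und F.toFr0 ρ σ)).symm
          · rw [e3 σ' h3]
            exact hρok.2.2 σ σ' hσ
    have hlr : l1 F.toFr0 τ u = ρ := by
      funext σ
      by_cases h1 : σ = τ
      · rw [h1, l1_tau, hρτ]
      · rw [l1_eq F.toFr0 τ u h1, e3 σ h1]
    beta_reduce
    rw [← hudef, Finset.mem_filter, Finset.mem_filter, Fr0.mem_TF]
    refine ⟨⟨⟨huok, fun σ hσ => ?_, ?_⟩, hlr⟩, ?_, fun σ hσ => ?_⟩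
    · have h1 : σ ≠ τ := by
        rintro rfl
        exact hσ hJτ
      rw [e3 σ h1, hρne σ h1]
      exact hu₀.2.1 σ hσ
    · rw [l1_nrt F.toFr0 τ u, hlr, e1]
      rwa [le_div_iff₀ hn0] at hgn
    · exact hrs u fun σ h1 => by rw [e3 σ h1, hρne σ h1]
    · by_cases h1 : σ = τ
      · rw [h1, e1]
        exact hzg
      · rw [e3 σ h1, hρne σ h1]
        exact hL σ hσ
  · intro u hu
    rw [Finset.mem_filter, Finset.mem_filter] at hu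
    beta_reduce
    funext σ
    by_cases h1 : σ = τ
    · rw [h1, Function.update_self]
    · rw [Function.update_of_ne h1, ← hu.1.2, l1_eq F.toFr0 τ u h1]
  · intro g _
    beta_reduce
    rw [Function.update_self]
  · intro u hu
    rw [Finset.mem_filter, Finset.mem_filter, Fr0.mem_TF] at hu
    obtain ⟨⟨⟨hok, -, -⟩, hlr⟩, -, -⟩ := hu
    beta_reduce
    rw [← Finset.prod_erase_mul L _ hτ]
    congr 1
    · refine Finset.prod_congr rfl fun σ' hσ' => ?_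
      rw [Finset.mem_erase] at hσ'
      rw [← hlr, l1_eq F.toFr0 τ u hσ'.1]
    · refine Finset.prod_congr rfl fun a ha => ?_
      rw [hψ a (hok.1 τ a ha)]

private theorem sb_rs_in (F : Fr0 X K) (L : Finset X.Ty) (u : X.Ty → Finset F.Lb) {τ : X.Ty}
    (h : τ ∈ L) : F.rs L u τ = u τ := by
  unfold Fr0.rs
  rw [if_pos h]

private theorem sb_rs_out (F : Fr0 X K) (L : Finset X.Ty) (u : X.Ty → Finset F.Lb) {τ : X.Ty}
    (h : τ ∉ L) : F.rs L u τ = ∅ := by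
  unfold Fr0.rs
  rw [if_neg h]

private theorem sb_rs_sub (F : Fr0 X K) (L : Finset X.Ty) (u : X.Ty → Finset F.Lb) (τ : X.Ty) :
    F.rs L u τ ⊆ u τ := by
  by_cases h : τ ∈ L
  · rw [sb_rs_in F L u h]
  · rw [sb_rs_out F L u h]
    exact Finset.empty_subset _

private theorem sb_rs_nrt (F : Fr0 X K) (L : Finset X.Ty) (u : X.Ty → Finset F.Lb) :
    F.nrt u = F.nrt (F.rs Lᶜ u) * F.nrt (F.rs L u) := by
  have h0 : F.nrl ∅ = 1 := Finset.prod_empty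
  unfold Fr0.nrt
  rw [← Finset.prod_mul_distrib]
  refine Finset.prod_congr rfl fun τ _ => ?_
  by_cases h : τ ∈ L
  · rw [sb_rs_in F L u h, sb_rs_out F Lᶜ u (fun h' => Finset.mem_compl.1 h' h), h0, one_mul]
  · rw [sb_rs_out F L u h, sb_rs_in F Lᶜ u (Finset.mem_compl.2 h), h0, mul_one]

private theorem sb_card (F : Fr0 X K) (u : X.Ty → Finset F.Lb) (hu : F.TOk u) :
    (F.U u).card = ∑ τ, (u τ).card := by
  unfold Fr0.U
  exact Finset.card_biUnion fun τ _ τ' _ hne => tok_dis F u hu τ τ' hne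

private theorem sb_rs_tok (F : Fr0 X K) (L : Finset X.Ty) (u : X.Ty → Finset F.Lb) (hu : F.TOk u) :
    F.TOk (F.rs L u) := by
  refine ⟨fun σ a ha => hu.1 σ a (sb_rs_sub F L u σ ha), fun σ => ⟨fun a ha => ?_, fun a ha b hb => ?_⟩,
    fun σ σ' hne => ?_⟩
  · exact (hu.2.1 σ).1 a (sb_rs_sub F L u σ ha)
  · exact (hu.2.1 σ).2 a (sb_rs_sub F L u σ ha) b (sb_rs_sub F L u σ hb)
  · exact (hu.2.2 σ σ' hne).mono (Finset.image_subset_image (sb_rs_sub F L u σ))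
      (Finset.image_subset_image (sb_rs_sub F L u σ'))

private theorem sb_rs_card (F : Fr0 X K) (L : Finset X.Ty) (u : X.Ty → Finset F.Lb) (hu : F.TOk u) :
    (F.U u).card = (F.U (F.rs Lᶜ u)).card + (F.U (F.rs L u)).card := by
  rw [sb_card F u hu, sb_card F _ (sb_rs_tok F Lᶜ u hu), sb_card F _ (sb_rs_tok F L u hu),
    ← Finset.sum_add_distrib]
  refine Finset.sum_congr rfl fun τ _ => ?_
  by_cases h : τ ∈ L
  · rw [sb_rs_in F L u h, sb_rs_out F Lᶜ u (fun h' => Finset.mem_compl.1 h' h), Finset.card_empty, zero_add]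
  · rw [sb_rs_out F L u h, sb_rs_in F Lᶜ u (Finset.mem_compl.2 h), Finset.card_empty, add_zero]

private theorem sb_rs_TF (F : Fr0 X K) (J : Finset (Fin X.N)) (Y : ℝ) (L : Finset X.Ty)
    (u : X.Ty → Finset F.Lb) (hu : u ∈ F.TF J Y) : F.rs L u ∈ F.TF J Y := by
  rw [Fr0.mem_TF] at hu ⊢
  obtain ⟨h1, h4, h5⟩ := hu
  refine ⟨sb_rs_tok F L u h1, ?_, ?_⟩
  · intro τ hτ
    exact Finset.subset_empty.1 ((sb_rs_sub F L u τ).trans (h4 τ hτ).subset)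
  · refine le_trans ?_ h5
    have h6 := sb_rs_nrt F L u
    have h7 := F.one_le_nrt (F.rs Lᶜ u)
    have h8 := F.one_le_nrt (F.rs L u)
    nlinarith

/-- the sum over `ρ` -/
private theorem sb_outer (F : Fr0 X K) (J : Finset (Fin X.N)) (Y : ℝ) (L : Finset X.Ty)
    (σ : X.Ty → Finset F.Lb) (C : ℝ) (hC : 1 ≤ C) :
    ∑ ρ ∈ (F.TF J Y).filter (fun ρ => F.rs Lᶜ ρ = σ), C ^ (F.U ρ).card / F.nrt ρ ≤
      C ^ (F.U σ).card / F.nrt σ * ∑ u ∈ F.TF J Y, C ^ (F.U u).card / F.nrt u := by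
  have h1 : ∀ ρ ∈ (F.TF J Y).filter (fun ρ => F.rs Lᶜ ρ = σ), C ^ (F.U ρ).card / F.nrt ρ =
      C ^ (F.U σ).card / F.nrt σ * (C ^ (F.U (F.rs L ρ)).card / F.nrt (F.rs L ρ)) := by
    intro ρ hρ
    rw [Finset.mem_filter, Fr0.mem_TF] at hρ
    rw [sb_rs_card F L ρ hρ.1.1, sb_rs_nrt F L ρ, hρ.2, pow_add]
    exact mul_div_mul_comm _ _ _ _
  rw [Finset.sum_congr rfl h1, ← Finset.mul_sum]
  have hσ := F.one_le_nrt σ
  refine mul_le_mul_of_nonneg_left ?_ (by positivity)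
  have hinj : Set.InjOn (F.rs L) ((F.TF J Y).filter (fun ρ => F.rs Lᶜ ρ = σ) : Set (X.Ty → Finset F.Lb)) := by
    intro ρ hρ ρ' hρ' h
    rw [Finset.mem_coe, Finset.mem_filter] at hρ hρ'
    funext τ
    by_cases hτ : τ ∈ L
    · rw [← sb_rs_in F L ρ hτ, ← sb_rs_in F L ρ' hτ, h]
    · have h2 : τ ∈ Lᶜ := Finset.mem_compl.2 hτ
      rw [← sb_rs_in F Lᶜ ρ h2, ← sb_rs_in F Lᶜ ρ' h2, hρ.2, hρ'.2]
  calc ∑ ρ ∈ (F.TF J Y).filter (fun ρ => F.rs Lᶜ ρ = σ), C ^ (F.U (F.rs L ρ)).card / F.nrt (F.rs L ρ)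
      = ∑ u ∈ ((F.TF J Y).filter (fun ρ => F.rs Lᶜ ρ = σ)).image (F.rs L), C ^ (F.U u).card / F.nrt u := by
        rw [Finset.sum_image hinj]
    _ ≤ ∑ u ∈ F.TF J Y, C ^ (F.U u).card / F.nrt u := by
        refine Finset.sum_le_sum_of_subset_of_nonneg ?_ ?_
        · intro u hu
          rw [Finset.mem_image] at hu
          obtain ⟨ρ, hρ, rfl⟩ := hu
          exact sb_rs_TF F J Y L ρ (Finset.mem_filter.1 hρ).1
        · intro u _ _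
          have := F.one_le_nrt u
          positivity

end

theorem sngb (X : CD) (K : Type) [Field K] [NumberField K] (d : ℕ) (hA1 : AN1 K d) (hA3 : AN3a K) :
    ∃ (C : ℝ) (A : ℕ) (δ : ℝ), 1 ≤ C ∧ 0 < δ ∧ δ ≤ 1 / 4 ∧ ∀ F : Fr X K, F.d ≤ d → ∀ (J : Finset (Fin X.N))
      (L : Finset X.Ty) (σ : X.Ty → Finset F.Lb), F.TOk σ → (∀ τ ∈ L, σ τ = ∅) →
      ∀ (φ : X.Ty → F.Lb → ZMod X.p) (τ₀ : X.Ty), τ₀ ∈ L → ∀ (κ : F.R → ZMod X.p) (c : F.C)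
      (θ₀ : Fin X.w → ZMod X.p) (θ : F.Lb → Fin X.w → ZMod X.p), X.van τ₀.1.1 τ₀.1.1 θ₀ →
      F.NT τ₀.1.1 (F.ch κ c θ₀ (F.U σ) θ) → (∀ a, a.1 = τ₀.1.1 → φ τ₀ a = F.ch κ c θ₀ (F.U σ) θ a) →
      ∀ z Y : ℝ, 1 ≤ z → 1 ≤ Y →
      ‖∑ u ∈ F.TF J Y, if F.rs Lᶜ u = σ ∧ ∀ τ ∈ L, z < F.nrl (u τ) then
        ∏ τ ∈ L, ∏ a ∈ u τ, ep X.p (φ τ a) else 0‖ ≤
      C * F.qq ^ A * C ^ (F.U σ).card * (F.D * nr (F.und (F.U σ))) ^ A * (Y / F.nrt σ) * z ^ (-δ) *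
        (1 + Real.log Y) ^ A := by
  obtain ⟨C₁, A₁, δ, hC₁, hδ, hδ', H₁⟩ := snga X K d hA1
  obtain ⟨C₂, A₂, hC₂, H₂⟩ := trv X K hA3 d C₁ hC₁
  refine ⟨C₁ * C₂, A₁ + A₂, δ, by nlinarith, hδ, hδ', ?_⟩
  intro F hF J L σ hσ hσL φ τ₀ hτ₀ κ c θ₀ θ hv hNT hφ z Y hz hY
  have hσok := tok_ok F.toFr0 σ hσ
  have hD := F.one_le_D
  have hq := F.one_le_qq
  have hn : 1 ≤ nr (F.und (F.U σ)) := one_le_nr _
  have hDn : 1 ≤ F.D * nr (F.und (F.U σ)) := by nlinarith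
  have hσ1 := F.one_le_nrt σ
  have hlog : 1 ≤ 1 + Real.log Y := by
    have := Real.log_nonneg hY
    linarith
  have hz0 : 0 ≤ z ^ (-δ) := Real.rpow_nonneg (by linarith) _
  have hsum : (∑ u ∈ F.TF J Y, if F.rs Lᶜ u = σ ∧ ∀ τ ∈ L, z < F.nrl (u τ) then
        ∏ τ ∈ L, ∏ a ∈ u τ, ep X.p (φ τ a) else 0) = ∑ ρ ∈ F.TF J Y,
      ∑ u ∈ (F.TF J Y).filter (fun u => l1 F.toFr0 τ₀ u = ρ),
        if PS F.toFr0 L σ z u then
        ∏ τ ∈ L, ∏ a ∈ u τ, ep X.p (φ τ a) else 0 := by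
    rw [Finset.sum_fiberwise_of_maps_to (fun u hu => l1_TF F.toFr0 τ₀ J Y u hu)]
    exact Finset.sum_congr rfl fun u _ => if_congr Iff.rfl rfl rfl
  have hbd : ∀ ρ ∈ F.TF J Y,
      ‖∑ u ∈ (F.TF J Y).filter (fun u => l1 F.toFr0 τ₀ u = ρ),
        if PS F.toFr0 L σ z u then
        ∏ τ ∈ L, ∏ a ∈ u τ, ep X.p (φ τ a) else 0‖ ≤
      if F.rs Lᶜ ρ = σ then C₁ * F.qq ^ A₁ * (F.D * nr (F.und (F.U σ))) ^ A₁ * Y * z ^ (-δ) *
        (C₁ ^ (F.U ρ).card / F.nrt ρ) else 0 := by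
    intro ρ hρ
    have hn1 := F.one_le_nrt ρ
    have hn0 : 0 < F.nrt ρ := by linarith
    rcases sb_inner F J L σ φ τ₀ hτ₀ (F.ch κ c θ₀ (F.U σ) θ) hφ z hz Y ρ with h0 | ⟨hYY, hρok, hrs, heq⟩
    · rw [h0, norm_zero]
      split_ifs
      · positivity
      · exact le_rfl
    · rw [heq, if_pos hrs, norm_mul]
      have h1 : ‖∏ τ' ∈ L.erase τ₀, ∏ a ∈ ρ τ', ep X.p (φ τ' a)‖ = 1 := by
        rw [norm_prod]
        refine Finset.prod_eq_one fun τ' _ => ?_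
        rw [norm_prod]
        exact Finset.prod_eq_one fun a _ => ep_norm _ _
      rw [h1, one_mul]
      have hB : F.und (F.U σ) ⊆ F.und (F.U ρ) := by
        refine Finset.image_subset_image ?_
        intro a ha
        unfold Fr0.U at ha ⊢
        rw [Finset.mem_biUnion] at ha ⊢
        obtain ⟨τ, h2, h3⟩ := ha
        rw [← hrs] at h3
        exact ⟨τ, h2, sb_rs_sub F.toFr0 Lᶜ ρ τ h3⟩
      refine (H₁ F hF τ₀.1.1 κ c θ₀ (F.U σ) θ hv hσok.1 hNT (F.und (F.U ρ)) hB z (Y / F.nrt ρ) hz hYY).trans ?_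
      have hcard : (F.und (F.U ρ)).card = (F.U ρ).card := ok_card F.toFr0 _ (tok_ok F.toFr0 ρ hρok)
      rw [hcard]
      have hYY0 : 0 < Y / F.nrt ρ := by linarith
      have h2 : (Y / F.nrt ρ) ^ (1 - δ) ≤ Y / F.nrt ρ * z ^ (-δ) := by
        rw [sub_eq_add_neg, Real.rpow_add hYY0, Real.rpow_one]
        exact mul_le_mul_of_nonneg_left (Real.rpow_le_rpow_of_nonpos (by linarith) hYY (by linarith)) hYY0.le
      calc C₁ * F.qq ^ A₁ * C₁ ^ (F.U ρ).card * (F.D * nr (F.und (F.U σ))) ^ A₁ * (Y / F.nrt ρ) ^ (1 - δ)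
          ≤ C₁ * F.qq ^ A₁ * C₁ ^ (F.U ρ).card * (F.D * nr (F.und (F.U σ))) ^ A₁ * (Y / F.nrt ρ * z ^ (-δ)) :=
            mul_le_mul_of_nonneg_left h2 (by positivity)
        _ = C₁ * F.qq ^ A₁ * (F.D * nr (F.und (F.U σ))) ^ A₁ * Y * z ^ (-δ) *
            (C₁ ^ (F.U ρ).card / F.nrt ρ) := by ring
  rw [hsum]
  refine (norm_sum_le _ _).trans ((Finset.sum_le_sum hbd).trans ?_)
  rw [← Finset.sum_filter, ← Finset.mul_sum]
  have h3 := sb_outer F.toFr0 J Y L σ C₁ hC₁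
  have h4 := (H₂ F hF J Y hY).2
  have h5 : C₁ ^ (F.U σ).card ≤ (C₁ * C₂) ^ (F.U σ).card := pow_le_pow_left₀ (by linarith) (by nlinarith) _
  have h6 : F.qq ^ A₁ ≤ F.qq ^ (A₁ + A₂) := pow_le_pow_right₀ hq (Nat.le_add_right _ _)
  have h7 : (F.D * nr (F.und (F.U σ))) ^ A₁ ≤ (F.D * nr (F.und (F.U σ))) ^ (A₁ + A₂) :=
    pow_le_pow_right₀ hDn (Nat.le_add_right _ _)
  have h8 : (1 + Real.log Y) ^ A₂ ≤ (1 + Real.log Y) ^ (A₁ + A₂) :=
    pow_le_pow_right₀ hlog (Nat.le_add_left _ _)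
  have h9 : 0 ≤ F.D * nr (F.und (F.U σ)) := by linarith
  have h10 : 0 ≤ 1 + Real.log Y := by linarith
  have h11 : 0 ≤ Y / F.nrt σ := by positivity
  calc C₁ * F.qq ^ A₁ * (F.D * nr (F.und (F.U σ))) ^ A₁ * Y * z ^ (-δ) *
        ∑ ρ ∈ (F.TF J Y).filter (fun ρ => F.rs Lᶜ ρ = σ), C₁ ^ (F.U ρ).card / F.nrt ρ
      ≤ C₁ * F.qq ^ A₁ * (F.D * nr (F.und (F.U σ))) ^ A₁ * Y * z ^ (-δ) *
        (C₁ ^ (F.U σ).card / F.nrt σ * (C₂ * (1 + Real.log Y) ^ A₂)) := by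
        refine mul_le_mul_of_nonneg_left (h3.trans ?_) (by positivity)
        exact mul_le_mul_of_nonneg_left h4 (by positivity)
    _ = C₁ * C₂ * F.qq ^ A₁ * C₁ ^ (F.U σ).card * (F.D * nr (F.und (F.U σ))) ^ A₁ * (Y / F.nrt σ) * z ^ (-δ) *
        (1 + Real.log Y) ^ A₂ := by ring
    _ ≤ C₁ * C₂ * F.qq ^ (A₁ + A₂) * (C₁ * C₂) ^ (F.U σ).card * (F.D * nr (F.und (F.U σ))) ^ (A₁ + A₂) *
        (Y / F.nrt σ) * z ^ (-δ) * (1 + Real.log Y) ^ (A₁ + A₂) := by gcongr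

end H51.MM
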