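import Pool.Agent.H51.MM.PhB
import Pool.Agent.H51.MM.SngB

/-!
# [H51 MM UNLA] The contribution of an unlinked set of large types with a nontrivial character (120-180 lines)

Split the sum according to `σ = rs Lᶜ u`. For `u` with `Cnd`: `σ τ = ∅` for `τ ∈ L`, `TOk σ`, sizes `≤ y_k = lv Z R k`, `z = lv Z R (k + 1) = y_k ^ R`; the
other conditions depend on `σ` only; `cls (U u) = cls (U σ) ∪ kl L`; `tot (U u) = tot (U σ) + ∑_i tL L u i`; phase by `phb`. Fourier expansion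
on `(Fin N → V)`, `V = F.R → ZMod p`: `h (tot (U σ) + ∑ x i) ep (Ω x) = ∑_κ c_κ ep (∑_i κ i ⬝ᵥ x i)`, `|c_κ| ≤ 1`, at most `qq ^ N` terms
(`c_κ = #^{-1} ∑_x (..) ep (-∑ κ i ⬝ᵥ x i)`). `κ i ⬝ᵥ tL L u i = ∑_{τ ∈ L, τ.1.1 = i} ∑_{a ∈ u τ} κ i ⬝ᵥ qv a`. So the sum for fixed `σ`, `κ` is the sum of
`sngb` with `φ τ a = ch (κ τ.1.1) c (τ.1.2 - f τ.1.1) (U σ) (fun b => τ.1.2 - tyv σ b) a`, and `hNT` gives `τ₀`; `van i i (τ.1.2 - f i)` because
`(i, τ.1.2)`, `(i, f i)` are in `L`. Total: `≤ qq^N C qq^A ∑_σ C^#(U σ) (D nr)^A (Y / nrt σ) z^(-δ) (1 + log Y)^A`, `nr (und (U σ)) = nrt σ ≤ y_k ^ #Ty`,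
`∑_σ C^#(U σ) / nrt σ ≤ C (1 + log Y)^A` (`trv`), and `y_k ^ (#Ty A) y_k ^ (-R δ) ≤ y_k^{-1} ≤ Z^{-1}` if `R δ ≥ #Ty A + 1`; `y_k ≥ Z`.
-/

set_option autoImplicit false

open scoped NumberField
open IsDedekindDomain NumberField H63.MA H36.QA Filter Topology
open scoped Classical

noncomputable section

namespace H51.MM

private theorem ep_sum_prod {p : ℕ} (hp : p.Prime) {ι : Type} (s : Finset ι) (g : ι → ZMod p) :
    ep p (∑ a ∈ s, g a) = ∏ a ∈ s, ep p (g a) := by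
  induction s using Finset.induction_on with
  | empty => rw [Finset.sum_empty, Finset.prod_empty, ep_zero]
  | insert a s ha ih => rw [Finset.sum_insert ha, Finset.prod_insert ha, ep_add hp, ih]

/-- the bilinear form -/
private def bl {X : CD} {R : Type} [Fintype R] (κ x : Fin X.N → R → ZMod X.p) : ZMod X.p :=
  ∑ i, κ i ⬝ᵥ x i

private theorem bl_add {X : CD} {R : Type} [Fintype R] (κ κ' x : Fin X.N → R → ZMod X.p) :
    bl (κ + κ') x = bl κ x + bl κ' x := by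
  unfold bl
  rw [← Finset.sum_add_distrib]
  exact Finset.sum_congr rfl fun i _ => add_dotProduct _ _ _

private theorem bl_sub {X : CD} {R : Type} [Fintype R] (κ x y : Fin X.N → R → ZMod X.p) :
    bl κ (x - y) = bl κ x - bl κ y := by
  unfold bl
  rw [← Finset.sum_sub_distrib]
  exact Finset.sum_congr rfl fun i _ => dotProduct_sub _ _ _

/-- orthogonality -/
private theorem orth {X : CD} {R : Type} [Fintype R] (x : Fin X.N → R → ZMod X.p) :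
    ∑ κ : Fin X.N → R → ZMod X.p, ep X.p (bl κ x) =
      if x = 0 then (Fintype.card (Fin X.N → R → ZMod X.p) : ℂ) else 0 := by
  split_ifs with hx
  · subst hx
    have h1 : ∀ κ : Fin X.N → R → ZMod X.p, ep X.p (bl κ 0) = 1 := by
      intro κ
      have h2 : bl κ (0 : Fin X.N → R → ZMod X.p) = 0 := by
        unfold bl
        exact Finset.sum_eq_zero fun i _ => dotProduct_zero _
      rw [h2, ep_zero]
    rw [Finset.sum_congr rfl fun κ _ => h1 κ, Finset.sum_const, nsmul_eq_mul, mul_one,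
      Finset.card_univ]
  · obtain ⟨i, hi⟩ : ∃ i, x i ≠ 0 := by
      by_contra hcon
      push Not at hcon
      exact hx (funext hcon)
    obtain ⟨r, hr⟩ : ∃ r, x i r ≠ 0 := by
      by_contra hcon
      push Not at hcon
      exact hi (funext hcon)
    set κ₀ : Fin X.N → R → ZMod X.p := Pi.single i (Pi.single r 1) with hκ
    have h1 : bl κ₀ x = x i r := by
      unfold bl
      rw [Finset.sum_eq_single i]
      · rw [hκ, Pi.single_eq_same, single_dotProduct, one_mul]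
      · intro j _ hj
        rw [hκ, Pi.single_eq_of_ne hj, zero_dotProduct]
      · intro h
        exact absurd (Finset.mem_univ i) h
    have h2 : ∑ κ : Fin X.N → R → ZMod X.p, ep X.p (bl κ x) =
        ep X.p (x i r) * ∑ κ : Fin X.N → R → ZMod X.p, ep X.p (bl κ x) := by
      calc ∑ κ : Fin X.N → R → ZMod X.p, ep X.p (bl κ x)
          = ∑ κ : Fin X.N → R → ZMod X.p, ep X.p (bl (κ + κ₀) x) :=
            (Fintype.sum_equiv (Equiv.addRight κ₀) _ _ fun κ => rfl).symm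
        _ = ep X.p (x i r) * ∑ κ : Fin X.N → R → ZMod X.p, ep X.p (bl κ x) := by
            rw [Finset.mul_sum]
            refine Finset.sum_congr rfl fun κ _ => ?_
            rw [bl_add, h1, ep_add X.hp, mul_comm]
    have h3 : ep X.p (x i r) ≠ 1 := fun h => hr ((ep_eq_one X.hp _).1 h)
    have h4 : (ep X.p (x i r) - 1) * ∑ κ : Fin X.N → R → ZMod X.p, ep X.p (bl κ x) = 0 := by
      rw [sub_mul, one_mul, ← h2, sub_self]
    exact (mul_eq_zero.1 h4).resolve_left (sub_ne_zero.2 h3)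

/-- Fourier expansion -/
private theorem fourier {X : CD} {R : Type} [Fintype R] (H : (Fin X.N → R → ZMod X.p) → ℂ)
    (hH : ∀ x, ‖H x‖ ≤ 1) : ∃ cf : (Fin X.N → R → ZMod X.p) → ℂ, (∀ κ, ‖cf κ‖ ≤ 1) ∧
      ∀ x, H x = ∑ κ, cf κ * ep X.p (bl κ x) := by
  have hn : 0 < Fintype.card (Fin X.N → R → ZMod X.p) := Fintype.card_pos
  have hnC : (Fintype.card (Fin X.N → R → ZMod X.p) : ℂ) ≠ 0 := by exact_mod_cast hn.ne'
  refine ⟨fun κ => (Fintype.card (Fin X.N → R → ZMod X.p) : ℂ)⁻¹ * ∑ y, H y * ep X.p (-bl κ y),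
    fun κ => ?_, fun x => ?_⟩
  · rw [norm_mul, norm_inv, Complex.norm_natCast]
    have h1 : ‖∑ y, H y * ep X.p (-bl κ y)‖ ≤ (Fintype.card (Fin X.N → R → ZMod X.p) : ℝ) := by
      refine (norm_sum_le _ _).trans ?_
      have h2 : ∀ y ∈ (Finset.univ : Finset (Fin X.N → R → ZMod X.p)),
          ‖H y * ep X.p (-bl κ y)‖ ≤ 1 := by
        intro y _
        rw [norm_mul, ep_norm, mul_one]
        exact hH y
      refine (Finset.sum_le_sum h2).trans ?_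
      rw [Finset.sum_const, nsmul_eq_mul, mul_one, Finset.card_univ]
    rw [inv_mul_le_iff₀ (by exact_mod_cast hn), mul_one]
    exact h1
  · have h1 : ∀ κ : Fin X.N → R → ZMod X.p,
        (Fintype.card (Fin X.N → R → ZMod X.p) : ℂ)⁻¹ * (∑ y, H y * ep X.p (-bl κ y)) *
          ep X.p (bl κ x) = (Fintype.card (Fin X.N → R → ZMod X.p) : ℂ)⁻¹ *
          ∑ y, H y * ep X.p (bl κ (x - y)) := by
      intro κ
      rw [mul_assoc, Finset.sum_mul]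
      congr 1
      refine Finset.sum_congr rfl fun y _ => ?_
      rw [mul_assoc, ← ep_add X.hp, bl_sub]
      congr 2
      ring
    simp only
    rw [Finset.sum_congr rfl fun κ _ => h1 κ, ← Finset.mul_sum, Finset.sum_comm]
    have h2 : ∀ y : Fin X.N → R → ZMod X.p, ∑ κ : Fin X.N → R → ZMod X.p,
        H y * ep X.p (bl κ (x - y)) = if x = y then
          H y * (Fintype.card (Fin X.N → R → ZMod X.p) : ℂ) else 0 := by
      intro y
      rw [← Finset.mul_sum, orth]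
      by_cases h : x = y
      · rw [if_pos h, if_pos (sub_eq_zero.2 h)]
      · rw [if_neg h, if_neg (fun h' => h (sub_eq_zero.1 h')), mul_zero]
    rw [Finset.sum_congr rfl fun y _ => h2 y, Finset.sum_ite_eq, if_pos (Finset.mem_univ _)]
    field_simp

variable {X : CD} {K : Type} [Field K] [NumberField K]

private theorem nrl_empty (F : Fr0 X K) : F.nrl ∅ = 1 := by
  unfold Fr0.nrl
  rw [Finset.prod_empty]

private theorem rs_in (F : Fr0 X K) (L : Finset X.Ty) (u : X.Ty → Finset F.Lb) {τ : X.Ty}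
    (h : τ ∈ L) : F.rs Lᶜ u τ = ∅ := by
  unfold Fr0.rs
  rw [if_neg]
  rw [Finset.mem_compl]
  exact fun h' => h' h

private theorem rs_out (F : Fr0 X K) (L : Finset X.Ty) (u : X.Ty → Finset F.Lb) {τ : X.Ty}
    (h : τ ∉ L) : F.rs Lᶜ u τ = u τ := by
  unfold Fr0.rs
  rw [if_pos (Finset.mem_compl.2 h)]

private theorem rs_sub (F : Fr0 X K) (L : Finset X.Ty) (u : X.Ty → Finset F.Lb) (τ : X.Ty) :
    F.rs Lᶜ u τ ⊆ u τ := by
  by_cases h : τ ∈ L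
  · rw [rs_in F L u h]
    exact Finset.empty_subset _
  · rw [rs_out F L u h]

private theorem rs_mem (F : Fr0 X K) (J : Finset (Fin X.N)) (Y : ℝ) (L : Finset X.Ty)
    (u : X.Ty → Finset F.Lb) (hu : u ∈ F.TF J Y) : F.rs Lᶜ u ∈ F.TF J Y := by
  rw [Fr0.mem_TF] at hu ⊢
  obtain ⟨⟨h1, h2, h3⟩, h4, h5⟩ := hu
  refine ⟨⟨?_, ?_, ?_⟩, ?_, ?_⟩
  · intro τ a ha
    exact h1 τ a (rs_sub F L u τ ha)
  · intro τ
    exact ⟨fun a ha => (h2 τ).1 a (rs_sub F L u τ ha),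
      fun a ha b hb => (h2 τ).2 a (rs_sub F L u τ ha) b (rs_sub F L u τ hb)⟩
  · intro τ τ' hne
    exact Finset.disjoint_of_subset_left (Finset.image_subset_image (rs_sub F L u τ))
      (Finset.disjoint_of_subset_right (Finset.image_subset_image (rs_sub F L u τ')) (h3 τ τ' hne))
  · intro τ hτ
    exact Finset.subset_empty.1 ((rs_sub F L u τ).trans (h4 τ hτ).subset)
  · refine le_trans ?_ h5
    unfold Fr0.nrt
    refine Finset.prod_le_prod (fun τ _ => le_trans zero_le_one (F.one_le_nrl _)) fun τ _ => ?_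
    by_cases h : τ ∈ L
    · rw [rs_in F L u h, nrl_empty]
      exact F.one_le_nrl _
    · rw [rs_out F L u h]

private theorem tot_U (F : Fr0 X K) (u : X.Ty → Finset F.Lb) (hu : F.TOk u) :
    F.tot (F.U u) = ∑ τ, F.tot (u τ) := by
  unfold Fr0.tot Fr0.U
  rw [Finset.sum_biUnion]
  intro τ _ τ' _ hne
  exact tok_dis F u hu τ τ' hne

private theorem tot_split (F : Fr0 X K) (L : Finset X.Ty) (u : X.Ty → Finset F.Lb) (hu : F.TOk u)
    (hσ : F.TOk (F.rs Lᶜ u)) : F.tot (F.U u) = F.tot (F.U (F.rs Lᶜ u)) + ∑ i, tL F L u i := by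
  rw [tot_U F u hu, tot_U F _ hσ]
  have h1 : ∑ i, tL F L u i = ∑ τ ∈ L, F.tot (u τ) := by
    unfold tL
    exact Finset.sum_fiberwise L (fun τ : X.Ty => τ.1.1) fun τ => F.tot (u τ)
  have h2 : ∑ τ, F.tot (F.rs Lᶜ u τ) = ∑ τ ∈ Lᶜ, F.tot (u τ) := by
    rw [← Finset.sum_add_sum_compl Lᶜ, compl_compl]
    have h3 : ∑ τ ∈ L, F.tot (F.rs Lᶜ u τ) = 0 := by
      refine Finset.sum_eq_zero fun τ hτ => ?_
      rw [rs_in F L u hτ]
      unfold Fr0.tot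
      exact Finset.sum_empty
    rw [h3, add_zero]
    refine Finset.sum_congr rfl fun τ hτ => ?_
    rw [rs_out F L u (Finset.mem_compl.1 hτ)]
  rw [h1, h2, add_comm, Finset.sum_add_sum_compl]

private theorem bl_tL (F : Fr0 X K) (L : Finset X.Ty) (u : X.Ty → Finset F.Lb)
    (κ : Fin X.N → F.R → ZMod X.p) :
    bl κ (tL F L u) = ∑ τ ∈ L, ∑ a ∈ u τ, κ τ.1.1 ⬝ᵥ F.qv a := by
  unfold bl
  have h1 : ∀ i, κ i ⬝ᵥ tL F L u i =
      ∑ τ ∈ L.filter (fun τ => τ.1.1 = i), ∑ a ∈ u τ, κ τ.1.1 ⬝ᵥ F.qv a := by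
    intro i
    unfold tL
    rw [dotProduct_sum]
    refine Finset.sum_congr rfl fun τ hτ => ?_
    unfold Fr0.tot
    rw [dotProduct_sum, (Finset.mem_filter.1 hτ).2]
  rw [Finset.sum_congr rfl fun i _ => h1 i]
  exact Finset.sum_fiberwise L (fun τ : X.Ty => τ.1.1) fun τ => ∑ a ∈ u τ, κ τ.1.1 ⬝ᵥ F.qv a

private theorem cls_split (F : Fr0 X K) (L : Finset X.Ty) (u : X.Ty → Finset F.Lb) (hu : F.TOk u)
    (hne : ∀ τ ∈ L, u τ ≠ ∅) : F.cls (F.U u) = F.cls (F.U (F.rs Lᶜ u)) ∪ X.kl L := by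
  ext i
  simp only [Fr0.cls, Fr0.U, CD.kl, Finset.mem_union, Finset.mem_image, Finset.mem_biUnion,
    Finset.mem_univ, true_and]
  constructor
  · rintro ⟨a, ⟨τ, ha⟩, rfl⟩
    by_cases hτ : τ ∈ L
    · exact Or.inr ⟨τ, hτ, (hu.1 τ a ha).symm⟩
    · exact Or.inl ⟨a, ⟨τ, by rw [rs_out F L u hτ]; exact ha⟩, rfl⟩
  · rintro (⟨a, ⟨τ, ha⟩, rfl⟩ | ⟨τ, hτ, rfl⟩)
    · exact ⟨a, ⟨τ, rs_sub F L u τ ha⟩, rfl⟩
    · obtain ⟨a, ha⟩ := Finset.nonempty_iff_ne_empty.2 (hne τ hτ)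
      exact ⟨a, ⟨τ, ha⟩, hu.1 τ a ha⟩

private theorem card_le (F : Fr X K) :
    (Fintype.card (Fin X.N → F.R → ZMod X.p) : ℝ) ≤ F.qq ^ X.N := by
  rw [Fintype.card_fun, Fintype.card_fin, Fintype.card_fun, ZMod.card]
  push_cast
  exact pow_le_pow_left₀ (by positivity) F.card_R _

private theorem unla_fourier (F : Fr X K) (J : Finset (Fin X.N)) (c : F.C)
    (h : (F.R → ZMod X.p) → ℂ) (hh : ∀ x, ‖h x‖ ≤ 1) (L : Finset X.Ty) (hL : X.Unl L)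
    (f : Fin X.N → Fin X.w → ZMod X.p) (hf : ∀ τ ∈ L, ∃ τ' ∈ L, τ'.1 = (τ.1.1, f τ.1.1))
    (σ : X.Ty → Finset F.Lb) (hσ : F.TOk σ) (hσL : ∀ τ ∈ L, σ τ = ∅) (z Y Bd : ℝ)
    (hb : ∀ κ : Fin X.N → F.R → ZMod X.p, ‖∑ u ∈ F.TF J Y, if F.rs Lᶜ u = σ ∧
      ∀ τ ∈ L, z < F.nrl (u τ) then ∏ τ ∈ L, ∏ a ∈ u τ, ep X.p (F.ch (κ τ.1.1) c
        (τ.1.2 - f τ.1.1) (F.U σ) (fun b => τ.1.2 - tyv F.toFr0 σ b) a) else 0‖ ≤ Bd) :
    ‖∑ u ∈ F.TF J Y, if F.rs Lᶜ u = σ ∧ ∀ τ ∈ L, z < F.nrl (u τ) then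
      h (F.tot (F.U u)) * ep X.p (F.Ph c u) else 0‖ ≤ F.qq ^ X.N * Bd := by
  obtain ⟨Ω, hΩ⟩ := phb F c L hL f hf σ hσL
  obtain ⟨cf, hc1, hc2⟩ := fourier (X := X) (R := F.R)
    (fun x => h (F.tot (F.U σ) + ∑ i, x i) * ep X.p (Ω x)) (fun x => by
      rw [norm_mul, ep_norm, mul_one]
      exact hh _)
  have key : ∀ u ∈ F.TF J Y, (if F.rs Lᶜ u = σ ∧ ∀ τ ∈ L, z < F.nrl (u τ) then
      h (F.tot (F.U u)) * ep X.p (F.Ph c u) else 0) = ∑ κ, cf κ * (if F.rs Lᶜ u = σ ∧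
      ∀ τ ∈ L, z < F.nrl (u τ) then ∏ τ ∈ L, ∏ a ∈ u τ, ep X.p (F.ch (κ τ.1.1) c
        (τ.1.2 - f τ.1.1) (F.U σ) (fun b => τ.1.2 - tyv F.toFr0 σ b) a) else 0) := by
    intro u hu
    have huT : F.TOk u := ((F.mem_TF J Y u).1 hu).1
    split_ifs with hc
    · have h1 : F.tot (F.U u) = F.tot (F.U σ) + ∑ i, tL F.toFr0 L u i := by
        rw [tot_split F.toFr0 L u huT (by rw [hc.1]; exact hσ), hc.1]
      rw [h1, hΩ u huT hc.1, ep_add X.hp, ← mul_assoc]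
      have h2 := hc2 (tL F.toFr0 L u)
      rw [h2, Finset.sum_mul]
      refine Finset.sum_congr rfl fun κ _ => ?_
      rw [mul_assoc, ← ep_add X.hp, bl_tL, ← Finset.sum_add_distrib, ep_sum_prod X.hp]
      congr 1
      refine Finset.prod_congr rfl fun τ _ => ?_
      rw [← Finset.sum_add_distrib, ep_sum_prod X.hp]
      refine Finset.prod_congr rfl fun a _ => ?_
      congr 1
      unfold Fr0.ch
      rw [zero_dotProduct]
      ring
    · simp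
  rw [Finset.sum_congr rfl key, Finset.sum_comm]
  have hBd : 0 ≤ Bd := le_trans (norm_nonneg _) (hb 0)
  calc ‖∑ κ, ∑ u ∈ F.TF J Y, cf κ * (if F.rs Lᶜ u = σ ∧ ∀ τ ∈ L, z < F.nrl (u τ) then
        ∏ τ ∈ L, ∏ a ∈ u τ, ep X.p (F.ch (κ τ.1.1) c (τ.1.2 - f τ.1.1) (F.U σ)
          (fun b => τ.1.2 - tyv F.toFr0 σ b) a) else 0)‖
      ≤ ∑ _κ : Fin X.N → F.R → ZMod X.p, Bd := by
        refine (norm_sum_le _ _).trans (Finset.sum_le_sum fun κ _ => ?_)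
        rw [← Finset.mul_sum, norm_mul]
        calc _ ≤ 1 * Bd := mul_le_mul (hc1 κ) (hb κ) (norm_nonneg _) zero_le_one
          _ = Bd := one_mul _
    _ = (Fintype.card (Fin X.N → F.R → ZMod X.p) : ℝ) * Bd := by
        rw [Finset.sum_const, nsmul_eq_mul, Finset.card_univ]
    _ ≤ F.qq ^ X.N * Bd := mul_le_mul_of_nonneg_right (card_le F) hBd

private theorem lv_ge (Z : ℝ) (hZ : 1 ≤ Z) (R k : ℕ) (hR : 1 ≤ R) : Z ≤ lv Z R k := by
  unfold lv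
  calc Z = Z ^ 1 := (pow_one Z).symm
    _ ≤ Z ^ (R ^ k) := pow_le_pow_right₀ hZ (Nat.one_le_pow _ _ hR)

private theorem lv_succ (Z : ℝ) (R k : ℕ) : lv Z R (k + 1) = lv Z R k ^ R := by
  unfold lv
  rw [← pow_mul, pow_succ]

theorem unla (X : CD) (K : Type) [Field K] [NumberField K] (d : ℕ) (hA1 : AN1 K d) (hA3 : AN3a K) :
    ∃ (C : ℝ) (A R₀ : ℕ), 1 ≤ C ∧ 1 ≤ R₀ ∧ ∀ F : Fr X K, F.d ≤ d → ∀ (J : Finset (Fin X.N))
      (c : F.C) (h : (F.R → ZMod X.p) → ℂ), (∀ x, ‖h x‖ ≤ 1) → ∀ (Z : ℝ) (R k : ℕ) (L : Finset X.Ty)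
      (W : (X.Ty → Finset F.Lb) → Prop) (f : Fin X.N → Fin X.w → ZMod X.p), 1 ≤ Z → R₀ ≤ R → X.Unl L →
      (∀ τ ∈ L, ∃ τ' ∈ L, τ'.1 = (τ.1.1, f τ.1.1)) →
      (∀ σ : X.Ty → Finset F.Lb, F.TOk σ → (∀ τ ∈ L, σ τ = ∅) → (∀ τ, τ.1.1 ∉ J → σ τ = ∅) → W σ →
        F.Sp c (F.cls (F.U σ) ∪ X.kl L) → ∀ κ : Fin X.N → F.R → ZMod X.p, ∃ τ ∈ L,
          F.NT τ.1.1 (F.ch (κ τ.1.1) c (τ.1.2 - f τ.1.1) (F.U σ) fun b => τ.1.2 - tyv F.toFr0 σ b)) →
      ∀ Y : ℝ, 1 ≤ Y → ‖F.SS J c h Z R k L W Y‖ ≤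
        C * (F.qq * F.D) ^ A * Y * Z⁻¹ * (1 + Real.log Y) ^ A := by
  obtain ⟨C₁, A₁, δ, hC₁, hδ, -, hs⟩ := sngb X K d hA1 hA3
  obtain ⟨C₂, A₂, hC₂, ht⟩ := trv X K hA3 d C₁ hC₁
  obtain ⟨R₀, hR₀⟩ := exists_nat_ge (((Fintype.card X.Ty * A₁ : ℕ) + 1 : ℝ) / δ)
  refine ⟨C₁ * C₂, X.N + A₁ + A₂, R₀ + 1, one_le_mul_of_one_le_of_one_le hC₁ hC₂, by omega, ?_⟩
  intro F hF J c h hh Z R k L W f hZ hR hL hf hNT Y hY
  have hR1 : 1 ≤ R := by omega
  have hRδ : ((Fintype.card X.Ty * A₁ : ℕ) : ℝ) + 1 ≤ R * δ := by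
    have h1 : (((Fintype.card X.Ty * A₁ : ℕ) : ℝ) + 1) / δ ≤ R := by
      refine hR₀.trans ?_
      exact_mod_cast (by omega : R₀ ≤ R)
    rwa [div_le_iff₀ hδ] at h1
  set y : ℝ := lv Z R k with hy
  have hyZ : Z ≤ y := lv_ge Z hZ R k hR1
  have hy1 : 1 ≤ y := hZ.trans hyZ
  have hz : lv Z R (k + 1) = y ^ R := lv_succ Z R k
  have hz1 : 1 ≤ lv Z R (k + 1) := by
    rw [hz]
    exact one_le_pow₀ hy1
  have hq := F.one_le_qq
  have hD := F.one_le_D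
  have hlog : 1 ≤ 1 + Real.log Y := by
    have := Real.log_nonneg hY
    linarith
  have hY0 : 0 < Y := by linarith
  set Bd : ℝ := F.qq ^ X.N * (C₁ * F.qq ^ A₁ * F.D ^ A₁ * (y ^ Fintype.card X.Ty) ^ A₁ * Y *
    (lv Z R (k + 1)) ^ (-δ) * (1 + Real.log Y) ^ A₁) with hBd
  have hBd0 : 0 ≤ Bd := by positivity
  -- the bound for one `σ`
  have one : ∀ σ ∈ F.TF J Y, ‖∑ u ∈ F.TF J Y with F.rs Lᶜ u = σ,
      (if F.Cnd Z R k L u ∧ W (F.rs Lᶜ u) ∧ F.Sp c (F.cls (F.U u)) then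
        h (F.tot (F.U u)) * ep X.p (F.Ph c u) else 0)‖ ≤
      Bd * (C₁ ^ (F.U σ).card / F.nrt σ) := by
    intro σ hσm
    obtain ⟨hσ, hσJ, -⟩ := (F.mem_TF J Y σ).1 hσm
    have hnσ : 0 < F.nrt σ := lt_of_lt_of_le zero_lt_one (F.one_le_nrt σ)
    have hRHS : 0 ≤ Bd * (C₁ ^ (F.U σ).card / F.nrt σ) := by positivity
    by_cases hσL : ∀ τ ∈ L, σ τ = ∅
    swap
    · have h1 : (F.TF J Y).filter (fun u => F.rs Lᶜ u = σ) = ∅ := by
        refine Finset.filter_eq_empty_iff.2 fun u _ hu => hσL fun τ hτ => ?_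
        rw [← hu]
        exact rs_in F.toFr0 L u hτ
      rw [h1, Finset.sum_empty, norm_zero]
      exact hRHS
    by_cases hP : (∀ τ, τ ∉ L → F.nrl (σ τ) ≤ lv Z R k) ∧
        (∀ k' < k, ∃ τ, τ ∉ L ∧ lv Z R k' < F.nrl (σ τ) ∧ F.nrl (σ τ) ≤ lv Z R (k' + 1)) ∧
        W σ ∧ F.Sp c (F.cls (F.U σ) ∪ X.kl L)
    swap
    · rw [Finset.sum_eq_zero, norm_zero]
      · exact hRHS
      · intro u hu
        obtain ⟨hu1, hu2⟩ := Finset.mem_filter.1 hu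
        rw [if_neg]
        rintro ⟨⟨hc1, hc2, hc3⟩, hc4, hc5⟩
        apply hP
        refine ⟨fun τ hτ => ?_, fun k' hk' => ?_, ?_, ?_⟩
        · rw [← hu2, rs_out F.toFr0 L u hτ]
          exact hc2 τ hτ
        · obtain ⟨τ, hτ, hτ2⟩ := hc3 k' hk'
          refine ⟨τ, hτ, ?_⟩
          rw [← hu2, rs_out F.toFr0 L u hτ]
          exact hτ2
        · rw [← hu2]
          exact hc4
        · rw [← hu2, ← cls_split F.toFr0 L u ((F.mem_TF J Y u).1 hu1).1]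
          · exact hc5
          · intro τ hτ h0
            have h1 := hc1 τ hτ
            rw [h0, nrl_empty] at h1
            linarith
    obtain ⟨hP1, hP2, hP3, hP4⟩ := hP
    have hsum : ∑ u ∈ F.TF J Y with F.rs Lᶜ u = σ,
        (if F.Cnd Z R k L u ∧ W (F.rs Lᶜ u) ∧ F.Sp c (F.cls (F.U u)) then
          h (F.tot (F.U u)) * ep X.p (F.Ph c u) else 0) =
        ∑ u ∈ F.TF J Y, if F.rs Lᶜ u = σ ∧ ∀ τ ∈ L, lv Z R (k + 1) < F.nrl (u τ) then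
          h (F.tot (F.U u)) * ep X.p (F.Ph c u) else 0 := by
      rw [Finset.sum_filter]
      refine Finset.sum_congr rfl fun u hu => ?_
      by_cases hu2 : F.rs Lᶜ u = σ
      · rw [if_pos hu2]
        by_cases hu3 : ∀ τ ∈ L, lv Z R (k + 1) < F.nrl (u τ)
        · rw [if_pos (show _ ∧ _ from ⟨hu2, hu3⟩), if_pos]
          refine ⟨⟨hu3, fun τ hτ => ?_, fun k' hk' => ?_⟩, ?_, ?_⟩
          · rw [← rs_out F.toFr0 L u hτ, hu2]
            exact hP1 τ hτ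
          · obtain ⟨τ, hτ, hτ2⟩ := hP2 k' hk'
            refine ⟨τ, hτ, ?_⟩
            rw [← rs_out F.toFr0 L u hτ, hu2]
            exact hτ2
          · rw [hu2]
            exact hP3
          · rw [cls_split F.toFr0 L u ((F.mem_TF J Y u).1 hu).1, hu2]
            · exact hP4
            · intro τ hτ h0
              have h1 := hu3 τ hτ
              rw [h0, nrl_empty] at h1
              linarith
        · rw [if_neg (fun h1 => hu3 h1.1.1), if_neg (fun h1 => hu3 h1.2)]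
      · rw [if_neg hu2, if_neg (fun h1 => hu2 h1.1)]
    rw [hsum]
    have hb := unla_fourier F J c h hh L hL f hf σ hσ hσL (lv Z R (k + 1)) Y
      (C₁ * F.qq ^ A₁ * C₁ ^ (F.U σ).card * (F.D * nr (F.und (F.U σ))) ^ A₁ * (Y / F.nrt σ) *
        (lv Z R (k + 1)) ^ (-δ) * (1 + Real.log Y) ^ A₁) (by
      intro κ
      obtain ⟨τ₀, hτ₀, hnt⟩ := hNT σ hσ hσL hσJ hP3 hP4 κ
      have hvan : X.van τ₀.1.1 τ₀.1.1 (τ₀.1.2 - f τ₀.1.1) := by
        obtain ⟨τ', hτ', hτ'e⟩ := hf τ₀ hτ₀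
        have h1 := hL τ₀ hτ₀ τ' hτ'
        unfold CD.lk at h1
        rw [not_not, hτ'e] at h1
        exact h1
      exact hs F hF J L σ hσ hσL (fun τ a => F.ch (κ τ.1.1) c (τ.1.2 - f τ.1.1) (F.U σ)
        (fun b => τ.1.2 - tyv F.toFr0 σ b) a) τ₀ hτ₀ (κ τ₀.1.1) c (τ₀.1.2 - f τ₀.1.1)
        (fun b => τ₀.1.2 - tyv F.toFr0 σ b) hvan hnt (fun a _ => rfl) (lv Z R (k + 1)) Y hz1 hY)
    refine hb.trans ?_
    have hnr : nr (F.und (F.U σ)) ≤ y ^ Fintype.card X.Ty := by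
      rw [← ok_nr F _ (tok_ok F.toFr0 σ hσ), tok_nr F.toFr0 σ hσ]
      unfold Fr0.nrt
      calc ∏ τ, F.nrl (σ τ) ≤ ∏ _τ : X.Ty, y := by
            refine Finset.prod_le_prod (fun τ _ => le_trans zero_le_one (F.one_le_nrl _))
              fun τ _ => ?_
            by_cases hτ : τ ∈ L
            · rw [hσL τ hτ, nrl_empty]
              exact hy1
            · exact hP1 τ hτ
        _ = y ^ Fintype.card X.Ty := by rw [Finset.prod_const, Finset.card_univ]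
    have hnr0 : 0 ≤ nr (F.und (F.U σ)) := by
      rw [← ok_nr F _ (tok_ok F.toFr0 σ hσ)]
      exact le_trans zero_le_one (F.one_le_nrl _)
    rw [hBd]
    calc F.qq ^ X.N * (C₁ * F.qq ^ A₁ * C₁ ^ (F.U σ).card *
          (F.D * nr (F.und (F.U σ))) ^ A₁ * (Y / F.nrt σ) *
          (lv Z R (k + 1)) ^ (-δ) * (1 + Real.log Y) ^ A₁) ≤
        F.qq ^ X.N * (C₁ * F.qq ^ A₁ * C₁ ^ (F.U σ).card *
          (F.D * y ^ Fintype.card X.Ty) ^ A₁ * (Y / F.nrt σ) *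
          (lv Z R (k + 1)) ^ (-δ) * (1 + Real.log Y) ^ A₁) := by gcongr
      _ = F.qq ^ X.N * (C₁ * F.qq ^ A₁ * F.D ^ A₁ * (y ^ Fintype.card X.Ty) ^ A₁ * Y *
          (lv Z R (k + 1)) ^ (-δ) * (1 + Real.log Y) ^ A₁) *
          (C₁ ^ (F.U σ).card / F.nrt σ) := by
          rw [mul_pow]
          field_simp
  -- the sum over `σ`
  have hfib : F.SS J c h Z R k L W Y = ∑ σ ∈ F.TF J Y, ∑ u ∈ F.TF J Y with F.rs Lᶜ u = σ,
      (if F.Cnd Z R k L u ∧ W (F.rs Lᶜ u) ∧ F.Sp c (F.cls (F.U u)) then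
        h (F.tot (F.U u)) * ep X.p (F.Ph c u) else 0) := by
    unfold Fr0.SS
    exact (Finset.sum_fiberwise_of_maps_to (fun u hu => rs_mem F.toFr0 J Y L u hu) _).symm
  rw [hfib]
  refine (norm_sum_le _ _).trans ((Finset.sum_le_sum one).trans ?_)
  rw [← Finset.mul_sum]
  have ht1 := (ht F hF J Y hY).2
  have hyy : (y ^ Fintype.card X.Ty) ^ A₁ * (lv Z R (k + 1)) ^ (-δ) ≤ Z⁻¹ := by
    rw [hz, ← pow_mul, ← Real.rpow_natCast y (Fintype.card X.Ty * A₁), ← Real.rpow_natCast y R,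
      ← Real.rpow_mul (by linarith), ← Real.rpow_add (by linarith)]
    calc y ^ (((Fintype.card X.Ty * A₁ : ℕ) : ℝ) + (R : ℝ) * -δ) ≤ y ^ (-1 : ℝ) :=
          Real.rpow_le_rpow_of_exponent_le hy1 (by linarith)
      _ = y⁻¹ := Real.rpow_neg_one y
      _ ≤ Z⁻¹ := inv_anti₀ (by linarith) hyZ
  have hZ0 : 0 < Z := by linarith
  calc Bd * ∑ σ ∈ F.TF J Y, C₁ ^ (F.U σ).card / F.nrt σ ≤
      Bd * (C₂ * (1 + Real.log Y) ^ A₂) := mul_le_mul_of_nonneg_left ht1 hBd0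
    _ = C₁ * C₂ * (F.qq ^ (X.N + A₁) * F.D ^ A₁) * Y *
        ((y ^ Fintype.card X.Ty) ^ A₁ * (lv Z R (k + 1)) ^ (-δ)) *
        (1 + Real.log Y) ^ (A₁ + A₂) := by
        rw [hBd, pow_add, pow_add]
        ring
    _ ≤ C₁ * C₂ * (F.qq ^ (X.N + A₁ + A₂) * F.D ^ (X.N + A₁ + A₂)) * Y * Z⁻¹ *
        (1 + Real.log Y) ^ (X.N + A₁ + A₂) := by
        gcongr C₁ * C₂ * (?_ * ?_) * Y * ?_ * ?_
        · exact pow_le_pow_right₀ hq (by omega)
        · exact pow_le_pow_right₀ hD (by omega)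
        · exact pow_le_pow_right₀ hlog (by omega)
    _ = C₁ * C₂ * (F.qq * F.D) ^ (X.N + A₁ + A₂) * Y * Z⁻¹ *
        (1 + Real.log Y) ^ (X.N + A₁ + A₂) := by rw [mul_pow]

end H51.MM
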