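import Pool.Agent.H51.MM.LnkB
import Pool.Agent.H51.MM.UnlA
import Pool.Agent.H51.MM.NtA
import Pool.Agent.H51.MM.Few

/-!
# [H51 MM UBA] The upper bound for suitable thresholds (assembly)

Constants: `C₁, A₁, δ` (`lnkb`), `C₂, A₂, R₀` (`unla`), `C₃, A₃` (`fewa`), `C₄, A₄` (`fam_card`). `R = R₀`, `m = #Ty`; `Z` is any number such that
`(D (1 + log Y)) ^ A Z ^ (-δ) ≤ 1`, `(1 + log (lv Z R m)) ^ A ≤ log Y`, `(lv Z R m) ^ A ≤ Y`. `FS J 1 Y` by `fs_exp` and `lev` is the sum over `c` (at most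
`qq`), `k ≤ m`, `L` of `SS J c 1 Z R k L (fun _ => True) Y`. Cases for `L`:
(1) a linked pair: `lnkb`.
(2) unlinked, two types `τ₁ ≠ τ₂` in the same class: if the class is not in `J` the sum is `0`; otherwise `unla` with `nta` (`f i` = the functional of a chosen type of
`L` of class `i`).
(3) unlinked, classes different, some class outside `J`: `0` (`u τ = ∅`, `nrl ∅ = 1 ≤ lv`).
(4) unlinked, classes different, `kl L ⊂ J` proper: `L.card < J.card`: `fewa`.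
(5) `kl L = J`: `L = al J f` with `f ∈ FF J` (`f i` the functional of the type of class `i`, `0` outside `J`). Split `True` into `W₁ σ = (U σ ≠ ∅)` and `W₂ σ = (U σ = ∅)`: `W₁`:
`unla` with `ntb`. `W₂`: trivially at most the number of `u ∈ TF J Y` with `rs Lᶜ u` empty, which is at most `#Fam J Y` (`u ↦ U u` is injective on
these): `fam_card`.
-/

set_option autoImplicit false

open scoped NumberField
open IsDedekindDomain NumberField H63.MA H36.QA Filter Topology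
open scoped Classical

noncomputable section

namespace H51.MM

section ubas

variable {X : CD} {K : Type} [Field K] [NumberField K]

private theorem ss_zero (F : Fr0 X K) (J : Finset (Fin X.N)) (c : F.C) (h : (F.R → ZMod X.p) → ℂ) (Z : ℝ)
    (R k : ℕ) (L : Finset X.Ty) (W : (X.Ty → Finset F.Lb) → Prop) (Y : ℝ) (hZ : 1 ≤ Z) (τ : X.Ty)
    (hτ : τ ∈ L) (hJ : τ.1.1 ∉ J) : F.SS J c h Z R k L W Y = 0 := by
  unfold Fr0.SS
  refine Finset.sum_eq_zero fun u hu => ?_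
  rw [if_neg]
  rintro ⟨hc, -, -⟩
  have h1 := hc.1 τ hτ
  rw [((F.mem_TF J Y u).1 hu).2.1 τ hJ] at h1
  have h2 : F.nrl ∅ = 1 := by
    unfold Fr0.nrl
    rw [Finset.prod_empty]
  have h3 : 1 ≤ lv Z R (k + 1) := one_le_pow₀ hZ
  linarith

/-- the trivial bound, for the families whose small part is empty -/
private theorem ss_triv (F : Fr0 X K) (J : Finset (Fin X.N)) (c : F.C) (h : (F.R → ZMod X.p) → ℂ)
    (hh : ∀ x, ‖h x‖ ≤ 1) (Z : ℝ) (R k : ℕ) (L : Finset X.Ty)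
    (hL : ∀ τ ∈ L, ∀ τ' ∈ L, τ.1.1 = τ'.1.1 → τ = τ') (Y : ℝ) :
    ‖F.SS J c h Z R k L (fun σ => F.U σ = ∅) Y‖ ≤ ((F.Fam J Y).card : ℝ) := by
  unfold Fr0.SS
  refine (norm_sum_le _ _).trans ((Finset.sum_le_sum (g := fun u =>
    if F.Cnd Z R k L u ∧ F.U (F.rs Lᶜ u) = ∅ ∧ F.Sp c (F.cls (F.U u)) then (1 : ℝ) else 0) fun u _ => ?_).trans ?_)
  · by_cases h0 : F.Cnd Z R k L u ∧ F.U (F.rs Lᶜ u) = ∅ ∧ F.Sp c (F.cls (F.U u))
    · rw [if_pos h0, if_pos h0, norm_mul, ep_norm, mul_one]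
      exact hh _
    · rw [if_neg h0, if_neg h0, norm_zero]
  rw [Finset.sum_boole, Nat.cast_le]
  have hsub : ∀ (u : X.Ty → Finset F.Lb), F.U (F.rs Lᶜ u) = ∅ → ∀ τ, τ ∉ L → u τ = ∅ := by
    intro u hu τ hτ
    have h2 : F.rs Lᶜ u τ = u τ := by
      unfold Fr0.rs
      rw [if_pos (Finset.mem_compl.2 hτ)]
    rw [← h2]
    rw [← Finset.subset_empty, ← hu]
    exact Finset.subset_biUnion_of_mem (F.rs Lᶜ u) (Finset.mem_univ τ)
  refine Finset.card_le_card_of_injOn F.U ?_ ?_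
  · intro u hu
    rw [Finset.mem_coe, Finset.mem_filter, F.mem_TF] at hu
    obtain ⟨⟨h2, h3, h4⟩, -⟩ := hu
    rw [Finset.mem_coe, F.mem_Fam]
    refine ⟨tok_ok F u h2, ?_, ?_⟩
    · intro i hi
      unfold Fr0.cls at hi
      rw [Finset.mem_image] at hi
      obtain ⟨a, ha, rfl⟩ := hi
      unfold Fr0.U at ha
      rw [Finset.mem_biUnion] at ha
      obtain ⟨τ, -, ha⟩ := ha
      by_contra hJ
      rw [h2.1 τ a ha] at hJ
      rw [h3 τ hJ] at ha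
      exact absurd ha (Finset.notMem_empty _)
    · rw [tok_nr F u h2]
      exact h4
  · intro u hu u' hu' he
    rw [Finset.mem_coe, Finset.mem_filter, F.mem_TF] at hu hu'
    obtain ⟨⟨h2, -, -⟩, -, h3, -⟩ := hu
    obtain ⟨⟨h2', -, -⟩, -, h3', -⟩ := hu'
    have key : ∀ (v v' : X.Ty → Finset F.Lb), F.TOk v → F.TOk v' → (∀ τ, τ ∉ L → v' τ = ∅) → F.U v = F.U v' →
        ∀ τ ∈ L, v τ ⊆ v' τ := by
      intro v v' hv hv' hL' hU τ hτ a ha
      have h4 : a ∈ F.U v := Finset.mem_biUnion.2 ⟨τ, Finset.mem_univ _, ha⟩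
      rw [hU] at h4
      obtain ⟨τ', -, h5⟩ := Finset.mem_biUnion.1 h4
      have h6 : τ' ∈ L := by
        by_contra h0
        rw [hL' τ' h0] at h5
        exact absurd h5 (Finset.notMem_empty _)
      have h7 : τ = τ' := hL τ hτ τ' h6 (by rw [← hv.1 τ a ha, ← hv'.1 τ' a h5])
      rw [h7]
      exact h5
    funext τ
    by_cases hτ : τ ∈ L
    · exact Finset.Subset.antisymm (key u u' h2 h2' (hsub u' h3') he τ hτ)
        (key u' u h2' h2 (hsub u h3) he.symm τ hτ)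
    · rw [hsub u h3 τ hτ, hsub u' h3' τ hτ]

/-- splitting the condition on the small part -/
private theorem ss_split (F : Fr0 X K) (J : Finset (Fin X.N)) (c : F.C) (h : (F.R → ZMod X.p) → ℂ) (Z : ℝ)
    (R k : ℕ) (L : Finset X.Ty) (W : (X.Ty → Finset F.Lb) → Prop) (Y : ℝ) :
    F.SS J c h Z R k L (fun _ => True) Y =
      F.SS J c h Z R k L (fun σ => ¬ W σ) Y + F.SS J c h Z R k L W Y := by
  unfold Fr0.SS
  rw [← Finset.sum_add_distrib]
  refine Finset.sum_congr rfl fun u _ => ?_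
  by_cases hW : W (F.rs Lᶜ u)
  · have h1 : ¬ (F.Cnd Z R k L u ∧ ¬ W (F.rs Lᶜ u) ∧ F.Sp c (F.cls (F.U u))) := fun h0 => h0.2.1 hW
    rw [if_neg h1, zero_add]
    by_cases h2 : F.Cnd Z R k L u ∧ F.Sp c (F.cls (F.U u))
    · rw [if_pos ⟨h2.1, trivial, h2.2⟩, if_pos ⟨h2.1, hW, h2.2⟩]
    · rw [if_neg fun h0 => h2 ⟨h0.1, h0.2.2⟩, if_neg fun h0 => h2 ⟨h0.1, h0.2.2⟩]
  · have h1 : ¬ (F.Cnd Z R k L u ∧ W (F.rs Lᶜ u) ∧ F.Sp c (F.cls (F.U u))) := fun h0 => hW h0.2.1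
    rw [if_neg h1, add_zero]
    by_cases h2 : F.Cnd Z R k L u ∧ F.Sp c (F.cls (F.U u))
    · rw [if_pos ⟨h2.1, trivial, h2.2⟩, if_pos ⟨h2.1, hW, h2.2⟩]
    · rw [if_neg fun h0 => h2 ⟨h0.1, h0.2.2⟩, if_neg fun h0 => h2 ⟨h0.1, h0.2.2⟩]

/-- a functional for every class of `L` -/
private theorem ex_f (L : Finset X.Ty) : ∃ f : Fin X.N → Fin X.w → ZMod X.p,
    (∀ τ ∈ L, ∃ τ' ∈ L, τ'.1 = (τ.1.1, f τ.1.1)) ∧ ∀ i, (∀ τ ∈ L, τ.1.1 ≠ i) → f i = 0 := by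
  refine ⟨fun i => if h : ∃ τ ∈ L, τ.1.1 = i then h.choose.1.2 else 0, ?_, ?_⟩
  · intro τ hτ
    have h : ∃ τ' ∈ L, τ'.1.1 = τ.1.1 := ⟨τ, hτ, rfl⟩
    refine ⟨h.choose, h.choose_spec.1, Prod.ext h.choose_spec.2 ?_⟩
    show h.choose.1.2 = if h : ∃ τ' ∈ L, τ'.1.1 = τ.1.1 then h.choose.1.2 else 0
    rw [dif_pos h]
  · intro i hi
    show (if h : ∃ τ ∈ L, τ.1.1 = i then h.choose.1.2 else 0) = 0
    rw [dif_neg]
    rintro ⟨τ, hτ, h⟩
    exact hi τ hτ h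

private theorem al_eq (J : Finset (Fin X.N)) (L : Finset X.Ty) (hL : ∀ τ ∈ L, ∀ τ' ∈ L, τ.1.1 = τ'.1.1 → τ = τ')
    (hU : X.Unl L) (hk : X.kl L = J) (f : Fin X.N → Fin X.w → ZMod X.p)
    (hf : ∀ τ ∈ L, ∃ τ' ∈ L, τ'.1 = (τ.1.1, f τ.1.1)) (hf0 : ∀ i, (∀ τ ∈ L, τ.1.1 ≠ i) → f i = 0) :
    f ∈ X.FF J ∧ L = X.al J f := by
  have h1 : ∀ τ ∈ L, τ.1.2 = f τ.1.1 := by
    intro τ hτ
    obtain ⟨τ', hτ', h2⟩ := hf τ hτ
    have h3 : τ = τ' := hL τ hτ τ' hτ' (by rw [h2])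
    have h4 : τ.1.2 = τ'.1.2 := by rw [← h3]
    rw [h4, h2]
  have hJ : ∀ i ∈ J, ∃ τ ∈ L, τ.1.1 = i := by
    intro i hi
    rw [← hk] at hi
    exact Finset.mem_image.1 hi
  constructor
  · unfold CD.FF
    rw [Finset.mem_filter]
    refine ⟨Finset.mem_univ _, ?_, ?_, ?_⟩
    · intro i hi
      obtain ⟨τ, hτ, rfl⟩ := hJ i hi
      rw [← h1 τ hτ]
      exact τ.2
    · intro i hi
      refine hf0 i fun τ hτ he => hi ?_
      rw [← hk, ← he]
      exact Finset.mem_image_of_mem _ hτ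
    · intro i hi j hj
      obtain ⟨τ, hτ, rfl⟩ := hJ i hi
      obtain ⟨τ', hτ', rfl⟩ := hJ j hj
      rw [← h1 τ hτ, ← h1 τ' hτ']
      exact not_not.1 (hU τ hτ τ' hτ')
  · ext τ
    unfold CD.al
    rw [Finset.mem_filter]
    constructor
    · intro hτ
      refine ⟨Finset.mem_univ _, ?_, h1 τ hτ⟩
      rw [← hk]
      exact Finset.mem_image_of_mem _ hτ
    · rintro ⟨-, h2, h3⟩
      obtain ⟨τ', hτ', h4⟩ := hJ _ h2
      have h5 : τ = τ' := by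
        apply Subtype.ext
        refine Prod.ext h4.symm ?_
        rw [h3, h1 τ' hτ', h4]
      rw [h5]
      exact hτ'

end ubas

theorem ubz (X : CD) (K : Type) [Field K] [NumberField K] (d : ℕ) (hA1 : AN1 K d) (hA2 : AN2 K d)
    (hA3 : AN3a K) (hA4 : AN3b K X.N d) : ∃ (C : ℝ) (B R m A : ℕ) (δ : ℝ), 1 ≤ C ∧ 0 < δ ∧
      ∀ F : Fr X K, F.d ≤ d → ∀ J : Finset (Fin X.N), J.Nonempty → X.Cl J → ∀ Y : ℝ, 3 ≤ Y → ∀ Z : ℝ, 1 ≤ Z →
        (F.D * (1 + Real.log Y)) ^ A * Z ^ (-δ) ≤ 1 → (1 + Real.log (lv Z R m)) ^ A ≤ Real.log Y →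
        lv Z R m ^ A ≤ Y → ‖F.FS J (fun _ _ => 1) Y‖ ≤
          C * F.qq ^ B * (1 + Real.log F.D) ^ B * (Y * Real.log Y ^ (J.card - 1)) := by
  obtain ⟨C₁, A₁, δ₁, hC₁, hδ₁, -, hl⟩ := lnkb X K d hA2 hA3
  obtain ⟨C₂, A₂, R, hC₂, hR, hu⟩ := unla X K d hA1 hA3
  obtain ⟨C₃, A₃, hC₃, hw⟩ := fewa X K d hA3 hA4
  obtain ⟨C₄, A₄, hC₄, hc⟩ := fam_card X K d hA4
  obtain ⟨m, hm⟩ : ∃ m, m = Fintype.card X.Ty := ⟨_, rfl⟩
  refine ⟨(m + 1) * 2 ^ m * (C₁ + C₂ + 2 * C₃ + C₄), A₁ + A₂ + A₃ + A₄ + 1, R, m, A₁ + A₂ + A₃,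
    min δ₁ 1, ?_, lt_min hδ₁ one_pos, ?_⟩
  · have h3 : (1 : ℝ) ≤ 2 ^ m := one_le_pow₀ (by norm_num)
    have h6 : (1 : ℝ) ≤ m + 1 := by
      have : (0 : ℝ) ≤ m := Nat.cast_nonneg _
      linarith
    exact one_le_mul_of_one_le_of_one_le (one_le_mul_of_one_le_of_one_le h6 h3) (by linarith)
  intro F hF J hJ hCl Y hY3 Z hZ1 hZ2 hZ3 hZ4
  have hl1 : 1 ≤ Real.log Y := by
    rw [Real.le_log_iff_exp_le (by linarith)]
    have := Real.exp_one_lt_d9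
    linarith
  have hq := F.one_le_qq
  have hD1 := F.one_le_D
  have hlD : 1 ≤ 1 + Real.log F.D := by
    have := Real.log_nonneg hD1
    linarith
  obtain ⟨q, hqe⟩ : ∃ q, q = F.qq := ⟨_, rfl⟩
  obtain ⟨lD, hlDe⟩ : ∃ lD, lD = 1 + Real.log F.D := ⟨_, rfl⟩
  obtain ⟨T, hT⟩ : ∃ T, T = Y * Real.log Y ^ (J.card - 1) := ⟨_, rfl⟩
  rw [← hqe] at hq ⊢
  rw [← hlDe] at hlD ⊢
  rw [← hT]
  have hYT : Y ≤ T := by
    rw [hT]
    exact le_mul_of_one_le_right (by linarith) (one_le_pow₀ hl1)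
  have hT0 : 0 ≤ T := by linarith
  obtain ⟨M, hM⟩ : ∃ M, M = q ^ (A₁ + A₂ + A₃ + A₄) * lD ^ (A₁ + A₂ + A₃ + A₄) * T := ⟨_, rfl⟩
  have hq0 : ∀ a b : ℕ, a ≤ b → q ^ a ≤ q ^ b := fun a b h => pow_le_pow_right₀ hq h
  have hl0 : ∀ a b : ℕ, a ≤ b → lD ^ a ≤ lD ^ b := fun a b h => pow_le_pow_right₀ hlD h
  have hMq : ∀ a ≤ A₁ + A₂ + A₃ + A₄, ∀ b ≤ A₁ + A₂ + A₃ + A₄, ∀ S, 0 ≤ S → S ≤ T → q ^ a * lD ^ b * S ≤ M := by
    intro a ha b hb S hS0 hS
    rw [hM]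
    have h1 := mul_le_mul (hq0 a _ ha) (hl0 b _ hb) (by positivity) (by positivity)
    exact mul_le_mul h1 hS hS0 (by positivity)
  have hM0 : 0 ≤ M := by rw [hM]; positivity
  -- the bounds
  have hE1 : 1 ≤ F.D * (1 + Real.log Y) := one_le_mul_of_one_le_of_one_le hD1 (by linarith)
  have hsm : ∀ (a : ℕ) (δ : ℝ), a ≤ A₁ + A₂ + A₃ → min δ₁ 1 ≤ δ →
      (F.D * (1 + Real.log Y)) ^ a * Z ^ (-δ) ≤ 1 := by
    intro a δ ha hδ
    refine le_trans ?_ hZ2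
    refine mul_le_mul (pow_le_pow_right₀ hE1 ha) ?_ (Real.rpow_nonneg (by linarith) _) (by positivity)
    exact Real.rpow_le_rpow_of_exponent_le hZ1 (by linarith)
  have bd1 : ∀ x : ℝ, x ≤ C₁ * (F.qq * F.D) ^ A₁ * Y * Z ^ (-δ₁) * (1 + Real.log Y) ^ A₁ → x ≤ C₁ * M := by
    intro x hx
    refine hx.trans ?_
    have h1 := hsm A₁ δ₁ (by omega) (min_le_left _ _)
    have h2 := hMq A₁ (by omega) 0 (by omega) Y (by linarith) hYT
    rw [pow_zero, mul_one] at h2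
    calc C₁ * (F.qq * F.D) ^ A₁ * Y * Z ^ (-δ₁) * (1 + Real.log Y) ^ A₁
        = C₁ * (q ^ A₁ * Y) * ((F.D * (1 + Real.log Y)) ^ A₁ * Z ^ (-δ₁)) := by
          rw [← hqe, mul_pow, mul_pow]
          ring
      _ ≤ C₁ * (q ^ A₁ * Y) * 1 := mul_le_mul_of_nonneg_left h1 (by positivity)
      _ = C₁ * (q ^ A₁ * Y) := by ring
      _ ≤ C₁ * M := mul_le_mul_of_nonneg_left h2 (by positivity)
  have bd2 : ∀ x : ℝ, x ≤ C₂ * (F.qq * F.D) ^ A₂ * Y * Z⁻¹ * (1 + Real.log Y) ^ A₂ → x ≤ C₂ * M := by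
    intro x hx
    refine hx.trans ?_
    have h1 := hsm A₂ 1 (by omega) (min_le_right _ _)
    rw [Real.rpow_neg_one] at h1
    have h2 := hMq A₂ (by omega) 0 (by omega) Y (by linarith) hYT
    rw [pow_zero, mul_one] at h2
    calc C₂ * (F.qq * F.D) ^ A₂ * Y * Z⁻¹ * (1 + Real.log Y) ^ A₂
        = C₂ * (q ^ A₂ * Y) * ((F.D * (1 + Real.log Y)) ^ A₂ * Z⁻¹) := by
          rw [← hqe, mul_pow, mul_pow]
          ring
      _ ≤ C₂ * (q ^ A₂ * Y) * 1 := mul_le_mul_of_nonneg_left h1 (by positivity)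
      _ = C₂ * (q ^ A₂ * Y) := by ring
      _ ≤ C₂ * M := mul_le_mul_of_nonneg_left h2 (by positivity)
  have hlvm : ∀ k ≤ m, lv Z R k ≤ lv Z R m := fun k hk => lv_mono Z hZ1 R hR hk
  have hlv1 : ∀ k, 1 ≤ lv Z R k := fun k => one_le_pow₀ hZ1
  have hlog : ∀ k ≤ m, (1 + Real.log (lv Z R k)) ^ A₃ ≤ Real.log Y := by
    intro k hk
    have h1 : Real.log (lv Z R k) ≤ Real.log (lv Z R m) := Real.log_le_log (by linarith [hlv1 k]) (hlvm k hk)
    have h2 : 0 ≤ Real.log (lv Z R k) := Real.log_nonneg (hlv1 k)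
    refine le_trans ?_ hZ3
    refine (pow_le_pow_left₀ (by linarith) (by linarith : 1 + Real.log (lv Z R k) ≤ 1 + Real.log (lv Z R m)) _).trans ?_
    exact pow_le_pow_right₀ (by linarith) (by omega)
  have hpw : ∀ k ≤ m, lv Z R k ^ A₃ ≤ Y := by
    intro k hk
    refine le_trans ?_ hZ4
    refine (pow_le_pow_left₀ (by linarith [hlv1 k]) (hlvm k hk) _).trans ?_
    exact pow_le_pow_right₀ (hlv1 m) (by omega)
  have key : ∀ (c : F.C) (k : ℕ), k ≤ m → ∀ L : Finset X.Ty,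
      ‖F.SS J c (fun _ => 1) Z R k L (fun _ => True) Y‖ ≤ (C₁ + C₂ + 2 * C₃ + C₄) * M := by
    intro c k hk L
    have h1one : ∀ x : F.R → ZMod X.p, ‖(1 : ℂ)‖ ≤ 1 := fun _ => by rw [norm_one]
    have p1 : 0 ≤ C₁ * M := by positivity
    have p2 : 0 ≤ C₂ * M := by positivity
    have p3 : 0 ≤ C₃ * M := by positivity
    have p4 : 0 ≤ C₄ * M := by positivity
    have hsum : (C₁ + C₂ + 2 * C₃ + C₄) * M =
        C₁ * M + C₂ * M + 2 * (C₃ * M) + C₄ * M := by ring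
    rw [hsum]
    by_cases hlk : ∃ τ ∈ L, ∃ τ' ∈ L, X.lk τ τ'
    · have h2 := bd1 _ (hl F hF J c (fun _ => 1) h1one Z R k L (fun _ => True) hZ1 hR hlk Y (by linarith))
      linarith
    have hU : X.Unl L := by
      intro τ hτ τ' hτ' h0
      exact hlk ⟨τ, hτ, τ', hτ', h0⟩
    by_cases hout : ∃ τ ∈ L, τ.1.1 ∉ J
    · obtain ⟨τ, hτ, hτJ⟩ := hout
      rw [ss_zero F.toFr0 J c _ Z R k L _ Y hZ1 τ hτ hτJ, norm_zero]
      linarith
    have hin : ∀ τ ∈ L, τ.1.1 ∈ J := by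
      intro τ hτ
      by_contra h0
      exact hout ⟨τ, hτ, h0⟩
    obtain ⟨f, hf, hf0⟩ := ex_f L
    by_cases htwo : ∃ τ₁ ∈ L, ∃ τ₂ ∈ L, τ₁ ≠ τ₂ ∧ τ₁.1.1 = τ₂.1.1
    · obtain ⟨τ₁, h1, τ₂, h2, hne, hcl⟩ := htwo
      have h3 := bd2 _ (hu F hF J c (fun _ => 1) h1one Z R k L (fun _ => True) f hZ1 le_rfl hU hf
        (fun σ hσ _ _ _ hS κ => nta F J hCl c L hU f τ₁ τ₂ h1 h2 hne hcl (hin τ₁ h1) σ hσ hS κ) Y (by linarith))
      linarith
    have hdist : ∀ τ ∈ L, ∀ τ' ∈ L, τ.1.1 = τ'.1.1 → τ = τ' := by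
      intro τ hτ τ' hτ' he
      by_contra hne
      exact htwo ⟨τ, hτ, τ', hτ', hne, he⟩
    have hcard : (X.kl L).card = L.card := Finset.card_image_of_injOn fun τ hτ τ' hτ' he => hdist τ hτ τ' hτ' he
    have hsubJ : X.kl L ⊆ J := by
      intro i hi
      obtain ⟨τ, hτ, rfl⟩ := Finset.mem_image.1 hi
      exact hin τ hτ
    rcases lt_or_ge L.card J.card with hlt | hge
    · have h3 := hw F hF J c (fun _ => 1) h1one Z R k L (fun _ => True) hZ1 hR hdist hlt Y hY3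
      have h4 : C₃ * (1 + Real.log F.D) ^ A₃ * (1 + Real.log (lv Z R k)) ^ A₃ *
          (Y * Real.log Y ^ (J.card - 1) / Real.log Y) ≤ C₃ * M := by
        rw [← hlDe, ← hT]
        have h5 := hMq 0 (by omega) A₃ (by omega) T hT0 le_rfl
        rw [pow_zero, one_mul] at h5
        have h6 : (1 + Real.log (lv Z R k)) ^ A₃ * (T / Real.log Y) ≤ T := by
          calc (1 + Real.log (lv Z R k)) ^ A₃ * (T / Real.log Y) ≤ Real.log Y * (T / Real.log Y) :=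
                mul_le_mul_of_nonneg_right (hlog k hk) (div_nonneg hT0 (by linarith))
            _ = T := by
                have : Real.log Y ≠ 0 := by linarith
                field_simp
        calc C₃ * lD ^ A₃ * (1 + Real.log (lv Z R k)) ^ A₃ * (T / Real.log Y)
            = C₃ * lD ^ A₃ * ((1 + Real.log (lv Z R k)) ^ A₃ * (T / Real.log Y)) := by ring
          _ ≤ C₃ * lD ^ A₃ * T := mul_le_mul_of_nonneg_left h6 (by positivity)
          _ = C₃ * (lD ^ A₃ * T) := by ring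
          _ ≤ C₃ * M := mul_le_mul_of_nonneg_left h5 (by positivity)
      have h7 : C₃ * lv Z R k ^ A₃ ≤ C₃ * M := by
        have h5 := hMq 0 (by omega) 0 (by omega) Y (by linarith) hYT
        rw [pow_zero, pow_zero, one_mul, one_mul] at h5
        exact mul_le_mul_of_nonneg_left ((hpw k hk).trans h5) (by positivity)
      linarith
    · have hkJ : X.kl L = J := Finset.eq_of_subset_of_card_le hsubJ (by rw [hcard]; exact hge)
      obtain ⟨hFF, hal⟩ := al_eq J L hdist hU hkJ f hf hf0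
      rw [ss_split F.toFr0 J c _ Z R k L (fun σ => F.U σ = ∅) Y]
      have h3 := bd2 _ (hu F hF J c (fun _ => 1) h1one Z R k L (fun σ => ¬ F.U σ = ∅) f hZ1 le_rfl hU hf
        (fun σ hσ h1 h2 h3 _ κ => by
          have h4 := ntb F J hCl c f hFF σ hσ (by rw [← hal]; exact h1) h2 h3 κ
          rw [← hal] at h4
          exact h4) Y (by linarith))
      have h4 := (ss_triv F.toFr0 J c (fun _ => 1) h1one Z R k L hdist Y).trans (hc F hF J hJ Y hY3)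
      have h5 : C₄ * (1 + Real.log F.D) ^ A₄ * (Y * Real.log Y ^ (J.card - 1)) ≤ C₄ * M := by
        rw [← hlDe, ← hT]
        have h6 := hMq 0 (by omega) A₄ (by omega) T hT0 le_rfl
        rw [pow_zero, one_mul] at h6
        calc C₄ * lD ^ A₄ * T = C₄ * (lD ^ A₄ * T) := by ring
          _ ≤ C₄ * M := mul_le_mul_of_nonneg_left h6 (by positivity)
      refine (norm_add_le _ _).trans ?_
      linarith
  -- the sum over all cases
  have hexp : F.FS J (fun _ _ => 1) Y = ∑ c : F.C, ∑ k ∈ Finset.range (m + 1), ∑ L : Finset X.Ty,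
      F.SS J c (fun _ => 1) Z R k L (fun _ => True) Y := by
    rw [fs_exp F.toFr0 J (fun _ _ => 1) Y]
    refine Finset.sum_congr rfl fun c _ => ?_
    rw [lev F.toFr0 J Z hZ1 R hR Y, ← hm]
    refine Finset.sum_congr rfl fun k _ => Finset.sum_congr rfl fun L _ => ?_
    unfold Fr0.SS
    refine Finset.sum_congr rfl fun u _ => ?_
    by_cases h1 : F.Cnd Z R k L u
    · by_cases h2 : F.Sp c (F.cls (F.U u))
      · rw [if_pos h1, if_pos h2, if_pos ⟨h1, trivial, h2⟩]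
      · rw [if_pos h1, if_neg h2, if_neg fun h0 => h2 h0.2.2]
    · rw [if_neg h1, if_neg fun h0 => h1 h0.1]
  obtain ⟨C', hC'⟩ : ∃ C', C' = C₁ + C₂ + 2 * C₃ + C₄ := ⟨_, rfl⟩
  rw [← hC'] at key ⊢
  have hC'0 : 0 ≤ C' := by rw [hC']; positivity
  rw [hexp]
  have h1 : ∀ c : F.C, ‖∑ k ∈ Finset.range (m + 1), ∑ L : Finset X.Ty,
      F.SS J c (fun _ => 1) Z R k L (fun _ => True) Y‖ ≤ (m + 1) * 2 ^ m * (C' * M) := by
    intro c
    calc ‖∑ k ∈ Finset.range (m + 1), ∑ L : Finset X.Ty, F.SS J c (fun _ => 1) Z R k L (fun _ => True) Y‖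
        ≤ ∑ k ∈ Finset.range (m + 1), ‖∑ L : Finset X.Ty, F.SS J c (fun _ => 1) Z R k L (fun _ => True) Y‖ :=
          norm_sum_le _ _
      _ ≤ ∑ k ∈ Finset.range (m + 1), ((2 : ℝ) ^ m * (C' * M)) := by
          refine Finset.sum_le_sum fun k hk => ?_
          have hk' : k ≤ m := Nat.lt_succ_iff.1 (Finset.mem_range.1 hk)
          refine (norm_sum_le _ _).trans ?_
          refine (Finset.sum_le_card_nsmul _ _ (C' * M) fun L _ => key c k hk' L).trans (le_of_eq ?_)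
          rw [nsmul_eq_mul, Finset.card_univ, Fintype.card_finset, ← hm]
          push_cast
          ring
      _ = (m + 1) * 2 ^ m * (C' * M) := by
          rw [Finset.sum_const, Finset.card_range, nsmul_eq_mul]
          push_cast
          ring
  refine (norm_sum_le _ _).trans ?_
  refine (Finset.sum_le_card_nsmul _ _ _ fun c _ => h1 c).trans ?_
  rw [nsmul_eq_mul, Finset.card_univ]
  have h2 : (Fintype.card F.C : ℝ) ≤ q := by rw [hqe]; exact F.card_C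
  have h3 : (0 : ℝ) ≤ (m + 1) * 2 ^ m * (C' * M) := by positivity
  calc (Fintype.card F.C : ℝ) * ((m + 1) * 2 ^ m * (C' * M)) ≤ q * ((m + 1) * 2 ^ m * (C' * M)) :=
        mul_le_mul_of_nonneg_right h2 h3
    _ = (m + 1) * 2 ^ m * C' * q ^ (A₁ + A₂ + A₃ + A₄ + 1) * lD ^ (A₁ + A₂ + A₃ + A₄) * T := by
        rw [hM, pow_succ q]
        ring
    _ ≤ (m + 1) * 2 ^ m * C' * q ^ (A₁ + A₂ + A₃ + A₄ + 1) * lD ^ (A₁ + A₂ + A₃ + A₄ + 1) * T := by
        refine mul_le_mul_of_nonneg_right ?_ hT0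
        exact mul_le_mul_of_nonneg_left (hl0 _ _ (Nat.le_succ _)) (by positivity)

end H51.MM
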