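import Pool.Agent.H51.MM.LnkA

/-!
# [H51 MM SNGA] One variable with a nontrivial character (60-90 lines)

`F.chr` gives a ray class character `χ` of `F.L i` with modulus of norm `≤ D * nr (und σ) ^ F.d`, `χ a = ep (ch .. a)` for good `a` not over `und σ`; it
is `Non` by `NT` (`F.NT i φ` gives a good label outside `und σ` with value `≠ 0`, `ep_eq_one`, `zero_of`). The sum over `g ∈ Fam {i} Y` with `Disjoint (und g) B` is
the sum over `FE K (F.L i) (F.bad ∪ B) Y` of `∏ χ` (`un_blw`), and `z < nrl g` is the difference of the sums for `Y` and for `z`. `AN1` with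
`C ^ #(bad ∪ B) ≤ C ^ #bad * C ^ #B` and `C ^ #bad ≤ qq ^ A'` (`2 ^ #bad ≤ qq`, `C ≤ 2 ^ A'`); `dd (L i) ≤ D`, `z ≤ Y`.
-/

set_option autoImplicit false

open scoped NumberField
open IsDedekindDomain NumberField H63.MA H36.QA Filter Topology
open scoped Classical

noncomputable section

namespace H51.MM

/-- the label family of a family of places -/
private def sgm {X : CD} {K : Type} [Field K] [NumberField K] (F : Fr0 X K) (i : Fin X.N) (g : Finset (Pl (F.L i))) :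
    Finset F.Lb := g.map (Function.Embedding.sigmaMk i)

private theorem mem_sgm {X : CD} {K : Type} [Field K] [NumberField K] (F : Fr0 X K) (i : Fin X.N) (g : Finset (Pl (F.L i)))
    (a : F.Lb) : a ∈ sgm F i g ↔ ∃ w ∈ g, (⟨i, w⟩ : F.Lb) = a := by
  unfold sgm
  rw [Finset.mem_map]
  rfl

private theorem sgm_inj {X : CD} {K : Type} [Field K] [NumberField K] (F : Fr0 X K) (i : Fin X.N) :
    Function.Injective (sgm F i) := Finset.map_injective _

private theorem sgm_fam {X : CD} {K : Type} [Field K] [NumberField K] (F : Fr X K) (i : Fin X.N) (B : Finset (Pl K))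
    (M : ℝ) : (F.Fam {i} M).filter (fun g => Disjoint (F.und g) B) =
      (FE K (F.L i) (F.bad ∪ B) M).image (sgm F.toFr0 i) := by
  ext g
  rw [Finset.mem_filter, Fr0.mem_Fam, Finset.mem_image]
  constructor
  · rintro ⟨⟨⟨hg1, hg2⟩, hcl, hnr⟩, hdis⟩
    have hi : ∀ a ∈ g, a.1 = i := by
      intro a ha
      have h1 : a.1 ∈ F.cls g := by
        unfold Fr0.cls
        exact Finset.mem_image.2 ⟨a, ha, rfl⟩
      exact Finset.mem_singleton.1 (hcl h1)
    have hinj : Set.InjOn (fun w : Pl (F.L i) => (⟨i, w⟩ : F.Lb)) ((fun w : Pl (F.L i) => (⟨i, w⟩ : F.Lb)) ⁻¹' (g : Set F.Lb)) :=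
      fun _ _ _ _ h => eq_of_heq (Sigma.mk.inj_iff.1 h).2
    refine ⟨g.preimage (fun w : Pl (F.L i) => (⟨i, w⟩ : F.Lb)) hinj, ?_, ?_⟩
    · have hm : ∀ w : Pl (F.L i), w ∈ g.preimage (fun w : Pl (F.L i) => (⟨i, w⟩ : F.Lb)) hinj ↔ (⟨i, w⟩ : F.Lb) ∈ g :=
        fun w => Finset.mem_preimage
      have hmap : sgm F.toFr0 i (g.preimage (fun w : Pl (F.L i) => (⟨i, w⟩ : F.Lb)) hinj) = g := by
        ext a
        rw [mem_sgm]
        constructor
        · rintro ⟨w, hw, rfl⟩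
          exact (hm w).1 hw
        · intro ha
          obtain ⟨j, w⟩ := a
          have hj : j = i := hi _ ha
          subst hj
          exact ⟨w, (hm w).2 ha, rfl⟩
      unfold FE
      rw [Finset.mem_filter, mem_AF]
      refine ⟨?_, ?_, ?_⟩
      · have e : nr (g.preimage (fun w : Pl (F.L i) => (⟨i, w⟩ : F.Lb)) hinj) = F.nrl g := by
          conv_rhs => rw [← hmap]
          unfold sgm Fr0.nrl nr
          rw [Finset.prod_map]
          rfl
        rw [e]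
        exact hnr
      · intro w hw
        have h1 := (hm w).1 hw
        rw [← un_blw F i w]
        refine ⟨?_, (hg1 _ h1).2⟩
        rw [Finset.mem_union]
        rintro (h2 | h2)
        · exact (hg1 _ h1).1 h2
        · refine Finset.disjoint_left.1 hdis ?_ h2
          unfold Fr0.und
          exact Finset.mem_image.2 ⟨_, h1, rfl⟩
      · intro w hw w' hw' hne
        rw [← un_blw F i w, ← un_blw F i w']
        refine hg2 _ ((hm w).1 hw) _ ((hm w').1 hw') ?_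
        intro h
        exact hne (eq_of_heq (Sigma.mk.inj_iff.1 h).2)
    · ext a
      rw [mem_sgm]
      constructor
      · rintro ⟨w, hw, rfl⟩
        exact Finset.mem_preimage.1 hw
      · intro ha
        obtain ⟨j, w⟩ := a
        have hj : j = i := hi _ ha
        subst hj
        exact ⟨w, Finset.mem_preimage.2 ha, rfl⟩
  · rintro ⟨g', hg', rfl⟩
    unfold FE at hg'
    rw [Finset.mem_filter, mem_AF] at hg'
    obtain ⟨hnr, h1, h2⟩ := hg'
    refine ⟨⟨⟨?_, ?_⟩, ?_, ?_⟩, ?_⟩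
    · intro a ha
      obtain ⟨w, hw, rfl⟩ := (mem_sgm _ _ _ _).1 ha
      refine ⟨?_, (h1 w hw).2⟩
      rw [un_blw F i w]
      exact fun h => (h1 w hw).1 (Finset.mem_union_left _ h)
    · intro a ha b hb hab
      obtain ⟨w, hw, rfl⟩ := (mem_sgm _ _ _ _).1 ha
      obtain ⟨w', hw', rfl⟩ := (mem_sgm _ _ _ _).1 hb
      rw [un_blw F i w, un_blw F i w']
      exact h2 w hw w' hw' fun h => hab (by rw [h])
    · intro j hj
      unfold Fr0.cls at hj
      obtain ⟨a, ha, rfl⟩ := Finset.mem_image.1 hj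
      obtain ⟨w, hw, rfl⟩ := (mem_sgm _ _ _ _).1 ha
      exact Finset.mem_singleton_self _
    · have e : F.nrl (sgm F.toFr0 i g') = nr g' := by
        unfold sgm Fr0.nrl nr
        rw [Finset.prod_map]
        rfl
      rw [e]
      exact hnr
    · rw [Finset.disjoint_left]
      intro v hv hvB
      unfold Fr0.und at hv
      obtain ⟨a, ha, rfl⟩ := Finset.mem_image.1 hv
      obtain ⟨w, hw, rfl⟩ := (mem_sgm _ _ _ _).1 ha
      rw [un_blw F i w] at hvB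
      exact (h1 w hw).1 (Finset.mem_union_right _ hvB)

/-- the sum over the families of class `i` which avoid `B` -/
private theorem sgm_sum {X : CD} {K : Type} [Field K] [NumberField K] (F : Fr X K) (i : Fin X.N) (B : Finset (Pl K))
    (M : ℝ) (φ : F.Lb → ℂ) (χ : Ideal (𝓞 (F.L i)) → ℂ)
    (h : ∀ a : Pl (F.L i), F.Gd ⟨i, a⟩ → F.un ⟨i, a⟩ ∉ B → χ a.asIdeal = φ ⟨i, a⟩) :
    ∑ g ∈ (F.Fam {i} M).filter (fun g => Disjoint (F.und g) B), ∏ a ∈ g, φ a =
      ∑ g ∈ FE K (F.L i) (F.bad ∪ B) M, ∏ w ∈ g, χ w.asIdeal := by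
  rw [sgm_fam, Finset.sum_image fun _ _ _ _ h => sgm_inj F.toFr0 i h]
  refine Finset.sum_congr rfl fun g hg => ?_
  unfold sgm
  rw [Finset.prod_map]
  refine Finset.prod_congr rfl fun w hw => ?_
  unfold FE at hg
  rw [Finset.mem_filter] at hg
  have h1 := hg.2.1 w hw
  rw [← un_blw F i w, Finset.mem_union, not_or] at h1
  exact (h w ⟨h1.1.1, h1.2⟩ h1.1.2).symm

theorem snga (X : CD) (K : Type) [Field K] [NumberField K] (d : ℕ) (hA : AN1 K d) :
    ∃ (C : ℝ) (A : ℕ) (δ : ℝ), 1 ≤ C ∧ 0 < δ ∧ δ ≤ 1 / 4 ∧ ∀ F : Fr X K, F.d ≤ d → ∀ (i : Fin X.N)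
      (κ : F.R → ZMod X.p) (c : F.C) (θ₀ : Fin X.w → ZMod X.p) (σ : Finset F.Lb)
      (θ : F.Lb → Fin X.w → ZMod X.p), X.van i i θ₀ → (∀ b ∈ σ, F.Gd b) →
      F.NT i (F.ch κ c θ₀ σ θ) → ∀ B : Finset (Pl K), F.und σ ⊆ B → ∀ z Y : ℝ, 1 ≤ z → z ≤ Y →
      ‖∑ g ∈ F.Fam {i} Y, if z < F.nrl g ∧ Disjoint (F.und g) B then
        ∏ a ∈ g, ep X.p (F.ch κ c θ₀ σ θ a) else 0‖ ≤
      C * F.qq ^ A * C ^ B.card * (F.D * nr (F.und σ)) ^ A * Y ^ (1 - δ) := by
  obtain ⟨C₁, A₁, δ, hC₁, hδ0, hδ, hAN⟩ := hA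
  obtain ⟨a', ha'⟩ := pow_unbounded_of_one_lt C₁ (one_lt_two)
  refine ⟨2 * C₁, a' + (d + 2) * A₁, δ, by linarith, hδ0, hδ, ?_⟩
  intro F hF i κ c θ₀ σ θ hv hσ hNT B hB z Y hz hzY
  obtain ⟨𝔣, χ, h𝔣, hN𝔣, hχ⟩ := F.chr i κ c θ₀ σ θ hv hσ
  have hNon : χ.Non := by
    obtain ⟨a, ha1, ha2, ha3⟩ := hNT (F.und σ)
    have h1 := hχ a ha1 ha2
    refine ⟨a.asIdeal, a.ne_bot, ?_, ?_⟩
    · by_contra hcon
      rw [χ.zero_of _ hcon] at h1
      have h2 := ep_norm X.p (F.ch κ c θ₀ σ θ ⟨i, a⟩)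
      rw [← h1, norm_zero] at h2
      exact zero_ne_one h2
    · rw [h1]
      exact fun h => ha3 ((ep_eq_one X.hp _).1 h)
  have hY : 1 ≤ Y := hz.trans hzY
  have hD := F.one_le_D
  have hq := F.one_le_qq
  have hn : 1 ≤ nr (F.und σ) := one_le_nr _
  have hDn : 1 ≤ F.D * nr (F.und σ) := by nlinarith
  -- the bound for one sum
  have hS : ∀ M : ℝ, 1 ≤ M → M ≤ Y →
      ‖∑ g ∈ FE K (F.L i) (F.bad ∪ B) M, ∏ w ∈ g, χ.χ w.asIdeal‖ ≤
        C₁ * F.qq ^ (a' + (d + 2) * A₁) * (2 * C₁) ^ B.card * (F.D * nr (F.und σ)) ^ (a' + (d + 2) * A₁) * Y ^ (1 - δ) := by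
    intro M hM hMY
    refine (hAN (F.L i) (F.tc i) ((F.deg i).trans hF) 𝔣 h𝔣 χ hNon (F.bad ∪ B) M hM).trans ?_
    have h1 : C₁ ^ (F.bad ∪ B).card ≤ F.qq ^ (a' + (d + 2) * A₁) * (2 * C₁) ^ B.card := by
      calc C₁ ^ (F.bad ∪ B).card ≤ C₁ ^ (F.bad.card + B.card) := pow_le_pow_right₀ hC₁ (Finset.card_union_le _ _)
        _ = C₁ ^ F.bad.card * C₁ ^ B.card := pow_add _ _ _
        _ ≤ F.qq ^ (a' + (d + 2) * A₁) * (2 * C₁) ^ B.card := by
            refine mul_le_mul ?_ ?_ (by positivity) (by positivity)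
            · calc C₁ ^ F.bad.card ≤ (2 ^ a') ^ F.bad.card := pow_le_pow_left₀ (by linarith) ha'.le _
                _ = (2 ^ F.bad.card) ^ a' := by rw [← pow_mul, ← pow_mul, mul_comm]
                _ ≤ F.qq ^ a' := pow_le_pow_left₀ (by positivity) F.card_bad _
                _ ≤ F.qq ^ (a' + (d + 2) * A₁) := pow_le_pow_right₀ hq (Nat.le_add_right _ _)
            · exact pow_le_pow_left₀ (by linarith) (by linarith) _
    have h2 : (dd (F.L i) * (Ideal.absNorm 𝔣 : ℝ)) ^ A₁ ≤ (F.D * nr (F.und σ)) ^ (a' + (d + 2) * A₁) := by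
      have h3 : dd (F.L i) * (Ideal.absNorm 𝔣 : ℝ) ≤ (F.D * nr (F.und σ)) ^ (d + 2) := by
        calc dd (F.L i) * (Ideal.absNorm 𝔣 : ℝ) ≤ F.D * (F.D * nr (F.und σ) ^ F.d) :=
              mul_le_mul (F.dis i) hN𝔣 (Nat.cast_nonneg _) (by linarith)
          _ ≤ (F.D * nr (F.und σ)) * ((F.D * nr (F.und σ)) * (F.D * nr (F.und σ)) ^ d) := by
              have h4 : nr (F.und σ) ^ F.d ≤ (F.D * nr (F.und σ)) ^ d := by
                calc nr (F.und σ) ^ F.d ≤ nr (F.und σ) ^ d := pow_le_pow_right₀ hn hF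
                  _ ≤ (F.D * nr (F.und σ)) ^ d := pow_le_pow_left₀ (by linarith) (by nlinarith) _
              have h5 : F.D ≤ F.D * nr (F.und σ) := by nlinarith
              have h6 : 0 ≤ nr (F.und σ) ^ F.d := by positivity
              refine mul_le_mul h5 ?_ (by positivity) (by linarith)
              exact mul_le_mul h5 h4 h6 (by linarith)
          _ = (F.D * nr (F.und σ)) ^ (d + 2) := by ring
      calc (dd (F.L i) * (Ideal.absNorm 𝔣 : ℝ)) ^ A₁ ≤ ((F.D * nr (F.und σ)) ^ (d + 2)) ^ A₁ :=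
            pow_le_pow_left₀ (mul_nonneg (dd_pos _).le (Nat.cast_nonneg _)) h3 _
        _ = (F.D * nr (F.und σ)) ^ ((d + 2) * A₁) := by rw [← pow_mul]
        _ ≤ (F.D * nr (F.und σ)) ^ (a' + (d + 2) * A₁) := pow_le_pow_right₀ hDn (Nat.le_add_left _ _)
    have h3 : M ^ (1 - δ) ≤ Y ^ (1 - δ) := Real.rpow_le_rpow (by linarith) hMY (by linarith)
    have h4 : 0 ≤ (dd (F.L i) * (Ideal.absNorm 𝔣 : ℝ)) ^ A₁ :=
      pow_nonneg (mul_nonneg (dd_pos _).le (Nat.cast_nonneg _)) _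
    calc C₁ * C₁ ^ (F.bad ∪ B).card * (dd (F.L i) * (Ideal.absNorm 𝔣 : ℝ)) ^ A₁ * M ^ (1 - δ)
        ≤ C₁ * (F.qq ^ (a' + (d + 2) * A₁) * (2 * C₁) ^ B.card) * (F.D * nr (F.und σ)) ^ (a' + (d + 2) * A₁) * Y ^ (1 - δ) := by
          have h5 : 0 ≤ M ^ (1 - δ) := Real.rpow_nonneg (by linarith) _
          gcongr
      _ = C₁ * F.qq ^ (a' + (d + 2) * A₁) * (2 * C₁) ^ B.card * (F.D * nr (F.und σ)) ^ (a' + (d + 2) * A₁) * Y ^ (1 - δ) := by
          ring
  -- the sum as a difference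
  have hφ : ∀ a : Pl (F.L i), F.Gd ⟨i, a⟩ → F.un ⟨i, a⟩ ∉ B →
      χ.χ a.asIdeal = (fun a => ep X.p (F.ch κ c θ₀ σ θ a)) ⟨i, a⟩ :=
    fun a h1 h2 => hχ a h1 fun h3 => h2 (hB h3)
  have e1 : ∑ g ∈ F.Fam {i} Y, (if z < F.nrl g ∧ Disjoint (F.und g) B then
        ∏ a ∈ g, ep X.p (F.ch κ c θ₀ σ θ a) else 0) =
      ∑ g ∈ FE K (F.L i) (F.bad ∪ B) Y, ∏ w ∈ g, χ.χ w.asIdeal -
        ∑ g ∈ FE K (F.L i) (F.bad ∪ B) z, ∏ w ∈ g, χ.χ w.asIdeal := by
    rw [← sgm_sum F i B Y (fun a => ep X.p (F.ch κ c θ₀ σ θ a)) χ.χ hφ,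
      ← sgm_sum F i B z (fun a => ep X.p (F.ch κ c θ₀ σ θ a)) χ.χ hφ, ← Finset.sum_filter]
    have e2 : (F.Fam {i} z).filter (fun g => Disjoint (F.und g) B) =
        ((F.Fam {i} Y).filter (fun g => Disjoint (F.und g) B)).filter (fun g => ¬ z < F.nrl g) := by
      ext g
      simp only [Finset.mem_filter, Fr0.mem_Fam, not_lt]
      constructor
      · rintro ⟨⟨h1, h2, h3⟩, h4⟩
        exact ⟨⟨⟨h1, h2, h3.trans hzY⟩, h4⟩, h3⟩
      · rintro ⟨⟨⟨h1, h2, h3⟩, h4⟩, h5⟩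
        exact ⟨⟨h1, h2, h5⟩, h4⟩
    have e3 : (F.Fam {i} Y).filter (fun g => z < F.nrl g ∧ Disjoint (F.und g) B) =
        ((F.Fam {i} Y).filter (fun g => Disjoint (F.und g) B)).filter (fun g => z < F.nrl g) := by
      rw [Finset.filter_filter]
      refine Finset.filter_congr fun g _ => ?_
      exact and_comm
    rw [e2, e3, eq_sub_iff_add_eq]
    exact Finset.sum_filter_add_sum_filter_not _ _ _
  rw [e1]
  refine (norm_sub_le _ _).trans ?_
  have h1 := hS Y hY le_rfl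
  have h2 := hS z hz hzY
  calc _ ≤ C₁ * F.qq ^ (a' + (d + 2) * A₁) * (2 * C₁) ^ B.card * (F.D * nr (F.und σ)) ^ (a' + (d + 2) * A₁) * Y ^ (1 - δ) +
        C₁ * F.qq ^ (a' + (d + 2) * A₁) * (2 * C₁) ^ B.card * (F.D * nr (F.und σ)) ^ (a' + (d + 2) * A₁) * Y ^ (1 - δ) :=
        add_le_add h1 h2
    _ = 2 * C₁ * F.qq ^ (a' + (d + 2) * A₁) * (2 * C₁) ^ B.card * (F.D * nr (F.und σ)) ^ (a' + (d + 2) * A₁) * Y ^ (1 - δ) := by
        ring

end H51.MM
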