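import Pool.Agent.H51.MM.TDef

/-!
# [H51 MM EXP] Expansion of the weighted sum over typed families (80-120 lines)

`fs_exp`: for fixed `c`, `g` expand `wt c g = ∏_{a ∈ g} ∑_{ψ ∈ Th a.1} ep (ψ ⬝ᵥ E c g a)` with `Finset.prod_sum`:
`= ∑_{Ψ ∈ g.pi (fun a => Th a.1)} ∏_{a ∈ g.attach} ep (Ψ a ⬝ᵥ E c g a)`. The pairs `(g, Ψ)`, `g ∈ Fam J Y`, correspond to the `u ∈ TF J Y`:
`u τ = {a ∈ g | a.1 = τ.1.1 and Ψ a = τ.1.2}`; inverse: `g = U u`, `Ψ a` = the functional of the unique type `τ` with `a ∈ u τ` (unique: `TOk`,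
the sets `und (u τ)` are disjoint). `F.Ok (U u)`, `cls (U u) ⊆ J`, `nrl (U u) = nrt u` (the `u τ` are pairwise disjoint).
`∏ ep = ep ∑` (`ep_add`, `ep_zero`; `AddChar.map_sum_eq_prod` via `rayc_std`), and `∑_{a ∈ U u} Ψ a ⬝ᵥ E c (U u) a = Ph c u` (`Finset.sum_biUnion`).
`tok_ok`, `tok_nr` are used by the other files.
-/

set_option autoImplicit false

open scoped NumberField
open IsDedekindDomain NumberField H63.MA H36.QA Filter Topology
open scoped Classical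

noncomputable section

namespace H51.MM

variable {X : CD} {K : Type} [Field K] [NumberField K]


theorem tok_ok (F : Fr0 X K) (u : X.Ty → Finset F.Lb) (hu : F.TOk u) : F.Ok (F.U u) := by
  obtain ⟨-, h2, h3⟩ := hu
  refine ⟨fun a ha => ?_, fun a ha b hb hab => ?_⟩
  · unfold Fr0.U at ha
    rw [Finset.mem_biUnion] at ha
    obtain ⟨τ, -, ha⟩ := ha
    exact (h2 τ).1 a ha
  · unfold Fr0.U at ha hb
    rw [Finset.mem_biUnion] at ha hb
    obtain ⟨τ, -, ha⟩ := ha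
    obtain ⟨τ', -, hb⟩ := hb
    by_cases hτ : τ = τ'
    · subst hτ
      exact (h2 τ).2 a ha b hb hab
    · intro he
      have h4 := h3 τ τ' hτ
      rw [Finset.disjoint_left] at h4
      refine h4 (a := F.un a) (Finset.mem_image_of_mem _ ha) ?_
      rw [he]
      exact Finset.mem_image_of_mem _ hb

theorem tok_dis (F : Fr0 X K) (u : X.Ty → Finset F.Lb) (hu : F.TOk u) (τ τ' : X.Ty) (h : τ ≠ τ') :
    Disjoint (u τ) (u τ') := by
  have h4 := hu.2.2 τ τ' h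
  rw [Finset.disjoint_left] at h4 ⊢
  intro a ha hb
  exact h4 (Finset.mem_image_of_mem F.un ha) (Finset.mem_image_of_mem F.un hb)

theorem tok_nr (F : Fr0 X K) (u : X.Ty → Finset F.Lb) (hu : F.TOk u) : F.nrl (F.U u) = F.nrt u := by
  unfold Fr0.nrl Fr0.U Fr0.nrt
  rw [Finset.prod_biUnion]
  · rfl
  · intro τ _ τ' _ h
    exact tok_dis F u hu τ τ' h

private theorem exp_ep {p : ℕ} (hp : p.Prime) {ι : Type} (s : Finset ι) (f : ι → ZMod p) :
    ∏ a ∈ s, ep p (f a) = ep p (∑ a ∈ s, f a) := by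
  induction s using Finset.induction_on with
  | empty => rw [Finset.prod_empty, Finset.sum_empty, ep_zero]
  | insert a s ha ih => rw [Finset.prod_insert ha, Finset.sum_insert ha, ep_add hp, ih]

/-- the typed family of a choice of functionals -/
private def uu (F : Fr0 X K) (g : Finset F.Lb) (Ψ : ∀ a ∈ g, Fin X.w → ZMod X.p) (τ : X.Ty) :
    Finset F.Lb :=
  g.filter fun a => ∃ h : a ∈ g, a.1 = τ.1.1 ∧ Ψ a h = τ.1.2

private theorem mem_uu (F : Fr0 X K) (g : Finset F.Lb) (Ψ : ∀ a ∈ g, Fin X.w → ZMod X.p) (τ : X.Ty)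
    (a : F.Lb) : a ∈ uu F g Ψ τ ↔ ∃ h : a ∈ g, a.1 = τ.1.1 ∧ Ψ a h = τ.1.2 := by
  unfold uu
  rw [Finset.mem_filter]
  exact ⟨fun h => h.2, fun h => ⟨h.1, h⟩⟩

private theorem U_uu (F : Fr0 X K) (g : Finset F.Lb) (Ψ : ∀ a ∈ g, Fin X.w → ZMod X.p)
    (hΨ : ∀ a (h : a ∈ g), Ψ a h ∈ X.Th a.1) : F.U (uu F g Ψ) = g := by
  ext a
  unfold Fr0.U
  rw [Finset.mem_biUnion]
  constructor
  · rintro ⟨τ, -, ha⟩
    rw [mem_uu] at ha
    exact ha.1
  · intro ha
    refine ⟨⟨(a.1, Ψ a ha), hΨ a ha⟩, Finset.mem_univ _, ?_⟩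
    rw [mem_uu]
    exact ⟨ha, rfl, rfl⟩

private theorem tok_uu (F : Fr0 X K) (g : Finset F.Lb) (hg : F.Ok g)
    (Ψ : ∀ a ∈ g, Fin X.w → ZMod X.p) : F.TOk (uu F g Ψ) := by
  refine ⟨fun τ a ha => ?_, fun τ => ⟨fun a ha => ?_, fun a ha b hb hab => ?_⟩, fun τ τ' h => ?_⟩
  · rw [mem_uu] at ha
    exact ha.2.1
  · rw [mem_uu] at ha
    exact hg.1 a ha.1
  · rw [mem_uu] at ha hb
    exact hg.2 a ha.1 b hb.1 hab
  · rw [Finset.disjoint_left]
    intro v hv hv'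
    unfold Fr0.und at hv hv'
    rw [Finset.mem_image] at hv hv'
    obtain ⟨a, ha, rfl⟩ := hv
    obtain ⟨b, hb, hab⟩ := hv'
    rw [mem_uu] at ha hb
    obtain ⟨ha0, ha1, ha2⟩ := ha
    obtain ⟨hb0, hb1, hb2⟩ := hb
    by_cases he : a = b
    · subst he
      exact h (Subtype.ext (Prod.ext (ha1.symm.trans hb1) (ha2.symm.trans hb2)))
    · exact hg.2 a ha0 b hb0 he hab.symm

private theorem wt_eq (F : Fr0 X K) (J : Finset (Fin X.N)) (Y : ℝ) (c : F.C) (g : Finset F.Lb)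
    (hg : g ∈ F.Fam J Y) :
    F.wt c g = ∑ u ∈ (F.TF J Y).filter fun u => F.U u = g, ep X.p (F.Ph c u) := by
  rw [Fr0.mem_Fam] at hg
  obtain ⟨hg1, hg2, hg3⟩ := hg
  unfold Fr0.wt
  rw [Finset.prod_sum]
  refine Finset.sum_bij (fun Ψ _ => uu F g Ψ) ?_ ?_ ?_ ?_
  · intro Ψ hΨ
    rw [Finset.mem_pi] at hΨ
    have hU := U_uu F g Ψ hΨ
    rw [Finset.mem_filter, Fr0.mem_TF]
    refine ⟨⟨tok_uu F g hg1 Ψ, fun τ hτ => ?_, ?_⟩, hU⟩
    · rw [Finset.eq_empty_iff_forall_notMem]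
      intro a ha
      rw [mem_uu] at ha
      refine hτ (hg2 ?_)
      rw [← ha.2.1]
      exact Finset.mem_image_of_mem _ ha.1
    · rw [← tok_nr F _ (tok_uu F g hg1 Ψ), hU]
      exact hg3
  · intro Ψ hΨ Ψ' hΨ' he
    rw [Finset.mem_pi] at hΨ hΨ'
    funext a ha
    have h1 : a ∈ uu F g Ψ ⟨(a.1, Ψ a ha), hΨ a ha⟩ := by
      rw [mem_uu]
      exact ⟨ha, rfl, rfl⟩
    have he' : uu F g Ψ = uu F g Ψ' := he
    rw [he', mem_uu] at h1
    exact h1.2.2.symm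
  · intro u hu
    rw [Finset.mem_filter, Fr0.mem_TF] at hu
    obtain ⟨⟨hu1, hu2, hu3⟩, hu4⟩ := hu
    have hex : ∀ a ∈ g, ∃ τ, a ∈ u τ := by
      intro a ha
      rw [← hu4] at ha
      unfold Fr0.U at ha
      rw [Finset.mem_biUnion] at ha
      obtain ⟨τ, -, ha⟩ := ha
      exact ⟨τ, ha⟩
    choose T hT using hex
    refine ⟨fun a ha => (T a ha).1.2, ?_, ?_⟩
    · rw [Finset.mem_pi]
      intro a ha
      rw [hu1.1 _ a (hT a ha)]
      exact (T a ha).2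
    · funext τ
      ext a
      rw [mem_uu]
      constructor
      · rintro ⟨ha, h1, h2⟩
        have h3 : T a ha = τ :=
          Subtype.ext (Prod.ext ((hu1.1 _ a (hT a ha)).symm.trans h1) h2)
        rw [← h3]
        exact hT a ha
      · intro ha
        have hag : a ∈ g := by
          rw [← hu4]
          unfold Fr0.U
          rw [Finset.mem_biUnion]
          exact ⟨τ, Finset.mem_univ _, ha⟩
        have h3 : T a hag = τ := by
          by_contra hne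
          have h4 := tok_dis F u hu1 _ _ hne
          rw [Finset.disjoint_left] at h4
          exact h4 (hT a hag) ha
        exact ⟨hag, hu1.1 τ a ha, by rw [h3]⟩
  · intro Ψ hΨ
    rw [Finset.mem_pi] at hΨ
    have hU := U_uu F g Ψ hΨ
    rw [exp_ep X.hp]
    congr 1
    unfold Fr0.Ph
    rw [hU]
    obtain ⟨f, hf⟩ : ∃ f : F.Lb → Fin X.w → ZMod X.p, ∀ a (h : a ∈ g), f a = Ψ a h :=
      ⟨fun a => if h : a ∈ g then Ψ a h else 0, fun a h => dif_pos h⟩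
    have h1 : ∀ τ ∈ (Finset.univ : Finset X.Ty), ∑ a ∈ uu F g Ψ τ, τ.1.2 ⬝ᵥ F.E c g a =
        ∑ a ∈ uu F g Ψ τ, f a ⬝ᵥ F.E c g a := by
      intro τ _
      refine Finset.sum_congr rfl fun a ha => ?_
      rw [mem_uu] at ha
      rw [hf a ha.1, ha.2.2]
    rw [Finset.sum_congr rfl h1, ← Finset.sum_biUnion]
    · have h2 : Finset.univ.biUnion (uu F g Ψ) = g := hU
      rw [h2, ← Finset.sum_attach g]
      refine Finset.sum_congr rfl fun a _ => ?_
      rw [hf a.1 a.2]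
    · intro τ _ τ' _ h
      exact tok_dis F _ (tok_uu F g hg1 Ψ) τ τ' h

theorem fs_exp (F : Fr0 X K) (J : Finset (Fin X.N)) (h : F.C → Finset F.Lb → ℂ) (Y : ℝ) :
    F.FS J h Y = ∑ c : F.C, ∑ u ∈ F.TF J Y, if F.Sp c (F.cls (F.U u)) then
      h c (F.U u) * ep X.p (F.Ph c u) else 0 := by
  unfold Fr0.FS
  rw [Finset.sum_comm]
  refine Finset.sum_congr rfl fun c _ => ?_
  have hmaps : ∀ u ∈ F.TF J Y, F.U u ∈ F.Fam J Y := by
    intro u hu
    rw [Fr0.mem_TF] at hu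
    rw [Fr0.mem_Fam]
    refine ⟨tok_ok F u hu.1, ?_, ?_⟩
    · intro i hi
      unfold Fr0.cls at hi
      rw [Finset.mem_image] at hi
      obtain ⟨a, ha, rfl⟩ := hi
      unfold Fr0.U at ha
      rw [Finset.mem_biUnion] at ha
      obtain ⟨τ, -, ha⟩ := ha
      by_contra hJ
      rw [hu.1.1 τ a ha] at hJ
      rw [hu.2.1 τ hJ] at ha
      exact absurd ha (Finset.notMem_empty _)
    · rw [tok_nr F u hu.1]
      exact hu.2.2
  rw [← Finset.sum_fiberwise_of_maps_to hmaps]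
  refine Finset.sum_congr rfl fun g hg => ?_
  have h1 : ∀ u ∈ (F.TF J Y).filter fun u => F.U u = g,
      (if F.Sp c (F.cls (F.U u)) then h c (F.U u) * ep X.p (F.Ph c u) else 0) =
      if F.Sp c (F.cls g) then h c g * ep X.p (F.Ph c u) else 0 := by
    intro u hu
    rw [(Finset.mem_filter.1 hu).2]
  rw [Finset.sum_congr rfl h1]
  by_cases hS : F.Sp c (F.cls g)
  · simp only [if_pos hS]
    rw [← Finset.mul_sum, wt_eq F J Y c g hg]
  · simp only [if_neg hS, Finset.sum_const_zero]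

end H51.MM
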