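import Pool.Agent.H51.MM.Trv

/-!
# [H51 MM FMC] The number of families (60-90 lines)

`fam_eq`: a family `g ∈ Fam J Y` is a set `s = und g ∈ AF K Y` and for each `v ∈ s` a label over `v` (prime norm, class in `J`), `v ∉ bad`; the number of
labels over `v` is `lbn K F.L J F.bad v` (`F.un ⟨i, w⟩ = v ↔ Over w v`: `F.un_over`, `below_unique`); `nrl g = nr s` (`ok_nr`). So
`#Fam J Y = ∑_{s ∈ AF K Y} ∏_{v ∈ s} lbn v` (`Finset.card_pi` / fiberwise). `fam_card`: AN3b.
-/

set_option autoImplicit false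

open scoped NumberField
open IsDedekindDomain NumberField H63.MA H36.QA Filter Topology
open scoped Classical

noncomputable section

namespace H51.MM

variable {X : CD} {K : Type} [Field K] [NumberField K]


private theorem fmc_un (F : Fr X K) {i : Fin X.N} {w : Pl (F.L i)} {v : Pl K} :
    F.un ⟨i, w⟩ = v ↔ Over w v :=
  ⟨fun h => h ▸ F.un_over ⟨i, w⟩, fun h => below_unique (F.un_over ⟨i, w⟩) h⟩

private theorem fmc_fin (F : Fr X K) (i : Fin X.N) {v : Pl K} (hv : v ∉ F.bad) :
    {w : Pl (F.L i) | Over w v ∧ (nm w).Prime}.Finite := by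
  refine (plfin (F.L i) (nm v : ℝ)).subset ?_
  rintro w ⟨hw1, hw2⟩
  have h1 : F.un ⟨i, w⟩ = v := (fmc_un F).2 hw1
  have h2 := gd_nm F ⟨i, w⟩ ⟨by rw [h1]; exact hv, hw2⟩
  rw [h1] at h2
  have h3 : nm w = nm v := h2
  show (nm w : ℝ) ≤ (nm v : ℝ)
  rw [h3]

/-- the good labels over `v` with class in `J` -/
private theorem fmc_lab (F : Fr X K) (J : Finset (Fin X.N)) (v : Pl K) :
    ∃ T : Finset F.Lb, (∀ a, a ∈ T ↔ a.1 ∈ J ∧ F.Gd a ∧ F.un a = v) ∧
      T.card = lbn K F.L J F.bad v := by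
  by_cases hv : v ∈ F.bad
  · refine ⟨∅, fun a => ⟨fun h => absurd h (Finset.notMem_empty a), fun h => ?_⟩, ?_⟩
    · exact absurd (h.2.2 ▸ hv) h.2.1.1
    · unfold lbn
      rw [if_pos hv, Finset.card_empty]
  · refine ⟨J.sigma fun i => (fmc_fin F i hv).toFinset, fun a => ?_, ?_⟩
    · rw [Finset.mem_sigma, Set.Finite.mem_toFinset]
      constructor
      · rintro ⟨h1, h2, h3⟩
        have h4 : F.un a = v := (fmc_un F).2 h2
        exact ⟨h1, ⟨by rw [h4]; exact hv, h3⟩, h4⟩
      · rintro ⟨h1, h2, h3⟩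
        exact ⟨h1, (fmc_un F).1 h3, h2.2⟩
    · unfold lbn
      rw [if_neg hv, Finset.card_sigma]
      refine Finset.sum_congr rfl fun i _ => ?_
      rw [Set.ncard_eq_toFinset_card _ (fmc_fin F i hv)]

theorem fam_eq (F : Fr X K) (J : Finset (Fin X.N)) (Y : ℝ) :
    ((F.Fam J Y).card : ℝ) = ∑ s ∈ AF K Y, ∏ v ∈ s, (lbn K F.L J F.bad v : ℝ) := by
  choose T hT hTc using fmc_lab F J
  have hmap : ∀ g ∈ F.Fam J Y, F.und g ∈ AF K Y := by
    intro g hg
    rw [Fr0.mem_Fam] at hg
    rw [mem_AF, ← ok_nr F g hg.1]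
    exact hg.2.2
  have key : (F.Fam J Y).card = ∑ s ∈ AF K Y, ∏ v ∈ s, lbn K F.L J F.bad v := by
    rw [Finset.card_eq_sum_card_fiberwise hmap]
    refine Finset.sum_congr rfl fun s hs => ?_
    have h1 : ∏ v ∈ s, lbn K F.L J F.bad v = (s.pi T).card := by
      rw [Finset.card_pi]
      exact Finset.prod_congr rfl fun v _ => (hTc v).symm
    rw [h1]
    symm
    refine Finset.card_bij (fun f _ => s.attach.image fun v => f v.1 v.2) ?_ ?_ ?_
    · intro f hf
      rw [Finset.mem_pi] at hf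
      have hf' : ∀ v (hv : v ∈ s), (f v hv).1 ∈ J ∧ F.Gd (f v hv) ∧ F.un (f v hv) = v :=
        fun v hv => (hT v _).1 (hf v hv)
      have hund : F.und (s.attach.image fun v => f v.1 v.2) = s := by
        unfold Fr0.und
        rw [Finset.image_image]
        have h2 : (F.un ∘ fun v : {x // x ∈ s} => f v.1 v.2) = Subtype.val := by
          funext v
          exact (hf' v.1 v.2).2.2
        rw [h2, Finset.attach_image_val]
      have hok : F.Ok (s.attach.image fun v => f v.1 v.2) := by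
        refine ⟨?_, ?_⟩
        · intro a ha
          obtain ⟨v, -, rfl⟩ := Finset.mem_image.1 ha
          exact (hf' v.1 v.2).2.1
        · intro a ha b hb hab hun
          obtain ⟨v, -, rfl⟩ := Finset.mem_image.1 ha
          obtain ⟨v', -, rfl⟩ := Finset.mem_image.1 hb
          rw [(hf' v.1 v.2).2.2, (hf' v'.1 v'.2).2.2] at hun
          exact hab (by rw [Subtype.ext hun])
      rw [Finset.mem_filter, Fr0.mem_Fam]
      refine ⟨⟨hok, ?_, ?_⟩, hund⟩
      · intro i hi
        obtain ⟨a, ha, rfl⟩ := Finset.mem_image.1 hi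
        obtain ⟨v, -, rfl⟩ := Finset.mem_image.1 ha
        exact (hf' v.1 v.2).1
      · rw [ok_nr F _ hok, hund]
        exact mem_AF.1 hs
    · intro f hf f' hf' hff
      rw [Finset.mem_pi] at hf hf'
      funext v hv
      have h2 : f v hv ∈ s.attach.image fun v => f' v.1 v.2 := by
        have h3 : f v hv ∈ s.attach.image fun v => f v.1 v.2 :=
          Finset.mem_image.2 ⟨⟨v, hv⟩, Finset.mem_attach _ _, rfl⟩
        rw [← hff]
        exact h3
      obtain ⟨v', -, h3⟩ := Finset.mem_image.1 h2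
      have h4 : v'.1 = v := by
        have h5 := ((hT _ _).1 (hf' v'.1 v'.2)).2.2
        have h6 := ((hT _ _).1 (hf v hv)).2.2
        rw [← h5, ← h6, h3]
      obtain ⟨v'', hv''⟩ := v'
      simp only at h4
      subst h4
      exact h3.symm
    · intro g hg
      rw [Finset.mem_filter, Fr0.mem_Fam] at hg
      obtain ⟨⟨hok, hcls, -⟩, hund⟩ := hg
      have h2 : ∀ v ∈ s, ∃ a ∈ g, F.un a = v := by
        intro v hv
        rw [← hund] at hv
        obtain ⟨a, ha, hav⟩ := Finset.mem_image.1 hv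
        exact ⟨a, ha, hav⟩
      choose f hfg hfv using h2
      refine ⟨f, ?_, ?_⟩
      · rw [Finset.mem_pi]
        intro v hv
        rw [hT]
        exact ⟨hcls (Finset.mem_image_of_mem _ (hfg v hv)), hok.1 _ (hfg v hv), hfv v hv⟩
      · ext a
        rw [Finset.mem_image]
        constructor
        · rintro ⟨v, -, rfl⟩
          exact hfg v.1 v.2
        · intro ha
          have hv : F.un a ∈ s := by
            rw [← hund]
            exact Finset.mem_image_of_mem _ ha
          refine ⟨⟨F.un a, hv⟩, Finset.mem_attach _ _, ?_⟩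
          by_contra hne
          exact hok.2 _ (hfg _ hv) _ ha hne (hfv _ hv)
  rw [key]
  push_cast
  rfl

theorem fam_card (X : CD) (K : Type) [Field K] [NumberField K] (d : ℕ) (hA : AN3b K X.N d) :
    ∃ (C : ℝ) (A : ℕ), 1 ≤ C ∧ ∀ F : Fr X K, F.d ≤ d → ∀ J : Finset (Fin X.N), J.Nonempty → ∀ Y : ℝ, 3 ≤ Y →
      ((F.Fam J Y).card : ℝ) ≤ C * (1 + Real.log F.D) ^ A * (Y * Real.log Y ^ (J.card - 1)) := by
  obtain ⟨C, A, hC, h⟩ := hA
  refine ⟨C, A, hC, fun F hd J hJ Y hY => ?_⟩
  rw [fam_eq]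
  exact h F.L F.tc (fun i => (F.deg i).trans hd) F.D F.one_le_D F.dis F.bad J hJ Y hY

end H51.MM
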