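import Pool.Agent.H51.MM.TDef

/-!
# [H51 MM GF] The total value of a family is a function of the total class (50-80 lines)

`gf`: by `F.rcp` the sum depends only on `tot g`: both `g` and the chosen family `h.choose` are `Ok` with the same `tot`.
`gf_zero`: `g = ∅`. `crs`: apply `gf` to `g ∪ h`, `g`, `h`: `E c (g ∪ h) a = E c g a + ∑_{b ∈ h} s a b` for `a ∈ g` (disjoint: `und g`, `und h`
disjoint, so `g`, `h` disjoint), and `tot (g ∪ h) = tot g + tot h`.
-/

set_option autoImplicit false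

open scoped NumberField
open IsDedekindDomain NumberField H63.MA H36.QA Filter Topology
open scoped Classical

noncomputable section

namespace H51.MM

variable {X : CD} {K : Type} [Field K] [NumberField K]


/-- the total value as a function of the total class -/
def Gf (F : Fr X K) (c : F.C) (ψ : Fin X.w → ZMod X.p) (x : F.R → ZMod X.p) : ZMod X.p :=
  if h : ∃ g, F.Ok g ∧ F.tot g = x then ∑ a ∈ h.choose, ψ ⬝ᵥ F.E c h.choose a else 0

theorem gf (F : Fr X K) (c : F.C) (ψ : Fin X.w → ZMod X.p) (g : Finset F.Lb) (hg : F.Ok g) :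
    ∑ a ∈ g, ψ ⬝ᵥ F.E c g a = Gf F c ψ (F.tot g) := by
  have h : ∃ g', F.Ok g' ∧ F.tot g' = F.tot g := ⟨g, hg, rfl⟩
  unfold Gf
  rw [dif_pos h]
  exact F.rcp c ψ g _ hg h.choose_spec.1 h.choose_spec.2.symm

theorem gf_zero (F : Fr X K) (c : F.C) (ψ : Fin X.w → ZMod X.p) : Gf F c ψ 0 = 0 := by
  have h := gf F c ψ ∅ ⟨fun a ha => absurd ha (Finset.notMem_empty a),
    fun a ha => absurd ha (Finset.notMem_empty a)⟩
  rw [Finset.sum_empty] at h
  have h2 : F.tot ∅ = 0 := by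
    unfold Fr0.tot
    exact Finset.sum_empty
  rw [h2] at h
  exact h.symm

private theorem e_union (F : Fr X K) (c : F.C) (g h : Finset F.Lb) (hd : Disjoint g h) (a : F.Lb)
    (ha : a ∈ g) : F.E c (g ∪ h) a = F.E c g a + ∑ b ∈ h, F.s a b := by
  unfold Fr0.E
  have h1 : (g ∪ h).erase a = g.erase a ∪ h := by
    rw [Finset.erase_union_distrib, Finset.erase_eq_of_notMem (Finset.disjoint_left.1 hd ha)]
  rw [h1, Finset.sum_union (hd.mono_left (Finset.erase_subset _ _)), add_assoc]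

theorem crs (F : Fr X K) (c : F.C) (ψ : Fin X.w → ZMod X.p) (g h : Finset F.Lb) (hg : F.Ok g) (hh : F.Ok h)
    (hd : Disjoint (F.und g) (F.und h)) : ∑ a ∈ g, ∑ b ∈ h, ψ ⬝ᵥ (F.s a b + F.s b a) =
      Gf F c ψ (F.tot g + F.tot h) - Gf F c ψ (F.tot g) - Gf F c ψ (F.tot h) := by
  have hun : ∀ a ∈ g, ∀ b ∈ h, F.un a ≠ F.un b := by
    intro a ha b hb hab
    refine Finset.disjoint_left.1 hd (Finset.mem_image_of_mem F.un ha) ?_
    rw [hab]
    exact Finset.mem_image_of_mem F.un hb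
  have hgh : Disjoint g h := by
    rw [Finset.disjoint_left]
    intro a ha hb
    exact hun a ha a hb rfl
  have hok : F.Ok (g ∪ h) := by
    constructor
    · intro a ha
      rcases Finset.mem_union.1 ha with h1 | h1
      · exact hg.1 a h1
      · exact hh.1 a h1
    · intro a ha b hb hab
      rcases Finset.mem_union.1 ha with h1 | h1 <;> rcases Finset.mem_union.1 hb with h2 | h2
      · exact hg.2 a h1 b h2 hab
      · exact hun a h1 b h2
      · exact (hun b h2 a h1).symm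
      · exact hh.2 a h1 b h2 hab
  have htot : F.tot (g ∪ h) = F.tot g + F.tot h := by
    unfold Fr0.tot
    exact Finset.sum_union hgh
  have h1 := gf F c ψ (g ∪ h) hok
  rw [htot, Finset.sum_union hgh] at h1
  have h2 : ∑ a ∈ g, ψ ⬝ᵥ F.E c (g ∪ h) a = ∑ a ∈ g, ψ ⬝ᵥ F.E c g a + ∑ a ∈ g, ∑ b ∈ h, ψ ⬝ᵥ F.s a b := by
    rw [← Finset.sum_add_distrib]
    refine Finset.sum_congr rfl fun a ha => ?_
    rw [e_union F c g h hgh a ha, dotProduct_add, dotProduct_sum]
  have h3 : ∑ b ∈ h, ψ ⬝ᵥ F.E c (g ∪ h) b = ∑ b ∈ h, ψ ⬝ᵥ F.E c h b + ∑ a ∈ g, ∑ b ∈ h, ψ ⬝ᵥ F.s b a := by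
    rw [Finset.sum_comm, ← Finset.sum_add_distrib]
    refine Finset.sum_congr rfl fun b hb => ?_
    rw [Finset.union_comm, e_union F c h g hgh.symm b hb, dotProduct_add, dotProduct_sum]
  have h4 : ∑ a ∈ g, ∑ b ∈ h, ψ ⬝ᵥ (F.s a b + F.s b a) =
      ∑ a ∈ g, ∑ b ∈ h, ψ ⬝ᵥ F.s a b + ∑ a ∈ g, ∑ b ∈ h, ψ ⬝ᵥ F.s b a := by
    rw [← Finset.sum_add_distrib]
    refine Finset.sum_congr rfl fun a _ => ?_
    rw [← Finset.sum_add_distrib]
    refine Finset.sum_congr rfl fun b _ => ?_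
    rw [dotProduct_add]
  rw [h2, h3, gf F c ψ g hg, gf F c ψ h hh] at h1
  rw [h4, ← h1]
  ring

end H51.MM
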