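import Pool.Agent.H51.MM.Ng0

/-!
# [H51 MM LIMA] Equidistribution of the classes (100-150 lines)

`Cf = (Fin N → F.R → ZMod p)`, `x_i = tot (class i part of g)`. Fourier: `G x = ∑_κ c_κ ep (∑_i κ i ⬝ᵥ x i)`, `c_κ = #^{-1} ∑_x G x ep (-∑_i κ i ⬝ᵥ x i)`. For `κ` such that all
`κ i` vanish on the good labels of class `i` (`κ ∈ Tr`) the sum over `g` is `#Fam univ Y` (`fam_eq`, AN4: `∼ l Y (log Y)^(N-1)`, `l > 0`). Otherwise some `κ i` is `NT i`
(`F.nt3`), and `ng0` with `j₀ = i`, `W g' = ∏_{a ∈ g'} ep (κ a.1 ⬝ᵥ qv a)`, `P = 1`, `hW2` from `fam_card` (`J = univ.erase i`, nonempty if `N ≥ 2`) gives `0`. So the limit is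
`l ∑_{κ ∈ Tr} c_κ = l #^{-1} ∑_x G x ∑_{κ ∈ Tr} ep (-∑ κ i ⬝ᵥ x i)`, the inner sum is `#Tr` if `x ∈ WW F` (`Tr` is a subgroup, a product over `i`), `0` otherwise.
`l₁ = l #Tr / #Cf > 0`.
-/

set_option autoImplicit false

open scoped NumberField
open IsDedekindDomain NumberField H63.MA H36.QA Filter Topology
open scoped Classical

noncomputable section

namespace H51.MM

/-- the possible total classes -/
def WW {X : CD} {K : Type} [Field K] [NumberField K] (F : Fr0 X K) :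
    Finset (Fin X.N → F.R → ZMod X.p) :=
  Finset.univ.filter fun x => ∀ (i : Fin X.N) (κ : F.R → ZMod X.p),
    (∀ a : Pl (F.L i), F.Gd ⟨i, a⟩ → κ ⬝ᵥ F.qv ⟨i, a⟩ = 0) → κ ⬝ᵥ x i = 0

/-- the pairing of the characters with the total classes -/
private def lpr {p N : ℕ} {R : Type} [Fintype R] (κ x : Fin N → R → ZMod p) : ZMod p := ∑ i, κ i ⬝ᵥ x i

private theorem lpr_add {p N : ℕ} {R : Type} [Fintype R] (κ κ' x : Fin N → R → ZMod p) :
    lpr (κ + κ') x = lpr κ x + lpr κ' x := by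
  unfold lpr
  rw [← Finset.sum_add_distrib]
  refine Finset.sum_congr rfl fun i _ => ?_
  rw [Pi.add_apply, add_dotProduct]

private theorem lpr_neg {p N : ℕ} {R : Type} [Fintype R] (κ x : Fin N → R → ZMod p) :
    lpr κ (-x) = - lpr κ x := by
  unfold lpr
  rw [← Finset.sum_neg_distrib]
  refine Finset.sum_congr rfl fun i _ => ?_
  rw [Pi.neg_apply, dotProduct_neg]

private theorem lpr_addr {p N : ℕ} {R : Type} [Fintype R] (κ x y : Fin N → R → ZMod p) :
    lpr κ (x + y) = lpr κ x + lpr κ y := by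
  unfold lpr
  rw [← Finset.sum_add_distrib]
  refine Finset.sum_congr rfl fun i _ => ?_
  rw [Pi.add_apply, dotProduct_add]

private theorem lpr_upd {p N : ℕ} {R : Type} [Fintype R] (i : Fin N) (κ : R → ZMod p) (x : Fin N → R → ZMod p) :
    lpr (Function.update 0 i κ) x = κ ⬝ᵥ x i := by
  unfold lpr
  rw [Finset.sum_eq_single i]
  · rw [Function.update_self]
  · intro j _ hj
    rw [Function.update_of_ne hj, Pi.zero_apply, zero_dotProduct]
  · intro h
    exact absurd (Finset.mem_univ i) h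

private theorem lima_sum {p N : ℕ} (hp : p.Prime) {R : Type} [Fintype R] (T : Finset (Fin N → R → ZMod p))
    (hs : ∀ κ ∈ T, ∀ κ' ∈ T, κ - κ' ∈ T) (κ₀ : Fin N → R → ZMod p) (h : κ₀ ∈ T) (y : Fin N → R → ZMod p)
    (hy : lpr κ₀ y ≠ 0) : ∑ κ ∈ T, ep p (lpr κ y) = 0 := by
  have h0 : (0 : Fin N → R → ZMod p) ∈ T := by
    have := hs κ₀ h κ₀ h
    rwa [sub_self] at this
  have e : ∑ κ ∈ T, ep p (lpr κ y) = ∑ κ ∈ T, ep p (lpr (κ + κ₀) y) := by
    symm
    refine Finset.sum_bij' (fun κ _ => κ + κ₀) (fun κ _ => κ - κ₀) ?_ ?_ ?_ ?_ ?_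
    · intro κ hκ
      have h1 := hs κ hκ _ (hs 0 h0 κ₀ h)
      have h2 : κ + κ₀ = κ - (0 - κ₀) := by abel
      rw [h2]
      exact h1
    · intro κ hκ
      exact hs κ hκ κ₀ h
    · intro κ _
      abel
    · intro κ _
      abel
    · intro κ _
      rfl
  have e2 : ∑ κ ∈ T, ep p (lpr (κ + κ₀) y) = (∑ κ ∈ T, ep p (lpr κ y)) * ep p (lpr κ₀ y) := by
    rw [Finset.sum_mul]
    refine Finset.sum_congr rfl fun κ _ => ?_
    rw [lpr_add, ep_add hp]
  rw [e2] at e
  have h3 : ep p (lpr κ₀ y) ≠ 1 := fun h => hy ((ep_eq_one hp _).1 h)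
  have h4 : (∑ κ ∈ T, ep p (lpr κ y)) * (ep p (lpr κ₀ y) - 1) = 0 := by
    rw [mul_sub, mul_one, ← e, sub_self]
  rcases mul_eq_zero.1 h4 with h5 | h5
  · exact h5
  · exact absurd (sub_eq_zero.1 h5) h3

private theorem lima_inv {p N : ℕ} (hp : p.Prime) [NeZero p] {R : Type} [Fintype R] (G : (Fin N → R → ZMod p) → ℂ)
    (y : Fin N → R → ZMod p) :
    G y = ∑ κ : Fin N → R → ZMod p, ((Fintype.card (Fin N → R → ZMod p) : ℂ)⁻¹ *
      ∑ x : Fin N → R → ZMod p, G x * ep p (lpr κ (-x))) * ep p (lpr κ y) := by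
  have h0 : (Fintype.card (Fin N → R → ZMod p) : ℂ) ≠ 0 := by
    exact_mod_cast Fintype.card_ne_zero
  have h1 : ∀ x : Fin N → R → ZMod p, ∑ κ : Fin N → R → ZMod p, ep p (lpr κ (-x)) * ep p (lpr κ y) =
      if x = y then (Fintype.card (Fin N → R → ZMod p) : ℂ) else 0 := by
    intro x
    have e : ∀ κ : Fin N → R → ZMod p, ep p (lpr κ (-x)) * ep p (lpr κ y) = ep p (lpr κ (-x + y)) := by
      intro κ
      rw [lpr_addr, ep_add hp]
    rw [Finset.sum_congr rfl fun κ _ => e κ]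
    split_ifs with hxy
    · rw [hxy, neg_add_cancel]
      have e2 : ∀ κ : Fin N → R → ZMod p, ep p (lpr κ 0) = 1 := by
        intro κ
        have : lpr κ (0 : Fin N → R → ZMod p) = 0 := by
          unfold lpr
          refine Finset.sum_eq_zero fun i _ => ?_
          rw [Pi.zero_apply, dotProduct_zero]
        rw [this, ep_zero]
      rw [Finset.sum_congr rfl fun κ _ => e2 κ]
      simp
    · obtain ⟨i, hi⟩ := Function.ne_iff.1 hxy
      obtain ⟨r, hr⟩ := Function.ne_iff.1 hi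
      refine lima_sum hp Finset.univ (fun _ _ _ _ => Finset.mem_univ _)
        (Function.update 0 i (Pi.single r 1)) (Finset.mem_univ _) _ ?_
      rw [lpr_upd, single_dotProduct, one_mul]
      simp only [Pi.add_apply, Pi.neg_apply]
      intro h2
      apply hr
      have h3 : y i r - x i r = 0 := by
        rw [← h2]
        ring
      exact (sub_eq_zero.1 h3).symm
  calc G y = (Fintype.card (Fin N → R → ZMod p) : ℂ)⁻¹ *
        ∑ x : Fin N → R → ZMod p, G x * (if x = y then (Fintype.card (Fin N → R → ZMod p) : ℂ) else 0) := by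
        simp only [mul_ite, mul_zero, Finset.sum_ite_eq', Finset.mem_univ, if_true]
        field_simp
    _ = (Fintype.card (Fin N → R → ZMod p) : ℂ)⁻¹ *
        ∑ x : Fin N → R → ZMod p, G x * ∑ κ : Fin N → R → ZMod p, ep p (lpr κ (-x)) * ep p (lpr κ y) := by
        congr 1
        exact Finset.sum_congr rfl fun x _ => by rw [h1 x]
    _ = ∑ κ : Fin N → R → ZMod p, ((Fintype.card (Fin N → R → ZMod p) : ℂ)⁻¹ *
      ∑ x : Fin N → R → ZMod p, G x * ep p (lpr κ (-x))) * ep p (lpr κ y) := by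
        simp only [Finset.mul_sum, Finset.sum_mul]
        rw [Finset.sum_comm]
        refine Finset.sum_congr rfl fun κ _ => Finset.sum_congr rfl fun x _ => ?_
        ring

/-- the characters which are trivial on all good labels -/
private def lTr {X : CD} {K : Type} [Field K] [NumberField K] (F : Fr0 X K) : Finset (Fin X.N → F.R → ZMod X.p) :=
  Finset.univ.filter fun κ => ∀ (i : Fin X.N) (a : Pl (F.L i)), F.Gd ⟨i, a⟩ → κ i ⬝ᵥ F.qv ⟨i, a⟩ = 0

private theorem lTr_sub {X : CD} {K : Type} [Field K] [NumberField K] (F : Fr0 X K) :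
    ∀ κ ∈ lTr F, ∀ κ' ∈ lTr F, κ - κ' ∈ lTr F := by
  intro κ hκ κ' hκ'
  unfold lTr at *
  rw [Finset.mem_filter] at *
  refine ⟨Finset.mem_univ _, fun i a ha => ?_⟩
  rw [Pi.sub_apply, sub_dotProduct, hκ.2 i a ha, hκ'.2 i a ha, sub_zero]

private theorem lTr_WW {X : CD} {K : Type} [Field K] [NumberField K] (F : Fr0 X K) (x : Fin X.N → F.R → ZMod X.p) :
    ∑ κ ∈ lTr F, ep X.p (lpr κ (-x)) = if x ∈ WW F then ((lTr F).card : ℂ) else 0 := by
  split_ifs with hx
  · have h1 : ∀ κ ∈ lTr F, ep X.p (lpr κ (-x)) = 1 := by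
      intro κ hκ
      unfold lTr at hκ
      unfold WW at hx
      rw [Finset.mem_filter] at hκ hx
      have h2 : lpr κ x = 0 := by
        unfold lpr
        exact Finset.sum_eq_zero fun i _ => hx.2 i (κ i) (hκ.2 i)
      rw [lpr_neg, h2, neg_zero, ep_zero]
    rw [Finset.sum_congr rfl h1]
    simp
  · have h3 : ∃ (i : Fin X.N) (κ : F.R → ZMod X.p), (∀ a : Pl (F.L i), F.Gd ⟨i, a⟩ → κ ⬝ᵥ F.qv ⟨i, a⟩ = 0) ∧
        κ ⬝ᵥ x i ≠ 0 := by
      by_contra hcon
      push Not at hcon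
      apply hx
      unfold WW
      rw [Finset.mem_filter]
      exact ⟨Finset.mem_univ _, hcon⟩
    obtain ⟨i, κ, hκ, hne⟩ := h3
    refine lima_sum X.hp (lTr F) (lTr_sub F) (Function.update 0 i κ) ?_ (-x) ?_
    · unfold lTr
      rw [Finset.mem_filter]
      refine ⟨Finset.mem_univ _, fun j a ha => ?_⟩
      by_cases hj : j = i
      · subst hj
        rw [Function.update_self]
        exact hκ a ha
      · rw [Function.update_of_ne hj, Pi.zero_apply, zero_dotProduct]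
    · rw [lpr_neg, lpr_upd]
      exact neg_ne_zero.2 hne

private theorem lpr_tot {X : CD} {K : Type} [Field K] [NumberField K] (F : Fr0 X K) (κ : Fin X.N → F.R → ZMod X.p)
    (g : Finset F.Lb) :
    lpr κ (fun i => F.tot (g.filter fun a => a.1 = i)) = ∑ a ∈ g, κ a.1 ⬝ᵥ F.qv a := by
  unfold lpr Fr0.tot
  rw [← Finset.sum_fiberwise g (fun a => a.1) (fun a => κ a.1 ⬝ᵥ F.qv a)]
  refine Finset.sum_congr rfl fun i _ => ?_
  rw [dotProduct_sum]
  refine Finset.sum_congr rfl fun a ha => ?_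
  rw [(Finset.mem_filter.1 ha).2]

theorem lima (X : CD) (K : Type) [Field K] [NumberField K] (F : Fr X K) (hN : 0 < X.N)
    (hA1 : AN1 K F.d) (hA3 : AN3a K) (hA4 : AN3b K X.N F.d) (hA5 : AN4 K) (c : F.C) :
    ∃ l₁ : ℝ, 0 < l₁ ∧ ∀ G : (Fin X.N → F.R → ZMod X.p) → ℂ,
      Tendsto (fun Y : ℝ => (∑ g ∈ F.Fam Finset.univ Y,
          G fun i => F.tot (g.filter fun a => a.1 = i)) /
        ((Y * Real.log Y ^ (X.N - 1) : ℝ) : ℂ)) atTop (𝓝 ((l₁ : ℂ) * ∑ x ∈ WW F.toFr0, G x)) := by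
  have hne : (Finset.univ : Finset (Fin X.N)).Nonempty := ⟨⟨0, hN⟩, Finset.mem_univ _⟩
  obtain ⟨l, hl, hlim⟩ := hA5 X.N F.L F.tc F.bad Finset.univ hne
  have hV : (0 : ℝ) < Fintype.card (Fin X.N → F.R → ZMod X.p) := by
    exact_mod_cast Fintype.card_pos
  have hT : (0 : ℝ) < (lTr F.toFr0).card := by
    have h0 : (0 : Fin X.N → F.R → ZMod X.p) ∈ lTr F.toFr0 := by
      unfold lTr
      rw [Finset.mem_filter]
      refine ⟨Finset.mem_univ _, fun i a _ => ?_⟩
      rw [Pi.zero_apply, zero_dotProduct]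
    exact_mod_cast Finset.card_pos.2 ⟨_, h0⟩
  -- the sums with one character
  have hS : ∀ κ : Fin X.N → F.R → ZMod X.p, Tendsto (fun Y : ℝ => (∑ g ∈ F.Fam Finset.univ Y,
      ep X.p (lpr κ fun i => F.tot (g.filter fun a => a.1 = i))) /
        ((Y * Real.log Y ^ (X.N - 1) : ℝ) : ℂ)) atTop (𝓝 (if κ ∈ lTr F.toFr0 then (l : ℂ) else 0)) := by
    intro κ
    split_ifs with hκ
    · have e1 : ∀ Y : ℝ, (∑ g ∈ F.Fam Finset.univ Y,
          ep X.p (lpr κ fun i => F.tot (g.filter fun a => a.1 = i))) / ((Y * Real.log Y ^ (X.N - 1) : ℝ) : ℂ) =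
          (((∑ s ∈ AF K Y, ∏ v ∈ s, (lbn K F.L Finset.univ F.bad v : ℝ)) /
            (Y * Real.log Y ^ ((Finset.univ : Finset (Fin X.N)).card - 1)) : ℝ) : ℂ) := by
        intro Y
        have e2 : ∑ g ∈ F.Fam Finset.univ Y, ep X.p (lpr κ fun i => F.tot (g.filter fun a => a.1 = i)) =
            (((F.Fam Finset.univ Y).card : ℝ) : ℂ) := by
          have e3 : ∀ g ∈ F.Fam Finset.univ Y,
              ep X.p (lpr κ fun i => F.tot (g.filter fun a => a.1 = i)) = 1 := by
            intro g hg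
            rw [lpr_tot]
            have h1 : ∑ a ∈ g, κ a.1 ⬝ᵥ F.qv a = 0 := by
              refine Finset.sum_eq_zero fun a ha => ?_
              unfold lTr at hκ
              rw [Finset.mem_filter] at hκ
              exact hκ.2 a.1 a.2 (((F.mem_Fam _ _ _).1 hg).1.1 a ha)
            rw [h1, ep_zero]
          rw [Finset.sum_congr rfl e3]
          simp
        rw [e2, fam_eq, Finset.card_univ, Fintype.card_fin]
        push_cast
        rfl
      rw [tendsto_congr e1]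
      exact (Complex.continuous_ofReal.tendsto l).comp hlim
    · have h1 : ∃ i : Fin X.N, ¬ ∀ a : Pl (F.L i), F.Gd ⟨i, a⟩ → κ i ⬝ᵥ F.qv ⟨i, a⟩ = 0 := by
        by_contra hcon
        push Not at hcon
        apply hκ
        unfold lTr
        rw [Finset.mem_filter]
        exact ⟨Finset.mem_univ _, hcon⟩
      obtain ⟨i, hi⟩ := h1
      have hnt := (F.nt3 i (κ i)).resolve_left hi
      have h2 := ng0 X K F hA1 hA3 c i (κ i) hnt (fun g => ep X.p (∑ a ∈ g, κ a.1 ⬝ᵥ F.qv a)) 1 le_rfl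
        (fun g => by rw [ep_norm, one_pow]) ?_
      · refine h2.congr fun Y => ?_
        congr 1
        refine Finset.sum_congr rfl fun g _ => ?_
        rw [lpr_tot, ← ep_add X.hp, dotProduct_sum]
        congr 1
        rw [← Finset.sum_filter_add_sum_filter_not g (fun a => a.1 ≠ i) (fun a => κ a.1 ⬝ᵥ F.qv a)]
        congr 1
        refine Finset.sum_congr ?_ fun a ha => ?_
        · ext a
          simp
        · rw [Finset.mem_filter] at ha
          have h3 : a.1 = i := not_not.1 ha.2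
          rw [h3]
      · by_cases hN1 : X.N = 1
        · exact Or.inl hN1
        · right
          obtain ⟨C, A, -, hC⟩ := fam_card X K F.d hA4
          refine ⟨C * (1 + Real.log F.D) ^ A, fun Y hY => ?_⟩
          have hcard : (Finset.univ.erase i).card = X.N - 1 := by
            rw [Finset.card_erase_of_mem (Finset.mem_univ i), Finset.card_univ, Fintype.card_fin]
          have hne2 : (Finset.univ.erase i).Nonempty := by
            rw [← Finset.card_pos, hcard]
            omega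
          have h3 := hC F le_rfl (Finset.univ.erase i) hne2 Y hY
          have h4 : ∑ g ∈ F.Fam (Finset.univ.erase i) Y, ‖ep X.p (∑ a ∈ g, κ a.1 ⬝ᵥ F.qv a)‖ =
              ((F.Fam (Finset.univ.erase i) Y).card : ℝ) := by
            simp [ep_norm]
          rw [h4]
          rw [hcard, Nat.sub_sub] at h3
          exact h3
  refine ⟨l * (lTr F.toFr0).card / Fintype.card (Fin X.N → F.R → ZMod X.p), by positivity, fun G => ?_⟩
  have hsum := tendsto_finsetSum (Finset.univ : Finset (Fin X.N → F.R → ZMod X.p)) fun κ _ =>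
    (hS κ).const_mul ((Fintype.card (Fin X.N → F.R → ZMod X.p) : ℂ)⁻¹ *
      ∑ x : Fin X.N → F.R → ZMod X.p, G x * ep X.p (lpr κ (-x)))
  have elim : ∑ κ : Fin X.N → F.R → ZMod X.p, ((Fintype.card (Fin X.N → F.R → ZMod X.p) : ℂ)⁻¹ *
      ∑ x : Fin X.N → F.R → ZMod X.p, G x * ep X.p (lpr κ (-x))) * (if κ ∈ lTr F.toFr0 then (l : ℂ) else 0) =
      ((l * (lTr F.toFr0).card / Fintype.card (Fin X.N → F.R → ZMod X.p) : ℝ) : ℂ) * ∑ x ∈ WW F.toFr0, G x := by
    have a1 : ∀ κ : Fin X.N → F.R → ZMod X.p, ((Fintype.card (Fin X.N → F.R → ZMod X.p) : ℂ)⁻¹ *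
        ∑ x : Fin X.N → F.R → ZMod X.p, G x * ep X.p (lpr κ (-x))) * (if κ ∈ lTr F.toFr0 then (l : ℂ) else 0) =
        if κ ∈ lTr F.toFr0 then ((l : ℂ) * (Fintype.card (Fin X.N → F.R → ZMod X.p) : ℂ)⁻¹) *
          ∑ x : Fin X.N → F.R → ZMod X.p, G x * ep X.p (lpr κ (-x)) else 0 := by
      intro κ
      split_ifs
      · ring
      · rw [mul_zero]
    rw [Finset.sum_congr rfl fun κ _ => a1 κ, ← Finset.sum_filter, Finset.filter_mem_eq_inter, Finset.univ_inter,
      ← Finset.mul_sum, Finset.sum_comm]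
    have a2 : ∀ x : Fin X.N → F.R → ZMod X.p, ∑ κ ∈ lTr F.toFr0, G x * ep X.p (lpr κ (-x)) =
        if x ∈ WW F.toFr0 then ((lTr F.toFr0).card : ℂ) * G x else 0 := by
      intro x
      rw [← Finset.mul_sum, lTr_WW]
      split_ifs
      · ring
      · rw [mul_zero]
    rw [Finset.sum_congr rfl fun x _ => a2 x, ← Finset.sum_filter, Finset.filter_mem_eq_inter, Finset.univ_inter,
      ← Finset.mul_sum]
    push_cast
    ring
  rw [elim] at hsum
  refine hsum.congr fun Y => ?_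
  have e5 : ∑ g ∈ F.Fam Finset.univ Y, G (fun i => F.tot (g.filter fun a => a.1 = i)) =
      ∑ κ : Fin X.N → F.R → ZMod X.p, ((Fintype.card (Fin X.N → F.R → ZMod X.p) : ℂ)⁻¹ *
      ∑ x : Fin X.N → F.R → ZMod X.p, G x * ep X.p (lpr κ (-x))) *
        ∑ g ∈ F.Fam Finset.univ Y, ep X.p (lpr κ fun i => F.tot (g.filter fun a => a.1 = i)) := by
    simp only [Finset.mul_sum (F.Fam Finset.univ Y)]
    rw [Finset.sum_comm]
    exact Finset.sum_congr rfl fun g _ => lima_inv X.hp G (fun i => F.tot (g.filter fun a => a.1 = i))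
  rw [e5, Finset.sum_div]
  refine Finset.sum_congr rfl fun κ _ => ?_
  rw [mul_div_assoc]

end H51.MM
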