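import Pool.Agent.H51.MM.Exp
import Pool.Agent.H51.MM.Gf

/-!
# [H51 MM PHB] The phase for unlinked large types (120-180 lines)

`L` unlinked, for every class `i` of `L` the type `(i, f i)` is in `L`; `σ` (zero on `L`) the part of `u` outside `L`, `r = U σ`,
`gL = ⋃_{τ ∈ L} u τ`, `g i = ⋃_{τ ∈ L, τ.1.1 = i} u τ` (so `tot (g i) = tL F L u i`), `U u = gL ∪ r` (disjoint). For `τ = (i, ψ) ∈ L`, `a ∈ u τ`:
`ψ ⬝ᵥ E c (U u) a = f i ⬝ᵥ E c (U u) a + (ψ - f i) ⬝ᵥ E c (U u) a`, and `(ψ - f i) ⬝ᵥ s a b = 0` for `b ∈ gL`, `b` of type `(j, ψ') ∈ L`: `van i j (ψ - ψ')`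
and `van i j (f i - ψ')` (unlinked), so `van i j (ψ - f i)` (`van_sub`), `F.van_s`. So the second term is `(ψ - f i) ⬝ᵥ (e c a + ∑_{b ∈ r} s a b)`.
`∑_{a ∈ gL} f a.1 ⬝ᵥ E c (U u) a = ∑_i ∑_{a ∈ g i} f i ⬝ᵥ E c (g i) a + ∑_{i ≠ j} ∑_{a ∈ g i} ∑_{b ∈ g j} f i ⬝ᵥ s a b + ∑_{a ∈ gL} ∑_{b ∈ r} f a.1 ⬝ᵥ s a b`:
the first sum is `∑_i Gf c (f i) (tot (g i))` (`gf`); for `i < j`: `f j ⬝ᵥ s b a = f i ⬝ᵥ s b a` (`van j i (f i - f j)`), so the pair gives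
`∑ ∑ f i ⬝ᵥ (s a b + s b a) = Gf c (f i) (tot (g i) + tot (g j)) - Gf c (f i) (tot (g i)) - Gf c (f i) (tot (g j))` (`crs`).
`∑_{b ∈ r} (tyv b) ⬝ᵥ E c (U u) b = const + ∑_{b ∈ r} ∑_{a ∈ gL} tyv b ⬝ᵥ s b a`, and for every value `ψ` of `tyv`, `r_ψ = {b ∈ r | tyv b = ψ}`:
`∑_{a ∈ gL} ∑_{b ∈ r_ψ} ψ ⬝ᵥ (s a b + s b a)` is a function of `tot gL = ∑_i tot (g i)` (`crs`). So
`Ph c u = Ω (tL F L u) + ∑_{τ ∈ L} ∑_{a ∈ u τ} [(ψ - f i) ⬝ᵥ e c a + ∑_{b ∈ r} ((ψ - f i) + f i - tyv b) ⬝ᵥ s a b]`.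
-/

set_option autoImplicit false

open scoped NumberField
open IsDedekindDomain NumberField H63.MA H36.QA Filter Topology
open scoped Classical

noncomputable section

namespace H51.MM

variable {X : CD} {K : Type} [Field K] [NumberField K]


private theorem phb_E (F : Fr0 X K) (c : F.C) (g h : Finset F.Lb) (hd : Disjoint g h) (a : F.Lb)
    (ha : a ∈ g) : F.E c (g ∪ h) a = F.E c g a + ∑ b ∈ h, F.s a b := by
  unfold Fr0.E
  have h1 : (g ∪ h).erase a = g.erase a ∪ h := by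
    rw [Finset.erase_union_distrib, Finset.erase_eq_of_notMem (Finset.disjoint_left.1 hd ha)]
  have h2 : Disjoint (g.erase a) h := hd.mono_left (Finset.erase_subset _ _)
  rw [h1, Finset.sum_union h2, add_assoc]

private theorem phb_split (F : Fr0 X K) (c : F.C) (φ : F.Lb → Fin X.w → ZMod X.p) (g h : Finset F.Lb)
    (hd : Disjoint g h) :
    ∑ a ∈ g ∪ h, φ a ⬝ᵥ F.E c (g ∪ h) a = ∑ a ∈ g, φ a ⬝ᵥ F.E c g a + ∑ b ∈ h, φ b ⬝ᵥ F.E c h b +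
      ∑ a ∈ g, ∑ b ∈ h, (φ a ⬝ᵥ F.s a b + φ b ⬝ᵥ F.s b a) := by
  rw [Finset.sum_union hd]
  have h1 : ∀ a ∈ g, φ a ⬝ᵥ F.E c (g ∪ h) a = φ a ⬝ᵥ F.E c g a + ∑ b ∈ h, φ a ⬝ᵥ F.s a b := by
    intro a ha
    rw [phb_E F c g h hd a ha, dotProduct_add, dotProduct_sum]
  have h2 : ∀ b ∈ h, φ b ⬝ᵥ F.E c (g ∪ h) b = φ b ⬝ᵥ F.E c h b + ∑ a ∈ g, φ b ⬝ᵥ F.s b a := by
    intro b hb
    rw [Finset.union_comm, phb_E F c h g hd.symm b hb, dotProduct_add, dotProduct_sum]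
  rw [Finset.sum_congr rfl h1, Finset.sum_congr rfl h2, Finset.sum_add_distrib, Finset.sum_add_distrib]
  simp_rw [Finset.sum_add_distrib]
  rw [Finset.sum_comm (s := h) (t := g)]
  abel

private theorem ok_sub (F : Fr0 X K) {g h : Finset F.Lb} (hh : F.Ok h) (hs : g ⊆ h) : F.Ok g :=
  ⟨fun a ha => hh.1 a (hs ha), fun a ha b hb => hh.2 a (hs ha) b (hs hb)⟩

private theorem ok_part (F : Fr0 X K) {u : X.Ty → Finset F.Lb} (hu : F.TOk u) (T : Finset X.Ty) :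
    F.Ok (T.biUnion u) :=
  ok_sub F (tok_ok F u hu) (Finset.biUnion_subset_biUnion_of_subset_left u (Finset.subset_univ T))

private theorem dis_part (F : Fr0 X K) {u : X.Ty → Finset F.Lb} (hu : F.TOk u) {T T' : Finset X.Ty}
    (h : Disjoint T T') : Disjoint (T.biUnion u) (T'.biUnion u) := by
  rw [Finset.disjoint_biUnion_left]
  intro τ hτ
  rw [Finset.disjoint_biUnion_right]
  intro τ' hτ'
  refine tok_dis F u hu τ τ' ?_
  rintro rfl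
  exact Finset.disjoint_left.1 h hτ hτ'

private theorem und_part (F : Fr0 X K) {u : X.Ty → Finset F.Lb} (hu : F.TOk u) {T T' : Finset X.Ty}
    (h : Disjoint T T') : Disjoint (F.und (T.biUnion u)) (F.und (T'.biUnion u)) := by
  unfold Fr0.und
  rw [Finset.disjoint_left]
  intro v hv hv'
  rw [Finset.mem_image] at hv hv'
  obtain ⟨a, ha, rfl⟩ := hv
  obtain ⟨b, hb, hab⟩ := hv'
  rw [Finset.mem_biUnion] at ha hb
  obtain ⟨τ, hτ, ha⟩ := ha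
  obtain ⟨τ', hτ', hb⟩ := hb
  have hne : τ ≠ τ' := by
    rintro rfl
    exact Finset.disjoint_left.1 h hτ hτ'
  have h1 := hu.2.2 τ τ' hne
  rw [Finset.disjoint_left] at h1
  exact h1 (Finset.mem_image_of_mem _ ha) (hab ▸ Finset.mem_image_of_mem _ hb)

private theorem tot_part (F : Fr0 X K) {u : X.Ty → Finset F.Lb} (hu : F.TOk u) (T : Finset X.Ty) :
    F.tot (T.biUnion u) = ∑ τ ∈ T, F.tot (u τ) := by
  unfold Fr0.tot
  rw [Finset.sum_biUnion]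
  intro τ _ τ' _ hne
  exact tok_dis F u hu τ τ' hne

/-- the functional carried by a label -/
def tyv (F : Fr0 X K) (σ : X.Ty → Finset F.Lb) (b : F.Lb) : Fin X.w → ZMod X.p :=
  ∑ τ : X.Ty, if b ∈ σ τ then τ.1.2 else 0

theorem tyv_eq (F : Fr0 X K) (σ : X.Ty → Finset F.Lb) (hσ : F.TOk σ) (τ : X.Ty) (b : F.Lb) (hb : b ∈ σ τ) :
    tyv F σ b = τ.1.2 := by
  unfold tyv
  rw [Finset.sum_eq_single τ]
  · rw [if_pos hb]
  · intro τ' _ hne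
    rw [if_neg]
    intro hb'
    exact Finset.disjoint_left.1 (tok_dis F σ hσ τ' τ hne) hb' hb
  · intro h
    exact absurd (Finset.mem_univ τ) h

/-- the total classes of the part in `L` -/
def tL (F : Fr0 X K) (L : Finset X.Ty) (u : X.Ty → Finset F.Lb) (i : Fin X.N) : F.R → ZMod X.p :=
  ∑ τ ∈ L.filter (fun τ => τ.1.1 = i), F.tot (u τ)

private theorem tL_sum (F : Fr0 X K) (L : Finset X.Ty) (u : X.Ty → Finset F.Lb) (J : Finset (Fin X.N)) :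
    ∑ j ∈ J, tL F L u j = ∑ τ ∈ L.filter (fun τ => τ.1.1 ∈ J), F.tot (u τ) := by
  unfold tL
  simp_rw [Finset.sum_filter]
  rw [Finset.sum_comm]
  refine Finset.sum_congr rfl fun τ _ => ?_
  rw [Finset.sum_ite_eq]

/-- two types in `L` and the aligned function -/
private theorem van_f {L : Finset X.Ty} (hL : X.Unl L) {f : Fin X.N → Fin X.w → ZMod X.p}
    (hf : ∀ τ ∈ L, ∃ τ' ∈ L, τ'.1 = (τ.1.1, f τ.1.1)) {τ τ' : X.Ty} (h : τ ∈ L) (h' : τ' ∈ L) :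
    X.van τ.1.1 τ'.1.1 (τ.1.2 - f τ.1.1) ∧ X.van τ.1.1 τ'.1.1 (f τ.1.1 - f τ'.1.1) := by
  obtain ⟨α, hα, hα1⟩ := hf τ h
  obtain ⟨β, hβ, hβ1⟩ := hf τ' h'
  have h1 : X.van τ.1.1 τ'.1.1 (τ.1.2 - τ'.1.2) := by
    have := hL τ h τ' h'
    unfold CD.lk at this
    rwa [not_not] at this
  have h2 : X.van τ.1.1 τ'.1.1 (f τ.1.1 - τ'.1.2) := by
    have := hL α hα τ' h'
    unfold CD.lk at this
    rw [not_not, hα1] at this
    exact this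
  have h3 : X.van τ.1.1 τ'.1.1 (f τ.1.1 - f τ'.1.1) := by
    have := hL α hα β hβ
    unfold CD.lk at this
    rw [not_not, hα1, hβ1] at this
    exact this
  refine ⟨?_, h3⟩
  have h4 := X.van_sub _ _ _ _ h1 h2
  have h5 : τ.1.2 - τ'.1.2 - (f τ.1.1 - τ'.1.2) = τ.1.2 - f τ.1.1 := by abel
  rwa [h5] at h4

private theorem phb_ind (F : Fr X K) (c : F.C) (L : Finset X.Ty) (hL : X.Unl L)
    (f : Fin X.N → Fin X.w → ZMod X.p) (hf : ∀ τ ∈ L, ∃ τ' ∈ L, τ'.1 = (τ.1.1, f τ.1.1))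
    (J : Finset (Fin X.N)) :
    ∃ Ω : (Fin X.N → F.R → ZMod X.p) → ZMod X.p, ∀ u : X.Ty → Finset F.Lb, F.TOk u →
      ∑ a ∈ (L.filter (fun τ => τ.1.1 ∈ J)).biUnion u,
        f a.1 ⬝ᵥ F.E c ((L.filter (fun τ => τ.1.1 ∈ J)).biUnion u) a = Ω (tL F.toFr0 L u) := by
  induction J using Finset.induction_on with
  | empty =>
    refine ⟨fun _ => 0, fun u _ => ?_⟩
    have h1 : L.filter (fun τ => τ.1.1 ∈ (∅ : Finset (Fin X.N))) = ∅ := by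
      refine Finset.filter_false_of_mem fun τ _ => Finset.notMem_empty _
    rw [h1, Finset.biUnion_empty, Finset.sum_empty]
  | insert i J hi ih =>
    obtain ⟨Ω, hΩ⟩ := ih
    refine ⟨fun x => Gf F c (f i) (x i) + Ω x + (Gf F c (f i) (x i + ∑ j ∈ J, x j) - Gf F c (f i) (x i) -
      Gf F c (f i) (∑ j ∈ J, x j)), fun u hu => ?_⟩
    obtain ⟨T1, hT1⟩ : ∃ T1, T1 = L.filter (fun τ => τ.1.1 = i) := ⟨_, rfl⟩
    obtain ⟨T2, hT2⟩ : ∃ T2, T2 = L.filter (fun τ => τ.1.1 ∈ J) := ⟨_, rfl⟩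
    have hT : L.filter (fun τ => τ.1.1 ∈ insert i J) = T1 ∪ T2 := by
      rw [hT1, hT2]
      ext τ
      simp only [Finset.mem_filter, Finset.mem_insert, Finset.mem_union]
      tauto
    have hTd : Disjoint T1 T2 := by
      rw [Finset.disjoint_left]
      intro τ h1 h2
      rw [hT1, Finset.mem_filter] at h1
      rw [hT2, Finset.mem_filter] at h2
      rw [h1.2] at h2
      exact hi h2.2
    have hTu : (T1 ∪ T2).biUnion u = T1.biUnion u ∪ T2.biUnion u := by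
      ext a
      simp only [Finset.mem_biUnion, Finset.mem_union]
      constructor
      · rintro ⟨τ, h1 | h1, h2⟩
        · exact Or.inl ⟨τ, h1, h2⟩
        · exact Or.inr ⟨τ, h1, h2⟩
      · rintro (⟨τ, h1, h2⟩ | ⟨τ, h1, h2⟩)
        · exact ⟨τ, Or.inl h1, h2⟩
        · exact ⟨τ, Or.inr h1, h2⟩
    have htot1 : F.tot (T1.biUnion u) = tL F.toFr0 L u i := by
      rw [tot_part F.toFr0 hu, hT1]
      rfl
    have htot2 : F.tot (T2.biUnion u) = ∑ j ∈ J, tL F.toFr0 L u j := by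
      rw [tot_part F.toFr0 hu, tL_sum, hT2]
    rw [hT, hTu, phb_split F.toFr0 c (fun a => f a.1) _ _ (dis_part F.toFr0 hu hTd)]
    have hmem1 : ∀ a ∈ T1.biUnion u, a.1 = i ∧ ∃ τ ∈ L, a.1 = τ.1.1 := by
      intro a ha
      rw [Finset.mem_biUnion] at ha
      obtain ⟨τ, hτ, ha⟩ := ha
      rw [hT1, Finset.mem_filter] at hτ
      have h1 := hu.1 τ a ha
      exact ⟨h1.trans hτ.2, τ, hτ.1, h1⟩
    have hmem2 : ∀ a ∈ T2.biUnion u, ∃ τ ∈ L, a.1 = τ.1.1 := by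
      intro a ha
      rw [Finset.mem_biUnion] at ha
      obtain ⟨τ, hτ, ha⟩ := ha
      rw [hT2, Finset.mem_filter] at hτ
      exact ⟨τ, hτ.1, hu.1 τ a ha⟩
    have e1 : ∑ a ∈ T1.biUnion u, f a.1 ⬝ᵥ F.E c (T1.biUnion u) a = Gf F c (f i) (tL F.toFr0 L u i) := by
      rw [← htot1, ← gf F c (f i) (T1.biUnion u) (ok_part F.toFr0 hu T1)]
      exact Finset.sum_congr rfl fun a ha => by rw [(hmem1 a ha).1]
    have e2 : ∑ a ∈ T2.biUnion u, f a.1 ⬝ᵥ F.E c (T2.biUnion u) a = Ω (tL F.toFr0 L u) := by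
      rw [hT2]
      exact hΩ u hu
    have e3 : ∑ a ∈ T1.biUnion u, ∑ b ∈ T2.biUnion u, (f a.1 ⬝ᵥ F.s a b + f b.1 ⬝ᵥ F.s b a) =
        Gf F c (f i) (tL F.toFr0 L u i + ∑ j ∈ J, tL F.toFr0 L u j) - Gf F c (f i) (tL F.toFr0 L u i) -
          Gf F c (f i) (∑ j ∈ J, tL F.toFr0 L u j) := by
      rw [← htot1, ← htot2, ← crs F c (f i) _ _ (ok_part F.toFr0 hu T1) (ok_part F.toFr0 hu T2)
        (und_part F.toFr0 hu hTd)]
      refine Finset.sum_congr rfl fun a ha => Finset.sum_congr rfl fun b hb => ?_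
      obtain ⟨hai, τ, hτ, haτ⟩ := hmem1 a ha
      obtain ⟨τ', hτ', hbτ⟩ := hmem2 b hb
      have h1 := (van_f hL hf hτ' hτ).2
      rw [← haτ, ← hbτ] at h1
      have h2 := F.van_s b a _ h1
      rw [sub_dotProduct, sub_eq_zero] at h2
      rw [h2, dotProduct_add, hai]
    rw [e1, e2, e3]

theorem phb (F : Fr X K) (c : F.C) (L : Finset X.Ty) (hL : X.Unl L) (f : Fin X.N → Fin X.w → ZMod X.p)
    (hf : ∀ τ ∈ L, ∃ τ' ∈ L, τ'.1 = (τ.1.1, f τ.1.1)) (σ : X.Ty → Finset F.Lb) (hσ : ∀ τ ∈ L, σ τ = ∅) :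
    ∃ Ω : (Fin X.N → F.R → ZMod X.p) → ZMod X.p, ∀ u : X.Ty → Finset F.Lb, F.TOk u → F.rs Lᶜ u = σ →
      F.Ph c u = Ω (tL F.toFr0 L u) + ∑ τ ∈ L, ∑ a ∈ u τ,
        F.ch 0 c (τ.1.2 - f τ.1.1) (F.U σ) (fun b => τ.1.2 - tyv F.toFr0 σ b) a := by
  obtain ⟨Ω0, hΩ0⟩ := phb_ind F c L hL f hf Finset.univ
  refine ⟨fun x => Ω0 x + ∑ b ∈ F.U σ, tyv F.toFr0 σ b ⬝ᵥ F.E c (F.U σ) b +
    ∑ τ : X.Ty, (Gf F c τ.1.2 (∑ i, x i + F.tot (σ τ)) - Gf F c τ.1.2 (∑ i, x i) -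
      Gf F c τ.1.2 (F.tot (σ τ))), fun u hu hrs => ?_⟩
  have hσu : ∀ τ, τ ∉ L → σ τ = u τ := by
    intro τ hτ
    rw [← hrs]
    unfold Fr0.rs
    rw [if_pos (Finset.mem_compl.2 hτ)]
  have hσs : ∀ τ, σ τ ⊆ u τ := by
    intro τ
    by_cases h : τ ∈ L
    · rw [hσ τ h]
      exact Finset.empty_subset _
    · rw [hσu τ h]
  have hσok : F.TOk σ := by
    refine ⟨fun τ a ha => hu.1 τ a (hσs τ ha), fun τ => ok_sub F.toFr0 (hu.2.1 τ) (hσs τ), fun τ τ' hne => ?_⟩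
    exact (hu.2.2 τ τ' hne).mono (Finset.image_subset_image (hσs τ)) (Finset.image_subset_image (hσs τ'))
  have hUσ : F.U σ = Lᶜ.biUnion u := by
    unfold Fr0.U
    ext a
    simp only [Finset.mem_biUnion, Finset.mem_univ, true_and]
    constructor
    · rintro ⟨τ, ha⟩
      have hτ : τ ∉ L := by
        intro h
        rw [hσ τ h] at ha
        exact Finset.notMem_empty _ ha
      exact ⟨τ, Finset.mem_compl.2 hτ, hσs τ ha⟩
    · rintro ⟨τ, hτ, ha⟩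
      exact ⟨τ, by rw [hσu τ (Finset.mem_compl.1 hτ)]; exact ha⟩
  have hUu : F.U u = L.biUnion u ∪ F.U σ := by
    rw [hUσ]
    unfold Fr0.U
    ext a
    simp only [Finset.mem_biUnion, Finset.mem_univ, true_and, Finset.mem_union, Finset.mem_compl]
    constructor
    · rintro ⟨τ, ha⟩
      by_cases h : τ ∈ L
      · exact Or.inl ⟨τ, h, ha⟩
      · exact Or.inr ⟨τ, h, ha⟩
    · rintro (⟨τ, _, ha⟩ | ⟨τ, _, ha⟩)
      · exact ⟨τ, ha⟩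
      · exact ⟨τ, ha⟩
  have hdL : Disjoint L Lᶜ := disjoint_compl_right
  have hdis : Disjoint (L.biUnion u) (F.U σ) := by
    rw [hUσ]
    exact dis_part F.toFr0 hu hdL
  have hPh : F.Ph c u = ∑ a ∈ F.U u, tyv F.toFr0 u a ⬝ᵥ F.E c (F.U u) a := by
    have h1 : ∑ a ∈ F.U u, tyv F.toFr0 u a ⬝ᵥ F.E c (F.U u) a =
        ∑ τ : X.Ty, ∑ a ∈ u τ, tyv F.toFr0 u a ⬝ᵥ F.E c (F.U u) a := by
      conv_lhs => rw [show F.U u = Finset.univ.biUnion u from rfl]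
      rw [Finset.sum_biUnion (fun τ _ τ' _ hne => tok_dis F.toFr0 u hu τ τ' hne)]
      rfl
    rw [h1]
    unfold Fr0.Ph
    exact Finset.sum_congr rfl fun τ _ => Finset.sum_congr rfl fun a ha => by
      rw [tyv_eq F.toFr0 u hu τ a ha]
  have hsumL : ∀ g : F.Lb → ZMod X.p, ∑ a ∈ L.biUnion u, g a = ∑ τ ∈ L, ∑ a ∈ u τ, g a := fun g =>
    Finset.sum_biUnion (fun τ _ τ' _ hne => tok_dis F.toFr0 u hu τ τ' hne)
  have hsumσ : ∀ g : F.Lb → ZMod X.p, ∑ a ∈ F.U σ, g a = ∑ τ : X.Ty, ∑ a ∈ σ τ, g a := fun g =>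
    Finset.sum_biUnion (fun τ _ τ' _ hne => tok_dis F.toFr0 σ hσok τ τ' hne)
  have htyσ : ∀ b ∈ F.U σ, tyv F.toFr0 u b = tyv F.toFr0 σ b := by
    intro b hb
    unfold Fr0.U at hb
    rw [Finset.mem_biUnion] at hb
    obtain ⟨τ, -, hb⟩ := hb
    rw [tyv_eq F.toFr0 σ hσok τ b hb, tyv_eq F.toFr0 u hu τ b (hσs τ hb)]
  have hmemL : ∀ a ∈ L.biUnion u, ∃ τ ∈ L, a.1 = τ.1.1 ∧ tyv F.toFr0 u a = τ.1.2 := by
    intro a ha
    rw [Finset.mem_biUnion] at ha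
    obtain ⟨τ, hτ, ha⟩ := ha
    exact ⟨τ, hτ, hu.1 τ a ha, tyv_eq F.toFr0 u hu τ a ha⟩
  rw [hPh, hUu, phb_split F.toFr0 c _ _ _ hdis]
  -- the part in `L`
  have e1 : ∑ a ∈ L.biUnion u, tyv F.toFr0 u a ⬝ᵥ F.E c (L.biUnion u) a =
      ∑ a ∈ L.biUnion u, (tyv F.toFr0 u a - f a.1) ⬝ᵥ F.e c a +
        ∑ a ∈ L.biUnion u, f a.1 ⬝ᵥ F.E c (L.biUnion u) a := by
    rw [← Finset.sum_add_distrib]
    refine Finset.sum_congr rfl fun a ha => ?_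
    obtain ⟨τ, hτ, haτ, hty⟩ := hmemL a ha
    have h1 : ∀ b ∈ (L.biUnion u).erase a, (tyv F.toFr0 u a - f a.1) ⬝ᵥ F.s a b = 0 := by
      intro b hb
      obtain ⟨τ', hτ', hbτ, -⟩ := hmemL b (Finset.mem_of_mem_erase hb)
      refine F.van_s a b _ ?_
      have h2 := (van_f hL hf hτ hτ').1
      rw [← haτ, ← hbτ, ← hty] at h2
      exact h2
    have h2 : (tyv F.toFr0 u a - f a.1) ⬝ᵥ F.E c (L.biUnion u) a = (tyv F.toFr0 u a - f a.1) ⬝ᵥ F.e c a := by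
      unfold Fr0.E
      rw [dotProduct_add, dotProduct_sum, Finset.sum_eq_zero h1, add_zero]
    rw [← h2, sub_dotProduct]
    abel
  have hfil : L.filter (fun τ => τ.1.1 ∈ (Finset.univ : Finset (Fin X.N))) = L :=
    Finset.filter_true_of_mem fun τ _ => Finset.mem_univ _
  have e2 := hΩ0 u hu
  rw [hfil] at e2
  have e3 : ∑ b ∈ F.U σ, tyv F.toFr0 u b ⬝ᵥ F.E c (F.U σ) b = ∑ b ∈ F.U σ, tyv F.toFr0 σ b ⬝ᵥ F.E c (F.U σ) b :=
    Finset.sum_congr rfl fun b hb => by rw [htyσ b hb]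
  have htotL : F.tot (L.biUnion u) = ∑ i, tL F.toFr0 L u i := by
    rw [tot_part F.toFr0 hu, tL_sum, hfil]
  have e4 : ∑ a ∈ L.biUnion u, ∑ b ∈ F.U σ, (tyv F.toFr0 σ b ⬝ᵥ F.s a b + tyv F.toFr0 σ b ⬝ᵥ F.s b a) =
      ∑ τ : X.Ty, (Gf F c τ.1.2 (∑ i, tL F.toFr0 L u i + F.tot (σ τ)) - Gf F c τ.1.2 (∑ i, tL F.toFr0 L u i) -
      Gf F c τ.1.2 (F.tot (σ τ))) := by
    have h0 : ∀ a, ∑ b ∈ F.U σ, (tyv F.toFr0 σ b ⬝ᵥ F.s a b + tyv F.toFr0 σ b ⬝ᵥ F.s b a) =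
        ∑ τ : X.Ty, ∑ b ∈ σ τ, (tyv F.toFr0 σ b ⬝ᵥ F.s a b + tyv F.toFr0 σ b ⬝ᵥ F.s b a) := fun a => hsumσ _
    rw [Finset.sum_congr rfl fun a _ => h0 a, Finset.sum_comm]
    refine Finset.sum_congr rfl fun τ _ => ?_
    have hund : Disjoint (F.und (L.biUnion u)) (F.und (σ τ)) := by
      by_cases h : τ ∈ L
      · rw [hσ τ h]
        exact Finset.disjoint_empty_right _
      · rw [hσu τ h]
        have h1 := und_part F.toFr0 hu (T := L) (T' := {τ}) (Finset.disjoint_singleton_right.2 h)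
        rw [Finset.singleton_biUnion] at h1
        exact h1
    rw [← htotL, ← crs F c τ.1.2 _ _ (ok_part F.toFr0 hu L) (hσok.2.1 τ) hund]
    refine Finset.sum_congr rfl fun a _ => Finset.sum_congr rfl fun b hb => ?_
    rw [tyv_eq F.toFr0 σ hσok τ b hb, dotProduct_add]
  have e5 : ∑ τ ∈ L, ∑ a ∈ u τ, F.ch 0 c (τ.1.2 - f τ.1.1) (F.U σ) (fun b => τ.1.2 - tyv F.toFr0 σ b) a =
      ∑ a ∈ L.biUnion u, (tyv F.toFr0 u a - f a.1) ⬝ᵥ F.e c a +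
        ∑ a ∈ L.biUnion u, ∑ b ∈ F.U σ, (tyv F.toFr0 u a - tyv F.toFr0 σ b) ⬝ᵥ F.s a b := by
    rw [← Finset.sum_add_distrib, hsumL]
    refine Finset.sum_congr rfl fun τ _ => Finset.sum_congr rfl fun a ha => ?_
    unfold Fr0.ch
    rw [tyv_eq F.toFr0 u hu τ a ha, hu.1 τ a ha, zero_dotProduct, zero_add]
  have e6 : ∑ a ∈ L.biUnion u, ∑ b ∈ F.U σ, (tyv F.toFr0 u a ⬝ᵥ F.s a b + tyv F.toFr0 u b ⬝ᵥ F.s b a) =
      ∑ a ∈ L.biUnion u, ∑ b ∈ F.U σ, (tyv F.toFr0 u a - tyv F.toFr0 σ b) ⬝ᵥ F.s a b +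
      ∑ a ∈ L.biUnion u, ∑ b ∈ F.U σ, (tyv F.toFr0 σ b ⬝ᵥ F.s a b + tyv F.toFr0 σ b ⬝ᵥ F.s b a) := by
    rw [← Finset.sum_add_distrib]
    refine Finset.sum_congr rfl fun a _ => ?_
    rw [← Finset.sum_add_distrib]
    refine Finset.sum_congr rfl fun b hb => ?_
    rw [htyσ b hb, sub_dotProduct]
    abel
  rw [e1, e2, e3, e6, e4, e5]
  generalize ∑ a ∈ L.biUnion u, (tyv F.toFr0 u a - f a.1) ⬝ᵥ F.e c a = A1
  generalize ∑ a ∈ L.biUnion u, ∑ b ∈ F.U σ, (tyv F.toFr0 u a - tyv F.toFr0 σ b) ⬝ᵥ F.s a b = A2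
  ring

end H51.MM
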