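import Pool.Agent.H51.MM.LimA
import Pool.Agent.H51.MM.PhB

/-!
# [H51 MM LIMB] The aligned sums (100-150 lines)

For `f ∈ FF univ` let `L = al univ f` (unlinked; exactly one type per class), `u_g τ = {a ∈ g | a.1 = τ.1.1}` for `τ ∈ L`, `∅` otherwise: for `g ∈ Fam univ Y`: `TOk u_g`, `U u_g = g`,
`rs Lᶜ u_g = 0`, `Ph c u_g = ∑_{a ∈ g} f a.1 ⬝ᵥ E c g a`; `phb` with `σ = fun _ => ∅`: it is `Ω_f (fun i => tot (class i part))` (`ch 0 c 0 ∅ _ a = 0`). Put
`Λ x = ∑_{f ∈ FF univ} ep (Ω_f x)` for `x ∈ WW`, `0` otherwise. Limit: `lima` with `G x = h (∑ i, x i) Λ x` (`tot g = ∑_i tot (class i part)`).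
`Λ x` is real `≥ 0`: for `x ∈ WW` there is a family `g` with totals `x` (otherwise the sum in `lima` for `G = [· = x]` is `0` for all `Y`, but the limit is `l₁ > 0`), so
`Ω_f x = ∑_{a ∈ g} f a.1 ⬝ᵥ E c g a` is additive in `f`, and `FF univ` is closed under subtraction and contains `0` (`van_sub`, `Th_sub`), so the sum of `ep` is
`#FF` or `0` (as in `wt_re`). For a family `g` with all `E c g a = 0` the totals `x` are in `WW` (definition: `κ ⬝ᵥ tot = ∑ κ ⬝ᵥ qv a = 0`) and `Λ x = #FF > 0`.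
-/

set_option autoImplicit false

open scoped NumberField
open IsDedekindDomain NumberField H63.MA H36.QA Filter Topology
open scoped Classical

noncomputable section

namespace H51.MM

private theorem lb_main {X : CD} {K : Type} [Field K] [NumberField K] (F : Fr X K) (c : F.C)
    (f : Fin X.N → Fin X.w → ZMod X.p) (hf : f ∈ X.FF Finset.univ) :
    ∃ Ω : (Fin X.N → F.R → ZMod X.p) → ZMod X.p, ∀ g : Finset F.Lb, F.Ok g →
      ∑ a ∈ g, f a.1 ⬝ᵥ F.E c g a = Ω (fun i => F.tot (g.filter fun a => a.1 = i)) := by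
  have hf' := (Finset.mem_filter.1 hf).2
  obtain ⟨hf1, -, hf3⟩ := hf'
  obtain ⟨ty, hty⟩ : ∃ ty : Fin X.N → X.Ty, ∀ i, (ty i).1 = (i, f i) :=
    ⟨fun i => ⟨(i, f i), hf1 i (Finset.mem_univ i)⟩, fun i => rfl⟩
  have hty1 : ∀ i, (ty i).1.1 = i := fun i => by rw [hty]
  have hty2 : ∀ i, (ty i).1.2 = f i := fun i => by rw [hty]
  have htyinj : Function.Injective ty := by
    intro i j hij
    rw [← hty1 i, hij, hty1]
  obtain ⟨L, hLdef⟩ : ∃ L : Finset X.Ty, L = Finset.univ.image ty := ⟨_, rfl⟩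
  have hmem : ∀ i, ty i ∈ L := fun i => by
    rw [hLdef]
    exact Finset.mem_image_of_mem _ (Finset.mem_univ i)
  have hmem' : ∀ τ ∈ L, τ = ty τ.1.1 := by
    intro τ hτ
    rw [hLdef] at hτ
    obtain ⟨i, -, rfl⟩ := Finset.mem_image.1 hτ
    rw [hty1]
  have hL : X.Unl L := by
    intro τ hτ τ' hτ' h
    rw [hmem' τ hτ, hmem' τ' hτ'] at h
    apply h
    rw [hty1, hty1, hty2, hty2]
    exact hf3 _ (Finset.mem_univ _) _ (Finset.mem_univ _)
  obtain ⟨Ω, hΩ⟩ := phb F c L hL f (fun τ hτ => ⟨τ, hτ,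
    (congrArg Subtype.val (hmem' τ hτ)).trans (hty _)⟩) (fun _ => ∅) (fun _ _ => rfl)
  refine ⟨Ω, fun g hg => ?_⟩
  have hsub : ∀ g' ⊆ g, F.Ok g' := fun g' hg' =>
    ⟨fun a ha => hg.1 a (hg' ha), fun a ha b hb => hg.2 a (hg' ha) b (hg' hb)⟩
  obtain ⟨u, hu⟩ : ∃ u : X.Ty → Finset F.Lb, u = fun τ =>
    if τ ∈ L then g.filter (fun a => a.1 = τ.1.1) else ∅ := ⟨_, rfl⟩
  have hu1 : ∀ i, u (ty i) = g.filter (fun a => a.1 = i) := by
    intro i
    rw [hu]
    simp only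
    rw [if_pos (hmem i), hty1]
  have hu0 : ∀ τ, τ ∉ L → u τ = ∅ := by
    intro τ hτ
    rw [hu]
    simp only
    rw [if_neg hτ]
  have hug : ∀ τ, u τ ⊆ g := by
    intro τ
    by_cases hτ : τ ∈ L
    · rw [hmem' τ hτ, hu1]
      exact Finset.filter_subset _ _
    · rw [hu0 τ hτ]
      exact Finset.empty_subset _
  have hufst : ∀ τ, ∀ a ∈ u τ, a.1 = τ.1.1 := by
    intro τ a ha
    by_cases hτ : τ ∈ L
    · rw [hmem' τ hτ, hu1] at ha
      exact (Finset.mem_filter.1 ha).2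
    · rw [hu0 τ hτ] at ha
      exact absurd ha (Finset.notMem_empty a)
  have hTOk : F.TOk u := by
    refine ⟨hufst, fun τ => hsub _ (hug τ), ?_⟩
    intro τ τ' hne
    by_cases hτ : τ ∈ L
    · by_cases hτ' : τ' ∈ L
      · rw [Finset.disjoint_left]
        intro v hv hv'
        obtain ⟨a, ha, rfl⟩ := Finset.mem_image.1 hv
        obtain ⟨b, hb, hab⟩ := Finset.mem_image.1 hv'
        have h1 : a = b := by
          by_contra hne2
          exact hg.2 a (hug τ ha) b (hug τ' hb) hne2 hab.symm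
        apply hne
        rw [hmem' τ hτ, hmem' τ' hτ', ← hufst τ a ha, ← hufst τ' b hb, h1]
      · rw [hu0 τ' hτ']
        exact Finset.disjoint_empty_right _
    · rw [hu0 τ hτ]
      exact Finset.disjoint_empty_left _
  have hrs : F.rs Lᶜ u = fun _ => ∅ := by
    funext τ
    unfold Fr0.rs
    split_ifs with h
    · exact hu0 τ (Finset.mem_compl.1 h)
    · rfl
  have hU : F.U u = g := by
    ext a
    unfold Fr0.U
    rw [Finset.mem_biUnion]
    constructor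
    · rintro ⟨τ, -, ha⟩
      exact hug τ ha
    · intro ha
      refine ⟨ty a.1, Finset.mem_univ _, ?_⟩
      rw [hu1]
      exact Finset.mem_filter.2 ⟨ha, rfl⟩
  have hsumL : ∀ φ : X.Ty → ZMod X.p, (∀ τ, τ ∉ L → φ τ = 0) → ∑ τ, φ τ = ∑ i, φ (ty i) := by
    intro φ hφ
    have h1 : ∑ i, φ (ty i) = ∑ τ ∈ L, φ τ := by
      rw [hLdef, Finset.sum_image fun i _ j _ hij => htyinj hij]
    rw [h1]
    symm
    exact Finset.sum_subset (Finset.subset_univ _) fun τ _ hτ => hφ τ hτ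
  have hPh : F.Ph c u = ∑ a ∈ g, f a.1 ⬝ᵥ F.E c g a := by
    unfold Fr0.Ph
    rw [hU, hsumL _ fun τ hτ => by rw [hu0 τ hτ, Finset.sum_empty]]
    rw [← Finset.sum_fiberwise_of_maps_to (s := g) (t := Finset.univ) (g := fun a => a.1)
      (fun a _ => Finset.mem_univ _)]
    refine Finset.sum_congr rfl fun i _ => ?_
    rw [hu1, hty2]
    refine Finset.sum_congr rfl fun a ha => ?_
    rw [(Finset.mem_filter.1 ha).2]
  have htL : tL F.toFr0 L u = fun i => F.tot (g.filter fun a => a.1 = i) := by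
    funext i
    unfold tL
    have h1 : L.filter (fun τ => τ.1.1 = i) = {ty i} := by
      ext τ
      rw [Finset.mem_filter, Finset.mem_singleton]
      constructor
      · rintro ⟨h2, h3⟩
        rw [hmem' τ h2, h3]
      · rintro rfl
        exact ⟨hmem i, hty1 i⟩
    rw [h1, Finset.sum_singleton, hu1]
  have h2 := hΩ u hTOk hrs
  rw [hPh, htL] at h2
  rw [h2]
  have h3 : ∑ τ ∈ L, ∑ a ∈ u τ, F.ch 0 c (τ.1.2 - f τ.1.1) (F.U fun _ => ∅)
      (fun b => τ.1.2 - tyv F.toFr0 (fun _ => ∅) b) a = 0 := by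
    refine Finset.sum_eq_zero fun τ hτ => Finset.sum_eq_zero fun a _ => ?_
    have h4 : τ.1.2 - f τ.1.1 = 0 := by
      rw [hmem' τ hτ, hty1, hty2, sub_self]
    have h5 : F.U (fun _ : X.Ty => (∅ : Finset F.Lb)) = ∅ := by
      unfold Fr0.U
      ext a
      simp
    unfold Fr0.ch
    rw [h4, h5, Finset.sum_empty, zero_dotProduct, zero_dotProduct, add_zero, add_zero]
  rw [h3, add_zero]

private theorem lb_ep {X : CD} (Sf : (Fin X.N → Fin X.w → ZMod X.p) → ZMod X.p)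
    (hS : ∀ f f', Sf (f - f') = Sf f - Sf f') :
    ∃ r : ℝ, 0 ≤ r ∧ ∑ f ∈ X.FF Finset.univ, ep X.p (Sf f) = (r : ℂ) := by
  have hsub : ∀ f ∈ X.FF Finset.univ, ∀ f' ∈ X.FF Finset.univ, f - f' ∈ X.FF Finset.univ := by
    intro f hf f' hf'
    have h1 := (Finset.mem_filter.1 hf).2
    have h2 := (Finset.mem_filter.1 hf').2
    refine Finset.mem_filter.2 ⟨Finset.mem_univ _, ?_, ?_, ?_⟩
    · intro i hi
      exact X.Th_sub i _ (h1.1 i hi) _ (h2.1 i hi)
    · intro i hi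
      exact absurd (Finset.mem_univ i) hi
    · intro i hi j hj
      have h3 : (f - f') i - (f - f') j = (f i - f j) - (f' i - f' j) := by
        rw [Pi.sub_apply, Pi.sub_apply]
        abel
      rw [h3]
      exact X.van_sub i j _ _ (h1.2.2 i hi j hj) (h2.2.2 i hi j hj)
  by_cases hall : ∀ f ∈ X.FF Finset.univ, Sf f = 0
  · refine ⟨((X.FF Finset.univ).card : ℝ), Nat.cast_nonneg _, ?_⟩
    rw [Finset.sum_congr rfl fun f hf => by rw [hall f hf, ep_zero], Finset.sum_const, nsmul_eq_mul, mul_one]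
    simp
  · push Not at hall
    obtain ⟨f₀, hf₀, hne⟩ := hall
    refine ⟨0, le_rfl, ?_⟩
    have h0 : (0 : Fin X.N → Fin X.w → ZMod X.p) ∈ X.FF Finset.univ := by
      have := hsub f₀ hf₀ f₀ hf₀
      rwa [sub_self] at this
    have hneg : ∀ f ∈ X.FF Finset.univ, f + f₀ ∈ X.FF Finset.univ := by
      intro f hf
      have h1 := hsub f hf (0 - f₀) (hsub 0 h0 f₀ hf₀)
      rwa [zero_sub, sub_neg_eq_add] at h1
    have h1 : ∑ f ∈ X.FF Finset.univ, ep X.p (Sf f) = ∑ f ∈ X.FF Finset.univ, ep X.p (Sf (f - f₀)) := by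
      refine Finset.sum_bij' (fun f _ => f + f₀) (fun f _ => f - f₀) (fun f hf => hneg f hf)
        (fun f hf => hsub f hf f₀ hf₀) ?_ ?_ ?_
      · intro f _
        simp
      · intro f _
        simp
      · intro f _
        simp
    have h2 : ∀ f ∈ X.FF Finset.univ, ep X.p (Sf (f - f₀)) = ep X.p (-Sf f₀) * ep X.p (Sf f) := by
      intro f _
      rw [hS, sub_eq_add_neg, ep_add X.hp, mul_comm]
    rw [Finset.sum_congr rfl h2, ← Finset.mul_sum] at h1
    have h3 : ep X.p (-Sf f₀) ≠ 1 := by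
      rw [Ne, ep_eq_one X.hp, neg_eq_zero]
      exact hne
    have h4 : (1 - ep X.p (-Sf f₀)) * ∑ f ∈ X.FF Finset.univ, ep X.p (Sf f) = 0 := by
      rw [sub_mul, one_mul, ← h1, sub_self]
    rcases mul_eq_zero.1 h4 with h5 | h5
    · exact absurd (sub_eq_zero.1 h5).symm h3
    · rw [h5]
      simp

theorem limb (X : CD) (K : Type) [Field K] [NumberField K] (F : Fr X K) (hN : 0 < X.N)
    (hA1 : AN1 K F.d) (hA3 : AN3a K) (hA4 : AN3b K X.N F.d) (hA5 : AN4 K) (c : F.C) :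
    ∃ (l₁ : ℝ) (Λ : (Fin X.N → F.R → ZMod X.p) → ℝ), 0 < l₁ ∧ (∀ x, 0 ≤ Λ x) ∧
      (∀ g, F.Ok g → (∀ a ∈ g, F.E c g a = 0) → 0 < Λ fun i => F.tot (g.filter fun a => a.1 = i)) ∧
      ∀ h : (F.R → ZMod X.p) → ℂ, Tendsto (fun Y : ℝ => (∑ f ∈ X.FF Finset.univ,
          ∑ g ∈ F.Fam Finset.univ Y, h (F.tot g) * ep X.p (∑ a ∈ g, f a.1 ⬝ᵥ F.E c g a)) /
        ((Y * Real.log Y ^ (X.N - 1) : ℝ) : ℂ)) atTop
        (𝓝 ((l₁ : ℂ) * ∑ x, h (∑ i, x i) * ((Λ x : ℝ) : ℂ))) := by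
  obtain ⟨l₁, hl₁, hlim⟩ := lima X K F hN hA1 hA3 hA4 hA5 c
  have hex : ∀ f : X.FF Finset.univ, ∃ Ω : (Fin X.N → F.R → ZMod X.p) → ZMod X.p, ∀ g : Finset F.Lb,
      F.Ok g → ∑ a ∈ g, f.1 a.1 ⬝ᵥ F.E c g a = Ω (fun i => F.tot (g.filter fun a => a.1 = i)) :=
    fun f => lb_main F c f.1 f.2
  choose Ω0 hΩ0 using hex
  obtain ⟨Ω, hΩ⟩ : ∃ Ω : (Fin X.N → Fin X.w → ZMod X.p) → (Fin X.N → F.R → ZMod X.p) → ZMod X.p,
      ∀ f ∈ X.FF Finset.univ, ∀ g : Finset F.Lb, F.Ok g →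
        ∑ a ∈ g, f a.1 ⬝ᵥ F.E c g a = Ω f (fun i => F.tot (g.filter fun a => a.1 = i)) := by
    refine ⟨fun f => if h : f ∈ X.FF Finset.univ then Ω0 ⟨f, h⟩ else fun _ => 0, fun f hf g hg => ?_⟩
    simp only
    rw [dif_pos hf]
    exact hΩ0 ⟨f, hf⟩ g hg
  -- every possible total class is attained
  have hatt : ∀ x ∈ WW F.toFr0, ∃ g : Finset F.Lb, F.Ok g ∧
      (fun i => F.tot (g.filter fun a => a.1 = i)) = x := by
    intro x hx
    by_contra hcon
    push Not at hcon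
    have h1 := hlim (fun y => if y = x then 1 else 0)
    have h2 : ∀ Y : ℝ, (∑ g ∈ F.Fam Finset.univ Y,
        (fun y : Fin X.N → F.R → ZMod X.p => if y = x then (1 : ℂ) else 0)
          fun i => F.tot (g.filter fun a => a.1 = i)) = 0 := by
      intro Y
      refine Finset.sum_eq_zero fun g hg => ?_
      rw [Fr0.mem_Fam] at hg
      simp only
      rw [if_neg (hcon g hg.1)]
    simp only [h2, zero_div] at h1
    have h3 := tendsto_nhds_unique h1 tendsto_const_nhds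
    rw [Finset.sum_ite_eq' (WW F.toFr0) x (fun _ => (1 : ℂ)), if_pos hx, mul_one] at h3
    have h4 : l₁ = 0 := by exact_mod_cast h3
    linarith
  have hreal : ∀ x ∈ WW F.toFr0, ∃ r : ℝ, 0 ≤ r ∧
      ∑ f ∈ X.FF Finset.univ, ep X.p (Ω f x) = (r : ℂ) := by
    intro x hx
    obtain ⟨g, hg, hgx⟩ := hatt x hx
    obtain ⟨r, hr, hr2⟩ := lb_ep (X := X) (fun f => ∑ a ∈ g, f a.1 ⬝ᵥ F.E c g a) (by
      intro f f'
      rw [← Finset.sum_sub_distrib]
      refine Finset.sum_congr rfl fun a _ => ?_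
      rw [Pi.sub_apply, sub_dotProduct])
    refine ⟨r, hr, ?_⟩
    rw [← hr2]
    refine Finset.sum_congr rfl fun f hf => ?_
    rw [hΩ f hf g hg, hgx]
  obtain ⟨Λ, hΛ⟩ : ∃ Λ : (Fin X.N → F.R → ZMod X.p) → ℝ, Λ = fun x =>
    if x ∈ WW F.toFr0 then (∑ f ∈ X.FF Finset.univ, ep X.p (Ω f x)).re else 0 := ⟨_, rfl⟩
  have hΛ1 : ∀ x ∈ WW F.toFr0, ((Λ x : ℝ) : ℂ) = ∑ f ∈ X.FF Finset.univ, ep X.p (Ω f x) := by
    intro x hx
    obtain ⟨r, -, hr2⟩ := hreal x hx
    rw [hΛ]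
    simp only
    rw [if_pos hx, hr2, Complex.ofReal_re]
  have hΛ0 : ∀ x, x ∉ WW F.toFr0 → Λ x = 0 := by
    intro x hx
    rw [hΛ]
    simp only
    rw [if_neg hx]
  refine ⟨l₁, Λ, hl₁, ?_, ?_, ?_⟩
  · intro x
    by_cases hx : x ∈ WW F.toFr0
    · obtain ⟨r, hr, hr2⟩ := hreal x hx
      have h1 := hΛ1 x hx
      rw [hr2] at h1
      have h2 : Λ x = r := by exact_mod_cast h1
      rw [h2]
      exact hr
    · rw [hΛ0 x hx]
  · intro g hg hE
    have hx : (fun i => F.tot (g.filter fun a => a.1 = i)) ∈ WW F.toFr0 := by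
      unfold WW
      rw [Finset.mem_filter]
      refine ⟨Finset.mem_univ _, fun i κ hκ => ?_⟩
      unfold Fr0.tot
      rw [dotProduct_sum]
      refine Finset.sum_eq_zero fun a ha => ?_
      obtain ⟨ha1, ha2⟩ := Finset.mem_filter.1 ha
      obtain ⟨j, w⟩ := a
      simp only at ha2
      subst ha2
      exact hκ w (hg.1 _ ha1)
    have h1 := hΛ1 _ hx
    have h0mem : (0 : Fin X.N → Fin X.w → ZMod X.p) ∈ X.FF Finset.univ := by
      refine Finset.mem_filter.2 ⟨Finset.mem_univ _, fun i _ => X.Th_zero i, fun i _ => rfl, ?_⟩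
      intro i _ j _
      rw [Pi.zero_apply, Pi.zero_apply, sub_zero]
      exact X.van_zero i j
    have h2 : ∑ f ∈ X.FF Finset.univ, ep X.p (Ω f fun i => F.tot (g.filter fun a => a.1 = i)) =
        ((X.FF Finset.univ).card : ℂ) := by
      rw [Finset.sum_congr rfl (g := fun _ => (1 : ℂ)), Finset.sum_const, nsmul_eq_mul, mul_one]
      intro f hf
      rw [← hΩ f hf g hg, Finset.sum_eq_zero fun a ha => by rw [hE a ha, dotProduct_zero], ep_zero]
    rw [h2] at h1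
    have h3 : Λ (fun i => F.tot (g.filter fun a => a.1 = i)) = ((X.FF Finset.univ).card : ℝ) := by
      exact_mod_cast h1
    rw [h3]
    exact_mod_cast Finset.card_pos.2 ⟨0, h0mem⟩
  · intro h
    have h1 := hlim (fun x => h (∑ i, x i) * ∑ f ∈ X.FF Finset.univ, ep X.p (Ω f x))
    have h2 : ∑ x ∈ WW F.toFr0, h (∑ i, x i) * ∑ f ∈ X.FF Finset.univ, ep X.p (Ω f x) =
        ∑ x, h (∑ i, x i) * ((Λ x : ℝ) : ℂ) := by
      rw [← Finset.sum_subset (Finset.subset_univ (WW F.toFr0))]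
      · exact Finset.sum_congr rfl fun x hx => by rw [hΛ1 x hx]
      · intro x _ hx
        rw [hΛ0 x hx, Complex.ofReal_zero, mul_zero]
    rw [h2] at h1
    refine h1.congr fun Y => ?_
    congr 1
    simp only
    rw [Finset.sum_comm (s := X.FF Finset.univ) (t := F.Fam Finset.univ Y)]
    refine Finset.sum_congr rfl fun g hg => ?_
    rw [Fr0.mem_Fam] at hg
    rw [Finset.mul_sum]
    refine Finset.sum_congr rfl fun f hf => ?_
    rw [hΩ f hf g hg.1]
    congr 2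
    unfold Fr0.tot
    exact Finset.sum_fiberwise_of_maps_to (fun a _ => Finset.mem_univ _) _

end H51.MM
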