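import Pool.Agent.H51.MM.Exp

/-!
# [H51 MM TRV] Trivial bounds for sums over typed families (80-120 lines)

For a good label `a = (i, w)` over `v`: `nm w` is a prime number and a power `nm v ^ f` (`over_nm` / H63/MA: `nm w = nm v ^ f`), so `nm w = nm v`; so
`nrl g = nr (und g)` for `Ok g` (`un` injective on `g`). There are at most `d` labels over `v` in a class (at most `[L i : K] ≤ d` places above
`v`: `Ideal.card_primesOverFinset_le_finrank`, see `cmp_over_card` in `H1/LS4/Cmp.lean`), so at most `(N d #Ty) ^ #s` typed families `u` with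
`und (U u) = s`: a typed family is determined by the map `s → labels × types`. So
`∑_{u ∈ TF J Y} c ^ #(U u) ≤ ∑_{s ∈ AF K Y} (c (N d #Ty + 1)) ^ #s`, and with the weight `1 / nrt u = 1 / nr s` (AN3a).
-/

set_option autoImplicit false

open scoped NumberField
open IsDedekindDomain NumberField H63.MA H36.QA Filter Topology
open scoped Classical

noncomputable section

namespace H51.MM

variable {X : CD} {K : Type} [Field K] [NumberField K]


theorem gd_nm (F : Fr X K) (a : F.Lb) (ha : F.Gd a) : nm a.2 = nm (F.un a) := by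
  obtain ⟨f, hf1, hf⟩ := nm_over (F.un_over a)
  have hp := ha.2
  rw [hf] at hp ⊢
  have h1 : f = 1 := Nat.Prime.eq_one_of_pow hp
  rw [h1, pow_one]

private theorem trv_inj (F : Fr0 X K) (g : Finset F.Lb) (hg : F.Ok g) :
    ∀ a ∈ g, ∀ b ∈ g, F.un a = F.un b → a = b := by
  intro a ha b hb h
  by_contra hab
  exact hg.2 a ha b hb hab h

theorem ok_nr (F : Fr X K) (g : Finset F.Lb) (hg : F.Ok g) : F.nrl g = nr (F.und g) := by
  unfold Fr0.nrl nr Fr0.und
  rw [Finset.prod_image (trv_inj F.toFr0 g hg)]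
  refine Finset.prod_congr rfl fun a ha => ?_
  rw [gd_nm F a (hg.1 a ha)]

theorem ok_card (F : Fr0 X K) (g : Finset F.Lb) (hg : F.Ok g) : (F.und g).card = g.card := by
  unfold Fr0.und
  exact Finset.card_image_of_injOn fun a ha b hb h => trv_inj F g hg a ha b hb h

private theorem trv_over_card {K E : Type} [Field K] [NumberField K] [Field E] [NumberField E] [Algebra K E]
    (l : Pl K) {S : Finset (Pl E)} (hS : ∀ v ∈ S, Over v l) : S.card ≤ Module.finrank K E := by
  have h1 : S.card ≤ (IsDedekindDomain.primesOverFinset l.asIdeal (𝓞 E)).card := by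
    refine Finset.card_le_card_of_injOn (fun v => v.asIdeal) ?_ ?_
    · intro v hv
      rw [Finset.mem_coe, IsDedekindDomain.mem_primesOverFinset_iff l.ne_bot]
      exact ⟨v.isPrime, ⟨(hS v hv).symm⟩⟩
    · intro v _ w _ h
      exact IsDedekindDomain.HeightOneSpectrum.ext h
  have hmax : l.asIdeal.IsMaximal := l.isMaximal
  have hnz : NoZeroSMulDivisors (𝓞 K) (𝓞 E) := ⟨fun {x y} h => by
    rw [Algebra.smul_def, mul_eq_zero] at h
    rcases h with h | h
    · exact Or.inl ((map_eq_zero_iff _ (FaithfulSMul.algebraMap_injective (𝓞 K) (𝓞 E))).1 h)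
    · exact Or.inr h⟩
  exact h1.trans (Ideal.card_primesOverFinset_le_finrank (𝓞 E) K E l.ne_bot)

/-- the labels over `v` -/
private def lov (F : Fr0 X K) (v : Pl K) : Finset F.Lb :=
  Finset.univ.sigma fun i => (over_finite (L := F.L i) v).toFinset

private theorem mem_lov (F : Fr0 X K) (v : Pl K) (a : F.Lb) : a ∈ lov F v ↔ Over a.2 v := by
  unfold lov
  rw [Finset.mem_sigma, Set.Finite.mem_toFinset]
  exact ⟨fun h => h.2, fun h => ⟨Finset.mem_univ _, h⟩⟩

private theorem lov_card (F : Fr X K) (v : Pl K) : (lov F.toFr0 v).card ≤ X.N * F.d := by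
  unfold lov
  rw [Finset.card_sigma]
  calc ∑ i : Fin X.N, ((over_finite (L := F.L i) v).toFinset).card
      ≤ ∑ _i : Fin X.N, F.d := by
        refine Finset.sum_le_sum fun i _ => ?_
        refine (trv_over_card (K := K) (E := F.L i) v ?_).trans (F.deg i)
        intro w hw
        rw [Set.Finite.mem_toFinset] at hw
        exact hw
    _ = X.N * F.d := by
        rw [Finset.sum_const, Finset.card_univ, Fintype.card_fin, smul_eq_mul]

/-- at most `(N d #Ty) ^ #s` typed families over `s` -/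
private theorem trv_fib (F : Fr X K) (d : ℕ) (hd : F.d ≤ d) (S : Finset (X.Ty → Finset F.Lb))
    (hS : ∀ u ∈ S, F.TOk u) (s : Finset (Pl K)) (hs : ∀ u ∈ S, F.und (F.U u) = s) :
    S.card ≤ (X.N * d * Fintype.card X.Ty) ^ s.card := by
  have hsub : S ⊆ (s.pi fun v => lov F.toFr0 v ×ˢ (Finset.univ : Finset X.Ty)).image
      fun (f : ∀ v ∈ s, F.Lb × X.Ty) (τ : X.Ty) =>
        (s.attach.filter fun v => (f v.1 v.2).2 = τ).image fun v => (f v.1 v.2).1 := by
    intro u hu
    have hT := hS u hu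
    have hs' := hs u hu
    have h1 : ∀ v ∈ s, ∃ (a : F.Lb) (τ : X.Ty), a ∈ u τ ∧ F.un a = v := by
      intro v hv
      rw [← hs', Fr0.und, Finset.mem_image] at hv
      obtain ⟨a, ha, hav⟩ := hv
      rw [Fr0.U, Finset.mem_biUnion] at ha
      obtain ⟨τ, -, haτ⟩ := ha
      exact ⟨a, τ, haτ, hav⟩
    choose α τ hατ hun using h1
    rw [Finset.mem_image]
    refine ⟨fun v hv => (α v hv, τ v hv), ?_, ?_⟩
    · rw [Finset.mem_pi]
      intro v hv
      rw [Finset.mem_product]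
      refine ⟨?_, Finset.mem_univ _⟩
      rw [mem_lov]
      have h2 := F.un_over (α v hv)
      rw [hun v hv] at h2
      exact h2
    · funext σ
      ext a
      rw [Finset.mem_image]
      constructor
      · rintro ⟨v, hv, rfl⟩
        rw [Finset.mem_filter] at hv
        have h3 := hατ v.1 v.2
        rw [← hv.2]
        exact h3
      · intro ha
        have haU : a ∈ F.U u := by
          rw [Fr0.U, Finset.mem_biUnion]
          exact ⟨σ, Finset.mem_univ _, ha⟩
        have hv : F.un a ∈ s := by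
          rw [← hs', Fr0.und, Finset.mem_image]
          exact ⟨a, haU, rfl⟩
        have h4 := hατ (F.un a) hv
        have h5 := hun (F.un a) hv
        have h6 : α (F.un a) hv ∈ F.U u := by
          rw [Fr0.U, Finset.mem_biUnion]
          exact ⟨_, Finset.mem_univ _, h4⟩
        have h7 : α (F.un a) hv = a := trv_inj F.toFr0 _ (tok_ok F.toFr0 u hT) _ h6 _ haU h5
        have h8 : τ (F.un a) hv = σ := by
          by_contra hne
          have h9 := tok_dis F.toFr0 u hT _ _ hne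
          rw [h7] at h4
          exact Finset.disjoint_left.1 h9 h4 ha
        exact ⟨⟨F.un a, hv⟩, Finset.mem_filter.2 ⟨Finset.mem_attach _ _, h8⟩, h7⟩
  refine (Finset.card_le_card hsub).trans (Finset.card_image_le.trans ?_)
  rw [Finset.card_pi]
  calc ∏ v ∈ s, (lov F.toFr0 v ×ˢ (Finset.univ : Finset X.Ty)).card
      ≤ ∏ _v ∈ s, (X.N * d * Fintype.card X.Ty) := by
        refine Finset.prod_le_prod' fun v _ => ?_
        rw [Finset.card_product, Finset.card_univ]
        exact Nat.mul_le_mul_right _ ((lov_card F v).trans (Nat.mul_le_mul_left _ hd))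
    _ = (X.N * d * Fintype.card X.Ty) ^ s.card := by
        rw [Finset.prod_const]

private theorem trv_sum (F : Fr X K) (d : ℕ) (hd : F.d ≤ d) (c : ℝ) (hc : 1 ≤ c) (J : Finset (Fin X.N))
    (Y : ℝ) (W : Finset (Pl K) → ℝ) (hW : ∀ s, 0 ≤ W s) :
    ∑ u ∈ F.TF J Y, c ^ (F.U u).card * W (F.und (F.U u)) ≤
      ∑ s ∈ AF K Y, (c * (X.N * d * Fintype.card X.Ty + 1 : ℕ)) ^ s.card * W s := by
  have hmap : ∀ u ∈ F.TF J Y, F.und (F.U u) ∈ AF K Y := by
    intro u hu
    rw [Fr0.mem_TF] at hu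
    rw [mem_AF, ← ok_nr F _ (tok_ok F.toFr0 u hu.1), tok_nr F.toFr0 u hu.1]
    exact hu.2.2
  rw [← Finset.sum_fiberwise_of_maps_to hmap]
  refine Finset.sum_le_sum fun s _ => ?_
  have h1 : ∀ u ∈ (F.TF J Y).filter (fun u => F.und (F.U u) = s),
      c ^ (F.U u).card * W (F.und (F.U u)) = c ^ s.card * W s := by
    intro u hu
    rw [Finset.mem_filter, Fr0.mem_TF] at hu
    rw [← ok_card F.toFr0 _ (tok_ok F.toFr0 u hu.1.1), hu.2]
  rw [Finset.sum_congr rfl h1, Finset.sum_const, nsmul_eq_mul, mul_pow, ← mul_assoc]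
  refine mul_le_mul_of_nonneg_right ?_ (hW s)
  rw [mul_comm]
  refine mul_le_mul_of_nonneg_left ?_ (by positivity)
  have h2 := trv_fib F d hd ((F.TF J Y).filter (fun u => F.und (F.U u) = s))
    (fun u hu => ((F.mem_TF J Y u).1 (Finset.mem_filter.1 hu).1).1) s
    (fun u hu => (Finset.mem_filter.1 hu).2)
  have h3 : ((F.TF J Y).filter (fun u => F.und (F.U u) = s)).card ≤
      (X.N * d * Fintype.card X.Ty + 1) ^ s.card :=
    h2.trans (Nat.pow_le_pow_left (Nat.le_succ _) _)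
  exact_mod_cast h3

theorem trv (X : CD) (K : Type) [Field K] [NumberField K] (hA : AN3a K) (d : ℕ) (c : ℝ) (hc : 1 ≤ c) :
    ∃ (C : ℝ) (A : ℕ), 1 ≤ C ∧ ∀ F : Fr X K, F.d ≤ d → ∀ (J : Finset (Fin X.N)) (Y : ℝ), 1 ≤ Y →
      ∑ u ∈ F.TF J Y, c ^ (F.U u).card ≤ C * Y * (1 + Real.log Y) ^ A ∧
      ∑ u ∈ F.TF J Y, c ^ (F.U u).card / F.nrt u ≤ C * (1 + Real.log Y) ^ A := by
  have hM : (1 : ℝ) ≤ c * (X.N * d * Fintype.card X.Ty + 1 : ℕ) := by
    have h1 : (1 : ℝ) ≤ (X.N * d * Fintype.card X.Ty + 1 : ℕ) := by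
      exact_mod_cast Nat.le_add_left 1 _
    nlinarith
  obtain ⟨C, A, hC, h⟩ := hA _ hM
  refine ⟨C, A, hC, fun F hF J Y hY => ?_⟩
  obtain ⟨h1, h2⟩ := h Y hY
  constructor
  · have h3 := trv_sum F d hF c hc J Y (fun _ => 1) (fun _ => zero_le_one)
    simp only [mul_one] at h3
    exact h3.trans h1
  · have h3 := trv_sum F d hF c hc J Y (fun s => (nr s)⁻¹)
      (fun s => inv_nonneg.2 (zero_le_one.trans (one_le_nr s)))
    simp only [← div_eq_mul_inv] at h3
    refine le_trans (le_of_eq ?_) (h3.trans h2)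
    refine Finset.sum_congr rfl fun u hu => ?_
    rw [Fr0.mem_TF] at hu
    rw [← ok_nr F _ (tok_ok F.toFr0 u hu.1), tok_nr F.toFr0 u hu.1]

/-- the typed family with all functionals zero -/
private def tz (F : Fr0 X K) (g : Finset F.Lb) (τ : X.Ty) : Finset F.Lb :=
  if τ.1.2 = 0 then g.filter fun a => a.1 = τ.1.1 else ∅

private theorem mem_tz (F : Fr0 X K) (g : Finset F.Lb) (τ : X.Ty) (a : F.Lb) :
    a ∈ tz F g τ ↔ τ.1.2 = 0 ∧ a ∈ g ∧ a.1 = τ.1.1 := by
  unfold tz
  split_ifs with h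
  · rw [Finset.mem_filter]
    exact ⟨fun h1 => ⟨h, h1⟩, fun h1 => h1.2⟩
  · exact ⟨fun h1 => absurd h1 (Finset.notMem_empty _), fun h1 => absurd h1.1 h⟩

private theorem tz_U (F : Fr0 X K) (g : Finset F.Lb) : F.U (tz F g) = g := by
  ext a
  rw [Fr0.U, Finset.mem_biUnion]
  constructor
  · rintro ⟨τ, -, h⟩
    exact ((mem_tz F g τ a).1 h).2.1
  · intro h
    refine ⟨⟨(a.1, 0), X.Th_zero a.1⟩, Finset.mem_univ _, ?_⟩
    rw [mem_tz]
    exact ⟨rfl, h, rfl⟩

private theorem tz_tok (F : Fr0 X K) (g : Finset F.Lb) (hg : F.Ok g) : F.TOk (tz F g) := by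
  refine ⟨fun τ a ha => ((mem_tz F g τ a).1 ha).2.2, fun τ => ⟨fun a ha => ?_, fun a ha b hb => ?_⟩, ?_⟩
  · exact hg.1 a ((mem_tz F g τ a).1 ha).2.1
  · exact hg.2 a ((mem_tz F g τ a).1 ha).2.1 b ((mem_tz F g τ b).1 hb).2.1
  · intro τ τ' hne
    rw [Finset.disjoint_left]
    intro v hv hv'
    rw [Fr0.und, Finset.mem_image] at hv hv'
    obtain ⟨a, ha, hav⟩ := hv
    obtain ⟨b, hb, hbv⟩ := hv'
    rw [mem_tz] at ha hb
    have hab : a = b := trv_inj F g hg a ha.2.1 b hb.2.1 (hav.trans hbv.symm)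
    subst hab
    apply hne
    apply Subtype.ext
    apply Prod.ext
    · rw [← ha.2.2, ← hb.2.2]
    · rw [ha.1, hb.1]

theorem trf (X : CD) (K : Type) [Field K] [NumberField K] (hA : AN3a K) (d : ℕ) (c : ℝ) (hc : 1 ≤ c) :
    ∃ (C : ℝ) (A : ℕ), 1 ≤ C ∧ ∀ F : Fr X K, F.d ≤ d → ∀ (J : Finset (Fin X.N)) (Y : ℝ), 1 ≤ Y →
      ∑ g ∈ F.Fam J Y, c ^ g.card ≤ C * Y * (1 + Real.log Y) ^ A ∧
      ∑ g ∈ F.Fam J Y, c ^ g.card / F.nrl g ≤ C * (1 + Real.log Y) ^ A := by
  obtain ⟨C, A, hC, h⟩ := trv X K hA d c hc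
  refine ⟨C, A, hC, fun F hF J Y hY => ?_⟩
  obtain ⟨h1, h2⟩ := h F hF J Y hY
  have hinj : Set.InjOn (tz F.toFr0) (F.Fam J Y : Set (Finset F.Lb)) := by
    intro g _ g' _ hgg
    have h3 := congrArg F.U hgg
    rwa [tz_U, tz_U] at h3
  have hnr : ∀ g ∈ F.Fam J Y, F.nrt (tz F.toFr0 g) = F.nrl g := by
    intro g hg
    rw [Fr0.mem_Fam] at hg
    rw [← tok_nr F.toFr0 _ (tz_tok F.toFr0 g hg.1), tz_U]
  have hsub : (F.Fam J Y).image (tz F.toFr0) ⊆ F.TF J Y := by
    intro u hu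
    rw [Finset.mem_image] at hu
    obtain ⟨g, hg, rfl⟩ := hu
    have hg' := hg
    rw [Fr0.mem_Fam] at hg'
    rw [Fr0.mem_TF]
    refine ⟨tz_tok F.toFr0 g hg'.1, fun τ hτ => ?_, ?_⟩
    · rw [Finset.eq_empty_iff_forall_notMem]
      intro a ha
      rw [mem_tz] at ha
      apply hτ
      rw [← ha.2.2]
      apply hg'.2.1
      rw [Fr0.cls, Finset.mem_image]
      exact ⟨a, ha.2.1, rfl⟩
    · rw [hnr g hg]
      exact hg'.2.2
  have hc0 : 0 ≤ c := zero_le_one.trans hc
  constructor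
  · calc ∑ g ∈ F.Fam J Y, c ^ g.card = ∑ u ∈ (F.Fam J Y).image (tz F.toFr0), c ^ (F.U u).card := by
          rw [Finset.sum_image hinj]
          refine Finset.sum_congr rfl fun g _ => ?_
          rw [tz_U]
      _ ≤ ∑ u ∈ F.TF J Y, c ^ (F.U u).card :=
          Finset.sum_le_sum_of_subset_of_nonneg hsub fun u _ _ => pow_nonneg hc0 _
      _ ≤ _ := h1
  · calc ∑ g ∈ F.Fam J Y, c ^ g.card / F.nrl g
          = ∑ u ∈ (F.Fam J Y).image (tz F.toFr0), c ^ (F.U u).card / F.nrt u := by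
          rw [Finset.sum_image hinj]
          refine Finset.sum_congr rfl fun g hg => ?_
          rw [tz_U, hnr g hg]
      _ ≤ ∑ u ∈ F.TF J Y, c ^ (F.U u).card / F.nrt u :=
          Finset.sum_le_sum_of_subset_of_nonneg hsub fun u _ _ =>
            div_nonneg (pow_nonneg hc0 _) (zero_le_one.trans (F.one_le_nrt u))
      _ ≤ _ := h2

end H51.MM
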