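import Pool.Agent.H51.MM.Gf
import Pool.Agent.H51.MM.Trv

/-!
# [H51 MM LNKA] The bilinear estimate for a frame (100-150 lines)

`|V|^2` terms, `V = F.R → ZMod p` (`#V = p ^ #R ≤ qq`): fix `tot g = x`, `tot h = y` (put the indicators in `α`, `β`; `G x y` is a constant). Apply `AN2` with
`E = F.L i`, `E' = F.L j`, `B = F.bad`, `D = F.D`, `Q = F.qq`, `T = V`, `t = tot`, `t' = tot` of the image in the labels (`w ↦ ⟨i, w⟩`),
`φ' h w = ep (∑_{b ∈ h} θ ⬝ᵥ s ⟨i, w⟩ ⟨j, b⟩)`, `φ g w' = ep (-∑_{a ∈ g} θ ⬝ᵥ s ⟨j, w'⟩ ⟨i, a⟩)`, `Ξ x y = ep (Gf c θ (x + y) - Gf c θ x - Gf c θ y)`: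
`∏_{w ∈ g} φ' h w = Ξ (t g) (t' h) ∏_{w' ∈ h} φ g w'` is `crs`. The characters (AN2 now asks: `‖φ g w'‖ = 1`; for every
single `g` a ray class character of modulus of norm `≤ D * nr g ^ d` with values `φ g w'` outside `ud g`; and for `ud g₁ ≠ ud g₂` a good `w'` outside both with
`φ g₁ w' ≠ φ g₂ w'`; the same for `φ'`): `F.chr` for the class `i` (or `j`), `κ = 0`, `θ₀ = 0`, `σ = h`, `θ b = θ` (or `-θ`); the last one by `F.nt1` with `σ = h₁ ∪ h₂`,
`θ b = [b ∈ h₁] θ - [b ∈ h₂] θ`, where `φ' h₁ w * conj (φ' h₂ w) = ep (ch 0 c 0 σ θ)` (a label of `h₁` over a place which is not below `h₂`, or conversely, is alone over its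
place in `σ`; `¬ van i j θ`; for the mirror statement `¬ van j i (-θ)` by `van_symm`, `van_sub`, `van_zero`). `nr (und h) = nr h`, exponent `F.d ≤ d`. The place below: `F.un ⟨i, w⟩ = blw K w`
(`below_unique`). `F.Fam {i} Y` corresponds to `FE K (F.L i) F.bad Y`.
-/

set_option autoImplicit false

open scoped NumberField
open IsDedekindDomain NumberField H63.MA H36.QA Filter Topology
open scoped Classical

noncomputable section

namespace H51.MM

theorem un_blw {X : CD} {K : Type} [Field K] [NumberField K] (F : Fr X K) (i : Fin X.N) (w : Pl (F.L i)) :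
    F.un ⟨i, w⟩ = blw K w :=
  below_unique (F.un_over ⟨i, w⟩) (blw_over K w)

section aux

variable {X : CD} {K : Type} [Field K] [NumberField K]

/-- a family of places as a family of labels -/
private def em (F : Fr0 X K) (i : Fin X.N) (g : Finset (Pl (F.L i))) : Finset F.Lb :=
  g.map (Function.Embedding.sigmaMk i)

private theorem mem_em (F : Fr0 X K) (i : Fin X.N) (g : Finset (Pl (F.L i))) (a : F.Lb) :
    a ∈ em F i g ↔ ∃ w ∈ g, (⟨i, w⟩ : F.Lb) = a := by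
  unfold em
  rw [Finset.mem_map]
  rfl

private theorem em_inj (F : Fr0 X K) (i : Fin X.N) : Function.Injective (em F i) :=
  Finset.map_injective _

private theorem em_sum {M : Type} [AddCommMonoid M] (F : Fr0 X K) (i : Fin X.N) (g : Finset (Pl (F.L i)))
    (f : F.Lb → M) : ∑ a ∈ em F i g, f a = ∑ w ∈ g, f ⟨i, w⟩ := by
  unfold em
  rw [Finset.sum_map]
  rfl

private theorem em_nrl (F : Fr0 X K) (i : Fin X.N) (g : Finset (Pl (F.L i))) : F.nrl (em F i g) = nr g := by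
  unfold Fr0.nrl em nr
  rw [Finset.prod_map]
  rfl

private theorem em_und (F : Fr X K) (i : Fin X.N) (g : Finset (Pl (F.L i))) :
    F.und (em F.toFr0 i g) = ud K g := by
  ext v
  rw [Fr0.und, ud, Finset.mem_image, Finset.mem_image]
  constructor
  · rintro ⟨a, ha, rfl⟩
    rw [mem_em] at ha
    obtain ⟨w, hw, rfl⟩ := ha
    exact ⟨w, hw, (un_blw F i w).symm⟩
  · rintro ⟨w, hw, rfl⟩
    exact ⟨⟨i, w⟩, (mem_em F.toFr0 i g _).2 ⟨w, hw, rfl⟩, un_blw F i w⟩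

private theorem em_ok (F : Fr X K) (i : Fin X.N) (g : Finset (Pl (F.L i))) :
    F.Ok (em F.toFr0 i g) ↔ Fme K F.bad g := by
  constructor
  · rintro ⟨h1, h2⟩
    refine ⟨fun w hw => ?_, fun w hw w' hw' hne => ?_⟩
    · have h3 := h1 ⟨i, w⟩ ((mem_em F.toFr0 i g _).2 ⟨w, hw, rfl⟩)
      rw [Fr0.Gd, un_blw F i w] at h3
      exact h3
    · have h3 := h2 ⟨i, w⟩ ((mem_em F.toFr0 i g _).2 ⟨w, hw, rfl⟩) ⟨i, w'⟩
        ((mem_em F.toFr0 i g _).2 ⟨w', hw', rfl⟩) (fun h => hne (eq_of_heq (Sigma.mk.inj h).2))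
      rwa [un_blw F i w, un_blw F i w'] at h3
  · rintro ⟨h1, h2⟩
    refine ⟨fun a ha => ?_, fun a ha b hb hne => ?_⟩
    · rw [mem_em] at ha
      obtain ⟨w, hw, rfl⟩ := ha
      rw [Fr0.Gd, un_blw F i w]
      exact h1 w hw
    · rw [mem_em] at ha hb
      obtain ⟨w, hw, rfl⟩ := ha
      obtain ⟨w', hw', rfl⟩ := hb
      rw [un_blw F i w, un_blw F i w']
      exact h2 w hw w' hw' (fun h => hne (by rw [h]))

private theorem em_cls (F : Fr0 X K) (i : Fin X.N) (g : Finset (Pl (F.L i))) : F.cls (em F i g) ⊆ {i} := by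
  intro k hk
  rw [Fr0.cls, Finset.mem_image] at hk
  obtain ⟨a, ha, rfl⟩ := hk
  rw [mem_em] at ha
  obtain ⟨w, hw, rfl⟩ := ha
  exact Finset.mem_singleton_self _

private theorem em_fam (F : Fr X K) (i : Fin X.N) (Y : ℝ) :
    F.Fam {i} Y = (FE K (F.L i) F.bad Y).image (em F.toFr0 i) := by
  ext g
  rw [Fr0.mem_Fam, Finset.mem_image]
  constructor
  · rintro ⟨h1, h2, h3⟩
    have h4 : em F.toFr0 i (g.preimage (fun w : Pl (F.L i) => (⟨i, w⟩ : F.Lb))
      (fun a _ b _ h => eq_of_heq (Sigma.mk.inj h).2)) = g := by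
      ext a
      rw [mem_em]
      constructor
      · rintro ⟨w, hw, rfl⟩
        exact Finset.mem_preimage.1 hw
      · intro ha
        have h5 : a.1 ∈ F.cls g := by
          rw [Fr0.cls, Finset.mem_image]
          exact ⟨a, ha, rfl⟩
        have h6 := Finset.mem_singleton.1 (h2 h5)
        obtain ⟨k, w⟩ := a
        simp only at h6
        subst h6
        exact ⟨w, Finset.mem_preimage.2 ha, rfl⟩
    refine ⟨_, ?_, h4⟩
    rw [FE, Finset.mem_filter, mem_AF, ← em_nrl, h4, ← em_ok, h4]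
    exact ⟨h3, h1⟩
  · rintro ⟨w, hw, rfl⟩
    rw [FE, Finset.mem_filter, mem_AF] at hw
    rw [em_ok, em_nrl]
    exact ⟨hw.2, em_cls F.toFr0 i w, hw.1⟩

private theorem em_famsum (F : Fr X K) (i : Fin X.N) (Y : ℝ) (f : Finset F.Lb → ℂ) :
    ∑ g ∈ F.Fam {i} Y, f g = ∑ g ∈ FE K (F.L i) F.bad Y, f (em F.toFr0 i g) := by
  rw [em_fam, Finset.sum_image ((em_inj F.toFr0 i).injOn)]

private theorem ep_sum' (X : CD) {ι : Type} (s : Finset ι) (f : ι → ZMod X.p) :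
    ep X.p (∑ x ∈ s, f x) = ∏ x ∈ s, ep X.p (f x) := by
  induction s using Finset.induction_on with
  | empty => rw [Finset.sum_empty, Finset.prod_empty, ep_zero]
  | insert a s ha ih => rw [Finset.sum_insert ha, Finset.prod_insert ha, ep_add X.hp, ih]

private theorem ep_inj (X : CD) {a b : ZMod X.p} (h : ep X.p a = ep X.p b) : a = b := by
  have : NeZero X.p := ⟨X.hp.ne_zero⟩
  rw [rayc_std, rayc_std] at h
  exact ZMod.injective_stdAddChar h

/-- the value of a family of class `i` at a place of class `j` -/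
private def vl (F : Fr0 X K) (i j : Fin X.N) (ϑ : Fin X.w → ZMod X.p) (g : Finset (Pl (F.L i)))
    (w : Pl (F.L j)) : ZMod X.p :=
  ∑ a ∈ em F i g, ϑ ⬝ᵥ F.s ⟨j, w⟩ a

private theorem vl_chr (F : Fr X K) (d : ℕ) (hd : F.d ≤ d) (c : F.C) (i j : Fin X.N)
    (ϑ : Fin X.w → ZMod X.p) (g : Finset (Pl (F.L i))) (hg : Fme K F.bad g) :
    ∃ (𝔣 : Ideal (𝓞 (F.L j))) (χ : RC (F.L j) 𝔣), 𝔣 ≠ ⊥ ∧ (Ideal.absNorm 𝔣 : ℝ) ≤ F.D * nr g ^ d ∧
      ∀ w : Pl (F.L j), blw K w ∉ F.bad → (nm w).Prime → blw K w ∉ ud K g →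
        χ.χ w.asIdeal = ep X.p (vl F.toFr0 i j ϑ g w) := by
  have hok := (em_ok F i g).2 hg
  obtain ⟨𝔣, χ, h1, h2, h3⟩ := F.chr j 0 c 0 (em F.toFr0 i g) (fun _ => ϑ) (X.van_zero j j) hok.1
  refine ⟨𝔣, χ, h1, ?_, ?_⟩
  · rw [← ok_nr F _ hok, em_nrl] at h2
    refine h2.trans (mul_le_mul_of_nonneg_left (pow_le_pow_right₀ (one_le_nr g) hd) ?_)
    exact zero_le_one.trans F.one_le_D
  · intro w hw1 hw2 hw3
    rw [h3 w ⟨by rw [un_blw F j w]; exact hw1, hw2⟩ (by rw [un_blw F j w, em_und]; exact hw3)]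
    congr 1
    unfold Fr0.ch vl
    rw [zero_dotProduct, zero_dotProduct, zero_add, zero_add]

private theorem vl_ne (F : Fr X K) (c : F.C) (i j : Fin X.N) (ϑ : Fin X.w → ZMod X.p) (hϑ : ¬ X.van j i ϑ)
    (g₁ g₂ : Finset (Pl (F.L i))) (h₁ : Fme K F.bad g₁) (h₂ : Fme K F.bad g₂) (hne : ud K g₁ ≠ ud K g₂) :
    ∃ w : Pl (F.L j), blw K w ∉ F.bad ∧ (nm w).Prime ∧ blw K w ∉ ud K g₁ ∧ blw K w ∉ ud K g₂ ∧
      ep X.p (vl F.toFr0 i j ϑ g₁ w) ≠ ep X.p (vl F.toFr0 i j ϑ g₂ w) := by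
  classical
  have hok₁ := (em_ok F i g₁).2 h₁
  have hok₂ := (em_ok F i g₂).2 h₂
  set e₁ := em F.toFr0 i g₁ with he₁
  set e₂ := em F.toFr0 i g₂ with he₂
  have hu₁ : F.und e₁ = ud K g₁ := em_und F i g₁
  have hu₂ : F.und e₂ = ud K g₂ := em_und F i g₂
  have hϑ' : ¬ X.van j i (-ϑ) := by
    intro h
    apply hϑ
    have h1 := X.van_sub j i 0 (-ϑ) (X.van_zero j i) h
    rwa [zero_sub, neg_neg] at h1
  have hcl₁ : ∀ b ∈ e₁, b.1 = i := by
    intro b hb
    rw [he₁, mem_em] at hb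
    obtain ⟨w, -, rfl⟩ := hb
    rfl
  have hcl₂ : ∀ b ∈ e₂, b.1 = i := by
    intro b hb
    rw [he₂, mem_em] at hb
    obtain ⟨w, -, rfl⟩ := hb
    rfl
  have hex : ∃ b ∈ e₁ ∪ e₂, (∀ b' ∈ e₁ ∪ e₂, F.un b' = F.un b → b' = b) ∧
      ¬ X.van j b.1 ((if b ∈ e₁ then ϑ else 0) - (if b ∈ e₂ then ϑ else 0)) := by
    have h1 : (∃ v ∈ F.und e₁, v ∉ F.und e₂) ∨ ∃ v ∈ F.und e₂, v ∉ F.und e₁ := by
      by_contra hcon
      push Not at hcon
      apply hne
      rw [← hu₁, ← hu₂]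
      exact Finset.Subset.antisymm hcon.1 hcon.2
    rcases h1 with ⟨v, hv, hv'⟩ | ⟨v, hv, hv'⟩
    · rw [Fr0.und, Finset.mem_image] at hv
      obtain ⟨b, hb, rfl⟩ := hv
      have hb2 : b ∉ e₂ := fun h => hv' (by rw [Fr0.und, Finset.mem_image]; exact ⟨b, h, rfl⟩)
      refine ⟨b, Finset.mem_union_left _ hb, fun b' hb' hbb => ?_, ?_⟩
      · rcases Finset.mem_union.1 hb' with h3 | h3
        · by_contra h4
          exact hok₁.2 b' h3 b hb h4 hbb
        · exact absurd (by rw [Fr0.und, Finset.mem_image]; exact ⟨b', h3, hbb⟩) hv'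
      · rw [if_pos hb, if_neg hb2, sub_zero, hcl₁ b hb]
        exact hϑ
    · rw [Fr0.und, Finset.mem_image] at hv
      obtain ⟨b, hb, rfl⟩ := hv
      have hb2 : b ∉ e₁ := fun h => hv' (by rw [Fr0.und, Finset.mem_image]; exact ⟨b, h, rfl⟩)
      refine ⟨b, Finset.mem_union_right _ hb, fun b' hb' hbb => ?_, ?_⟩
      · rcases Finset.mem_union.1 hb' with h3 | h3
        · exact absurd (by rw [Fr0.und, Finset.mem_image]; exact ⟨b', h3, hbb⟩) hv'
        · by_contra h4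
          exact hok₂.2 b' h3 b hb h4 hbb
      · rw [if_neg hb2, if_pos hb, zero_sub, hcl₂ b hb]
        exact hϑ'
  have hgd : ∀ b ∈ e₁ ∪ e₂, F.Gd b := by
    intro b hb
    rcases Finset.mem_union.1 hb with h3 | h3
    · exact hok₁.1 b h3
    · exact hok₂.1 b h3
  obtain ⟨w, hw1, hw2, hw3⟩ := F.nt1 j 0 c 0 (e₁ ∪ e₂)
    (fun b => (if b ∈ e₁ then ϑ else 0) - (if b ∈ e₂ then ϑ else 0)) (X.van_zero j j) hgd hex
    (ud K g₁ ∪ ud K g₂)
  rw [Fr0.Gd, un_blw F j w] at hw1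
  rw [un_blw F j w, Finset.mem_union, not_or] at hw2
  refine ⟨w, hw1.1, hw1.2, hw2.1, hw2.2, fun h => hw3 ?_⟩
  have h5 := ep_inj X h
  unfold vl at h5
  unfold Fr0.ch
  rw [zero_dotProduct, zero_dotProduct, zero_add, zero_add]
  simp only [sub_dotProduct]
  rw [Finset.sum_sub_distrib, sub_eq_zero]
  have h6 : ∀ e : Finset F.Lb, e ⊆ e₁ ∪ e₂ → ∑ b ∈ e₁ ∪ e₂, (if b ∈ e then ϑ else 0) ⬝ᵥ F.s ⟨j, w⟩ b =
      ∑ b ∈ e, ϑ ⬝ᵥ F.s ⟨j, w⟩ b := by
    intro e he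
    rw [← Finset.sum_subset he]
    · refine Finset.sum_congr rfl fun b hb => ?_
      rw [if_pos hb]
    · intro b _ hb
      rw [if_neg hb, zero_dotProduct]
  rw [h6 e₁ Finset.subset_union_left, h6 e₂ Finset.subset_union_right]
  exact h5

private theorem vl_rel (F : Fr X K) (c : F.C) (i j : Fin X.N) (θ : Fin X.w → ZMod X.p)
    (g : Finset (Pl (F.L i))) (h : Finset (Pl (F.L j))) (hg : Fme K F.bad g) (hh : Fme K F.bad h)
    (hd : Disjoint (ud K g) (ud K h)) :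
    ∏ w ∈ g, ep X.p (vl F.toFr0 j i θ h w) =
      ep X.p (Gf F c θ (F.tot (em F.toFr0 i g) + F.tot (em F.toFr0 j h)) - Gf F c θ (F.tot (em F.toFr0 i g)) -
        Gf F c θ (F.tot (em F.toFr0 j h))) * ∏ w ∈ h, ep X.p (vl F.toFr0 i j (-θ) g w) := by
  have hokg := (em_ok F i g).2 hg
  have hokh := (em_ok F j h).2 hh
  have hdis : Disjoint (F.und (em F.toFr0 i g)) (F.und (em F.toFr0 j h)) := by
    rw [em_und, em_und]
    exact hd
  rw [← ep_sum', ← ep_sum', ← ep_add X.hp, ← crs F c θ _ _ hokg hokh hdis]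
  congr 1
  unfold vl
  rw [← em_sum F.toFr0 i g (fun a => ∑ b ∈ em F.toFr0 j h, θ ⬝ᵥ F.s a b),
    ← em_sum F.toFr0 j h (fun b => ∑ a ∈ em F.toFr0 i g, (-θ) ⬝ᵥ F.s b a), Finset.sum_comm
    (s := em F.toFr0 j h), ← Finset.sum_add_distrib]
  refine Finset.sum_congr rfl fun a _ => ?_
  rw [← Finset.sum_add_distrib]
  refine Finset.sum_congr rfl fun b _ => ?_
  rw [dotProduct_add, neg_dotProduct]
  ring

end aux

theorem lnka (X : CD) (K : Type) [Field K] [NumberField K] (d : ℕ) (hA : AN2 K d) :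
    ∃ (C : ℝ) (A : ℕ) (δ : ℝ), 1 ≤ C ∧ 0 < δ ∧ δ ≤ 1 / 4 ∧ ∀ F : Fr X K, F.d ≤ d → ∀ (c : F.C)
      (i j : Fin X.N) (θ : Fin X.w → ZMod X.p), ¬ X.van i j θ → ∀ (α β : Finset F.Lb → ℂ)
      (G : (F.R → ZMod X.p) → (F.R → ZMod X.p) → ℂ), (∀ g, ‖α g‖ ≤ 1) → (∀ g, ‖β g‖ ≤ 1) →
      (∀ x y, ‖G x y‖ ≤ 1) → ∀ z Y : ℝ, 1 ≤ z → 1 ≤ Y →
      ‖∑ g ∈ F.Fam {i} Y, ∑ h ∈ F.Fam {j} Y, if z < F.nrl g ∧ z < F.nrl h ∧ F.nrl g * F.nrl h ≤ Y ∧
        Disjoint (F.und g) (F.und h) then α g * β h * G (F.tot g) (F.tot h) *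
          ep X.p (∑ a ∈ g, ∑ b ∈ h, θ ⬝ᵥ F.s a b) else 0‖ ≤
      C * (F.qq * F.D) ^ A * Y * z ^ (-δ) * (1 + Real.log Y) ^ A := by
  obtain ⟨C, A, δ, hC, hδ, hδ4, H⟩ := hA
  refine ⟨C, A + 2, δ, hC, hδ, hδ4, ?_⟩
  intro F hF c i j θ hθ α β G hα hβ hG z Y hz hY
  have hD := F.one_le_D
  have hq := F.one_le_qq
  have hcard : (Fintype.card (F.R → ZMod X.p) : ℝ) ≤ F.qq := by
    have h1 := F.card_R
    rw [Fintype.card_fun, ZMod.card]
    push_cast
    exact h1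
  have hθ' : ¬ X.van j i (-θ) := by
    intro h
    apply hθ
    have h1 := X.van_sub j i 0 (-θ) (X.van_zero j i) h
    rw [zero_sub, neg_neg] at h1
    exact X.van_symm j i θ h1
  set φ' : Finset (Pl (F.L j)) → Pl (F.L i) → ℂ := fun h w => ep X.p (vl F.toFr0 j i θ h w) with hφ'
  set φ : Finset (Pl (F.L i)) → Pl (F.L j) → ℂ := fun g w => ep X.p (vl F.toFr0 i j (-θ) g w) with hφ
  set t : Finset (Pl (F.L i)) → (F.R → ZMod X.p) := fun g => F.tot (em F.toFr0 i g) with ht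
  set t' : Finset (Pl (F.L j)) → (F.R → ZMod X.p) := fun g => F.tot (em F.toFr0 j g) with ht'
  set S : (F.R → ZMod X.p) → (F.R → ZMod X.p) → ℂ := fun x y =>
    ∑ g ∈ FE K (F.L i) F.bad Y, ∑ h ∈ FE K (F.L j) F.bad Y,
      if z < nr g ∧ z < nr h ∧ nr g * nr h ≤ Y ∧ Disjoint (ud K g) (ud K h) then
        (if t g = x then α (em F.toFr0 i g) else 0) * (if t' h = y then β (em F.toFr0 j h) else 0) *
          ∏ w ∈ g, φ' h w else 0 with hS
  have hSb : ∀ x y, ‖S x y‖ ≤ C * (F.qq * F.D) ^ A * Y * z ^ (-δ) * (1 + Real.log Y) ^ A := by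
    intro x y
    refine H (F.L i) (F.L j) (F.tc i) (F.tc j) ((F.deg i).trans hF) ((F.deg j).trans hF) F.D F.qq hD hq
      (F.dis i) (F.dis j) F.bad (F.R → ZMod X.p) hcard t t'
      (fun x y => ep X.p (Gf F c θ (x + y) - Gf F c θ x - Gf F c θ y)) φ φ' ?_ ?_ ?_ ?_ ?_ ?_ ?_ ?_
      (fun g => if t g = x then α (em F.toFr0 i g) else 0)
      (fun h => if t' h = y then β (em F.toFr0 j h) else 0) ?_ ?_ z Y hz hY
    · exact fun _ _ => (ep_norm _ _).le
    · exact fun _ _ => ep_norm _ _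
    · exact fun _ _ => ep_norm _ _
    · exact fun g hg => vl_chr F d hF c i j (-θ) g hg
    · exact fun g₁ g₂ h₁ h₂ hne => vl_ne F c i j (-θ) hθ' g₁ g₂ h₁ h₂ hne
    · exact fun h hh => vl_chr F d hF c j i θ h hh
    · exact fun g₁ g₂ h₁ h₂ hne => vl_ne F c j i θ hθ g₁ g₂ h₁ h₂ hne
    · exact fun g h hg hh hd => vl_rel F c i j θ g h hg hh hd
    · intro g
      split_ifs
      · exact hα _
      · rw [norm_zero]; exact zero_le_one
    · intro g
      split_ifs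
      · exact hβ _
      · rw [norm_zero]; exact zero_le_one
  have hsum : (∑ g ∈ F.Fam {i} Y, ∑ h ∈ F.Fam {j} Y, if z < F.nrl g ∧ z < F.nrl h ∧ F.nrl g * F.nrl h ≤ Y ∧
        Disjoint (F.und g) (F.und h) then α g * β h * G (F.tot g) (F.tot h) *
          ep X.p (∑ a ∈ g, ∑ b ∈ h, θ ⬝ᵥ F.s a b) else 0) = ∑ x, ∑ y, G x y * S x y := by
    rw [em_famsum]
    have h1 : ∀ x y, G x y * S x y = ∑ g ∈ FE K (F.L i) F.bad Y, ∑ h ∈ FE K (F.L j) F.bad Y,
        G x y * (if z < nr g ∧ z < nr h ∧ nr g * nr h ≤ Y ∧ Disjoint (ud K g) (ud K h) then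
        (if t g = x then α (em F.toFr0 i g) else 0) * (if t' h = y then β (em F.toFr0 j h) else 0) *
          ∏ w ∈ g, φ' h w else 0) := by
      intro x y
      rw [hS]
      simp only
      rw [Finset.mul_sum]
      refine Finset.sum_congr rfl fun g _ => ?_
      rw [Finset.mul_sum]
    simp only [h1]
    have h2 : ∀ x : F.R → ZMod X.p, (∑ y, ∑ g ∈ FE K (F.L i) F.bad Y, ∑ h ∈ FE K (F.L j) F.bad Y,
        G x y * (if z < nr g ∧ z < nr h ∧ nr g * nr h ≤ Y ∧ Disjoint (ud K g) (ud K h) then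
        (if t g = x then α (em F.toFr0 i g) else 0) * (if t' h = y then β (em F.toFr0 j h) else 0) *
          ∏ w ∈ g, φ' h w else 0)) = ∑ g ∈ FE K (F.L i) F.bad Y, ∑ h ∈ FE K (F.L j) F.bad Y, ∑ y,
        G x y * (if z < nr g ∧ z < nr h ∧ nr g * nr h ≤ Y ∧ Disjoint (ud K g) (ud K h) then
        (if t g = x then α (em F.toFr0 i g) else 0) * (if t' h = y then β (em F.toFr0 j h) else 0) *
          ∏ w ∈ g, φ' h w else 0) := by
      intro x
      rw [Finset.sum_comm]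
      refine Finset.sum_congr rfl fun g _ => ?_
      rw [Finset.sum_comm]
    simp only [h2]
    symm
    rw [Finset.sum_comm]
    refine Finset.sum_congr rfl fun g _ => ?_
    rw [em_famsum, Finset.sum_comm]
    refine Finset.sum_congr rfl fun h _ => ?_
    rw [em_nrl, em_nrl, em_und, em_und]
    by_cases hP : z < nr g ∧ z < nr h ∧ nr g * nr h ≤ Y ∧ Disjoint (ud K g) (ud K h)
    · simp only [if_pos hP]
      rw [Finset.sum_eq_single (t g)]
      · rw [Finset.sum_eq_single (t' h)]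
        · rw [if_pos rfl, if_pos rfl, em_sum, ep_sum']
          simp only [ht, ht', hφ', vl]
          ring
        · intro y _ hy
          rw [if_neg (Ne.symm hy), mul_zero, zero_mul, mul_zero]
        · intro h3
          exact absurd (Finset.mem_univ _) h3
      · intro x _ hx
        refine Finset.sum_eq_zero fun y _ => ?_
        rw [if_neg (Ne.symm hx), zero_mul, zero_mul, mul_zero]
      · intro h3
        exact absurd (Finset.mem_univ _) h3
    · simp only [if_neg hP, mul_zero, Finset.sum_const_zero]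
  rw [hsum]
  set M : ℝ := C * (F.qq * F.D) ^ A * Y * z ^ (-δ) * (1 + Real.log Y) ^ A with hM
  have hlog : 0 ≤ Real.log Y := Real.log_nonneg hY
  have hz0 : 0 < z ^ (-δ) := Real.rpow_pos_of_pos (zero_lt_one.trans_le hz) _
  have hqD : 1 ≤ F.qq * F.D := by nlinarith
  have hM0 : 0 ≤ M := by
    rw [hM]
    positivity
  calc ‖∑ x, ∑ y, G x y * S x y‖ ≤ ∑ _x : F.R → ZMod X.p, ∑ _y : F.R → ZMod X.p, M := by
        refine (norm_sum_le _ _).trans (Finset.sum_le_sum fun x _ => ?_)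
        refine (norm_sum_le _ _).trans (Finset.sum_le_sum fun y _ => ?_)
        rw [norm_mul]
        calc ‖G x y‖ * ‖S x y‖ ≤ 1 * M :=
              mul_le_mul (hG x y) (hSb x y) (norm_nonneg _) zero_le_one
          _ = M := one_mul _
    _ = (Fintype.card (F.R → ZMod X.p) : ℝ) * ((Fintype.card (F.R → ZMod X.p) : ℝ) * M) := by
        rw [Finset.sum_const, Finset.sum_const, Finset.card_univ, nsmul_eq_mul, nsmul_eq_mul]
    _ ≤ F.qq * (F.qq * M) := by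
        refine mul_le_mul hcard (mul_le_mul_of_nonneg_right hcard hM0) ?_ (zero_le_one.trans hq)
        positivity
    _ ≤ (F.qq * F.D) ^ 2 * M := by
        have h1 : F.qq * F.qq ≤ (F.qq * F.D) ^ 2 := by
          have h2 : F.qq ≤ F.qq * F.D := le_mul_of_one_le_right (zero_le_one.trans hq) hD
          rw [sq]
          exact mul_le_mul h2 h2 (zero_le_one.trans hq) (zero_le_one.trans hqD)
        rw [← mul_assoc]
        exact mul_le_mul_of_nonneg_right h1 hM0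
    _ = C * (F.qq * F.D) ^ (A + 2) * Y * z ^ (-δ) * (1 + Real.log Y) ^ A := by
        rw [hM]
        ring
    _ ≤ C * (F.qq * F.D) ^ (A + 2) * Y * z ^ (-δ) * (1 + Real.log Y) ^ (A + 2) := by
        refine mul_le_mul_of_nonneg_left ?_ (by positivity)
        exact pow_le_pow_right₀ (by linarith) (Nat.le_add_right _ _)

end H51.MM
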