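import Pool.Agent.H51.MM.PhA
import Pool.Agent.H51.MM.LnkA
import Pool.Agent.H51.MM.Lev

/-!
# [H51 MM LNKB] The contribution of sets of large types with a linked pair (120-160 lines)

Let `τ, τ' ∈ L` be linked; they are different (`van_zero`). Put `ρ = update (update u τ ∅) τ' ∅`, `g = u τ`, `h = u τ'`. Sum over `ρ` first
(`Finset.sum_fiberwise` or `sum_comm'` over the finite set of all `ρ`), for fixed `ρ` the inner sum is over `g ∈ Fam {τ.1.1} Y`, `h ∈ Fam {τ'.1.1} Y` with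
`z < nrl g`, `z < nrl h`, `z = lv Z R (k + 1) ≥ Z`, `nrl g * nrl h ≤ Y / nrt ρ`, `und g`, `und h`, `und (U ρ)` pairwise disjoint. The other conditions of `Cnd` and
`W (rs Lᶜ u)` depend only on `ρ` (`rs Lᶜ u = rs Lᶜ ρ`), `cls (U u) = cls (U ρ) ∪ {τ.1.1, τ'.1.1}` (`g`, `h` are not empty: norm `> z ≥ 1`),
`h (tot (U u)) = h (tot g + tot h + tot (U ρ))`, the phase by `pha`. So the inner sum is a sum as in `lnka` (`α g = [und g disjoint from und (U ρ)] ep (A g)`, etc.,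
`G x y = h (x + y + tot (U ρ)) ep (Gf c τ'.1.2 (x + y))`, `θ = τ.1.2 - τ'.1.2`) with `Y / nrt ρ` in place of `Y` (it is empty if `Y / nrt ρ < 1`). Then
`∑_ρ 1 / nrt ρ ≤ C (1 + log Y) ^ A` (`trv` with `c = 1`). If `τ.1.1 ∉ J` then `u τ = ∅` and the sum is empty.
-/

set_option autoImplicit false

open scoped NumberField
open IsDedekindDomain NumberField H63.MA H36.QA Filter Topology
open scoped Classical

noncomputable section

namespace H51.MM

section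

variable {X : CD} {K : Type} [Field K] [NumberField K]

/-- the part of `u` outside `τ`, `τ'` -/
private def lr (F : Fr0 X K) (τ τ' : X.Ty) (u : X.Ty → Finset F.Lb) : X.Ty → Finset F.Lb :=
  Function.update (Function.update u τ ∅) τ' ∅

private theorem lr_eq (F : Fr0 X K) (τ τ' : X.Ty) (u : X.Ty → Finset F.Lb) {σ : X.Ty} (h : σ ≠ τ) (h' : σ ≠ τ') :
    lr F τ τ' u σ = u σ := by
  unfold lr
  rw [Function.update_of_ne h', Function.update_of_ne h]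

private theorem lr_tau (F : Fr0 X K) (τ τ' : X.Ty) (u : X.Ty → Finset F.Lb) : lr F τ τ' u τ = ∅ := by
  unfold lr
  by_cases h : τ = τ'
  · rw [← h, Function.update_self]
  · rw [Function.update_of_ne h, Function.update_self]

private theorem lr_tau' (F : Fr0 X K) (τ τ' : X.Ty) (u : X.Ty → Finset F.Lb) : lr F τ τ' u τ' = ∅ := by
  unfold lr
  rw [Function.update_self]

private theorem lr_sub (F : Fr0 X K) (τ τ' : X.Ty) (u : X.Ty → Finset F.Lb) (σ : X.Ty) :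
    lr F τ τ' u σ ⊆ u σ := by
  by_cases h : σ = τ
  · rw [h, lr_tau]
    exact Finset.empty_subset _
  by_cases h' : σ = τ'
  · rw [h', lr_tau']
    exact Finset.empty_subset _
  · rw [lr_eq F τ τ' u h h']

private theorem lr_tok (F : Fr0 X K) (τ τ' : X.Ty) (u : X.Ty → Finset F.Lb) (hu : F.TOk u) :
    F.TOk (lr F τ τ' u) := by
  refine ⟨fun σ a ha => hu.1 σ a (lr_sub F τ τ' u σ ha), fun σ => ⟨fun a ha => ?_, fun a ha b hb => ?_⟩,
    fun σ σ' hne => ?_⟩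
  · exact (hu.2.1 σ).1 a (lr_sub F τ τ' u σ ha)
  · exact (hu.2.1 σ).2 a (lr_sub F τ τ' u σ ha) b (lr_sub F τ τ' u σ hb)
  · exact (hu.2.2 σ σ' hne).mono (Finset.image_subset_image (lr_sub F τ τ' u σ))
      (Finset.image_subset_image (lr_sub F τ τ' u σ'))

private theorem lnb_nrt (F : Fr0 X K) {τ τ' : X.Ty} (hne : τ ≠ τ') (u : X.Ty → Finset F.Lb) :
    F.nrt u = F.nrl (u τ) * F.nrl (u τ') * F.nrt (lr F τ τ' u) := by
  have key : ∀ v : X.Ty → Finset F.Lb, F.nrt v = F.nrl (v τ) * (F.nrl (v τ') *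
      ∏ σ ∈ (Finset.univ.erase τ).erase τ', F.nrl (v σ)) := by
    intro v
    unfold Fr0.nrt
    rw [Finset.mul_prod_erase _ (fun σ => F.nrl (v σ))
      (Finset.mem_erase.2 ⟨hne.symm, Finset.mem_univ _⟩),
      Finset.mul_prod_erase _ (fun σ => F.nrl (v σ)) (Finset.mem_univ _)]
  have h0 : F.nrl ∅ = 1 := Finset.prod_empty
  rw [key u, key (lr F τ τ' u), lr_tau, lr_tau', h0, one_mul, one_mul, mul_assoc]
  congr 2
  refine Finset.prod_congr rfl fun σ hσ => ?_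
  rw [Finset.mem_erase, Finset.mem_erase] at hσ
  rw [lr_eq F τ τ' u hσ.2.1 hσ.1]

private theorem lr_TF (F : Fr0 X K) {τ τ' : X.Ty} (hne : τ ≠ τ') (J : Finset (Fin X.N)) (Y : ℝ)
    (u : X.Ty → Finset F.Lb) (hu : u ∈ F.TF J Y) : lr F τ τ' u ∈ F.TF J Y := by
  rw [Fr0.mem_TF] at hu ⊢
  refine ⟨lr_tok F τ τ' u hu.1, fun σ hσ => ?_, ?_⟩
  · exact Finset.subset_empty.1 ((hu.2.1 σ hσ) ▸ lr_sub F τ τ' u σ)
  · have h1 := lnb_nrt F hne u
    have h2 := F.one_le_nrl (u τ)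
    have h3 := F.one_le_nrl (u τ')
    have h4 := F.one_le_nrt (lr F τ τ' u)
    have h5 : 1 ≤ F.nrl (u τ) * F.nrl (u τ') := by nlinarith
    nlinarith [hu.2.2]

private theorem lnb_tot (F : Fr0 X K) (u : X.Ty → Finset F.Lb) (hu : F.TOk u) :
    F.tot (F.U u) = ∑ σ, F.tot (u σ) := by
  unfold Fr0.tot Fr0.U
  exact Finset.sum_biUnion (fun σ _ σ' _ hne => tok_dis F u hu σ σ' hne)

private theorem lnb_tot2 (F : Fr0 X K) {τ τ' : X.Ty} (hne : τ ≠ τ') (u : X.Ty → Finset F.Lb) (hu : F.TOk u) :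
    F.tot (F.U u) = F.tot (u τ) + F.tot (u τ') + F.tot (F.U (lr F τ τ' u)) := by
  have key : ∀ v : X.Ty → Finset F.Lb, F.TOk v → F.tot (F.U v) = F.tot (v τ) + (F.tot (v τ') +
      ∑ σ ∈ (Finset.univ.erase τ).erase τ', F.tot (v σ)) := by
    intro v hv
    rw [lnb_tot F v hv, Finset.add_sum_erase _ (fun σ => F.tot (v σ))
      (Finset.mem_erase.2 ⟨hne.symm, Finset.mem_univ _⟩),
      Finset.add_sum_erase _ (fun σ => F.tot (v σ)) (Finset.mem_univ _)]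
  have h0 : F.tot ∅ = 0 := Finset.sum_empty
  rw [key u hu, key (lr F τ τ' u) (lr_tok F τ τ' u hu), lr_tau, lr_tau', h0, zero_add, zero_add, add_assoc]
  congr 2
  refine Finset.sum_congr rfl fun σ hσ => ?_
  rw [Finset.mem_erase, Finset.mem_erase] at hσ
  rw [lr_eq F τ τ' u hσ.2.1 hσ.1]

private theorem lnb_cls (F : Fr0 X K) (u : X.Ty → Finset F.Lb) (hu : F.TOk u) (i : Fin X.N) :
    i ∈ F.cls (F.U u) ↔ ∃ σ : X.Ty, σ.1.1 = i ∧ u σ ≠ ∅ := by
  unfold Fr0.cls Fr0.U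
  rw [Finset.mem_image]
  constructor
  · rintro ⟨a, ha, rfl⟩
    rw [Finset.mem_biUnion] at ha
    obtain ⟨σ, -, ha⟩ := ha
    exact ⟨σ, (hu.1 σ a ha).symm, Finset.ne_empty_of_mem ha⟩
  · rintro ⟨σ, rfl, h⟩
    obtain ⟨a, ha⟩ := Finset.nonempty_iff_ne_empty.2 h
    exact ⟨a, Finset.mem_biUnion.2 ⟨σ, Finset.mem_univ _, ha⟩, hu.1 σ a ha⟩

private theorem lnb_cls_congr (F : Fr0 X K) (u v : X.Ty → Finset F.Lb) (hu : F.TOk u) (hv : F.TOk v)
    (h : ∀ σ, u σ ≠ ∅ ↔ v σ ≠ ∅) : F.cls (F.U u) = F.cls (F.U v) := by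
  ext i
  rw [lnb_cls F u hu, lnb_cls F v hv]
  exact exists_congr fun σ => and_congr_right fun _ => h σ

private theorem lnb_ne (F : Fr0 X K) (g : Finset F.Lb) (z : ℝ) (hz : 1 ≤ z) (h : z < F.nrl g) : g ≠ ∅ := by
  rintro rfl
  have h0 : F.nrl ∅ = 1 := Finset.prod_empty
  rw [h0] at h
  linarith

private theorem lnb_und (F : Fr0 X K) (ρ : X.Ty → Finset F.Lb) (σ : X.Ty) : F.und (ρ σ) ⊆ F.und (F.U ρ) :=
  Finset.image_subset_image fun _ ha => Finset.mem_biUnion.2 ⟨σ, Finset.mem_univ _, ha⟩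

/-- the condition on `u` -/
private def PP (F : Fr0 X K) (c : F.C) (Z : ℝ) (R k : ℕ) (L : Finset X.Ty)
    (W : (X.Ty → Finset F.Lb) → Prop) (u : X.Ty → Finset F.Lb) : Prop :=
  F.Cnd Z R k L u ∧ W (F.rs Lᶜ u) ∧ F.Sp c (F.cls (F.U u))

private theorem lnb_inner (F : Fr X K) (J : Finset (Fin X.N)) (c : F.C) (h : (F.R → ZMod X.p) → ℂ)
    (Z : ℝ) (R k : ℕ) (L : Finset X.Ty) (W : (X.Ty → Finset F.Lb) → Prop) (hZ : 1 ≤ lv Z R (k + 1))
    (τ τ' : X.Ty) (hτ : τ ∈ L) (hτ' : τ' ∈ L) (hne : τ ≠ τ') (Y : ℝ) (ρ : X.Ty → Finset F.Lb) :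
    (∑ u ∈ (F.TF J Y).filter (fun u => lr F.toFr0 τ τ' u = ρ), if PP F.toFr0 c Z R k L W u then
      h (F.tot (F.U u)) * ep X.p (F.Ph c u) else 0) = 0 ∨
    (1 ≤ Y / F.nrt ρ ∧ ∃ α β : Finset F.Lb → ℂ, (∀ g, ‖α g‖ ≤ 1) ∧ (∀ g, ‖β g‖ ≤ 1) ∧
      (∑ u ∈ (F.TF J Y).filter (fun u => lr F.toFr0 τ τ' u = ρ), if PP F.toFr0 c Z R k L W u then
        h (F.tot (F.U u)) * ep X.p (F.Ph c u) else 0) =
      ∑ g ∈ F.Fam {τ.1.1} (Y / F.nrt ρ), ∑ g' ∈ F.Fam {τ'.1.1} (Y / F.nrt ρ),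
        if lv Z R (k + 1) < F.nrl g ∧ lv Z R (k + 1) < F.nrl g' ∧ F.nrl g * F.nrl g' ≤ Y / F.nrt ρ ∧
          Disjoint (F.und g) (F.und g') then α g * β g' *
          (fun x y => h (x + y + F.tot (F.U ρ)) * ep X.p (Gf F c τ'.1.2 (x + y))) (F.tot g) (F.tot g') *
          ep X.p (∑ a ∈ g, ∑ b ∈ g', (τ.1.2 - τ'.1.2) ⬝ᵥ F.s a b) else 0) := by
  by_cases hex : ∃ u₀ ∈ F.TF J Y, lr F.toFr0 τ τ' u₀ = ρ ∧ PP F.toFr0 c Z R k L W u₀
  swap
  · left
    refine Finset.sum_eq_zero fun u hu => ?_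
    rw [Finset.mem_filter] at hu
    rw [if_neg]
    intro hP
    exact hex ⟨u, hu.1, hu.2, hP⟩
  right
  obtain ⟨u₀, hu₀, hρ, hC, hW, hS⟩ := hex
  rw [Fr0.mem_TF] at hu₀
  have hρτ : ρ τ = ∅ := hρ ▸ lr_tau F.toFr0 τ τ' u₀
  have hρτ' : ρ τ' = ∅ := hρ ▸ lr_tau' F.toFr0 τ τ' u₀
  have hρne : ∀ σ, σ ≠ τ → σ ≠ τ' → ρ σ = u₀ σ := fun σ h1 h2 => hρ ▸ lr_eq F.toFr0 τ τ' u₀ h1 h2
  have hρok : F.TOk ρ := hρ ▸ lr_tok F.toFr0 τ τ' u₀ hu₀.1
  have hJτ : τ.1.1 ∈ J := by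
    by_contra hJ
    exact lnb_ne F.toFr0 _ _ hZ (hC.1 τ hτ) (hu₀.2.1 τ hJ)
  have hJτ' : τ'.1.1 ∈ J := by
    by_contra hJ
    exact lnb_ne F.toFr0 _ _ hZ (hC.1 τ' hτ') (hu₀.2.1 τ' hJ)
  have hn1 := F.one_le_nrt ρ
  have hn0 : 0 < F.nrt ρ := by linarith
  have hYY : 1 ≤ Y / F.nrt ρ := by
    rw [le_div_iff₀ hn0, one_mul, ← hρ]
    have h1 := lnb_nrt F.toFr0 hne u₀
    have h2 := F.one_le_nrl (u₀ τ)
    have h3 := F.one_le_nrl (u₀ τ')
    have h4 := F.one_le_nrt (lr F.toFr0 τ τ' u₀)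
    have h5 : 1 ≤ F.nrl (u₀ τ) * F.nrl (u₀ τ') := by nlinarith
    nlinarith [hu₀.2.2]
  obtain ⟨A, B, hAB⟩ := pha F c τ τ' hne ρ hρτ hρτ'
  refine ⟨hYY, fun g => if Disjoint (F.und g) (F.und (F.U ρ)) then ep X.p (A g) else 0,
    fun g => if Disjoint (F.und g) (F.und (F.U ρ)) then ep X.p (B g) else 0, ?_, ?_, ?_⟩
  · intro g
    beta_reduce
    split_ifs
    · rw [ep_norm]
    · rw [norm_zero]
      exact zero_le_one
  · intro g
    beta_reduce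
    split_ifs
    · rw [ep_norm]
    · rw [norm_zero]
      exact zero_le_one
  -- the bijection
  rw [← Finset.sum_filter, ← Finset.sum_product', ← Finset.sum_filter]
  have hR : ∑ x ∈ (F.Fam {τ.1.1} (Y / F.nrt ρ) ×ˢ F.Fam {τ'.1.1} (Y / F.nrt ρ)).filter
        (fun x => lv Z R (k + 1) < F.nrl x.1 ∧ lv Z R (k + 1) < F.nrl x.2 ∧ F.nrl x.1 * F.nrl x.2 ≤ Y / F.nrt ρ ∧
          Disjoint (F.und x.1) (F.und x.2)),
        (fun g => if Disjoint (F.und g) (F.und (F.U ρ)) then ep X.p (A g) else 0) x.1 *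
        (fun g => if Disjoint (F.und g) (F.und (F.U ρ)) then ep X.p (B g) else 0) x.2 *
        (fun x y => h (x + y + F.tot (F.U ρ)) * ep X.p (Gf F c τ'.1.2 (x + y))) (F.tot x.1) (F.tot x.2) *
        ep X.p (∑ a ∈ x.1, ∑ b ∈ x.2, (τ.1.2 - τ'.1.2) ⬝ᵥ F.s a b) =
      ∑ x ∈ ((F.Fam {τ.1.1} (Y / F.nrt ρ) ×ˢ F.Fam {τ'.1.1} (Y / F.nrt ρ)).filter
        (fun x => lv Z R (k + 1) < F.nrl x.1 ∧ lv Z R (k + 1) < F.nrl x.2 ∧ F.nrl x.1 * F.nrl x.2 ≤ Y / F.nrt ρ ∧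
          Disjoint (F.und x.1) (F.und x.2))).filter
        (fun x => Disjoint (F.und x.1) (F.und (F.U ρ)) ∧ Disjoint (F.und x.2) (F.und (F.U ρ))),
        ep X.p (A x.1) * ep X.p (B x.2) *
        (h (F.tot x.1 + F.tot x.2 + F.tot (F.U ρ)) * ep X.p (Gf F c τ'.1.2 (F.tot x.1 + F.tot x.2))) *
        ep X.p (∑ a ∈ x.1, ∑ b ∈ x.2, (τ.1.2 - τ'.1.2) ⬝ᵥ F.s a b) := by
    rw [Finset.sum_filter _ (f := fun x : Finset F.Lb × Finset F.Lb => ep X.p (A x.1) * ep X.p (B x.2) *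
        (h (F.tot x.1 + F.tot x.2 + F.tot (F.U ρ)) * ep X.p (Gf F c τ'.1.2 (F.tot x.1 + F.tot x.2))) *
        ep X.p (∑ a ∈ x.1, ∑ b ∈ x.2, (τ.1.2 - τ'.1.2) ⬝ᵥ F.s a b))]
    refine Finset.sum_congr rfl fun x _ => ?_
    beta_reduce
    by_cases h1 : Disjoint (F.und x.1) (F.und (F.U ρ))
    · by_cases h2 : Disjoint (F.und x.2) (F.und (F.U ρ))
      · rw [if_pos h1, if_pos h2, if_pos ⟨h1, h2⟩]
      · have h4 : ¬ (Disjoint (F.und x.1) (F.und (F.U ρ)) ∧ Disjoint (F.und x.2) (F.und (F.U ρ))) :=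
          fun h3 => h2 h3.2
        rw [if_neg h2, if_neg h4, mul_zero, zero_mul, zero_mul]
    · have h4 : ¬ (Disjoint (F.und x.1) (F.und (F.U ρ)) ∧ Disjoint (F.und x.2) (F.und (F.U ρ))) :=
        fun h3 => h1 h3.1
      rw [if_neg h1, if_neg h4, zero_mul, zero_mul, zero_mul]
  rw [hR]
  refine Finset.sum_nbij' (fun u => (u τ, u τ')) (fun x => Function.update (Function.update ρ τ x.1) τ' x.2)
    ?_ ?_ ?_ ?_ ?_
  · -- maps into
    intro u hu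
    rw [Finset.mem_filter, Finset.mem_filter, Fr0.mem_TF] at hu
    obtain ⟨⟨⟨hok, hJ, hY⟩, hlr⟩, hCu, hWu, hSu⟩ := hu
    have hn := lnb_nrt F.toFr0 hne u
    rw [hlr] at hn
    have h2 := F.one_le_nrl (u τ)
    have h3 := F.one_le_nrl (u τ')
    have hle : F.nrl (u τ) * F.nrl (u τ') ≤ Y / F.nrt ρ := by
      rw [le_div_iff₀ hn0, ← hn]
      exact hY
    rw [Finset.mem_filter, Finset.mem_filter, Finset.mem_product, Fr0.mem_Fam, Fr0.mem_Fam]
    refine ⟨⟨⟨⟨hok.2.1 τ, ?_, ?_⟩, ⟨hok.2.1 τ', ?_, ?_⟩⟩, hCu.1 τ hτ, hCu.1 τ' hτ', hle, hok.2.2 τ τ' hne⟩, ?_, ?_⟩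
    · intro i hi
      unfold Fr0.cls at hi
      rw [Finset.mem_image] at hi
      obtain ⟨a, ha, rfl⟩ := hi
      rw [Finset.mem_singleton]
      exact hok.1 τ a ha
    · beta_reduce
      nlinarith
    · intro i hi
      unfold Fr0.cls at hi
      rw [Finset.mem_image] at hi
      obtain ⟨a, ha, rfl⟩ := hi
      rw [Finset.mem_singleton]
      exact hok.1 τ' a ha
    · beta_reduce
      nlinarith
    · rw [Finset.disjoint_left]
      intro v hv hv'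
      unfold Fr0.und Fr0.U at hv'
      rw [Finset.mem_image] at hv'
      obtain ⟨a, ha, rfl⟩ := hv'
      rw [Finset.mem_biUnion] at ha
      obtain ⟨σ, -, ha⟩ := ha
      have h5 : σ ≠ τ := by
        rintro rfl
        rw [hρτ] at ha
        exact Finset.notMem_empty _ ha
      have h6 := hlr ▸ ha
      exact Finset.disjoint_left.1 (hok.2.2 τ σ h5.symm) hv
        (Finset.mem_image_of_mem _ (lr_sub F.toFr0 τ τ' u σ h6))
    · rw [Finset.disjoint_left]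
      intro v hv hv'
      unfold Fr0.und Fr0.U at hv'
      rw [Finset.mem_image] at hv'
      obtain ⟨a, ha, rfl⟩ := hv'
      rw [Finset.mem_biUnion] at ha
      obtain ⟨σ, -, ha⟩ := ha
      have h5 : σ ≠ τ' := by
        rintro rfl
        rw [hρτ'] at ha
        exact Finset.notMem_empty _ ha
      have h6 := hlr ▸ ha
      exact Finset.disjoint_left.1 (hok.2.2 τ' σ h5.symm) hv
        (Finset.mem_image_of_mem _ (lr_sub F.toFr0 τ τ' u σ h6))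
  · -- the inverse
    rintro ⟨g, g'⟩ hx
    rw [Finset.mem_filter, Finset.mem_filter, Finset.mem_product, Fr0.mem_Fam, Fr0.mem_Fam] at hx
    obtain ⟨⟨⟨⟨hg, hgc, -⟩, ⟨hg', hgc', -⟩⟩, hz, hz', hle, hdis⟩, hd, hd'⟩ := hx
    dsimp only at hg hgc hg' hgc' hz hz' hle hdis hd hd'
    obtain ⟨u, hudef⟩ : ∃ u, u = Function.update (Function.update ρ τ g) τ' g' := ⟨_, rfl⟩
    have e1 : u τ = g := by
      rw [hudef, Function.update_of_ne hne, Function.update_self]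
    have e2 : u τ' = g' := by
      rw [hudef, Function.update_self]
    have e3 : ∀ σ, σ ≠ τ → σ ≠ τ' → u σ = ρ σ := by
      intro σ hσ hσ'
      rw [hudef, Function.update_of_ne hσ', Function.update_of_ne hσ]
    have huok : F.TOk u := by
      refine ⟨fun σ a ha => ?_, fun σ => ?_, fun σ σ' hσ => ?_⟩
      · by_cases h1 : σ = τ
        · rw [h1] at ha ⊢
          rw [e1] at ha
          exact Finset.mem_singleton.1 (hgc (Finset.mem_image_of_mem _ ha))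
        by_cases h2 : σ = τ'
        · rw [h2] at ha ⊢
          rw [e2] at ha
          exact Finset.mem_singleton.1 (hgc' (Finset.mem_image_of_mem _ ha))
        · rw [e3 σ h1 h2] at ha
          exact hρok.1 σ a ha
      · by_cases h1 : σ = τ
        · rw [h1, e1]
          exact hg
        by_cases h2 : σ = τ'
        · rw [h2, e2]
          exact hg'
        · rw [e3 σ h1 h2]
          exact hρok.2.1 σ
      · by_cases h1 : σ = τ
        · rw [h1, e1]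
          by_cases h2 : σ' = τ'
          · rw [h2, e2]
            exact hdis
          · rw [e3 σ' (fun h3 => hσ (h1.trans h3.symm)) h2]
            exact hd.mono_right (lnb_und F.toFr0 ρ σ')
        by_cases h2 : σ = τ'
        · rw [h2, e2]
          by_cases h3 : σ' = τ
          · rw [h3, e1]
            exact hdis.symm
          · rw [e3 σ' h3 (fun h4 => hσ (h2.trans h4.symm))]
            exact hd'.mono_right (lnb_und F.toFr0 ρ σ')
        · rw [e3 σ h1 h2]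
          by_cases h3 : σ' = τ
          · rw [h3, e1]
            exact (hd.mono_right (lnb_und F.toFr0 ρ σ)).symm
          by_cases h4 : σ' = τ'
          · rw [h4, e2]
            exact (hd'.mono_right (lnb_und F.toFr0 ρ σ)).symm
          · rw [e3 σ' h3 h4]
            exact hρok.2.2 σ σ' hσ
    have hlr : lr F.toFr0 τ τ' u = ρ := by
      funext σ
      by_cases h1 : σ = τ
      · rw [h1, lr_tau, hρτ]
      by_cases h2 : σ = τ'
      · rw [h2, lr_tau', hρτ']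
      · rw [lr_eq F.toFr0 τ τ' u h1 h2, e3 σ h1 h2]
    have hrs : F.rs Lᶜ u = F.rs Lᶜ u₀ := by
      funext σ
      unfold Fr0.rs
      by_cases h1 : σ ∈ Lᶜ
      · rw [if_pos h1, if_pos h1]
        rw [Finset.mem_compl] at h1
        have h2 : σ ≠ τ := fun h3 => h1 (h3 ▸ hτ)
        have h3 : σ ≠ τ' := fun h4 => h1 (h4 ▸ hτ')
        rw [e3 σ h2 h3, hρne σ h2 h3]
      · rw [if_neg h1, if_neg h1]
    have hout : ∀ σ, σ ∉ L → u σ = u₀ σ := by
      intro σ h1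
      have h2 : σ ≠ τ := fun h3 => h1 (h3 ▸ hτ)
      have h3 : σ ≠ τ' := fun h4 => h1 (h4 ▸ hτ')
      rw [e3 σ h2 h3, hρne σ h2 h3]
    have hcls : F.cls (F.U u) = F.cls (F.U u₀) := by
      refine lnb_cls_congr F.toFr0 u u₀ huok hu₀.1 fun σ => ?_
      by_cases h1 : σ = τ
      · rw [h1, e1]
        exact ⟨fun _ => lnb_ne F.toFr0 _ _ hZ (hC.1 τ hτ), fun _ => lnb_ne F.toFr0 _ _ hZ hz⟩
      by_cases h2 : σ = τ'
      · rw [h2, e2]
        exact ⟨fun _ => lnb_ne F.toFr0 _ _ hZ (hC.1 τ' hτ'), fun _ => lnb_ne F.toFr0 _ _ hZ hz'⟩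
      · rw [e3 σ h1 h2, hρne σ h1 h2]
    dsimp only
    rw [← hudef, Finset.mem_filter, Finset.mem_filter, Fr0.mem_TF]
    refine ⟨⟨⟨huok, fun σ hσ => ?_, ?_⟩, hlr⟩, ⟨fun σ hσ => ?_, fun σ hσ => ?_, fun k' hk' => ?_⟩, ?_, ?_⟩
    · have h1 : σ ≠ τ := by
        rintro rfl
        exact hσ hJτ
      have h2 : σ ≠ τ' := by
        rintro rfl
        exact hσ hJτ'
      rw [e3 σ h1 h2, hρne σ h1 h2]
      exact hu₀.2.1 σ hσ
    · rw [lnb_nrt F.toFr0 hne u, hlr, e1, e2]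
      rwa [le_div_iff₀ hn0] at hle
    · by_cases h1 : σ = τ
      · rw [h1, e1]
        exact hz
      by_cases h2 : σ = τ'
      · rw [h2, e2]
        exact hz'
      · rw [e3 σ h1 h2, hρne σ h1 h2]
        exact hC.1 σ hσ
    · rw [hout σ hσ]
      exact hC.2.1 σ hσ
    · obtain ⟨σ, hσ, h1, h2⟩ := hC.2.2 k' hk'
      exact ⟨σ, hσ, by rw [hout σ hσ]; exact h1, by rw [hout σ hσ]; exact h2⟩
    · rw [hrs]
      exact hW
    · rw [hcls]
      exact hS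
  · intro u hu
    rw [Finset.mem_filter, Finset.mem_filter] at hu
    dsimp only
    funext σ
    by_cases h2 : σ = τ'
    · rw [h2, Function.update_self]
    by_cases h1 : σ = τ
    · rw [h1, Function.update_of_ne hne, Function.update_self]
    · rw [Function.update_of_ne h2, Function.update_of_ne h1, ← hu.1.2, lr_eq F.toFr0 τ τ' u h1 h2]
  · rintro ⟨g, g'⟩ _
    dsimp only
    rw [Function.update_self, Function.update_of_ne hne, Function.update_self]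
  · intro u hu
    rw [Finset.mem_filter, Finset.mem_filter, Fr0.mem_TF] at hu
    obtain ⟨⟨⟨hok, hJ, hY⟩, hlr⟩, hCu, hWu, hSu⟩ := hu
    have hu' : Function.update (Function.update ρ τ (u τ)) τ' (u τ') = u := by
      funext σ
      by_cases h2 : σ = τ'
      · rw [h2, Function.update_self]
      by_cases h1 : σ = τ
      · rw [h1, Function.update_of_ne hne, Function.update_self]
      · rw [Function.update_of_ne h2, Function.update_of_ne h1, ← hlr, lr_eq F.toFr0 τ τ' u h1 h2]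
    have hPh := hAB (u τ) (u τ') (hu'.symm ▸ hok)
    rw [hu'] at hPh
    have ht := lnb_tot2 F.toFr0 hne u hok
    rw [hlr] at ht
    dsimp only
    rw [ht, hPh, ep_add X.hp, ep_add X.hp, ep_add X.hp]
    ring

end

theorem lnkb (X : CD) (K : Type) [Field K] [NumberField K] (d : ℕ) (hA2 : AN2 K d) (hA3 : AN3a K) :
    ∃ (C : ℝ) (A : ℕ) (δ : ℝ), 1 ≤ C ∧ 0 < δ ∧ δ ≤ 1 / 4 ∧ ∀ F : Fr X K, F.d ≤ d → ∀ (J : Finset (Fin X.N))
      (c : F.C) (h : (F.R → ZMod X.p) → ℂ), (∀ x, ‖h x‖ ≤ 1) → ∀ (Z : ℝ) (R k : ℕ) (L : Finset X.Ty)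
      (W : (X.Ty → Finset F.Lb) → Prop), 1 ≤ Z → 1 ≤ R → (∃ τ ∈ L, ∃ τ' ∈ L, X.lk τ τ') →
      ∀ Y : ℝ, 1 ≤ Y → ‖F.SS J c h Z R k L W Y‖ ≤
        C * (F.qq * F.D) ^ A * Y * Z ^ (-δ) * (1 + Real.log Y) ^ A := by
  obtain ⟨C₁, A₁, δ, hC₁, hδ, hδ', H₁⟩ := lnka X K d hA2
  obtain ⟨C₂, A₂, hC₂, H₂⟩ := trv X K hA3 d 1 le_rfl
  refine ⟨C₁ * C₂, A₁ + A₂, δ, by nlinarith, hδ, hδ', fun F hF J c h hh Z R k L W hZ hR hlk Y hY => ?_⟩
  obtain ⟨τ, hτ, τ', hτ', hl⟩ := hlk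
  have hne : τ ≠ τ' := by
    rintro rfl
    apply hl
    rw [sub_self]
    exact X.van_zero _ _
  have hlv0 : lv Z R 0 = Z := by
    unfold lv
    rw [pow_zero, pow_one]
  have hlv : Z ≤ lv Z R (k + 1) := by
    have h1 := lv_mono Z hZ R hR (Nat.zero_le (k + 1))
    rwa [hlv0] at h1
  have hz1 : 1 ≤ lv Z R (k + 1) := hZ.trans hlv
  have hD := F.one_le_D
  have hq := F.one_le_qq
  have hqD : 1 ≤ F.qq * F.D := by nlinarith
  have hlog : 1 ≤ 1 + Real.log Y := by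
    have := Real.log_nonneg hY
    linarith
  -- the sum over `ρ`
  have hsum : F.SS J c h Z R k L W Y = ∑ ρ ∈ F.TF J Y,
      ∑ u ∈ (F.TF J Y).filter (fun u => lr F.toFr0 τ τ' u = ρ), if PP F.toFr0 c Z R k L W u then
      h (F.tot (F.U u)) * ep X.p (F.Ph c u) else 0 := by
    rw [Finset.sum_fiberwise_of_maps_to (fun u hu => lr_TF F.toFr0 hne J Y u hu)]
    unfold Fr0.SS
    exact Finset.sum_congr rfl fun u _ => if_congr Iff.rfl rfl rfl
  have hbd : ∀ ρ ∈ F.TF J Y,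
      ‖∑ u ∈ (F.TF J Y).filter (fun u => lr F.toFr0 τ τ' u = ρ), if PP F.toFr0 c Z R k L W u then
      h (F.tot (F.U u)) * ep X.p (F.Ph c u) else 0‖ ≤
      C₁ * (F.qq * F.D) ^ A₁ * Y * Z ^ (-δ) * (1 + Real.log Y) ^ A₁ * ((1 : ℝ) ^ (F.U ρ).card / F.nrt ρ) := by
    intro ρ hρ
    have hn1 := F.one_le_nrt ρ
    have hn0 : 0 < F.nrt ρ := by linarith
    have hpos : 0 ≤ C₁ * (F.qq * F.D) ^ A₁ * Y * Z ^ (-δ) * (1 + Real.log Y) ^ A₁ *
        ((1 : ℝ) ^ (F.U ρ).card / F.nrt ρ) := by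
      have h1 : 0 ≤ Z ^ (-δ) := Real.rpow_nonneg (by linarith) _
      positivity
    rcases lnb_inner F J c h Z R k L W hz1 τ τ' hτ hτ' hne Y ρ with h0 | ⟨hYY, α, β, hα, hβ, heq⟩
    · rw [h0, norm_zero]
      exact hpos
    · rw [heq]
      refine (H₁ F hF c τ.1.1 τ'.1.1 (τ.1.2 - τ'.1.2) hl α β
        (fun x y => h (x + y + F.tot (F.U ρ)) * ep X.p (Gf F c τ'.1.2 (x + y))) hα hβ ?_
        (lv Z R (k + 1)) (Y / F.nrt ρ) hz1 hYY).trans ?_
      · intro x y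
        beta_reduce
        rw [norm_mul, ep_norm, mul_one]
        exact hh _
      · rw [one_pow, mul_one_div, le_div_iff₀ hn0]
        have h1 : (lv Z R (k + 1)) ^ (-δ) ≤ Z ^ (-δ) :=
          Real.rpow_le_rpow_of_nonpos (by linarith) hlv (by linarith)
        have h2 : Real.log (Y / F.nrt ρ) ≤ Real.log Y := by
          refine Real.log_le_log (by linarith) ?_
          exact div_le_self (by linarith) hn1
        have h3 : 0 ≤ Real.log (Y / F.nrt ρ) := Real.log_nonneg hYY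
        have h4 : (1 + Real.log (Y / F.nrt ρ)) ^ A₁ ≤ (1 + Real.log Y) ^ A₁ :=
          pow_le_pow_left₀ (by linarith) (by linarith) _
        have h5 : 0 ≤ (lv Z R (k + 1)) ^ (-δ) := Real.rpow_nonneg (by linarith) _
        have h6 : C₁ * (F.qq * F.D) ^ A₁ * (Y / F.nrt ρ) * (lv Z R (k + 1)) ^ (-δ) *
            (1 + Real.log (Y / F.nrt ρ)) ^ A₁ * F.nrt ρ =
            C₁ * (F.qq * F.D) ^ A₁ * Y * ((lv Z R (k + 1)) ^ (-δ) * (1 + Real.log (Y / F.nrt ρ)) ^ A₁) := by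
          field_simp
        rw [h6, mul_assoc (C₁ * (F.qq * F.D) ^ A₁ * Y) (Z ^ (-δ))]
        refine mul_le_mul_of_nonneg_left ?_ (by positivity)
        exact mul_le_mul h1 h4 (pow_nonneg (by linarith) _) (h5.trans h1)
  rw [hsum]
  refine (norm_sum_le _ _).trans ((Finset.sum_le_sum hbd).trans ?_)
  rw [← Finset.mul_sum]
  have h2 := (H₂ F hF J Y hY).2
  have hZ0 : 0 ≤ Z ^ (-δ) := Real.rpow_nonneg (by linarith) _
  have h3 : (F.qq * F.D) ^ A₁ ≤ (F.qq * F.D) ^ (A₁ + A₂) := pow_le_pow_right₀ hqD (Nat.le_add_right _ _)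
  calc C₁ * (F.qq * F.D) ^ A₁ * Y * Z ^ (-δ) * (1 + Real.log Y) ^ A₁ *
        ∑ ρ ∈ F.TF J Y, (1 : ℝ) ^ (F.U ρ).card / F.nrt ρ
      ≤ C₁ * (F.qq * F.D) ^ A₁ * Y * Z ^ (-δ) * (1 + Real.log Y) ^ A₁ * (C₂ * (1 + Real.log Y) ^ A₂) :=
        mul_le_mul_of_nonneg_left h2 (by positivity)
    _ = (F.qq * F.D) ^ A₁ * (C₁ * C₂ * Y * Z ^ (-δ) * (1 + Real.log Y) ^ (A₁ + A₂)) := by
        rw [pow_add]
        ring
    _ ≤ (F.qq * F.D) ^ (A₁ + A₂) * (C₁ * C₂ * Y * Z ^ (-δ) * (1 + Real.log Y) ^ (A₁ + A₂)) :=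
        mul_le_mul_of_nonneg_right h3 (by positivity)
    _ = C₁ * C₂ * (F.qq * F.D) ^ (A₁ + A₂) * Y * Z ^ (-δ) * (1 + Real.log Y) ^ (A₁ + A₂) := by ring

end H51.MM
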