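import Pool.Agent.H51.MM.SngA
import Pool.Agent.H51.MM.Few

/-!
# [H51 MM NG0] A nontrivial class character on one class (80-120 lines)

`N = X.N ≥ 1` (because of `j₀`). `g = g' ∪ s`, `g'` without class `j₀`, `s` of class `j₀`, `und` disjoint. `Z = (log Y) ^ B`.
(1) `nrl g' ≤ Y / Z`: for fixed `g'` the sum over `s ∈ Fam {j₀} (Y / nrl g')` disjoint from `g'` of `∏_{a ∈ s} ep (κ ⬝ᵥ qv a)` is (`snga` with `σ = ∅`, `θ₀ = 0`, `z = 1`,
`B = und g'`, plus the term `s = ∅`; `ch κ c 0 ∅ θ a = κ ⬝ᵥ qv a`; if `F.C` is empty choose the analogous statement directly from `F.chr`: assume `c : F.C` is given)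
`≤ C_F C^#g' (Y / nrl g')^(1 - δ) ≤ C_F C^#g' (Y / nrl g') Z^(-δ)`; sum over `g'` with `‖W g'‖ ≤ P ^ #g'`: `trf`: `≤ C Y Z^(-δ) (1 + log Y)^A ≤ C Y / log Y` for `B` large.
(2) `nrl g' > Y / Z`: then `nrl s < Z`, and for fixed `s` the sum over `g' ∈ Fam (univ.erase j₀) (Y / nrl s)` of `‖W g'‖` is `≤ C 3 (Y / nrl s) (log Y)^(N - 2)` (`hW2`; for
`Y / nrl s < 3` use the bound at `3`), and `∑_s 1 / nrl s ≤ C (1 + log Z)^A` (`trf` with `Y = Z`). Total `o (Y (log Y)^(N - 1))`. If `N = 1`: `g' = ∅`, `nrl g' = 1 ≤ Y / Z`.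
-/

set_option autoImplicit false

open scoped NumberField
open IsDedekindDomain NumberField H63.MA H36.QA Filter Topology
open scoped Classical

noncomputable section

namespace H51.MM

section ng0s

variable {X : CD} {K : Type} [Field K] [NumberField K]

private theorem g0_log3 : 1 ≤ Real.log 3 := by
  rw [Real.le_log_iff_exp_le (by norm_num)]
  exact Real.exp_one_lt_three.le

private theorem g0_ok (F : Fr0 X K) {g g' : Finset F.Lb} (hg : F.Ok g) (h : g' ⊆ g) : F.Ok g' :=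
  ⟨fun a ha => hg.1 a (h ha), fun a ha b hb => hg.2 a (h ha) b (h hb)⟩

private theorem g0_nrl (F : Fr0 X K) (j : Fin X.N) (g : Finset F.Lb) :
    F.nrl g = F.nrl (g.filter fun a => a.1 ≠ j) * F.nrl (g.filter fun a => a.1 = j) := by
  unfold Fr0.nrl
  rw [mul_comm]
  exact (Finset.prod_filter_mul_prod_filter_not g (fun a => a.1 = j) _).symm

private theorem g0_split (F : Fr0 X K) (j : Fin X.N) (Y : ℝ) (f : Finset F.Lb → Finset F.Lb → ℂ) :
    ∑ g ∈ F.Fam Finset.univ Y, f (g.filter fun a => a.1 ≠ j) (g.filter fun a => a.1 = j) =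
      ∑ g' ∈ F.Fam (Finset.univ.erase j) Y, ∑ s ∈ F.Fam {j} (Y / F.nrl g'),
        if Disjoint (F.und s) (F.und g') then f g' s else 0 := by
  rw [Finset.sum_sigma' (F.Fam (Finset.univ.erase j) Y) (fun g' => F.Fam {j} (Y / F.nrl g'))
    (fun g' s => if Disjoint (F.und s) (F.und g') then f g' s else 0), ← Finset.sum_filter]
  have hcl : ∀ (J : Finset (Fin X.N)) (g : Finset F.Lb), F.cls g ⊆ J ↔ ∀ a ∈ g, a.1 ∈ J := by
    intro J g
    unfold Fr0.cls
    rw [Finset.image_subset_iff]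
  have hmem : ∀ x ∈ ((F.Fam (Finset.univ.erase j) Y).sigma fun g' => F.Fam {j} (Y / F.nrl g')).filter
      (fun x => Disjoint (F.und x.2) (F.und x.1)), F.Ok x.1 ∧ F.Ok x.2 ∧ (∀ a ∈ x.1, a.1 ≠ j) ∧
        (∀ a ∈ x.2, a.1 = j) ∧ F.nrl x.2 ≤ Y / F.nrl x.1 ∧ ∀ a ∈ x.2, ∀ b ∈ x.1, F.un a ≠ F.un b := by
    intro x hx
    rw [Finset.mem_filter, Finset.mem_sigma, F.mem_Fam, F.mem_Fam, hcl, hcl] at hx
    obtain ⟨⟨⟨h1, h2, h3⟩, h4, h5, h6⟩, h7⟩ := hx
    refine ⟨h1, h4, fun a ha => Finset.ne_of_mem_erase (h2 a ha), fun a ha => Finset.mem_singleton.1 (h5 a ha), h6,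
      fun a ha b hb hab => ?_⟩
    refine Finset.disjoint_left.1 h7 (Finset.mem_image_of_mem _ ha) ?_
    rw [hab]
    exact Finset.mem_image_of_mem _ hb
  refine Finset.sum_nbij' (fun g => ⟨g.filter fun a => a.1 ≠ j, g.filter fun a => a.1 = j⟩) (fun x => x.1 ∪ x.2)
    ?_ ?_ ?_ ?_ ?_
  · intro g hg
    rw [F.mem_Fam] at hg
    obtain ⟨h1, -, h3⟩ := hg
    have hn := g0_nrl F j g
    have hn1 := F.one_le_nrl (g.filter fun a => a.1 ≠ j)
    have hn2 := F.one_le_nrl (g.filter fun a => a.1 = j)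
    refine Finset.mem_filter.2 ⟨Finset.mem_sigma.2 ⟨(F.mem_Fam _ _ _).2 ⟨g0_ok F h1 (Finset.filter_subset _ _), ?_, ?_⟩,
      (F.mem_Fam _ _ _).2 ⟨g0_ok F h1 (Finset.filter_subset _ _), ?_, ?_⟩⟩, ?_⟩
    · rw [hcl]
      intro a ha
      exact Finset.mem_erase.2 ⟨(Finset.mem_filter.1 ha).2, Finset.mem_univ _⟩
    · show F.nrl (g.filter fun a => a.1 ≠ j) ≤ Y
      nlinarith
    · rw [hcl]
      intro a ha
      exact Finset.mem_singleton.2 (Finset.mem_filter.1 ha).2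
    · show F.nrl (g.filter fun a => a.1 = j) ≤ Y / F.nrl (g.filter fun a => a.1 ≠ j)
      rw [le_div_iff₀ (by linarith), mul_comm, ← hn]
      exact h3
    · rw [Finset.disjoint_left]
      intro v hv hv'
      obtain ⟨a, ha, rfl⟩ := Finset.mem_image.1 hv
      obtain ⟨b, hb, hab⟩ := Finset.mem_image.1 hv'
      have ha' := Finset.mem_filter.1 ha
      have hb' := Finset.mem_filter.1 hb
      refine h1.2 b hb'.1 a ha'.1 ?_ hab
      rintro rfl
      exact hb'.2 ha'.2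
  · intro x hx
    obtain ⟨h1, h2, h3, h4, h5, h6⟩ := hmem x hx
    have hd : Disjoint x.1 x.2 := by
      rw [Finset.disjoint_left]
      intro a ha ha'
      exact h6 a ha' a ha rfl
    rw [F.mem_Fam]
    refine ⟨⟨?_, ?_⟩, Finset.subset_univ _, ?_⟩
    · intro a ha
      rcases Finset.mem_union.1 ha with h | h
      · exact h1.1 a h
      · exact h2.1 a h
    · intro a ha b hb hab
      rcases Finset.mem_union.1 ha with h | h <;> rcases Finset.mem_union.1 hb with h' | h'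
      · exact h1.2 a h b h' hab
      · exact (h6 b h' a h).symm
      · exact h6 a h b h'
      · exact h2.2 a h b h' hab
    · have e : F.nrl (x.1 ∪ x.2) = F.nrl x.1 * F.nrl x.2 := by
        unfold Fr0.nrl
        rw [Finset.prod_union hd]
      rw [e]
      have h7 := F.one_le_nrl x.1
      rw [le_div_iff₀ (by linarith)] at h5
      linarith
  · intro g _
    ext a
    rw [Finset.mem_union, Finset.mem_filter, Finset.mem_filter]
    tauto
  · intro x hx
    obtain ⟨h1, h2, h3, h4, h5, h6⟩ := hmem x hx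
    have e1 : (x.1 ∪ x.2).filter (fun a => a.1 ≠ j) = x.1 := by
      ext a
      rw [Finset.mem_filter, Finset.mem_union]
      constructor
      · rintro ⟨h | h, h'⟩
        · exact h
        · exact absurd (h4 a h) h'
      · exact fun h => ⟨Or.inl h, h3 a h⟩
    have e2 : (x.1 ∪ x.2).filter (fun a => a.1 = j) = x.2 := by
      ext a
      rw [Finset.mem_filter, Finset.mem_union]
      constructor
      · rintro ⟨h | h, h'⟩
        · exact absurd h' (h3 a h)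
        · exact h
      · exact fun h => ⟨Or.inr h, h4 a h⟩
    exact Sigma.ext e1 (heq_of_eq e2)
  · intro g _
    rfl

/-- the sum over the families of class `j` -/
private def g0T (F : Fr X K) (j : Fin X.N) (κ : F.R → ZMod X.p) (B : Finset (Pl K)) (Y : ℝ) : ℂ :=
  ∑ s ∈ F.Fam {j} Y, if Disjoint (F.und s) B then ∏ a ∈ s, ep X.p (κ ⬝ᵥ F.qv a) else 0

private theorem g0_inner (F : Fr X K) (hA1 : AN1 K F.d) (c : F.C) (j : Fin X.N) (κ : F.R → ZMod X.p)
    (hκ : F.NT j fun a => κ ⬝ᵥ F.qv a) : ∃ C δ : ℝ, 1 ≤ C ∧ 0 < δ ∧ δ ≤ 1 / 4 ∧ ∀ (B : Finset (Pl K)) (Y : ℝ), 1 ≤ Y →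
      ‖g0T F j κ B Y‖ ≤ C * C ^ B.card * Y ^ (1 - δ) := by
  obtain ⟨C, A, δ, hC, hδ, hδ4, h⟩ := snga X K F.d hA1
  have hq : 1 ≤ F.qq ^ A := one_le_pow₀ F.one_le_qq
  have hD : 1 ≤ F.D ^ A := one_le_pow₀ F.one_le_D
  have hCC : C ≤ C * F.qq ^ A * F.D ^ A := by
    have h1 : 1 ≤ F.qq ^ A * F.D ^ A := one_le_mul_of_one_le_of_one_le hq hD
    nlinarith
  obtain ⟨C', hC'⟩ : ∃ C', C' = 1 + C * F.qq ^ A * F.D ^ A := ⟨_, rfl⟩
  have hCC' : C ≤ C' := by linarith
  have hC'1 : 1 ≤ C' := hC.trans hCC'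
  refine ⟨C', δ, hC'1, hδ, hδ4, ?_⟩
  intro B Y hY
  have hch : ∀ a, F.ch κ c 0 ∅ (fun _ => 0) a = κ ⬝ᵥ F.qv a := by
    intro a
    unfold Fr0.ch
    rw [zero_dotProduct, add_zero, Finset.sum_empty, add_zero]
  have h1 := h F le_rfl j κ c 0 ∅ (fun _ => 0) (X.van_zero j j) (fun b hb => absurd hb (Finset.notMem_empty b))
    (by
      have e : F.ch κ c 0 ∅ (fun _ => 0) = fun a => κ ⬝ᵥ F.qv a := funext hch
      rw [e]
      exact hκ) B (by
      unfold Fr0.und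
      rw [Finset.image_empty]
      exact Finset.empty_subset _) 1 Y le_rfl hY
  simp only [hch] at h1
  have hnr : nr (F.und (∅ : Finset F.Lb)) = 1 := by
    unfold Fr0.und nr
    rw [Finset.image_empty, Finset.prod_empty]
  rw [hnr, mul_one] at h1
  have hs : g0T F j κ B Y = (∑ g ∈ F.Fam {j} Y, if 1 < F.nrl g ∧ Disjoint (F.und g) B then
        ∏ a ∈ g, ep X.p (κ ⬝ᵥ F.qv a) else 0) + ∑ g ∈ F.Fam {j} Y, if g = ∅ then 1 else 0 := by
    unfold g0T
    rw [← Finset.sum_add_distrib]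
    refine Finset.sum_congr rfl fun g _ => ?_
    rcases g.eq_empty_or_nonempty with rfl | hg
    · have e1 : F.nrl (∅ : Finset F.Lb) = 1 := Finset.prod_empty
      have e2 : F.und (∅ : Finset F.Lb) = ∅ := Finset.image_empty _
      have e3 : Disjoint (F.und (∅ : Finset F.Lb)) B := by
        rw [e2]
        exact Finset.disjoint_empty_left _
      have e4 : ¬ (1 < F.nrl (∅ : Finset F.Lb) ∧ Disjoint (F.und (∅ : Finset F.Lb)) B) := by
        intro h
        rw [e1] at h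
        exact lt_irrefl _ h.1
      rw [if_pos e3, if_neg e4, if_pos rfl, zero_add, Finset.prod_empty]
    · obtain ⟨a, ha⟩ := hg
      have h2 : 1 < F.nrl g := (F.one_lt_lb a).trans_le (F.le_nrl g a ha)
      have h3 : g ≠ ∅ := fun h => by rw [h] at ha; exact absurd ha (Finset.notMem_empty _)
      rw [if_neg h3, add_zero]
      by_cases h4 : Disjoint (F.und g) B
      · rw [if_pos h4, if_pos ⟨h2, h4⟩]
      · rw [if_neg h4, if_neg fun h5 => h4 h5.2]
  have h2 : ‖∑ g ∈ F.Fam {j} Y, if g = ∅ then (1 : ℂ) else 0‖ ≤ 1 := by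
    rw [Finset.sum_ite_eq']
    split_ifs
    · rw [norm_one]
    · rw [norm_zero]
      exact zero_le_one
  rw [hs]
  refine (norm_add_le _ _).trans ((add_le_add h1 h2).trans ?_)
  have hp : 1 ≤ Y ^ (1 - δ) := Real.one_le_rpow hY (by linarith)
  have hB : C ^ B.card ≤ C' ^ B.card := pow_le_pow_left₀ (by linarith) hCC' _
  have hB1 : 1 ≤ C' ^ B.card := one_le_pow₀ hC'1
  have hB2 : 1 ≤ C' ^ B.card * Y ^ (1 - δ) := one_le_mul_of_one_le_of_one_le hB1 hp
  calc C * F.qq ^ A * C ^ B.card * F.D ^ A * Y ^ (1 - δ) + 1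
      = C * F.qq ^ A * F.D ^ A * (C ^ B.card * Y ^ (1 - δ)) + 1 := by ring
    _ ≤ C * F.qq ^ A * F.D ^ A * (C' ^ B.card * Y ^ (1 - δ)) + C' ^ B.card * Y ^ (1 - δ) := by
        refine add_le_add (mul_le_mul_of_nonneg_left ?_ (by linarith)) hB2
        exact mul_le_mul_of_nonneg_right hB (by linarith)
    _ = C' * C' ^ B.card * Y ^ (1 - δ) := by rw [hC']; ring

/-- small `nrl g'` -/
private theorem g0_small (F : Fr X K) (hA3 : AN3a K) (j : Fin X.N) (κ : F.R → ZMod X.p) (C δ : ℝ) (hC : 1 ≤ C)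
    (hδ : 0 < δ) (hT : ∀ (B : Finset (Pl K)) (Y : ℝ), 1 ≤ Y → ‖g0T F j κ B Y‖ ≤ C * C ^ B.card * Y ^ (1 - δ))
    (W : Finset F.Lb → ℂ) (P : ℝ) (hP : 1 ≤ P) (hW1 : ∀ g, ‖W g‖ ≤ P ^ g.card) :
    ∃ (C' : ℝ) (A : ℕ), 0 ≤ C' ∧ ∀ Y Z : ℝ, 1 ≤ Y → 1 ≤ Z →
      ‖∑ g ∈ (F.Fam (Finset.univ.erase j) Y).filter (fun g => F.nrl g ≤ Y / Z),
        W g * g0T F j κ (F.und g) (Y / F.nrl g)‖ ≤ C' * Y * Z ^ (-δ) * (1 + Real.log Y) ^ A := by
  obtain ⟨C₂, A, hC₂, h⟩ := trf X K hA3 F.d (P * C) (one_le_mul_of_one_le_of_one_le hP hC)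
  refine ⟨C * C₂, A, by positivity, ?_⟩
  intro Y Z hY hZ
  have h1 : ∀ g ∈ (F.Fam (Finset.univ.erase j) Y).filter (fun g => F.nrl g ≤ Y / Z),
      ‖W g * g0T F j κ (F.und g) (Y / F.nrl g)‖ ≤ C * Y * Z ^ (-δ) * ((P * C) ^ g.card / F.nrl g) := by
    intro g hg
    rw [Finset.mem_filter, F.mem_Fam] at hg
    obtain ⟨⟨hok, -, -⟩, hn⟩ := hg
    have hn1 := F.one_le_nrl g
    have hZ0 : 0 < Z := by linarith
    have hg0 : 0 < F.nrl g := by linarith
    have hZY : Z ≤ Y / F.nrl g := by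
      rw [le_div_iff₀ hZ0] at hn
      rw [le_div_iff₀ hg0]
      linarith
    have h2 := hT (F.und g) (Y / F.nrl g) (hZ.trans hZY)
    rw [ok_card F.toFr0 g hok] at h2
    have hYn : 0 < Y / F.nrl g := by positivity
    have h3 : (Y / F.nrl g) ^ (1 - δ) ≤ Y / F.nrl g * Z ^ (-δ) := by
      rw [sub_eq_add_neg, Real.rpow_add hYn, Real.rpow_one]
      refine mul_le_mul_of_nonneg_left ?_ hYn.le
      exact Real.rpow_le_rpow_of_nonpos hZ0 hZY (by linarith)
    rw [norm_mul]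
    calc ‖W g‖ * ‖g0T F j κ (F.und g) (Y / F.nrl g)‖ ≤ P ^ g.card * (C * C ^ g.card * (Y / F.nrl g) ^ (1 - δ)) :=
          mul_le_mul (hW1 g) h2 (norm_nonneg _) (by positivity)
      _ ≤ P ^ g.card * (C * C ^ g.card * (Y / F.nrl g * Z ^ (-δ))) := by
          refine mul_le_mul_of_nonneg_left ?_ (by positivity)
          exact mul_le_mul_of_nonneg_left h3 (by positivity)
      _ = C * Y * Z ^ (-δ) * ((P * C) ^ g.card / F.nrl g) := by
          rw [mul_pow]
          ring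
  have h2 := (h F le_rfl (Finset.univ.erase j) Y hY).2
  have hZδ : 0 ≤ Z ^ (-δ) := Real.rpow_nonneg (by linarith) _
  calc _ ≤ ∑ g ∈ (F.Fam (Finset.univ.erase j) Y).filter (fun g => F.nrl g ≤ Y / Z),
        C * Y * Z ^ (-δ) * ((P * C) ^ g.card / F.nrl g) := (norm_sum_le _ _).trans (Finset.sum_le_sum h1)
    _ ≤ ∑ g ∈ F.Fam (Finset.univ.erase j) Y, C * Y * Z ^ (-δ) * ((P * C) ^ g.card / F.nrl g) := by
        refine Finset.sum_le_sum_of_subset_of_nonneg (Finset.filter_subset _ _) fun g _ _ => ?_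
        have := F.one_le_nrl g
        positivity
    _ = C * Y * Z ^ (-δ) * ∑ g ∈ F.Fam (Finset.univ.erase j) Y, ((P * C) ^ g.card / F.nrl g) := by
        rw [Finset.mul_sum]
    _ ≤ C * Y * Z ^ (-δ) * (C₂ * (1 + Real.log Y) ^ A) := mul_le_mul_of_nonneg_left h2 (by positivity)
    _ = C * C₂ * Y * Z ^ (-δ) * (1 + Real.log Y) ^ A := by ring

private theorem g0T_norm (F : Fr X K) (j : Fin X.N) (κ : F.R → ZMod X.p) (B : Finset (Pl K)) (Y : ℝ) :
    ‖g0T F j κ B Y‖ ≤ ∑ _s ∈ F.Fam {j} Y, 1 := by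
  unfold g0T
  refine (norm_sum_le _ _).trans (Finset.sum_le_sum fun s _ => ?_)
  split_ifs
  · rw [norm_prod]
    exact Finset.prod_le_one (fun _ _ => norm_nonneg _) fun a _ => (ep_norm _ _).le
  · rw [norm_zero]
    exact zero_le_one

/-- large `nrl g'` -/
private theorem g0_large (F : Fr X K) (hA3 : AN3a K) (j : Fin X.N) (κ : F.R → ZMod X.p)
    (W : Finset F.Lb → ℂ) (m : ℕ) (C : ℝ) (hW2 : ∀ Y : ℝ, 3 ≤ Y →
      ∑ g ∈ F.Fam (Finset.univ.erase j) Y, ‖W g‖ ≤ C * (Y * Real.log Y ^ m)) :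
    ∃ (C' : ℝ) (A : ℕ), 0 ≤ C' ∧ ∀ Y Z : ℝ, 3 ≤ Y → 1 ≤ Z →
      ‖∑ g ∈ (F.Fam (Finset.univ.erase j) Y).filter (fun g => ¬ F.nrl g ≤ Y / Z),
        W g * g0T F j κ (F.und g) (Y / F.nrl g)‖ ≤ C' * (Y * Real.log Y ^ m) * (1 + Real.log Z) ^ A := by
  have hC : 0 ≤ C := by
    have h1 := hW2 3 le_rfl
    have h2 : 0 ≤ ∑ g ∈ F.Fam (Finset.univ.erase j) 3, ‖W g‖ := Finset.sum_nonneg fun _ _ => norm_nonneg _
    have h3 : 0 < 3 * Real.log 3 ^ m := by
      have := g0_log3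
      positivity
    by_contra h4
    push Not at h4
    nlinarith
  obtain ⟨C₃, A, hC₃, h⟩ := trf X K hA3 F.d 1 le_rfl
  refine ⟨3 * C * C₃, A, by positivity, ?_⟩
  intro Y Z hY hZ
  have hl : 1 ≤ Real.log Y := g0_log3.trans (Real.log_le_log (by norm_num) hY)
  have hl0 : 0 ≤ Real.log Y := by linarith
  obtain ⟨G, hG⟩ : ∃ G, G = (F.Fam (Finset.univ.erase j) Y).filter (fun g => ¬ F.nrl g ≤ Y / Z) := ⟨_, rfl⟩
  have hin : ∀ s : Finset F.Lb, ∑ g ∈ F.Fam (Finset.univ.erase j) (Y / F.nrl s), ‖W g‖ ≤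
      3 * C * (Y * Real.log Y ^ m) * (1 / F.nrl s) := by
    intro s
    have hs := F.one_le_nrl s
    have hs0 : 0 < F.nrl s := by linarith
    have hYs : 0 < Y / F.nrl s := by positivity
    have hmono : ∀ t t' : ℝ, t ≤ t' → ∑ g ∈ F.Fam (Finset.univ.erase j) t, ‖W g‖ ≤
        ∑ g ∈ F.Fam (Finset.univ.erase j) t', ‖W g‖ := by
      intro t t' htt
      refine Finset.sum_le_sum_of_subset_of_nonneg (fun g hg => ?_) fun _ _ _ => norm_nonneg _
      rw [F.mem_Fam] at hg ⊢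
      exact ⟨hg.1, hg.2.1, hg.2.2.trans htt⟩
    have e1 : 3 * C * (Y * Real.log Y ^ m) * (1 / F.nrl s) = C * (3 * (Y / F.nrl s) * Real.log Y ^ m) := by ring
    rw [e1]
    have hlm : 0 ≤ Real.log Y ^ m := by positivity
    rcases lt_or_ge (Y / F.nrl s) 1 with h1 | h1
    · have h2 : F.Fam (Finset.univ.erase j) (Y / F.nrl s) = ∅ := by
        rw [Finset.eq_empty_iff_forall_notMem]
        intro g hg
        rw [F.mem_Fam] at hg
        have h3 := F.one_le_nrl g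
        linarith [hg.2.2]
      rw [h2, Finset.sum_empty]
      positivity
    rcases lt_or_ge (Y / F.nrl s) 3 with h2 | h2
    · refine (hmono _ 3 h2.le).trans ((hW2 3 le_rfl).trans (mul_le_mul_of_nonneg_left ?_ hC))
      have h5 : Real.log 3 ^ m ≤ Real.log Y ^ m :=
        pow_le_pow_left₀ (zero_le_one.trans g0_log3) (Real.log_le_log (by norm_num) hY) _
      nlinarith
    · refine (hW2 _ h2).trans (mul_le_mul_of_nonneg_left ?_ hC)
      have h5 : Real.log (Y / F.nrl s) ^ m ≤ Real.log Y ^ m :=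
        pow_le_pow_left₀ (Real.log_nonneg h1) (Real.log_le_log hYs (div_le_self (by linarith) hs)) _
      calc Y / F.nrl s * Real.log (Y / F.nrl s) ^ m ≤ Y / F.nrl s * Real.log Y ^ m :=
            mul_le_mul_of_nonneg_left h5 hYs.le
        _ ≤ 3 * (Y / F.nrl s) * Real.log Y ^ m := mul_le_mul_of_nonneg_right (by linarith) hlm
  have h1 : ∀ g ∈ G, ‖W g * g0T F j κ (F.und g) (Y / F.nrl g)‖ ≤ ∑ _s ∈ F.Fam {j} (Y / F.nrl g), ‖W g‖ := by
    intro g _
    rw [norm_mul]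
    refine (mul_le_mul_of_nonneg_left (g0T_norm F j κ _ _) (norm_nonneg _)).trans (le_of_eq ?_)
    rw [Finset.mul_sum]
    refine Finset.sum_congr rfl fun _ _ => mul_one _
  have h2 : ∑ g ∈ G, ∑ _s ∈ F.Fam {j} (Y / F.nrl g), ‖W g‖ =
      ∑ s ∈ F.Fam {j} Z, ∑ g ∈ G.filter (fun g => F.nrl g ≤ Y / F.nrl s), ‖W g‖ := by
    refine Finset.sum_comm' fun g s => ?_
    rw [F.mem_Fam, F.mem_Fam, Finset.mem_filter, hG, Finset.mem_filter]
    have hn1 := F.one_le_nrl g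
    have hn2 := F.one_le_nrl s
    have hiff : F.nrl s ≤ Y / F.nrl g ↔ F.nrl g ≤ Y / F.nrl s := by
      rw [le_div_iff₀ (by linarith), le_div_iff₀ (by linarith), mul_comm]
    constructor
    · rintro ⟨⟨h3, h4⟩, h5, h6, h7⟩
      refine ⟨⟨⟨h3, h4⟩, hiff.1 h7⟩, h5, h6, ?_⟩
      have h8 := (le_div_iff₀ (show 0 < F.nrl g by linarith)).1 h7
      have h9 : Y < F.nrl g * Z := by
        rw [not_le, div_lt_iff₀ (by linarith)] at h4
        exact h4
      nlinarith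
    · rintro ⟨⟨⟨h3, h4⟩, h5⟩, h6, h7, h8⟩
      exact ⟨⟨h3, h4⟩, h6, h7, hiff.2 h5⟩
  have h3 : ∀ s ∈ F.Fam {j} Z, ∑ g ∈ G.filter (fun g => F.nrl g ≤ Y / F.nrl s), ‖W g‖ ≤
      3 * C * (Y * Real.log Y ^ m) * (1 ^ s.card / F.nrl s) := by
    intro s _
    rw [one_pow]
    refine le_trans ?_ (hin s)
    refine Finset.sum_le_sum_of_subset_of_nonneg (fun g hg => ?_) fun _ _ _ => norm_nonneg _
    rw [Finset.mem_filter, hG, Finset.mem_filter, F.mem_Fam] at hg
    rw [F.mem_Fam]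
    exact ⟨hg.1.1.1, hg.1.1.2.1, hg.2⟩
  rw [← hG]
  refine (norm_sum_le _ _).trans ((Finset.sum_le_sum h1).trans ?_)
  rw [h2]
  refine (Finset.sum_le_sum h3).trans ?_
  rw [← Finset.mul_sum]
  have h4 := (h F le_rfl {j} Z hZ).2
  calc _ ≤ 3 * C * (Y * Real.log Y ^ m) * (C₃ * (1 + Real.log Z) ^ A) := mul_le_mul_of_nonneg_left h4 (by positivity)
    _ = 3 * C * C₃ * (Y * Real.log Y ^ m) * (1 + Real.log Z) ^ A := by ring

private theorem g0_ep {p : ℕ} (hp : p.Prime) {ι : Type} (s : Finset ι) (g : ι → ZMod p) :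
    ep p (∑ a ∈ s, g a) = ∏ a ∈ s, ep p (g a) := by
  induction s using Finset.induction_on with
  | empty => rw [Finset.sum_empty, Finset.prod_empty, ep_zero]
  | insert a s ha ih => rw [Finset.sum_insert ha, Finset.prod_insert ha, ep_add hp, ih]

/-- the whole sum -/
private theorem g0_sum (F : Fr X K) (j : Fin X.N) (κ : F.R → ZMod X.p) (W : Finset F.Lb → ℂ) (Y Z : ℝ) :
    ∑ g ∈ F.Fam Finset.univ Y, W (g.filter fun a => a.1 ≠ j) *
        ep X.p (κ ⬝ᵥ ∑ a ∈ g.filter (fun a => a.1 = j), F.qv a) =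
      ∑ g ∈ (F.Fam (Finset.univ.erase j) Y).filter (fun g => F.nrl g ≤ Y / Z),
        W g * g0T F j κ (F.und g) (Y / F.nrl g) +
      ∑ g ∈ (F.Fam (Finset.univ.erase j) Y).filter (fun g => ¬ F.nrl g ≤ Y / Z),
        W g * g0T F j κ (F.und g) (Y / F.nrl g) := by
  rw [Finset.sum_filter_add_sum_filter_not]
  rw [g0_split F.toFr0 j Y (fun g' s => W g' * ep X.p (κ ⬝ᵥ ∑ a ∈ s, F.qv a))]
  refine Finset.sum_congr rfl fun g' _ => ?_
  unfold g0T
  rw [Finset.mul_sum]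
  refine Finset.sum_congr rfl fun s _ => ?_
  split_ifs
  · rw [dotProduct_sum, g0_ep X.hp]
  · rw [mul_zero]

private theorem g0_lim (B A : ℕ) (K₁ K₂ : ℝ) : Tendsto (fun Y : ℝ =>
    K₁ / Real.log Y + K₂ * ((1 + B * Real.log (Real.log Y)) ^ A / Real.log Y)) atTop (𝓝 0) := by
  have h1 : Tendsto (fun l : ℝ => K₁ / l + K₂ * ((1 + B * Real.log l) ^ A / l)) atTop (𝓝 0) := by
    have h2 : Tendsto (fun l : ℝ => K₁ / l) atTop (𝓝 0) := tendsto_const_nhds.div_atTop tendsto_id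
    have h3 : Tendsto (fun l : ℝ => (1 + B * Real.log l) ^ A / l) atTop (𝓝 0) := by
      have h4 : Tendsto (fun l : ℝ => (1 + (B : ℝ)) ^ A * (Real.log l ^ A / l)) atTop (𝓝 0) := by
        have h5 := (Real.isLittleO_pow_log_id_atTop (n := A)).tendsto_div_nhds_zero
        have h6 := h5.const_mul ((1 + (B : ℝ)) ^ A)
        rw [mul_zero] at h6
        exact h6
      refine squeeze_zero' ?_ ?_ h4
      · filter_upwards [eventually_ge_atTop 1] with l hl
        have := Real.log_nonneg hl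
        positivity
      · filter_upwards [eventually_ge_atTop (Real.exp 1)] with l hl
        have hl0 : 0 < l := (Real.exp_pos 1).trans_le hl
        have hl1 : 1 ≤ Real.log l := by rwa [Real.le_log_iff_exp_le hl0]
        have hB : (0 : ℝ) ≤ B := Nat.cast_nonneg _
        rw [← mul_div_assoc, ← mul_pow]
        refine div_le_div_of_nonneg_right ?_ hl0.le
        refine pow_le_pow_left₀ (by positivity) ?_ _
        nlinarith
    have h7 := h2.add (h3.const_mul K₂)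
    rw [mul_zero, add_zero] at h7
    exact h7
  exact h1.comp Real.tendsto_log_atTop

end ng0s

theorem ng0 (X : CD) (K : Type) [Field K] [NumberField K] (F : Fr X K) (hA1 : AN1 K F.d) (hA3 : AN3a K)
    (c : F.C) (j₀ : Fin X.N) (κ : F.R → ZMod X.p) (hκ : F.NT j₀ fun a => κ ⬝ᵥ F.qv a)
    (W : Finset F.Lb → ℂ) (P : ℝ) (hP : 1 ≤ P) (hW1 : ∀ g, ‖W g‖ ≤ P ^ g.card)
    (hW2 : X.N = 1 ∨ ∃ C : ℝ, ∀ Y : ℝ, 3 ≤ Y →
      ∑ g ∈ F.Fam (Finset.univ.erase j₀) Y, ‖W g‖ ≤ C * (Y * Real.log Y ^ (X.N - 2))) :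
    Tendsto (fun Y : ℝ => (∑ g ∈ F.Fam Finset.univ Y, W (g.filter fun a => a.1 ≠ j₀) *
        ep X.p (κ ⬝ᵥ ∑ a ∈ g.filter (fun a => a.1 = j₀), F.qv a)) /
        ((Y * Real.log Y ^ (X.N - 1) : ℝ) : ℂ)) atTop (𝓝 0) := by
  obtain ⟨C₁, δ, hC₁, hδ, -, hT⟩ := g0_inner F hA1 c j₀ κ hκ
  obtain ⟨C₂, A₂, hC₂, h2⟩ := g0_small F hA3 j₀ κ C₁ δ hC₁ hδ hT W P hP hW1
  obtain ⟨B, hB⟩ : ∃ B : ℕ, ((A₂ + 1 : ℕ) : ℝ) ≤ B * δ := by
    obtain ⟨B, hB⟩ := exists_nat_ge (((A₂ + 1 : ℕ) : ℝ) / δ)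
    exact ⟨B, by rwa [div_le_iff₀ hδ] at hB⟩
  have hN1 : 1 ≤ X.N := by
    have := j₀.2
    omega
  -- the large part
  obtain ⟨C₃, A₃, hC₃, h3⟩ : ∃ (C' : ℝ) (A : ℕ), 0 ≤ C' ∧ ∀ᶠ Y : ℝ in atTop,
      ‖∑ g ∈ (F.Fam (Finset.univ.erase j₀) Y).filter (fun g => ¬ F.nrl g ≤ Y / Real.log Y ^ B),
        W g * g0T F j₀ κ (F.und g) (Y / F.nrl g)‖ ≤
          C' * (Y * Real.log Y ^ (X.N - 1)) * ((1 + B * Real.log (Real.log Y)) ^ A / Real.log Y) := by
    rcases hW2 with hN | ⟨C, hC⟩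
    · refine ⟨0, 0, le_rfl, ?_⟩
      have h1 := (Real.isLittleO_pow_log_id_atTop (n := B)).bound one_pos
      filter_upwards [h1, eventually_ge_atTop 3] with Y h2 h3
      have hl : 1 ≤ Real.log Y := g0_log3.trans (Real.log_le_log (by norm_num) h3)
      rw [one_mul, id, Real.norm_of_nonneg (by positivity), Real.norm_of_nonneg (by linarith)] at h2
      have h4 : (F.Fam (Finset.univ.erase j₀) Y).filter (fun g => ¬ F.nrl g ≤ Y / Real.log Y ^ B) = ∅ := by
        rw [Finset.eq_empty_iff_forall_notMem]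
        intro g hg
        rw [Finset.mem_filter, F.mem_Fam] at hg
        obtain ⟨⟨-, h5, -⟩, h6⟩ := hg
        have h7 : g = ∅ := by
          rw [Finset.eq_empty_iff_forall_notMem]
          intro a ha
          have h8 : a.1 ∈ Finset.univ.erase j₀ := h5 (Finset.mem_image_of_mem _ ha)
          refine (Finset.mem_erase.1 h8).1 (Fin.ext ?_)
          have h9 := a.1.2
          have h10 := j₀.2
          omega
        rw [h7] at h6
        have e1 : F.nrl (∅ : Finset F.Lb) = 1 := Finset.prod_empty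
        rw [e1, le_div_iff₀ (by positivity), one_mul] at h6
        exact h6 h2
      rw [h4, Finset.sum_empty, norm_zero, zero_mul, zero_mul]
    · by_cases hN : X.N = 1
      · refine ⟨0, 0, le_rfl, ?_⟩
        have h1 := (Real.isLittleO_pow_log_id_atTop (n := B)).bound one_pos
        filter_upwards [h1, eventually_ge_atTop 3] with Y h2 h3
        have hl : 1 ≤ Real.log Y := g0_log3.trans (Real.log_le_log (by norm_num) h3)
        rw [one_mul, id, Real.norm_of_nonneg (by positivity), Real.norm_of_nonneg (by linarith)] at h2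
        have h4 : (F.Fam (Finset.univ.erase j₀) Y).filter (fun g => ¬ F.nrl g ≤ Y / Real.log Y ^ B) = ∅ := by
          rw [Finset.eq_empty_iff_forall_notMem]
          intro g hg
          rw [Finset.mem_filter, F.mem_Fam] at hg
          obtain ⟨⟨-, h5, -⟩, h6⟩ := hg
          have h7 : g = ∅ := by
            rw [Finset.eq_empty_iff_forall_notMem]
            intro a ha
            have h8 : a.1 ∈ Finset.univ.erase j₀ := h5 (Finset.mem_image_of_mem _ ha)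
            refine (Finset.mem_erase.1 h8).1 (Fin.ext ?_)
            have h9 := a.1.2
            have h10 := j₀.2
            omega
          rw [h7] at h6
          have e1 : F.nrl (∅ : Finset F.Lb) = 1 := Finset.prod_empty
          rw [e1, le_div_iff₀ (by positivity), one_mul] at h6
          exact h6 h2
        rw [h4, Finset.sum_empty, norm_zero, zero_mul, zero_mul]
      · obtain ⟨C', A, hC', h⟩ := g0_large F hA3 j₀ κ W (X.N - 2) C hC
        refine ⟨C', A, hC', ?_⟩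
        filter_upwards [eventually_ge_atTop 3] with Y h3
        have hl : 1 ≤ Real.log Y := g0_log3.trans (Real.log_le_log (by norm_num) h3)
        have h4 := h Y (Real.log Y ^ B) h3 (one_le_pow₀ hl)
        rw [Real.log_pow] at h4
        refine h4.trans (le_of_eq ?_)
        have h5 : X.N - 1 = X.N - 2 + 1 := by omega
        rw [h5, pow_succ]
        have h6 : Real.log Y ≠ 0 := by linarith
        field_simp
  refine squeeze_zero_norm' ?_ (g0_lim B A₃ (C₂ * 2 ^ A₂) C₃)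
  filter_upwards [h3, eventually_ge_atTop 3] with Y hY hY3
  have hl : 1 ≤ Real.log Y := g0_log3.trans (Real.log_le_log (by norm_num) hY3)
  have hl0 : 0 < Real.log Y := by linarith
  rw [g0_sum F j₀ κ W Y (Real.log Y ^ B), norm_div, Complex.norm_real,
    Real.norm_of_nonneg (show 0 ≤ Y * Real.log Y ^ (X.N - 1) by positivity),
    div_le_iff₀ (show 0 < Y * Real.log Y ^ (X.N - 1) by positivity)]
  refine (norm_add_le _ _).trans ?_
  have h4 := h2 Y (Real.log Y ^ B) (by linarith) (one_le_pow₀ hl)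
  have h5 : C₂ * Y * (Real.log Y ^ B) ^ (-δ) * (1 + Real.log Y) ^ A₂ ≤
      C₂ * 2 ^ A₂ / Real.log Y * (Y * Real.log Y ^ (X.N - 1)) := by
    have h6 : (1 + Real.log Y) ^ A₂ ≤ 2 ^ A₂ * Real.log Y ^ A₂ := by
      rw [← mul_pow]
      exact pow_le_pow_left₀ (by linarith) (by linarith) _
    have h7 : (Real.log Y ^ B) ^ (-δ) = Real.log Y ^ (-((B : ℝ) * δ)) := by
      rw [← Real.rpow_natCast, ← Real.rpow_mul hl0.le]
      congr 1
      ring
    have h8 : Real.log Y ^ (-((B : ℝ) * δ)) * Real.log Y ^ (A₂ + 1) ≤ 1 := by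
      rw [← Real.rpow_natCast, ← Real.rpow_add hl0]
      exact Real.rpow_le_one_of_one_le_of_nonpos hl (by linarith)
    have h9 : 0 ≤ Real.log Y ^ (-((B : ℝ) * δ)) := Real.rpow_nonneg hl0.le _
    have h10 : 1 ≤ Real.log Y ^ (X.N - 1) := one_le_pow₀ hl
    have h11 : Real.log Y ^ (-((B : ℝ) * δ)) * (1 + Real.log Y) ^ A₂ ≤ 2 ^ A₂ / Real.log Y := by
      rw [le_div_iff₀ hl0]
      calc Real.log Y ^ (-((B : ℝ) * δ)) * (1 + Real.log Y) ^ A₂ * Real.log Y
          ≤ Real.log Y ^ (-((B : ℝ) * δ)) * (2 ^ A₂ * Real.log Y ^ A₂) * Real.log Y :=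
            mul_le_mul_of_nonneg_right (mul_le_mul_of_nonneg_left h6 h9) hl0.le
        _ = 2 ^ A₂ * (Real.log Y ^ (-((B : ℝ) * δ)) * Real.log Y ^ (A₂ + 1)) := by
            rw [pow_succ (Real.log Y) A₂]
            ring
        _ ≤ 2 ^ A₂ * 1 := mul_le_mul_of_nonneg_left h8 (by positivity)
        _ = 2 ^ A₂ := mul_one _
    calc C₂ * Y * (Real.log Y ^ B) ^ (-δ) * (1 + Real.log Y) ^ A₂
        = C₂ * Y * (Real.log Y ^ (-((B : ℝ) * δ)) * (1 + Real.log Y) ^ A₂) := by rw [h7]; ring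
      _ ≤ C₂ * Y * (2 ^ A₂ / Real.log Y) := mul_le_mul_of_nonneg_left h11 (by positivity)
      _ = C₂ * 2 ^ A₂ / Real.log Y * (Y * 1) := by ring
      _ ≤ C₂ * 2 ^ A₂ / Real.log Y * (Y * Real.log Y ^ (X.N - 1)) := by
          refine mul_le_mul_of_nonneg_left ?_ (by positivity)
          exact mul_le_mul_of_nonneg_left h10 (by linarith)
  calc _ ≤ C₂ * 2 ^ A₂ / Real.log Y * (Y * Real.log Y ^ (X.N - 1)) +
        C₃ * (Y * Real.log Y ^ (X.N - 1)) * ((1 + B * Real.log (Real.log Y)) ^ A₃ / Real.log Y) :=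
        add_le_add (h4.trans h5) hY
    _ = _ := by ring

end H51.MM
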