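import Pool.Agent.H51.MM.Exp
import Pool.Agent.H51.MM.Gf

/-!
# [H51 MM PHA] The phase of two types (80-120 lines)

`u = ρ` outside `τ, τ'`, `u τ = g`, `u τ' = h`. Write `ψ = τ.1.2`, `ψ' = τ'.1.2`, `r = U ρ` (disjoint from `g`, `h`), `U u = g ∪ h ∪ r`. Then
`Ph c u = ∑_{a ∈ g} ψ ⬝ᵥ (e c a + ∑_{b ∈ g.erase a} s a b + ∑_{b ∈ r} s a b) + ∑_{a ∈ g} ∑_{b ∈ h} ψ ⬝ᵥ s a b`
`+ ∑_{b ∈ h} ψ' ⬝ᵥ (e c b + ∑_{b' ∈ h.erase b} s b b' + ∑_{b' ∈ r} s b b') + ∑_{b ∈ h} ∑_{a ∈ g} ψ' ⬝ᵥ s b a`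
`+ ∑_{τ''} ∑_{x ∈ ρ τ''} τ''.1.2 ⬝ᵥ (e c x + ∑_{y ∈ r.erase x} s x y + ∑_{a ∈ g} s x a + ∑_{b ∈ h} s x b)`,
and `∑ ∑ ψ ⬝ᵥ s a b + ψ' ⬝ᵥ s b a = ∑ ∑ (ψ - ψ') ⬝ᵥ s a b + ∑ ∑ ψ' ⬝ᵥ (s a b + s b a)`; the last sum is
`Gf c ψ' (tot g + tot h) - Gf c ψ' (tot g) - Gf c ψ' (tot h)` by `crs`. Put everything which depends only on `g` (and `ρ`) in `A g`, only on
`h` in `B h`, the constant in `A`.
-/

set_option autoImplicit false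

open scoped NumberField
open IsDedekindDomain NumberField H63.MA H36.QA Filter Topology
open scoped Classical

noncomputable section

namespace H51.MM

variable {X : CD} {K : Type} [Field K] [NumberField K]

private theorem pha_sum {ι α M : Type*} [Fintype ι] [DecidableEq ι] [AddCommMonoid M]
    (f : ι → Finset α → M) (hf : ∀ σ, f σ ∅ = 0) {u ρ : ι → Finset α} {τ τ' : ι} (hne : τ ≠ τ')
    {g h : Finset α} (h1 : ρ τ = ∅) (h2 : ρ τ' = ∅) (e1 : u τ = g) (e2 : u τ' = h)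
    (e3 : ∀ σ, σ ≠ τ → σ ≠ τ' → u σ = ρ σ) :
    ∑ σ, f σ (u σ) = f τ g + f τ' h + ∑ σ, f σ (ρ σ) := by
  have key : ∀ v : ι → Finset α, ∑ σ, f σ (v σ) = f τ (v τ) + (f τ' (v τ') +
      ∑ σ ∈ (Finset.univ.erase τ).erase τ', f σ (v σ)) := by
    intro v
    rw [Finset.add_sum_erase _ (fun σ => f σ (v σ))
      (Finset.mem_erase.2 ⟨hne.symm, Finset.mem_univ _⟩),
      Finset.add_sum_erase _ (fun σ => f σ (v σ)) (Finset.mem_univ _)]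
  rw [key u, key ρ, h1, h2, hf, hf, zero_add, zero_add, e1, e2, add_assoc]
  congr 2
  refine Finset.sum_congr rfl fun σ hσ => ?_
  rw [Finset.mem_erase, Finset.mem_erase] at hσ
  rw [e3 σ hσ.2.1 hσ.1]

private theorem pha_ph (F : Fr0 X K) (c : F.C) (u : X.Ty → Finset F.Lb) (hu : F.TOk u) :
    F.Ph c u = ∑ σ, ∑ a ∈ u σ, σ.1.2 ⬝ᵥ (F.e c a - F.s a a) +
      ∑ σ, ∑ σ', ∑ a ∈ u σ, ∑ b ∈ u σ', σ.1.2 ⬝ᵥ F.s a b := by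
  unfold Fr0.Ph
  rw [← Finset.sum_add_distrib]
  refine Finset.sum_congr rfl fun σ _ => ?_
  have hc : ∑ σ', ∑ a ∈ u σ, ∑ b ∈ u σ', σ.1.2 ⬝ᵥ F.s a b =
      ∑ a ∈ u σ, ∑ σ', ∑ b ∈ u σ', σ.1.2 ⬝ᵥ F.s a b := Finset.sum_comm
  rw [hc, ← Finset.sum_add_distrib]
  refine Finset.sum_congr rfl fun a ha => ?_
  have hmem : a ∈ F.U u := Finset.mem_biUnion.2 ⟨σ, Finset.mem_univ _, ha⟩
  have h1 : ∑ b ∈ (F.U u).erase a, F.s a b = ∑ σ', ∑ b ∈ u σ', F.s a b - F.s a a := by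
    rw [eq_sub_iff_add_eq, Finset.sum_erase_add _ _ hmem]
    unfold Fr0.U
    rw [Finset.sum_biUnion]
    intro x _ y _ hxy
    exact tok_dis F u hu x y hxy
  unfold Fr0.E
  rw [h1]
  have h2 : F.e c a + (∑ σ', ∑ b ∈ u σ', F.s a b - F.s a a) =
      (F.e c a - F.s a a) + ∑ σ', ∑ b ∈ u σ', F.s a b := by abel
  rw [h2, dotProduct_add, dotProduct_sum]
  congr 1
  refine Finset.sum_congr rfl fun σ' _ => ?_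
  rw [dotProduct_sum]

theorem pha (F : Fr X K) (c : F.C) (τ τ' : X.Ty) (hne : τ ≠ τ') (ρ : X.Ty → Finset F.Lb) (h1 : ρ τ = ∅)
    (h2 : ρ τ' = ∅) : ∃ A B : Finset F.Lb → ZMod X.p, ∀ g h : Finset F.Lb,
      F.TOk (Function.update (Function.update ρ τ g) τ' h) →
      F.Ph c (Function.update (Function.update ρ τ g) τ' h) =
        ∑ a ∈ g, ∑ b ∈ h, (τ.1.2 - τ'.1.2) ⬝ᵥ F.s a b + A g + B h +
          Gf F c τ'.1.2 (F.tot g + F.tot h) := by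
  refine ⟨fun g => (∑ a ∈ g, τ.1.2 ⬝ᵥ (F.e c a - F.s a a)) + (∑ a ∈ g, ∑ b ∈ g, τ.1.2 ⬝ᵥ F.s a b) +
      (∑ σ, ∑ a ∈ ρ σ, ∑ b ∈ g, σ.1.2 ⬝ᵥ F.s a b) +
      (∑ σ, ∑ a ∈ g, ∑ b ∈ ρ σ, τ.1.2 ⬝ᵥ F.s a b) +
      (∑ σ, ∑ a ∈ ρ σ, σ.1.2 ⬝ᵥ (F.e c a - F.s a a)) +
      (∑ σ, ∑ σ', ∑ a ∈ ρ σ, ∑ b ∈ ρ σ', σ.1.2 ⬝ᵥ F.s a b) - Gf F c τ'.1.2 (F.tot g),
    fun h => (∑ a ∈ h, τ'.1.2 ⬝ᵥ (F.e c a - F.s a a)) + (∑ a ∈ h, ∑ b ∈ h, τ'.1.2 ⬝ᵥ F.s a b) +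
      (∑ σ, ∑ a ∈ ρ σ, ∑ b ∈ h, σ.1.2 ⬝ᵥ F.s a b) +
      (∑ σ, ∑ a ∈ h, ∑ b ∈ ρ σ, τ'.1.2 ⬝ᵥ F.s a b) - Gf F c τ'.1.2 (F.tot h),
    fun g h hu => ?_⟩
  obtain ⟨u, hudef⟩ : ∃ u, u = Function.update (Function.update ρ τ g) τ' h := ⟨_, rfl⟩
  rw [← hudef] at hu ⊢
  have e1 : u τ = g := by
    rw [hudef, Function.update_of_ne hne, Function.update_self]
  have e2 : u τ' = h := by
    rw [hudef, Function.update_self]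
  have e3 : ∀ σ, σ ≠ τ → σ ≠ τ' → u σ = ρ σ := by
    intro σ hσ hσ'
    rw [hudef, Function.update_of_ne hσ', Function.update_of_ne hσ]
  have hgok : F.Ok g := e1 ▸ hu.2.1 τ
  have hhok : F.Ok h := e2 ▸ hu.2.1 τ'
  have hdis : Disjoint (F.und g) (F.und h) := by
    have h3 := hu.2.2 τ τ' hne
    rw [e1, e2] at h3
    exact h3
  have hD := pha_sum (fun (σ : X.Ty) (x : Finset F.Lb) => ∑ a ∈ x, σ.1.2 ⬝ᵥ (F.e c a - F.s a a))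
    (fun σ => Finset.sum_empty) hne h1 h2 e1 e2 e3
  have hB1 : ∀ σ, ∑ σ', ∑ a ∈ u σ, ∑ b ∈ u σ', σ.1.2 ⬝ᵥ F.s a b =
      ∑ a ∈ u σ, ∑ b ∈ g, σ.1.2 ⬝ᵥ F.s a b + ∑ a ∈ u σ, ∑ b ∈ h, σ.1.2 ⬝ᵥ F.s a b +
        ∑ σ', ∑ a ∈ u σ, ∑ b ∈ ρ σ', σ.1.2 ⬝ᵥ F.s a b := by
    intro σ
    exact pha_sum (fun (σ' : X.Ty) (x : Finset F.Lb) => ∑ a ∈ u σ, ∑ b ∈ x, σ.1.2 ⬝ᵥ F.s a b)
      (fun σ' => by simp only [Finset.sum_empty, Finset.sum_const_zero]) hne h1 h2 e1 e2 e3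
  have hB2 := pha_sum (fun (σ : X.Ty) (x : Finset F.Lb) => ∑ a ∈ x, ∑ b ∈ g, σ.1.2 ⬝ᵥ F.s a b)
    (fun σ => Finset.sum_empty) hne h1 h2 e1 e2 e3
  have hB3 := pha_sum (fun (σ : X.Ty) (x : Finset F.Lb) => ∑ a ∈ x, ∑ b ∈ h, σ.1.2 ⬝ᵥ F.s a b)
    (fun σ => Finset.sum_empty) hne h1 h2 e1 e2 e3
  have hB4 := pha_sum (fun (σ : X.Ty) (x : Finset F.Lb) =>
      ∑ σ', ∑ a ∈ x, ∑ b ∈ ρ σ', σ.1.2 ⬝ᵥ F.s a b)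
    (fun σ => by simp only [Finset.sum_empty, Finset.sum_const_zero]) hne h1 h2 e1 e2 e3
  beta_reduce at hD hB2 hB3 hB4
  rw [pha_ph F.toFr0 c u hu, hD]
  simp only [hB1]
  rw [Finset.sum_add_distrib, Finset.sum_add_distrib, hB2, hB3, hB4]
  have hcr := crs F c τ'.1.2 g h hgok hhok hdis
  have hsw : ∑ a ∈ h, ∑ b ∈ g, τ'.1.2 ⬝ᵥ F.s a b = ∑ a ∈ g, ∑ b ∈ h, τ'.1.2 ⬝ᵥ F.s b a :=
    Finset.sum_comm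
  have hsp : ∑ a ∈ g, ∑ b ∈ h, τ.1.2 ⬝ᵥ F.s a b + ∑ a ∈ g, ∑ b ∈ h, τ'.1.2 ⬝ᵥ F.s b a =
      ∑ a ∈ g, ∑ b ∈ h, (τ.1.2 - τ'.1.2) ⬝ᵥ F.s a b +
        ∑ a ∈ g, ∑ b ∈ h, τ'.1.2 ⬝ᵥ (F.s a b + F.s b a) := by
    rw [← Finset.sum_add_distrib, ← Finset.sum_add_distrib]
    refine Finset.sum_congr rfl fun a _ => ?_
    rw [← Finset.sum_add_distrib, ← Finset.sum_add_distrib]
    refine Finset.sum_congr rfl fun b _ => ?_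
    rw [sub_dotProduct, dotProduct_add]
    ring
  rw [hcr] at hsp
  rw [hsw]
  linear_combination hsp

end H51.MM
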