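import Pool.Agent.H51.MM.Defs
import Pool.Agent.H51.MM.An

/-!
# H51/MM/TDEF: typed families (definitions)

* `X.Ty`: the types `(i, ψ)`, `ψ ∈ Th i`. `X.lk τ τ'`: linked types. `X.Unl L`: no two linked types in `L`. `X.FF J`: the functions
  `f` with `f i ∈ Th i` such that the types `(i, f i)`, `i ∈ J`, are pairwise unlinked (and `f i = 0` for `i ∉ J`).
* A typed family is a function `u` from the types to sets of labels: `TOk u`. `U u` the union. `TF J Y`: the typed families with classes in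
  `J` and norm at most `Y`. `Ph c u`: the phase.
* levels `lv Z R k = Z ^ (R ^ k)`; `Cnd Z R k L u`: `k` is the first gap and `L` is the set of the large types.
* `SS`: the part of the sum with given `c`, `k`, `L` and a condition on the small part.
-/

set_option autoImplicit false

open scoped NumberField
open IsDedekindDomain NumberField H63.MA H36.QA
open scoped Classical

noncomputable section

namespace H51.MM

instance (X : CD) : NeZero X.p := ⟨X.hp.ne_zero⟩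

/-- types -/
abbrev CD.Ty (X : CD) : Type := {τ : Fin X.N × (Fin X.w → ZMod X.p) // τ.2 ∈ X.Th τ.1}

/-- linked types -/
def CD.lk (X : CD) (τ τ' : X.Ty) : Prop := ¬ X.van τ.1.1 τ'.1.1 (τ.1.2 - τ'.1.2)

/-- sets of types without linked pairs -/
def CD.Unl (X : CD) (L : Finset X.Ty) : Prop := ∀ τ ∈ L, ∀ τ' ∈ L, ¬ X.lk τ τ'

/-- the classes of a set of types -/
def CD.kl (X : CD) (L : Finset X.Ty) : Finset (Fin X.N) := L.image fun τ => τ.1.1

/-- aligned functions -/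
def CD.FF (X : CD) (J : Finset (Fin X.N)) : Finset (Fin X.N → Fin X.w → ZMod X.p) :=
  Finset.univ.filter fun f => (∀ i ∈ J, f i ∈ X.Th i) ∧ (∀ i, i ∉ J → f i = 0) ∧
    ∀ i ∈ J, ∀ j ∈ J, X.van i j (f i - f j)

/-- the types `(i, f i)`, `i ∈ J` -/
def CD.al (X : CD) (J : Finset (Fin X.N)) (f : Fin X.N → Fin X.w → ZMod X.p) : Finset X.Ty :=
  Finset.univ.filter fun τ => τ.1.1 ∈ J ∧ τ.1.2 = f τ.1.1

/-- levels -/
def lv (Z : ℝ) (R k : ℕ) : ℝ := Z ^ (R ^ k)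

namespace Fr0

variable {X : CD} {K : Type} [Field K] [NumberField K] (F : Fr0 X K)

/-- typed families -/
def TOk (u : X.Ty → Finset F.Lb) : Prop :=
  (∀ τ, ∀ a ∈ u τ, a.1 = τ.1.1) ∧ (∀ τ, F.Ok (u τ)) ∧
    ∀ τ τ', τ ≠ τ' → Disjoint (F.und (u τ)) (F.und (u τ'))

/-- the union -/
def U (u : X.Ty → Finset F.Lb) : Finset F.Lb := Finset.univ.biUnion u

/-- the norm -/
def nrt (u : X.Ty → Finset F.Lb) : ℝ := ∏ τ, F.nrl (u τ)

theorem one_le_nrt (u : X.Ty → Finset F.Lb) : 1 ≤ F.nrt u :=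
  Finset.one_le_prod fun _ _ => F.one_le_nrl _

theorem nrl_le_nrt (u : X.Ty → Finset F.Lb) (τ : X.Ty) : F.nrl (u τ) ≤ F.nrt u := by
  unfold nrt
  rw [← Finset.mul_prod_erase Finset.univ _ (Finset.mem_univ τ)]
  have h1 : 1 ≤ ∏ x ∈ Finset.univ.erase τ, F.nrl (u x) :=
    Finset.one_le_prod fun _ _ => F.one_le_nrl _
  have h2 := F.one_le_nrl (u τ)
  nlinarith

theorem tffin (J : Finset (Fin X.N)) (Y : ℝ) :
    {u : X.Ty → Finset F.Lb | F.TOk u ∧ (∀ τ, τ.1.1 ∉ J → u τ = ∅) ∧ F.nrt u ≤ Y}.Finite := by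
  refine (Fintype.piFinset fun _ : X.Ty => (F.lbfin Y).toFinset.powerset).finite_toSet.subset ?_
  rintro u ⟨-, -, h⟩
  rw [Finset.mem_coe, Fintype.mem_piFinset]
  intro τ
  rw [Finset.mem_powerset]
  intro a ha
  rw [Set.Finite.mem_toFinset]
  exact (F.le_nrl (u τ) a ha).trans ((F.nrl_le_nrt u τ).trans h)

/-- the typed families with classes in `J` and norm at most `Y` -/
def TF (J : Finset (Fin X.N)) (Y : ℝ) : Finset (X.Ty → Finset F.Lb) := (F.tffin J Y).toFinset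

theorem mem_TF (J : Finset (Fin X.N)) (Y : ℝ) (u : X.Ty → Finset F.Lb) :
    u ∈ F.TF J Y ↔ F.TOk u ∧ (∀ τ, τ.1.1 ∉ J → u τ = ∅) ∧ F.nrt u ≤ Y := by
  unfold TF
  rw [Set.Finite.mem_toFinset]
  rfl

/-- the phase -/
def Ph (c : F.C) (u : X.Ty → Finset F.Lb) : ZMod X.p :=
  ∑ τ, ∑ a ∈ u τ, τ.1.2 ⬝ᵥ F.E c (F.U u) a

/-- the part of `u` in `L` -/
def rs (L : Finset X.Ty) (u : X.Ty → Finset F.Lb) (τ : X.Ty) : Finset F.Lb :=
  if τ ∈ L then u τ else ∅

/-- `k` is the first gap, `L` the set of large types -/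
def Cnd (Z : ℝ) (R k : ℕ) (L : Finset X.Ty) (u : X.Ty → Finset F.Lb) : Prop :=
  (∀ τ ∈ L, lv Z R (k + 1) < F.nrl (u τ)) ∧ (∀ τ, τ ∉ L → F.nrl (u τ) ≤ lv Z R k) ∧
    ∀ k' < k, ∃ τ, τ ∉ L ∧ lv Z R k' < F.nrl (u τ) ∧ F.nrl (u τ) ≤ lv Z R (k' + 1)

/-- the part of the sum with `k`, `L` and a condition `W` on the part of `u` outside `L` -/
def SS (J : Finset (Fin X.N)) (c : F.C) (h : (F.R → ZMod X.p) → ℂ) (Z : ℝ) (R k : ℕ)
    (L : Finset X.Ty) (W : (X.Ty → Finset F.Lb) → Prop) (Y : ℝ) : ℂ :=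
  ∑ u ∈ F.TF J Y, if F.Cnd Z R k L u ∧ W (F.rs Lᶜ u) ∧ F.Sp c (F.cls (F.U u)) then
    h (F.tot (F.U u)) * ep X.p (F.Ph c u) else 0

end Fr0

end H51.MM
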