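import Pool.Agent.H51.MM.UbA
import Pool.Agent.H51.MM.Wt

/-!
# [H51 MM UBB] The upper bound (assembly)

`ubt`: `‖FS J h Y‖ ≤ ∑_c ∑_g ‖wt c g‖ ≤ qq ∑_g (p ^ w) ^ #g` (`wt_re`), `trf` with `c = p ^ w`.
`ubb`: by `fs_le` we may take `h = 1`. Let `x = log Y`, `A` the exponent of `ubz`, `ε = 1 / (2 (A + 1))`, `Z = exp (x ^ ε)`. If `log D ≤ x ^ (ε / 2)` and `Y ≥ Y₁`: `ubz`.
If `log D > x ^ (ε / 2)`: `ubt`: `(1 + x) ^ A' ≤ (2 x) ^ A' ≤ 2 ^ A' (log D) ^ (2 A' / ε)`. If `Y < Y₁`: `ubt`.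
-/

set_option autoImplicit false

open scoped NumberField
open IsDedekindDomain NumberField H63.MA H36.QA Filter Topology
open scoped Classical

noncomputable section

namespace H51.MM

theorem ubt (X : CD) (K : Type) [Field K] [NumberField K] (d : ℕ) (hA3 : AN3a K) :
    ∃ (C : ℝ) (A : ℕ), 1 ≤ C ∧ ∀ F : Fr X K, F.d ≤ d → ∀ (J : Finset (Fin X.N))
      (h : F.C → Finset F.Lb → ℂ), (∀ c g, ‖h c g‖ ≤ 1) → ∀ Y : ℝ, 1 ≤ Y →
        ‖F.FS J h Y‖ ≤ C * F.qq * Y * (1 + Real.log Y) ^ A := by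
  have hp1 : (1 : ℝ) ≤ (X.p : ℝ) ^ X.w := one_le_pow₀ (by exact_mod_cast X.hp.one_lt.le)
  obtain ⟨C, A, hC, h⟩ := trf X K hA3 d ((X.p : ℝ) ^ X.w) hp1
  refine ⟨C, A, hC, ?_⟩
  intro F hF J f hf Y hY
  have h1 := (h F hF J Y hY).1
  have hlog : 0 ≤ Real.log Y := Real.log_nonneg hY
  have h2 : ∀ g ∈ F.Fam J Y, ‖∑ c : F.C, (if F.Sp c (F.cls g) then f c g * F.wt c g else 0)‖ ≤
      F.qq * ((X.p : ℝ) ^ X.w) ^ g.card := by
    intro g _
    have h3 : ∀ c ∈ (Finset.univ : Finset F.C), ‖(if F.Sp c (F.cls g) then f c g * F.wt c g else 0 : ℂ)‖ ≤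
        ((X.p : ℝ) ^ X.w) ^ g.card := by
      intro c _
      obtain ⟨r, hr, hr0, hr1⟩ := wt_re F c g
      split_ifs
      · rw [norm_mul, hr, Complex.norm_real, Real.norm_eq_abs, abs_of_nonneg hr0]
        calc ‖f c g‖ * r ≤ 1 * r := mul_le_mul_of_nonneg_right (hf c g) hr0
          _ = r := one_mul r
          _ ≤ _ := hr1
      · rw [norm_zero]
        positivity
    refine (norm_sum_le _ _).trans ((Finset.sum_le_card_nsmul _ _ _ h3).trans ?_)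
    rw [nsmul_eq_mul, Finset.card_univ]
    exact mul_le_mul_of_nonneg_right F.card_C (by positivity)
  have hqq : 0 ≤ F.qq := by linarith [F.one_le_qq]
  calc ‖F.FS J f Y‖ ≤ ∑ g ∈ F.Fam J Y, F.qq * ((X.p : ℝ) ^ X.w) ^ g.card :=
        (norm_sum_le _ _).trans (Finset.sum_le_sum h2)
    _ = F.qq * ∑ g ∈ F.Fam J Y, ((X.p : ℝ) ^ X.w) ^ g.card := by rw [Finset.mul_sum]
    _ ≤ F.qq * (C * Y * (1 + Real.log Y) ^ A) := mul_le_mul_of_nonneg_left h1 hqq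
    _ = C * F.qq * Y * (1 + Real.log Y) ^ A := by ring

private theorem ubb_ev (A : ℕ) (δ r ε : ℝ) (hδ : 0 < δ) (hr : 0 ≤ r) (hε : ε = 1 / (2 * ((A : ℝ) + 1))) :
    ∀ᶠ x : ℝ in atTop, (A : ℝ) * (x ^ (ε / 2) + Real.log (1 + x)) ≤ δ * x ^ ε ∧
      (1 + r * x ^ ε) ^ A ≤ x ∧ r * A * x ^ ε ≤ x := by
  have hA0 : (0 : ℝ) ≤ A := Nat.cast_nonneg _
  have hε0 : 0 < ε := by rw [hε]; positivity
  have hεA : ε * A ≤ 1 / 2 := by
    rw [hε, div_mul_eq_mul_div, div_le_div_iff₀ (by positivity) (by norm_num)]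
    nlinarith
  have hε1 : ε ≤ 1 / 2 := by
    rw [hε]
    refine one_div_le_one_div_of_le (by norm_num) ?_
    linarith
  obtain ⟨c, hc⟩ : ∃ c : ℝ, c = 1 + 2 ^ (ε / 2) / (ε / 2) := ⟨_, rfl⟩
  have e1 : ∀ᶠ x : ℝ in atTop, A * c / δ ≤ x ^ (ε / 2) :=
    (tendsto_rpow_atTop (by positivity : 0 < ε / 2)).eventually_ge_atTop _
  have e2 : ∀ᶠ x : ℝ in atTop, (1 + r) ^ A + r * A ≤ x ^ (1 / 2 : ℝ) :=
    (tendsto_rpow_atTop (by norm_num : (0 : ℝ) < 1 / 2)).eventually_ge_atTop _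
  filter_upwards [e1, e2, eventually_ge_atTop (1 : ℝ)] with x h1 h2 hx
  have hx0 : 0 < x := by linarith
  have hxh : x ^ (ε / 2) * x ^ (ε / 2) = x ^ ε := by
    rw [← Real.rpow_add hx0]
    congr 1
    ring
  have hx2 : x ^ (1 / 2 : ℝ) * x ^ (1 / 2 : ℝ) = x := by
    rw [← Real.rpow_add hx0]
    norm_num
  have hxe : 1 ≤ x ^ ε := Real.one_le_rpow hx hε0.le
  have hp0 : 0 ≤ x ^ (ε / 2) := Real.rpow_nonneg hx0.le _
  have hp1 : 0 ≤ x ^ (1 / 2 : ℝ) := Real.rpow_nonneg hx0.le _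
  have hxe2 : x ^ ε ≤ x ^ (1 / 2 : ℝ) := Real.rpow_le_rpow_of_exponent_le hx hε1
  refine ⟨?_, ?_, ?_⟩
  · have h3 : Real.log (1 + x) ≤ 2 ^ (ε / 2) / (ε / 2) * x ^ (ε / 2) := by
      have h4 := Real.log_le_rpow_div (by linarith : 0 ≤ 1 + x) (by positivity : 0 < ε / 2)
      have h5 : (1 + x) ^ (ε / 2) ≤ 2 ^ (ε / 2) * x ^ (ε / 2) := by
        rw [← Real.mul_rpow (by norm_num) hx0.le]
        exact Real.rpow_le_rpow (by linarith) (by linarith) (by positivity)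
      refine h4.trans ?_
      rw [div_mul_eq_mul_div]
      exact div_le_div_of_nonneg_right h5 (by positivity)
    have h6 : x ^ (ε / 2) + Real.log (1 + x) ≤ c * x ^ (ε / 2) := by
      rw [hc, add_mul, one_mul]
      linarith
    have h7 : A * c ≤ δ * x ^ (ε / 2) := by
      rw [div_le_iff₀ hδ] at h1
      linarith
    calc (A : ℝ) * (x ^ (ε / 2) + Real.log (1 + x)) ≤ A * (c * x ^ (ε / 2)) :=
          mul_le_mul_of_nonneg_left h6 hA0
      _ = (A * c) * x ^ (ε / 2) := by ring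
      _ ≤ (δ * x ^ (ε / 2)) * x ^ (ε / 2) := mul_le_mul_of_nonneg_right h7 hp0
      _ = δ * x ^ ε := by rw [mul_assoc, hxh]
  · have h3 : (1 + r * x ^ ε) ^ A ≤ (1 + r) ^ A * x ^ (1 / 2 : ℝ) := by
      calc (1 + r * x ^ ε) ^ A ≤ ((1 + r) * x ^ ε) ^ A := by
            refine pow_le_pow_left₀ (by positivity) ?_ _
            nlinarith
        _ = (1 + r) ^ A * x ^ (ε * A) := by
            rw [mul_pow, ← Real.rpow_natCast (x ^ ε), ← Real.rpow_mul hx0.le]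
        _ ≤ (1 + r) ^ A * x ^ (1 / 2 : ℝ) :=
            mul_le_mul_of_nonneg_left (Real.rpow_le_rpow_of_exponent_le hx hεA) (by positivity)
    have h4 : 0 ≤ r * A := by positivity
    calc (1 + r * x ^ ε) ^ A ≤ (1 + r) ^ A * x ^ (1 / 2 : ℝ) := h3
      _ ≤ x ^ (1 / 2 : ℝ) * x ^ (1 / 2 : ℝ) := mul_le_mul_of_nonneg_right (by linarith) hp1
      _ = x := hx2
  · have h3 : 0 ≤ (1 + r) ^ A := by positivity
    calc r * A * x ^ ε ≤ r * A * x ^ (1 / 2 : ℝ) := mul_le_mul_of_nonneg_left hxe2 (by positivity)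
      _ ≤ x ^ (1 / 2 : ℝ) * x ^ (1 / 2 : ℝ) := mul_le_mul_of_nonneg_right (by linarith) hp1
      _ = x := hx2

theorem ubb (X : CD) (K : Type) [Field K] [NumberField K] (d : ℕ) (hA1 : AN1 K d) (hA2 : AN2 K d)
    (hA3 : AN3a K) (hA4 : AN3b K X.N d) : ∃ (C : ℝ) (B : ℕ), 1 ≤ C ∧
      ∀ (F : Fr X K), F.d ≤ d → ∀ J : Finset (Fin X.N), J.Nonempty → X.Cl J → ∀ Y : ℝ, 3 ≤ Y →
        ∀ h : F.C → Finset F.Lb → ℂ, (∀ c g, ‖h c g‖ ≤ 1) →
          ‖F.FS J h Y‖ ≤ C * F.qq ^ B * (1 + Real.log F.D) ^ B * (Y * Real.log Y ^ (J.card - 1)) := by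
  obtain ⟨Ct, A', hCt, ht⟩ := ubt X K d hA3
  obtain ⟨Cu, Bu, R, m, A, δ, hCu, hδ, hu⟩ := ubz X K d hA1 hA2 hA3 hA4
  obtain ⟨ε, hε⟩ : ∃ ε : ℝ, ε = 1 / (2 * ((A : ℝ) + 1)) := ⟨_, rfl⟩
  have hε0 : 0 < ε := by rw [hε]; positivity
  obtain ⟨B', hB'⟩ := exists_nat_ge ((A' : ℝ) / (ε / 2))
  rw [div_le_iff₀ (by positivity)] at hB'
  have hev := ubb_ev A δ ((R ^ m : ℕ) : ℝ) ε hδ (Nat.cast_nonneg _) hε
  obtain ⟨Y₀, hY₀⟩ := Filter.eventually_atTop.1 (Real.tendsto_log_atTop.eventually hev)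
  obtain ⟨Y₁, hY₁⟩ : ∃ Y₁, Y₁ = max 3 Y₀ := ⟨_, rfl⟩
  have hY₁3 : 3 ≤ Y₁ := by rw [hY₁]; exact le_max_left _ _
  have hlY₁ : 0 ≤ Real.log Y₁ := Real.log_nonneg (by linarith)
  have hc2 : 0 ≤ Ct * 2 ^ A' := by positivity
  have hc3 : 0 ≤ Ct * (1 + Real.log Y₁) ^ A' := by positivity
  refine ⟨Cu + Ct * 2 ^ A' + Ct * (1 + Real.log Y₁) ^ A', Bu + B' + 1, by linarith, ?_⟩
  intro F hF J hJ hcl Y hY f hf
  refine (fs_le F J f hf Y).trans ?_
  have hD1 := F.one_le_D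
  have hq1 := F.one_le_qq
  have hlD0 : 0 ≤ Real.log F.D := Real.log_nonneg hD1
  obtain ⟨lD, hlD⟩ : ∃ lD, lD = 1 + Real.log F.D := ⟨_, rfl⟩
  have hlD1 : 1 ≤ lD := by linarith
  obtain ⟨x, hx⟩ : ∃ x, x = Real.log Y := ⟨_, rfl⟩
  have hx1 : 1 ≤ x := by
    rw [hx, Real.le_log_iff_exp_le (by linarith)]
    have := Real.exp_one_lt_d9
    linarith
  have hx0 : 0 < x := by linarith
  have hY0 : 0 < Y := by linarith
  have hLJ : 1 ≤ x ^ (J.card - 1) := one_le_pow₀ hx1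
  have hM0 : 0 ≤ Y * x ^ (J.card - 1) := by positivity
  have hYM : Y ≤ Y * x ^ (J.card - 1) := le_mul_of_one_le_right hY0.le hLJ
  have hsplit : ∀ c : ℝ, 0 ≤ c → c ≤ Cu + Ct * 2 ^ A' + Ct * (1 + Real.log Y₁) ^ A' → ∀ a b : ℕ,
      a ≤ Bu + B' + 1 → b ≤ Bu + B' + 1 →
      c * F.qq ^ a * lD ^ b * (Y * x ^ (J.card - 1)) ≤
        (Cu + Ct * 2 ^ A' + Ct * (1 + Real.log Y₁) ^ A') * F.qq ^ (Bu + B' + 1) * lD ^ (Bu + B' + 1) *
          (Y * x ^ (J.card - 1)) := by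
    intro c hc0 hc a b ha hb
    refine mul_le_mul_of_nonneg_right ?_ hM0
    refine mul_le_mul ?_ (pow_le_pow_right₀ hlD1 hb) (by positivity) (by positivity)
    exact mul_le_mul hc (pow_le_pow_right₀ hq1 ha) (by positivity) (by positivity)
  -- from the trivial bound
  have htr := ht F hF J (fun _ _ => 1) (fun _ _ => by rw [norm_one]) Y (by linarith)
  have hfromt : ∀ S : ℝ, 0 ≤ S → (1 + Real.log Y) ^ A' ≤ S * lD ^ B' →
      ‖F.FS J (fun _ _ => 1) Y‖ ≤ Ct * S * F.qq ^ 1 * lD ^ B' * (Y * x ^ (J.card - 1)) := by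
    intro S hS h1
    refine htr.trans ?_
    calc Ct * F.qq * Y * (1 + Real.log Y) ^ A' ≤ Ct * F.qq * Y * (S * lD ^ B') :=
          mul_le_mul_of_nonneg_left h1 (by positivity)
      _ = (Ct * S * F.qq ^ 1 * lD ^ B') * Y := by ring
      _ ≤ (Ct * S * F.qq ^ 1 * lD ^ B') * (Y * x ^ (J.card - 1)) :=
          mul_le_mul_of_nonneg_left hYM (by positivity)
  rw [← hlD, ← hx]
  rcases le_or_gt Y₁ Y with hYY | hYY
  · rcases le_or_gt (Real.log F.D) (x ^ (ε / 2)) with hDY | hDY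
    · -- the main case
      obtain ⟨h1, h2, h3⟩ := hY₀ Y ((le_max_right _ _).trans (hY₁ ▸ hYY))
      rw [← hx] at h1 h2 h3
      have hxe : 0 ≤ x ^ ε := Real.rpow_nonneg hx0.le _
      have hlv : Real.log (lv (Real.exp (x ^ ε)) R m) = ((R ^ m : ℕ) : ℝ) * x ^ ε := by
        unfold lv
        rw [Real.log_pow, Real.log_exp]
      have hlve : lv (Real.exp (x ^ ε)) R m = Real.exp (((R ^ m : ℕ) : ℝ) * x ^ ε) := by
        unfold lv
        rw [← Real.exp_nat_mul]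
      have k1 := hu F hF J hJ hcl Y hY (Real.exp (x ^ ε)) (Real.one_le_exp hxe) ?_ ?_ ?_
      · rw [← hx, ← hlD] at k1
        exact k1.trans (hsplit Cu (by linarith) (by linarith) Bu Bu (by omega) (by omega))
      · rw [← hx]
        have e1 : 0 < F.D * (1 + x) := by positivity
        have e2 : (F.D * (1 + x)) ^ A = Real.exp (A * (Real.log F.D + Real.log (1 + x))) := by
          rw [← Real.log_mul (by linarith) (by linarith), Real.exp_nat_mul, Real.exp_log e1]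
        rw [e2, ← Real.exp_mul, ← Real.exp_add]
        rw [Real.exp_le_one_iff]
        have e3 : (A : ℝ) * (Real.log F.D + Real.log (1 + x)) ≤ A * (x ^ (ε / 2) + Real.log (1 + x)) :=
          mul_le_mul_of_nonneg_left (by linarith) (Nat.cast_nonneg _)
        linarith
      · rw [hlv, ← hx]
        exact h2
      · rw [hlve, ← Real.exp_nat_mul]
        calc Real.exp ((A : ℝ) * (((R ^ m : ℕ) : ℝ) * x ^ ε)) ≤ Real.exp x := by
              refine Real.exp_le_exp.2 (le_trans (le_of_eq (by ring)) h3)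
          _ = Y := by rw [hx, Real.exp_log hY0]
    · have hlDp : 0 < Real.log F.D := lt_of_le_of_lt (Real.rpow_nonneg hx0.le _) hDY
      refine (hfromt (2 ^ A') (by positivity) ?_).trans
        (hsplit (Ct * 2 ^ A') hc2 (by linarith) 1 B' (by omega) (by omega))
      rw [← hx]
      have h1 : x ^ A' ≤ lD ^ B' := by
        calc x ^ A' = x ^ (A' : ℝ) := (Real.rpow_natCast _ _).symm
          _ ≤ x ^ ((B' : ℝ) * (ε / 2)) := Real.rpow_le_rpow_of_exponent_le hx1 hB'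
          _ = (x ^ (ε / 2)) ^ B' := by
              rw [mul_comm, Real.rpow_mul hx0.le, Real.rpow_natCast]
          _ ≤ lD ^ B' := pow_le_pow_left₀ (Real.rpow_nonneg hx0.le _) (by linarith) _
      calc (1 + x) ^ A' ≤ (2 * x) ^ A' := pow_le_pow_left₀ (by linarith) (by linarith) _
        _ = 2 ^ A' * x ^ A' := mul_pow _ _ _
        _ ≤ 2 ^ A' * lD ^ B' := mul_le_mul_of_nonneg_left h1 (by positivity)
  · refine (hfromt ((1 + Real.log Y₁) ^ A') (by positivity) ?_).trans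
      (hsplit (Ct * (1 + Real.log Y₁) ^ A') hc3 (by linarith) 1 B' (by omega) (by omega))
    have h1 : (1 + Real.log Y) ^ A' ≤ (1 + Real.log Y₁) ^ A' := by
      refine pow_le_pow_left₀ (by linarith) ?_ _
      have := Real.log_le_log hY0 hYY.le
      linarith
    calc (1 + Real.log Y) ^ A' ≤ (1 + Real.log Y₁) ^ A' * 1 := by rw [mul_one]; exact h1
      _ ≤ (1 + Real.log Y₁) ^ A' * lD ^ B' :=
          mul_le_mul_of_nonneg_left (one_le_pow₀ hlD1) (by positivity)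

end H51.MM
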